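import Mathlib

section

/-!
# MP_20855c_co, large b: Kruskal-Katona in power form
-/

set_option autoImplicit false

namespace Pool.Agent.Lib.MP_20855c_co.LB

open Finset

section

variable {α : Type*} [DecidableEq α]

theorem sum_card_filter_mem (G : Finset (Finset α)) (U : Finset α) (r : ℕ)
    (hG : ∀ T ∈ G, #T = r) (hU : ∀ T ∈ G, T ⊆ U) :
    ∑ v ∈ U, #(G.filter fun T => v ∈ T) = r * #G := by
  have h1 : ∀ v ∈ U, #(G.filter fun T => v ∈ T) = ∑ T ∈ G, if v ∈ T then 1 else 0 := by
    intro v _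
    rw [card_filter]
  rw [sum_congr rfl h1, sum_comm]
  have h2 : ∀ T ∈ G, (∑ v ∈ U, if v ∈ T then 1 else 0) = r := by
    intro T hT
    rw [← card_filter, filter_mem_eq_inter, inter_eq_right.mpr (hU T hT), hG T hT]
  rw [sum_congr rfl h2, sum_const, smul_eq_mul, mul_comm]

theorem card_image_erase (G : Finset (Finset α)) (v : α) :
    #((G.filter fun T => v ∈ T).image fun T => T.erase v) = #(G.filter fun T => v ∈ T) := by
  apply card_image_of_injOn
  intro S hS T hT h
  have h1 := (mem_filter.mp (mem_coe.mp hS)).2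
  have h2 := (mem_filter.mp (mem_coe.mp hT)).2
  simp only at h
  rw [← insert_erase h1, ← insert_erase h2, h]

/-- Kruskal-Katona in power form: `K` consists of `r`-sets, `G` of `(r+1)`-sets, all `r`-subsets of
the members of `G` are in `K`, and `r! * |K| ≤ m^r`; then `(r + 1) * |G| ≤ m * |K|`. -/
theorem kk_succ : ∀ (r : ℕ), 1 ≤ r → ∀ (m : ℕ) (K G : Finset (Finset α)), (∀ S ∈ K, #S = r) →
    (∀ T ∈ G, #T = r + 1) → (∀ T ∈ G, ∀ x ∈ T, T.erase x ∈ K) → r.factorial * #K ≤ m ^ r →
    (r + 1) * #G ≤ m * #K := by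
  intro r hr
  induction r, hr using Nat.le_induction with
  | base =>
    intro m K G hK hG hf hm
    rw [Nat.factorial_one, one_mul, pow_one] at hm
    let U : Finset α := G.biUnion id ∪ K.biUnion id
    have hGU : ∀ T ∈ G, T ⊆ U := fun T hT =>
      (subset_biUnion_of_mem id hT).trans subset_union_left
    have hKU : ∀ S ∈ K, S ⊆ U := fun S hS =>
      (subset_biUnion_of_mem id hS).trans subset_union_right
    have hv : ∀ v ∈ U, #(G.filter fun T => v ∈ T) ≤ m * #(K.filter fun S => v ∈ S) := by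
      intro v _
      by_cases he : G.filter (fun T => v ∈ T) = ∅
      · rw [he, card_empty]
        exact Nat.zero_le _
      · obtain ⟨T, hT⟩ := nonempty_iff_ne_empty.mpr he
        obtain ⟨hT, hvT⟩ := mem_filter.mp hT
        have h1 : 1 ≤ #(K.filter fun S => v ∈ S) := by
          rw [Nat.one_le_iff_ne_zero, Ne, card_eq_zero, ← Ne, ← nonempty_iff_ne_empty]
          obtain ⟨x, hx, hxv⟩ := exists_mem_ne (s := T) (by rw [hG T hT]; norm_num) v
          exact ⟨T.erase x, mem_filter.mpr ⟨hf T hT x hx, mem_erase.mpr ⟨hxv.symm, hvT⟩⟩⟩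
        have h2 : #(G.filter fun T => v ∈ T) ≤ #K := by
          rw [← card_image_erase]
          apply card_le_card
          intro S hS
          obtain ⟨T, hT, rfl⟩ := mem_image.mp hS
          exact hf T (mem_filter.mp hT).1 v (mem_filter.mp hT).2
        calc #(G.filter fun T => v ∈ T) ≤ m := h2.trans hm
          _ = m * 1 := (mul_one m).symm
          _ ≤ _ := Nat.mul_le_mul_left m h1
    have h3 := sum_card_filter_mem G U 2 hG hGU
    have h4 := sum_card_filter_mem K U 1 hK hKU
    calc (1 + 1) * #G = ∑ v ∈ U, #(G.filter fun T => v ∈ T) := h3.symm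
      _ ≤ ∑ v ∈ U, m * #(K.filter fun S => v ∈ S) := sum_le_sum hv
      _ = m * (1 * #K) := by rw [← mul_sum, h4]
      _ = m * #K := by rw [one_mul]
  | succ r hr ih =>
    intro m K G hK hG hf hm
    let U : Finset α := G.biUnion id ∪ K.biUnion id
    have hGU : ∀ T ∈ G, T ⊆ U := fun T hT =>
      (subset_biUnion_of_mem id hT).trans subset_union_left
    have hKU : ∀ S ∈ K, S ⊆ U := fun S hS =>
      (subset_biUnion_of_mem id hS).trans subset_union_right
    have hv : ∀ v ∈ U, (r + 1) * #(G.filter fun T => v ∈ T) ≤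
        m * #(K.filter fun S => v ∈ S) := by
      intro v _
      by_cases hc : r.factorial * #(K.filter fun S => v ∈ S) ≤ m ^ r
      · have h1 := ih m ((K.filter fun S => v ∈ S).image fun S => S.erase v)
          ((G.filter fun T => v ∈ T).image fun T => T.erase v)
          (by
            intro S hS
            obtain ⟨S', hS', rfl⟩ := mem_image.mp hS
            rw [card_erase_of_mem (mem_filter.mp hS').2, hK S' (mem_filter.mp hS').1]
            exact Nat.add_sub_cancel _ _)
          (by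
            intro T hT
            obtain ⟨T', hT', rfl⟩ := mem_image.mp hT
            rw [card_erase_of_mem (mem_filter.mp hT').2, hG T' (mem_filter.mp hT').1]
            exact Nat.add_sub_cancel _ _)
          (by
            intro T hT x hx
            obtain ⟨T', hT', rfl⟩ := mem_image.mp hT
            obtain ⟨hT', hvT⟩ := mem_filter.mp hT'
            obtain ⟨hxv, hxT⟩ := mem_erase.mp hx
            rw [erase_right_comm]
            exact mem_image.mpr ⟨T'.erase x, mem_filter.mpr ⟨hf T' hT' x hxT,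
              mem_erase.mpr ⟨hxv.symm, hvT⟩⟩, rfl⟩)
          (by rw [card_image_erase]; exact hc)
        rw [card_image_erase, card_image_erase] at h1
        exact h1
      · push Not at hc
        have h2 : #(G.filter fun T => v ∈ T) ≤ #K := by
          rw [← card_image_erase]
          apply card_le_card
          intro S hS
          obtain ⟨T, hT, rfl⟩ := mem_image.mp hS
          exact hf T (mem_filter.mp hT).1 v (mem_filter.mp hT).2
        have h3 : r.factorial * ((r + 1) * #(G.filter fun T => v ∈ T)) ≤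
            r.factorial * (m * #(K.filter fun S => v ∈ S)) := by
          calc r.factorial * ((r + 1) * #(G.filter fun T => v ∈ T)) =
              (r + 1).factorial * #(G.filter fun T => v ∈ T) := by
                rw [Nat.factorial_succ]; ring
            _ ≤ (r + 1).factorial * #K := Nat.mul_le_mul_left _ h2
            _ ≤ m ^ (r + 1) := hm
            _ = m * m ^ r := by rw [pow_succ]; ring
            _ ≤ m * (r.factorial * #(K.filter fun S => v ∈ S)) := Nat.mul_le_mul_left _ hc.le
            _ = r.factorial * (m * #(K.filter fun S => v ∈ S)) := by ring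
        exact Nat.le_of_mul_le_mul_left h3 (Nat.factorial_pos r)
    have h3 := sum_card_filter_mem G U (r + 1 + 1) hG hGU
    have h4 := sum_card_filter_mem K U (r + 1) hK hKU
    have h5 : (r + 1) * ((r + 1 + 1) * #G) ≤ (r + 1) * (m * #K) := by
      calc (r + 1) * ((r + 1 + 1) * #G) = ∑ v ∈ U, (r + 1) * #(G.filter fun T => v ∈ T) := by
            rw [← mul_sum, h3]
        _ ≤ ∑ v ∈ U, m * #(K.filter fun S => v ∈ S) := sum_le_sum hv
        _ = m * ((r + 1) * #K) := by rw [← mul_sum, h4]
        _ = (r + 1) * (m * #K) := by ring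
    exact Nat.le_of_mul_le_mul_left h5 (Nat.succ_pos r)

/-- Kruskal-Katona in power form. -/
theorem kkp {α : Type} [DecidableEq α] (r m : ℕ) (K G : Finset (Finset α)) (hK : ∀ S ∈ K, #S = r + 1)
    (hG : ∀ T ∈ G, #T = r + 2) (hKG : ∀ T ∈ G, ∀ x ∈ T, T.erase x ∈ K)
    (hm : (r + 1).factorial * #K ≤ m ^ (r + 1)) : (r + 2) * #G ≤ m * #K :=
  kk_succ (r + 1) (by omega) m K G hK hG hKG hm

end

end Pool.Agent.Lib.MP_20855c_co.LB
end

section

/-!
# MP_20855c_co, large b: the polynomial lemma for a group of points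

`R = MvPolynomial (Fin (b + 1)) ℚ`. Choose pairwise different rational numbers `t x` for the (finitely many) points `x`. Linear form
`ell x = ∑ s, C (t x ^ s) * X s`. For `j` let `g j : Fin (b + 1) → ℚ` be the coefficients of `∏ y ∈ B j, (X - C (t y))` (monic of degree `b`);
then `eval (g j) (ell x) = ∏ y ∈ B j, (t x - t y)`, which is `0` iff `x ∈ B j`. So for `p i = ∏ x ∈ P i, ell x` (`i ∈ Dl`) and `q i = ∏ x ∈ D i, ell x` (`i ∈ O`)
`eval (g j) (p i) = 0` iff `P i` and `B j` meet, etc.

`W` = span of the `p i`, `i ∈ Dl`: dimension `#Dl` (evaluate at `g j`, `j ∈ Dl`), homogeneous of degree `r`. Leading monomials (`MonomialOrder.lex` or any other one):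
`F0` = the set of the leading monomials of the nonzero elements of `W` has at least `#Dl` elements (the map to the coefficients at `F0` is injective on `W`);
take a subset `F` with `#Dl` elements. Multiplication by `X s`: every `m ∈ up F` is the leading monomial of some `w * X s ∈ W * R_1`. Together with the `q i`, `i ∈ O`, these polynomials are
linearly independent (all of `W * R_1` is killed by `eval (g j)`, `j ∈ O`; `eval (g j) (q i) = 0` iff `i ≠ j`), and they are homogeneous of degree `r + 1` in `b + 1` variables; there are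
`(r + 1 + b).choose (r + 1)` monomials.
-/

set_option autoImplicit false

namespace Pool.Agent.Lib.MP_20855c_co.LB

open Finset

/-- The upper shadow of a set of monomials. -/
noncomputable def up {n : ℕ} (F : Finset (Fin n →₀ ℕ)) : Finset (Fin n →₀ ℕ) :=
  (F ×ˢ univ).image fun p => p.1 + Finsupp.single p.2 1

theorem mem_up {n : ℕ} {F : Finset (Fin n →₀ ℕ)} {m : Fin n →₀ ℕ} :
    m ∈ up F ↔ ∃ f ∈ F, ∃ s, m = f + Finsupp.single s 1 := by
  simp only [up, mem_image, mem_product, mem_univ, and_true, Prod.exists]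
  constructor
  · rintro ⟨f, s, h, rfl⟩
    exact ⟨f, h, s, rfl⟩
  · rintro ⟨f, h, s, rfl⟩
    exact ⟨f, s, h, rfl⟩

theorem exists_injOn' {α : Type} [DecidableEq α] (G : Finset α) :
    ∃ c : α → ℚ, Set.InjOn c G := by
  classical
  refine ⟨fun p => if h : p ∈ G then ((G.equivFin ⟨p, h⟩ : ℕ) : ℚ) else 0, ?_⟩
  intro p hp q hq h
  rw [Finset.mem_coe] at hp hq
  simp only [dif_pos hp, dif_pos hq] at h
  have h1 : (G.equivFin ⟨p, hp⟩ : ℕ) = (G.equivFin ⟨q, hq⟩ : ℕ) := by exact_mod_cast h
  have h2 := G.equivFin.injective (Fin.val_injective h1)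
  exact congrArg Subtype.val h2

/-- The linear form of a point. -/
noncomputable def ell {α : Type} (b : ℕ) (t : α → ℚ) (p : α) : MvPolynomial (Fin (b + 1)) ℚ :=
  ∑ s : Fin (b + 1), MvPolynomial.C (t p ^ (s : ℕ)) * MvPolynomial.X s

theorem ell_hom {α : Type} (b : ℕ) (t : α → ℚ) (p : α) : (ell b t p).IsHomogeneous 1 := by
  unfold ell
  apply MvPolynomial.IsHomogeneous.sum
  intro s _
  have h := (MvPolynomial.isHomogeneous_C (Fin (b + 1)) (t p ^ (s : ℕ))).mul
    (MvPolynomial.isHomogeneous_X ℚ s)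
  rw [zero_add] at h
  exact h

theorem prod_hom {α : Type} (b : ℕ) (t : α → ℚ) (S : Finset α) :
    (∏ p ∈ S, ell b t p).IsHomogeneous #S := by
  have h := MvPolynomial.IsHomogeneous.prod S (fun p => ell b t p) (fun _ => 1)
    (fun p _ => ell_hom b t p)
  rw [Finset.sum_const, smul_eq_mul, mul_one] at h
  exact h

/-- The coefficients of a product of linear polynomials. -/
noncomputable def gv {α : Type} (b : ℕ) (t : α → ℚ) (B : Finset α) : Fin (b + 1) → ℚ :=
  fun s => (∏ y ∈ B, (Polynomial.X - Polynomial.C (t y))).coeff s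

theorem eval_ell {α : Type} {b : ℕ} (t : α → ℚ) {B : Finset α} (hB : #B = b) (p : α) :
    MvPolynomial.eval (gv b t B) (ell b t p) = ∏ y ∈ B, (t p - t y) := by
  unfold ell
  rw [map_sum]
  have h1 : ∀ s : Fin (b + 1), MvPolynomial.eval (gv b t B)
      (MvPolynomial.C (t p ^ (s : ℕ)) * MvPolynomial.X s) =
      (fun i : ℕ => (∏ y ∈ B, (Polynomial.X - Polynomial.C (t y))).coeff i * t p ^ i) s := by
    intro s
    rw [map_mul, MvPolynomial.eval_C, MvPolynomial.eval_X, mul_comm]
    rfl
  have hn : (∏ y ∈ B, (Polynomial.X - Polynomial.C (t y))).natDegree < b + 1 := by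
    rw [Polynomial.natDegree_finsetProd_X_sub_C_eq_card, hB]
    exact Nat.lt_succ_self b
  have h2 := Polynomial.eval_eq_sum_range' hn (t p)
  refine (Finset.sum_congr rfl fun s _ => h1 s).trans ?_
  refine (Fin.sum_univ_eq_sum_range
    (fun i : ℕ => (∏ y ∈ B, (Polynomial.X - Polynomial.C (t y))).coeff i * t p ^ i)
    (b + 1)).trans ?_
  refine h2.symm.trans ?_
  rw [Polynomial.eval_prod]
  exact Finset.prod_congr rfl fun y _ => by
    rw [Polynomial.eval_sub, Polynomial.eval_X, Polynomial.eval_C]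

theorem eval_prod_eq_zero {α : Type} {b : ℕ} (t : α → ℚ) {B S : Finset α} (hB : #B = b)
    (h : ¬ Disjoint S B) : MvPolynomial.eval (gv b t B) (∏ p ∈ S, ell b t p) = 0 := by
  obtain ⟨y, hy, hyB⟩ := Finset.not_disjoint_iff.mp h
  rw [map_prod]
  apply Finset.prod_eq_zero hy
  rw [eval_ell t hB]
  exact Finset.prod_eq_zero hyB (sub_self _)

theorem eval_prod_ne_zero {α : Type} [DecidableEq α] {b : ℕ} (t : α → ℚ) {B S : Finset α}
    (hB : #B = b) (h : Disjoint S B) {G : Finset α} (ht : Set.InjOn t G) (hS : S ⊆ G)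
    (hBG : B ⊆ G) : MvPolynomial.eval (gv b t B) (∏ p ∈ S, ell b t p) ≠ 0 := by
  rw [map_prod]
  rw [Finset.prod_ne_zero_iff]
  intro p hp
  rw [eval_ell t hB, Finset.prod_ne_zero_iff]
  intro y hy h0
  have h1 := ht (hS hp) (hBG hy) (sub_eq_zero.mp h0)
  subst h1
  exact Finset.disjoint_left.mp h hp hy

theorem poly {ι α : Type} [DecidableEq α] (r b : ℕ) (O Dl : Finset ι) (D P B : ι → Finset α)
    (hD : ∀ i ∈ O, #(D i) = r + 1) (hP : ∀ i ∈ Dl, #(P i) = r) (hB : ∀ i, i ∈ O ∨ i ∈ Dl → #(B i) = b)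
    (h1 : ∀ i ∈ O, Disjoint (D i) (B i)) (h2 : ∀ i ∈ Dl, Disjoint (P i) (B i))
    (h3 : ∀ i ∈ O, ∀ j ∈ O, i ≠ j → ¬ Disjoint (D i) (B j))
    (h4 : ∀ i ∈ Dl, ∀ j ∈ Dl, i ≠ j → ¬ Disjoint (P i) (B j))
    (h5 : ∀ i ∈ Dl, ∀ j ∈ O, ¬ Disjoint (P i) (B j)) :
    ∃ F : Finset (Fin (b + 1) →₀ ℕ), #F = #Dl ∧ (∀ f ∈ F, ∑ s, f s = r) ∧
      #O + #(up F) ≤ (r + 1 + b).choose (r + 1) := by
  classical
  let G : Finset α := (O.biUnion D ∪ O.biUnion B) ∪ (Dl.biUnion P ∪ Dl.biUnion B)
  obtain ⟨t, ht⟩ := exists_injOn' G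
  have hDG : ∀ i ∈ O, D i ⊆ G := fun i hi =>
    (subset_biUnion_of_mem D hi).trans (subset_union_left.trans subset_union_left)
  have hBG : ∀ i ∈ O, B i ⊆ G := fun i hi =>
    (subset_biUnion_of_mem B hi).trans (subset_union_right.trans subset_union_left)
  have hPG : ∀ i ∈ Dl, P i ⊆ G := fun i hi =>
    (subset_biUnion_of_mem P hi).trans (subset_union_left.trans subset_union_right)
  have hBG' : ∀ i ∈ Dl, B i ⊆ G := fun i hi =>
    (subset_biUnion_of_mem B hi).trans (subset_union_right.trans subset_union_right)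
  let q : Finset α → MvPolynomial (Fin (b + 1)) ℚ := fun S => ∏ p ∈ S, ell b t p
  let ev : ι → MvPolynomial (Fin (b + 1)) ℚ →+* ℚ := fun j => MvPolynomial.eval (gv b t (B j))
  have hq : ∀ S, (q S).IsHomogeneous #S := prod_hom b t
  -- combinations
  let Φ : (Dl → ℚ) →ₗ[ℚ] MvPolynomial (Fin (b + 1)) ℚ :=
    Fintype.linearCombination ℚ (fun i => q (P i))
  have hΦ : ∀ d, Φ d = ∑ i, d i • q (P i.1) := fun d => Fintype.linearCombination_apply _ _ _
  have hΦh : ∀ d, (Φ d).IsHomogeneous r := by
    intro d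
    rw [hΦ]
    apply MvPolynomial.IsHomogeneous.sum
    intro i _
    rw [MvPolynomial.smul_eq_C_mul]
    have h6 := (MvPolynomial.isHomogeneous_C (Fin (b + 1)) (d i)).mul (hq (P i.1))
    rw [zero_add, hP i.1 i.2] at h6
    exact h6
  have hevO : ∀ d, ∀ j ∈ O, ev j (Φ d) = 0 := by
    intro d j hj
    rw [hΦ, map_sum]
    refine Finset.sum_eq_zero fun i _ => ?_
    rw [MvPolynomial.smul_eq_C_mul, map_mul]
    rw [show ev j (q (P i.1)) = 0 from
      eval_prod_eq_zero t (hB j (Or.inl hj)) (h5 i.1 i.2 j hj), mul_zero]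
  have hevL : ∀ d (j : Dl), ev j.1 (Φ d) = d j * ev j.1 (q (P j.1)) := by
    intro d j
    rw [hΦ, map_sum, Finset.sum_eq_single j]
    · rw [MvPolynomial.smul_eq_C_mul, map_mul]
      congr 1
      exact MvPolynomial.eval_C _
    · intro i _ hij
      rw [MvPolynomial.smul_eq_C_mul, map_mul]
      rw [show ev j.1 (q (P i.1)) = 0 from eval_prod_eq_zero t (hB j.1 (Or.inr j.2))
        (h4 i.1 i.2 j.1 j.2 (fun h => hij (Subtype.ext h))), mul_zero]
    · intro h
      exact absurd (mem_univ j) h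
  have hΦ0 : ∀ d, Φ d = 0 → d = 0 := by
    intro d hd
    funext j
    have h6 := hevL d j
    rw [hd, map_zero] at h6
    exact (mul_eq_zero.mp h6.symm).resolve_right
      (eval_prod_ne_zero t (hB j.1 (Or.inr j.2)) (h2 j.1 j.2) ht (hPG j.1 j.2) (hBG' j.1 j.2))
  -- leading monomials
  let mo : MonomialOrder (Fin (b + 1)) := MonomialOrder.lex
  let A0 : Finset (Fin (b + 1) →₀ ℕ) := (univ : Finset (Fin (b + 1))).finsuppAntidiag r
  have hA0 : ∀ d m, MvPolynomial.coeff m (Φ d) ≠ 0 → m ∈ A0 := by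
    intro d m hm
    rw [mem_finsuppAntidiag]
    refine ⟨?_, subset_univ _⟩
    by_contra hne
    apply hm
    apply (hΦh d).coeff_eq_zero
    rw [Finsupp.degree_eq_sum]
    exact hne
  let Ld : (Dl → ℚ) → (Fin (b + 1) →₀ ℕ) → Prop := fun d m => MvPolynomial.coeff m (Φ d) ≠ 0 ∧
    ∀ m', MvPolynomial.coeff m' (Φ d) ≠ 0 → mo.toSyn m' ≤ mo.toSyn m
  have hlead : ∀ d : Dl → ℚ, d ≠ 0 → ∃ m, Ld d m := by
    intro d hd
    have hne : Φ d ≠ 0 := fun h => hd (hΦ0 d h)
    obtain ⟨m0, hm0⟩ := MvPolynomial.ne_zero_iff.mp hne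
    obtain ⟨m, hm, hmax⟩ := Finset.exists_max_image
      (A0.filter fun m => MvPolynomial.coeff m (Φ d) ≠ 0) (fun m => mo.toSyn m)
      ⟨m0, mem_filter.mpr ⟨hA0 d m0 hm0, hm0⟩⟩
    exact ⟨m, (mem_filter.mp hm).2, fun m' hm' => hmax m' (mem_filter.mpr ⟨hA0 d m' hm', hm'⟩)⟩
  let F0 : Finset (Fin (b + 1) →₀ ℕ) := A0.filter fun m => ∃ d, Ld d m
  have hF0 : #Dl ≤ #F0 := by
    let Ψ : (Dl → ℚ) →ₗ[ℚ] (F0 → ℚ) :=
      LinearMap.pi fun m => (MvPolynomial.lcoeff ℚ m.1).comp Φ
    have hΨ : Function.Injective Ψ := by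
      rw [← LinearMap.ker_eq_bot, LinearMap.ker_eq_bot']
      intro d hd
      by_contra hne
      obtain ⟨m, hm, hmax⟩ := hlead d hne
      have hmF : m ∈ F0 := mem_filter.mpr ⟨hA0 d m hm, d, hm, hmax⟩
      exact hm (congrFun hd ⟨m, hmF⟩)
    have h6 := LinearMap.finrank_le_finrank_of_injective hΨ
    rw [Module.finrank_fintype_fun_eq_card, Module.finrank_fintype_fun_eq_card,
      Fintype.card_coe, Fintype.card_coe] at h6
    exact h6
  obtain ⟨F, hFF, hFc⟩ := Finset.exists_subset_card_eq hF0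
  refine ⟨F, hFc, ?_, ?_⟩
  · intro f hf
    exact (mem_finsuppAntidiag.mp (mem_filter.mp (hFF hf)).1).1
  -- the big family
  have hsh : ∀ m : {m // m ∈ up F}, ∃ (s : Fin (b + 1)) (d : Dl → ℚ),
      MvPolynomial.coeff m.1 (Φ d * MvPolynomial.X s) ≠ 0 ∧
      ∀ m', MvPolynomial.coeff m' (Φ d * MvPolynomial.X s) ≠ 0 → mo.toSyn m' ≤ mo.toSyn m.1 := by
    rintro ⟨m, hm⟩
    obtain ⟨f, hf, s, rfl⟩ := mem_up.mp hm
    obtain ⟨-, d, hd, hmax⟩ := mem_filter.mp (hFF hf)
    refine ⟨s, d, ?_, ?_⟩
    · rw [MvPolynomial.coeff_mul_X]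
      exact hd
    · intro m' hm'
      rw [MvPolynomial.coeff_mul_X'] at hm'
      split_ifs at hm' with hs
      · have h6 := hmax _ hm'
        have h7 : m' = (m' - Finsupp.single s 1) + Finsupp.single s 1 := by
          rw [Finsupp.mem_support_iff] at hs
          ext i
          rw [Finsupp.add_apply, Finsupp.tsub_apply, Finsupp.single_apply]
          split_ifs with h8
          · subst h8
            omega
          · omega
        change mo.toSyn m' ≤ mo.toSyn (f + Finsupp.single s 1)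
        rw [h7, map_add, map_add]
        exact add_le_add_left h6 _
      · exact absurd rfl hm'
  choose ss dd hsd1 hsd2 using hsh
  let g : O ⊕ {m // m ∈ up F} → MvPolynomial (Fin (b + 1)) ℚ :=
    Sum.elim (fun i => q (D i.1)) (fun m => Φ (dd m) * MvPolynomial.X (ss m))
  have hg : ∀ i, (g i).IsHomogeneous (r + 1) := by
    rintro (i | m)
    · have h6 := hq (D i.1)
      rw [hD i.1 i.2] at h6
      exact h6
    · exact (hΦh (dd m)).mul (MvPolynomial.isHomogeneous_X ℚ (ss m))
  let A1 : Finset (Fin (b + 1) →₀ ℕ) := (univ : Finset (Fin (b + 1))).finsuppAntidiag (r + 1)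
  let res : MvPolynomial (Fin (b + 1)) ℚ →ₗ[ℚ] (A1 → ℚ) :=
    LinearMap.pi fun m => MvPolynomial.lcoeff ℚ m.1
  have hli : LinearIndependent ℚ (fun i => res (g i)) := by
    rw [Fintype.linearIndependent_iff]
    intro e he
    have he1 : ∑ i, e i • g i = 0 := by
      have h6 : res (∑ i, e i • g i) = 0 := by
        rw [map_sum, ← he]
        exact Finset.sum_congr rfl fun i _ => map_smul _ _ _
      have h7 : (∑ i, e i • g i).IsHomogeneous (r + 1) := by
        apply MvPolynomial.IsHomogeneous.sum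
        intro i _
        rw [MvPolynomial.smul_eq_C_mul]
        have h8 := (MvPolynomial.isHomogeneous_C (Fin (b + 1)) (e i)).mul (hg i)
        rw [zero_add] at h8
        exact h8
      ext m
      rw [MvPolynomial.coeff_zero]
      by_cases hm : m ∈ A1
      · exact congrFun h6 ⟨m, hm⟩
      · apply h7.coeff_eq_zero
        rw [Finsupp.degree_eq_sum]
        intro h8
        exact hm (mem_finsuppAntidiag.mpr ⟨h8, subset_univ _⟩)
    rw [Fintype.sum_sum_type] at he1
    simp only [g, Sum.elim_inl, Sum.elim_inr] at he1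
    have hs1 : ∀ j : O, e (Sum.inl j) = 0 := by
      intro j
      have h6 := congrArg (ev j.1) he1
      rw [map_zero, map_add, map_sum, map_sum, Finset.sum_eq_single j, Finset.sum_eq_zero,
        add_zero, MvPolynomial.smul_eq_C_mul, map_mul] at h6
      · have h7 : ev j.1 (MvPolynomial.C (e (Sum.inl j))) = e (Sum.inl j) :=
          MvPolynomial.eval_C _
        rw [h7] at h6
        exact (mul_eq_zero.mp h6).resolve_right
          (eval_prod_ne_zero t (hB j.1 (Or.inl j.2)) (h1 j.1 j.2) ht (hDG j.1 j.2) (hBG j.1 j.2))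
      · intro m _
        rw [MvPolynomial.smul_eq_C_mul, map_mul, map_mul, hevO _ j.1 j.2, zero_mul, mul_zero]
      · intro i _ hij
        rw [MvPolynomial.smul_eq_C_mul, map_mul]
        rw [show ev j.1 (q (D i.1)) = 0 from eval_prod_eq_zero t (hB j.1 (Or.inl j.2))
          (h3 i.1 i.2 j.1 j.2 (fun h => hij (Subtype.ext h))), mul_zero]
      · intro h
        exact absurd (mem_univ j) h
    have he2 : ∑ m, e (Sum.inr m) • (Φ (dd m) * MvPolynomial.X (ss m)) = 0 := by
      rw [← he1]
      have h6 : ∑ i, e (Sum.inl i) • q (D i.1) = 0 :=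
        Finset.sum_eq_zero fun i _ => by rw [hs1, zero_smul]
      rw [h6, zero_add]
    have hs2 : ∀ m, e (Sum.inr m) = 0 := by
      by_contra hne
      push Not at hne
      obtain ⟨m0, hm0⟩ := hne
      obtain ⟨m, hm, hmax⟩ := Finset.exists_max_image
        (univ.filter fun m : {m // m ∈ up F} => e (Sum.inr m) ≠ 0)
        (fun m => mo.toSyn m.1) ⟨m0, by simpa using hm0⟩
      have h6 := congrArg (MvPolynomial.coeff m.1) he2
      rw [MvPolynomial.coeff_sum, MvPolynomial.coeff_zero, Finset.sum_eq_single m] at h6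
      · rw [MvPolynomial.coeff_smul, smul_eq_mul] at h6
        rcases mul_eq_zero.mp h6 with h7 | h7
        · exact (mem_filter.mp hm).2 h7
        · exact hsd1 m h7
      · intro m' _ hm'
        rw [MvPolynomial.coeff_smul, smul_eq_mul]
        by_cases h7 : e (Sum.inr m') = 0
        · rw [h7, zero_mul]
        · by_cases h8 : MvPolynomial.coeff m.1 (Φ (dd m') * MvPolynomial.X (ss m')) = 0
          · rw [h8, mul_zero]
          · exfalso
            have h9 := hsd2 m' m.1 h8
            have h10 := hmax m' (by simpa using h7)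
            exact hm' (Subtype.ext (mo.toSyn.injective (le_antisymm h10 h9)))
      · intro h
        exact absurd (mem_univ m) h
    rintro (i | m)
    · exact hs1 i
    · exact hs2 m
  have h6 := hli.fintype_card_le_finrank
  rw [Fintype.card_sum, Fintype.card_coe, Fintype.card_coe, Module.finrank_fintype_fun_eq_card,
    Fintype.card_coe] at h6
  have h7 : #A1 = (r + 1 + b).choose (r + 1) := by
    rw [Finset.card_finsuppAntidiag_nat_eq_choose, card_univ, Fintype.card_fin]
    congr 1
    omega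
  rw [← h7]
  exact h6

end Pool.Agent.Lib.MP_20855c_co.LB
end

section

/-!
# MP_20855c_co, large b: upper shadows of sets of monomials

Squarefree monomials of degree `d` correspond to `d`-subsets of `Fin (b + 1)` (`supp`); for them use `kkp`.
-/

set_option autoImplicit false

namespace Pool.Agent.Lib.MP_20855c_co.LB

open Finset

/-- The number of monomials of degree `d` in `b + 1` variables. -/
theorem mon_all (b d : ℕ) :
    #((univ : Finset (Fin (b + 1))).finsuppAntidiag d) = (d + b).choose d := by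
  rw [Finset.card_finsuppAntidiag_nat_eq_choose, card_univ, Fintype.card_fin]
  congr 1
  omega

theorem mem_all {b d : ℕ} {f : Fin (b + 1) →₀ ℕ} :
    f ∈ (univ : Finset (Fin (b + 1))).finsuppAntidiag d ↔ ∑ s, f s = d := by
  rw [mem_finsuppAntidiag]
  exact ⟨fun h => h.1, fun h => ⟨h, subset_univ _⟩⟩

/-- The number of monomials of degree `d` in `b + 1` variables. -/
theorem mon_card {b d : ℕ} (F : Finset (Fin (b + 1) →₀ ℕ)) (hF : ∀ f ∈ F, ∑ s, f s = d) :
    #F ≤ (d + b).choose d := by
  rw [← mon_all b d]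
  exact card_le_card fun f hf => mem_all.mpr (hF f hf)

section

variable {n : ℕ}

theorem sub_add_single {g : Fin n →₀ ℕ} {s : Fin n} (hs : g s ≠ 0) :
    g - Finsupp.single s 1 + Finsupp.single s 1 = g := by
  ext i
  rw [Finsupp.add_apply, Finsupp.tsub_apply, Finsupp.single_apply]
  split_ifs with h
  · subst h
    omega
  · omega

theorem sum_sub_single {g : Fin n →₀ ℕ} {s : Fin n} (hs : g s ≠ 0) {d : ℕ}
    (hg : ∑ i, g i = d + 1) : ∑ i, (g - Finsupp.single s 1 : Fin n →₀ ℕ) i = d := by
  have h1 : ∑ i, g i = ∑ i, (g - Finsupp.single s 1 : Fin n →₀ ℕ) i +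
      ∑ i, (Finsupp.single s 1 : Fin n →₀ ℕ) i := by
    rw [← sum_add_distrib]
    apply sum_congr rfl
    intro i _
    rw [← Finsupp.add_apply, sub_add_single hs]
  have h2 : ∑ i, (Finsupp.single s 1 : Fin n →₀ ℕ) i = 1 := by
    simp only [Finsupp.single_apply]
    rw [sum_ite_eq univ s]
    simp
  omega

theorem card_supp_le (g : Fin n →₀ ℕ) : #g.support ≤ ∑ i, g i := by
  calc #g.support = ∑ i ∈ g.support, 1 := by rw [sum_const, smul_eq_mul, mul_one]
    _ ≤ ∑ i ∈ g.support, g i := sum_le_sum fun i hi =>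
        Nat.one_le_iff_ne_zero.mpr (Finsupp.mem_support_iff.mp hi)
    _ ≤ ∑ i, g i := sum_le_sum_of_subset (subset_univ _)

theorem sum_eq_supp (g : Fin n →₀ ℕ) : ∑ i, g i = ∑ i ∈ g.support, g i := by
  symm
  apply sum_subset (subset_univ _)
  intro i _ hi
  exact Finsupp.notMem_support_iff.mp hi

theorem sqf_card {g : Fin n →₀ ℕ} (h : ∀ i, g i ≤ 1) : #g.support = ∑ i, g i := by
  rw [sum_eq_supp]
  have h1 : ∀ i ∈ g.support, g i = 1 := fun i hi =>
    le_antisymm (h i) (Nat.one_le_iff_ne_zero.mpr (Finsupp.mem_support_iff.mp hi))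
  rw [sum_congr rfl h1, sum_const, smul_eq_mul, mul_one]

theorem sqf_of_card {g : Fin n →₀ ℕ} (h : ∑ i, g i ≤ #g.support) : ∀ i, g i ≤ 1 := by
  intro i
  by_contra hlt
  push Not at hlt
  have hi : i ∈ g.support := Finsupp.mem_support_iff.mpr (by omega)
  have h1 : ∑ i ∈ g.support, 1 < ∑ i ∈ g.support, g i :=
    sum_lt_sum (fun j hj => Nat.one_le_iff_ne_zero.mpr (Finsupp.mem_support_iff.mp hj))
      ⟨i, hi, hlt⟩
  rw [sum_const, smul_eq_mul, mul_one, ← sum_eq_supp] at h1
  omega

theorem sqf_ext {g h : Fin n →₀ ℕ} (hg : ∀ i, g i ≤ 1) (hh : ∀ i, h i ≤ 1)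
    (he : g.support = h.support) : g = h := by
  ext i
  by_cases hi : i ∈ g.support
  · have h1 := Finsupp.mem_support_iff.mp hi
    have h2 := Finsupp.mem_support_iff.mp (he ▸ hi)
    have h3 := hg i
    have h4 := hh i
    omega
  · have h1 := Finsupp.notMem_support_iff.mp hi
    have h2 := Finsupp.notMem_support_iff.mp (he ▸ hi)
    omega

/-- The power form of Kruskal-Katona for squarefree monomials. -/
theorem kk_mon (r m : ℕ) (K G : Finset (Fin n →₀ ℕ)) (hK : ∀ f ∈ K, ∑ s, f s = r + 1)
    (hG : ∀ g ∈ G, ∑ s, g s = r + 2) (hGs : ∀ g ∈ G, ∀ s, g s ≤ 1)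
    (hKG : ∀ g ∈ G, ∀ s, g s ≠ 0 → g - Finsupp.single s 1 ∈ K)
    (hm : (r + 1).factorial * #K ≤ m ^ (r + 1)) : (r + 2) * #G ≤ m * #K := by
  classical
  let K' : Finset (Finset (Fin n)) := (K.filter fun f => ∀ s, f s ≤ 1).image Finsupp.support
  let G' : Finset (Finset (Fin n)) := G.image Finsupp.support
  have hK'c : #K' ≤ #K := card_image_le.trans (card_le_card (filter_subset _ _))
  have hG'c : #G' = #G := by
    apply card_image_of_injOn
    intro g hg h hh he
    exact sqf_ext (hGs g hg) (hGs h hh) he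
  have h1 : (r + 2) * #G' ≤ m * #K' := by
    apply kkp r m K' G'
    · intro S hS
      obtain ⟨f, hf, rfl⟩ := mem_image.mp hS
      obtain ⟨hf1, hf2⟩ := mem_filter.mp hf
      rw [sqf_card hf2, hK f hf1]
    · intro S hS
      obtain ⟨g, hg, rfl⟩ := mem_image.mp hS
      rw [sqf_card (hGs g hg), hG g hg]
    · intro S hS x hx
      obtain ⟨g, hg, rfl⟩ := mem_image.mp hS
      have hx' := Finsupp.mem_support_iff.mp hx
      refine mem_image.mpr ⟨g - Finsupp.single x 1, mem_filter.mpr ⟨hKG g hg x hx', ?_⟩, ?_⟩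
      · intro s
        rw [Finsupp.tsub_apply]
        have := hGs g hg s
        omega
      · ext s
        rw [Finsupp.mem_support_iff, Finsupp.tsub_apply, Finsupp.single_apply, mem_erase,
          Finsupp.mem_support_iff]
        have := hGs g hg s
        by_cases h : x = s
        · subst h
          simp
          omega
        · have h' : s ≠ x := fun h2 => h h2.symm
          simp [h, h']
    · exact (Nat.mul_le_mul_left _ hK'c).trans hm
  rw [hG'c] at h1
  exact h1.trans (Nat.mul_le_mul_left _ hK'c)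

end

theorem monB (r b m : ℕ) (F : Finset (Fin (b + 1) →₀ ℕ)) (hF : ∀ f ∈ F, ∑ s, f s = r + 1)
    (hm : (r + 1).factorial * #F ≤ m ^ (r + 1)) :
    (r + 2) * (b + 1) * #F ≤ (r + 2) * (r + 1) * #(up F) + m * #F := by
  classical
  let G2 : Finset (Fin (b + 1) →₀ ℕ) := (up F).filter fun g =>
    (∀ s, g s ≤ 1) ∧ ∀ s, g s ≠ 0 → g - Finsupp.single s 1 ∈ F
  have hup : ∀ g ∈ up F, ∑ s, g s = r + 2 := by
    intro g hg
    obtain ⟨f, hf, s, rfl⟩ := mem_up.mp hg
    have h1 : ∑ i, (f + Finsupp.single s 1 : Fin (b + 1) →₀ ℕ) i =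
        ∑ i, f i + ∑ i, (Finsupp.single s 1 : Fin (b + 1) →₀ ℕ) i := by
      rw [← sum_add_distrib]
      exact sum_congr rfl fun i _ => Finsupp.add_apply _ _ _
    have h2 : ∑ i, (Finsupp.single s 1 : Fin (b + 1) →₀ ℕ) i = 1 := by
      simp only [Finsupp.single_apply]
      rw [sum_ite_eq univ s]
      simp
    rw [h1, h2, hF f hf]
  have hG2 : (r + 2) * #G2 ≤ m * #F := by
    apply kk_mon r m F G2 hF
    · exact fun g hg => hup g (mem_filter.mp hg).1
    · exact fun g hg => (mem_filter.mp hg).2.1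
    · exact fun g hg => (mem_filter.mp hg).2.2
    · exact hm
  have hcount : #(F ×ˢ (univ : Finset (Fin (b + 1)))) = ∑ g ∈ up F,
      #((F ×ˢ (univ : Finset (Fin (b + 1)))).filter fun p => p.1 + Finsupp.single p.2 1 = g) :=
    card_eq_sum_card_image
      (fun p : (Fin (b + 1) →₀ ℕ) × Fin (b + 1) => p.1 + Finsupp.single p.2 1)
      (F ×ˢ (univ : Finset (Fin (b + 1))))
  have hfib : ∀ g ∈ up F,
      #((F ×ˢ (univ : Finset (Fin (b + 1)))).filter fun p => p.1 + Finsupp.single p.2 1 = g) ≤
      (r + 1) + if g ∈ G2 then 1 else 0 := by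
    intro g hg
    set Q := (F ×ˢ (univ : Finset (Fin (b + 1)))).filter fun p => p.1 + Finsupp.single p.2 1 = g
      with hQ
    have hQinj : #(Q.image Prod.snd) = #Q := by
      apply card_image_of_injOn
      intro p hp q hq hpq
      have h1 := (mem_filter.mp (mem_coe.mp hp)).2
      have h2 := (mem_filter.mp (mem_coe.mp hq)).2
      have h3 : p.1 + Finsupp.single p.2 1 = q.1 + Finsupp.single p.2 1 := by
        rw [h1, ← h2, hpq]
      exact Prod.ext (add_right_cancel h3) hpq
    have hQsub : Q.image Prod.snd ⊆ g.support := by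
      intro s hs
      obtain ⟨p, hp, rfl⟩ := mem_image.mp hs
      have h1 := (mem_filter.mp hp).2
      rw [Finsupp.mem_support_iff, ← h1, Finsupp.add_apply, Finsupp.single_eq_same]
      omega
    have h1 : #g.support ≤ r + 2 := (card_supp_le g).trans (hup g hg).le
    have h2 : #Q ≤ #g.support := hQinj ▸ card_le_card hQsub
    by_cases hr : #Q ≤ r + 1
    · exact hr.trans (Nat.le_add_right _ _)
    · have h3 : #Q = r + 2 := by omega
      have h4 : Q.image Prod.snd = g.support := eq_of_subset_of_card_le hQsub (by rw [hQinj]; omega)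
      rw [if_pos]
      · omega
      · refine mem_filter.mpr ⟨hg, sqf_of_card (by rw [hup g hg]; omega), ?_⟩
        intro s hs
        have h5 : s ∈ Q.image Prod.snd := by
          rw [h4]
          exact Finsupp.mem_support_iff.mpr hs
        obtain ⟨p, hp, rfl⟩ := mem_image.mp h5
        obtain ⟨h6, h7⟩ := mem_filter.mp hp
        rw [← h7, add_tsub_cancel_right]
        exact (mem_product.mp h6).1
  have hle : #F * (b + 1) ≤ (r + 1) * #(up F) + #G2 := by
    have h1 : #(F ×ˢ (univ : Finset (Fin (b + 1)))) = #F * (b + 1) := by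
      rw [card_product, card_univ, Fintype.card_fin]
    rw [← h1, hcount]
    refine (sum_le_sum hfib).trans ?_
    rw [sum_add_distrib, sum_const, smul_eq_mul, mul_comm (#(up F)) (r + 1), ← card_filter]
    apply Nat.add_le_add_left
    apply card_le_card
    intro g hg
    exact (mem_filter.mp hg).2
  calc (r + 2) * (b + 1) * #F = (r + 2) * (#F * (b + 1)) := by ring
    _ ≤ (r + 2) * ((r + 1) * #(up F) + #G2) := Nat.mul_le_mul_left _ hle
    _ = (r + 2) * (r + 1) * #(up F) + (r + 2) * #G2 := by ring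
    _ ≤ _ := Nat.add_le_add_left hG2 _

theorem monA (r b m : ℕ) (F : Finset (Fin (b + 1) →₀ ℕ)) (hF : ∀ f ∈ F, ∑ s, f s = r + 1)
    (hm : (r + 1).factorial * ((r + 1 + b).choose (r + 1) - #F) ≤ m ^ (r + 1)) :
    (r + 2) * (r + 2 + b).choose (r + 2) ≤ (r + 2) * #(up F) +
      (m + (r + 2) * (r + 1)) * ((r + 1 + b).choose (r + 1) - #F) := by
  classical
  let A1 : Finset (Fin (b + 1) →₀ ℕ) := (univ : Finset (Fin (b + 1))).finsuppAntidiag (r + 1)
  let A2 : Finset (Fin (b + 1) →₀ ℕ) := (univ : Finset (Fin (b + 1))).finsuppAntidiag (r + 2)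
  have hFA : F ⊆ A1 := fun f hf => mem_all.mpr (hF f hf)
  let Fc := A1 \ F
  have hFc : #Fc = (r + 1 + b).choose (r + 1) - #F := by
    rw [card_sdiff_of_subset hFA, mon_all]
  let H := A2 \ up F
  have hHc : #A2 ≤ #(up F) + #H := by
    have h1 : A2 ⊆ up F ∪ H := by
      intro g hg
      by_cases h : g ∈ up F
      · exact mem_union_left _ h
      · exact mem_union_right _ (mem_sdiff.mpr ⟨hg, h⟩)
    exact (card_le_card h1).trans (card_union_le _ _)
  have hA2 : #A2 = (r + 2 + b).choose (r + 2) := mon_all b (r + 2)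
  have hfac : ∀ g ∈ H, ∀ s, g s ≠ 0 → g - Finsupp.single s 1 ∈ Fc := by
    intro g hg s hs
    obtain ⟨h1, h2⟩ := mem_sdiff.mp hg
    refine mem_sdiff.mpr ⟨mem_all.mpr (sum_sub_single hs (mem_all.mp h1)), fun h3 => h2 ?_⟩
    exact mem_up.mpr ⟨_, h3, s, (sub_add_single hs).symm⟩
  let Hs := H.filter fun g => ∀ s, g s ≤ 1
  let Hn := H.filter fun g => ¬ ∀ s, g s ≤ 1
  have hHs : (r + 2) * #Hs ≤ m * #Fc := by
    apply kk_mon r m Fc Hs
    · exact fun f hf => mem_all.mp (mem_sdiff.mp hf).1
    · exact fun g hg => mem_all.mp (mem_sdiff.mp (mem_filter.mp hg).1).1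
    · exact fun g hg => (mem_filter.mp hg).2
    · exact fun g hg => hfac g (mem_filter.mp hg).1
    · rw [hFc]
      exact hm
  have hHn : #Hn ≤ (r + 1) * #Fc := by
    have h1 : Hn ⊆ Fc.biUnion fun f => f.support.image fun s => f + Finsupp.single s 1 := by
      intro g hg
      obtain ⟨h2, h3⟩ := mem_filter.mp hg
      push Not at h3
      obtain ⟨s, hs⟩ := h3
      refine mem_biUnion.mpr ⟨g - Finsupp.single s 1, hfac g h2 s (by omega), ?_⟩
      refine mem_image.mpr ⟨s, ?_, sub_add_single (by omega)⟩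
      rw [Finsupp.mem_support_iff, Finsupp.tsub_apply, Finsupp.single_eq_same]
      omega
    calc #Hn ≤ _ := card_le_card h1
      _ ≤ ∑ f ∈ Fc, #(f.support.image fun s => f + Finsupp.single s 1) := card_biUnion_le
      _ ≤ ∑ f ∈ Fc, (r + 1) := sum_le_sum fun f hf =>
          card_image_le.trans ((card_supp_le f).trans (mem_all.mp (mem_sdiff.mp hf).1).le)
      _ = (r + 1) * #Fc := by rw [sum_const, smul_eq_mul, mul_comm]
  have hH : #H = #Hs + #Hn := (card_filter_add_card_filter_not _).symm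
  calc (r + 2) * (r + 2 + b).choose (r + 2) = (r + 2) * #A2 := by rw [hA2]
    _ ≤ (r + 2) * (#(up F) + #H) := Nat.mul_le_mul_left _ hHc
    _ = (r + 2) * #(up F) + ((r + 2) * #Hs + (r + 2) * #Hn) := by rw [hH]; ring
    _ ≤ (r + 2) * #(up F) + (m * #Fc + (r + 2) * ((r + 1) * #Fc)) :=
        Nat.add_le_add_left (add_le_add hHs (Nat.mul_le_mul_left _ hHn)) _
    _ = (r + 2) * #(up F) + (m + (r + 2) * (r + 1)) * ((r + 1 + b).choose (r + 1) - #F) := by
        rw [hFc]; ring

end Pool.Agent.Lib.MP_20855c_co.LB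
end

section

/-!
# MP_20855c_co, large b: a colouring with few monochromatic pairs
-/

set_option autoImplicit false

namespace Pool.Agent.Lib.MP_20855c_co.LB

open Finset

theorem colour {α : Type} [DecidableEq α] (L : Finset α) (w : α → α → ℝ) (q : ℕ) (hq : 1 ≤ q) (hw : ∀ x y, 0 ≤ w x y) :
    ∃ c : α → Fin q, (q : ℝ) * ∑ x ∈ L, ∑ y ∈ L, (if x ≠ y ∧ c x = c y then w x y else 0) ≤
      ∑ x ∈ L, ∑ y ∈ L, (if x ≠ y then w x y else 0) := by
  classical
  induction L using Finset.induction_on with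
  | empty => exact ⟨fun _ => ⟨0, hq⟩, by simp⟩
  | insert a L ha ih =>
    obtain ⟨c, hc⟩ := ih
    -- the best colour for `a`
    let g : Fin q → ℝ := fun s => ∑ y ∈ L, if s = c y then w a y + w y a else 0
    have hne : (univ : Finset (Fin q)).Nonempty := ⟨⟨0, hq⟩, mem_univ _⟩
    obtain ⟨s, -, hs⟩ := exists_min_image univ g hne
    have hsum : ∑ s' : Fin q, g s' = ∑ y ∈ L, (w a y + w y a) := by
      simp only [g]
      rw [sum_comm]
      apply sum_congr rfl
      intro y _
      rw [sum_ite_eq']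
      simp
    have hg : (q : ℝ) * g s ≤ ∑ y ∈ L, (w a y + w y a) := by
      rw [← hsum]
      calc (q : ℝ) * g s = ∑ _s' : Fin q, g s := by
            rw [sum_const, card_univ, Fintype.card_fin, nsmul_eq_mul]
        _ ≤ _ := sum_le_sum fun s' _ => hs s' (mem_univ _)
    let c' : α → Fin q := fun x => if x = a then s else c x
    have hca : c' a = s := if_pos rfl
    have hcy : ∀ y ∈ L, c' y = c y := fun y hy => if_neg (fun h : y = a => ha (h ▸ hy))
    refine ⟨c', ?_⟩
    have e1 : ∑ x ∈ insert a L, ∑ y ∈ insert a L, (if x ≠ y ∧ c' x = c' y then w x y else 0) =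
        g s + ∑ x ∈ L, ∑ y ∈ L, (if x ≠ y ∧ c x = c y then w x y else 0) := by
      rw [sum_insert ha, sum_insert ha]
      have h1 : ∀ x ∈ L, ∑ y ∈ insert a L, (if x ≠ y ∧ c' x = c' y then w x y else 0) =
          (if s = c x then w x a else 0) +
            ∑ y ∈ L, (if x ≠ y ∧ c x = c y then w x y else 0) := by
        intro x hx
        rw [sum_insert ha]
        have hxa : x ≠ a := fun h => ha (h ▸ hx)
        rw [hca, hcy x hx]
        congr 1
        · by_cases h : s = c x
          · rw [if_pos h, if_pos ⟨hxa, h.symm⟩]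
          · rw [if_neg h, if_neg (fun h' => h h'.2.symm)]
        · apply sum_congr rfl
          intro y hy
          rw [hcy y hy]
      rw [sum_congr rfl h1, sum_add_distrib]
      have h2 : (if a ≠ a ∧ c' a = c' a then w a a else 0) = 0 := if_neg (fun h => h.1 rfl)
      have h3 : ∑ y ∈ L, (if a ≠ y ∧ c' a = c' y then w a y else 0) =
          ∑ y ∈ L, (if s = c y then w a y else 0) := by
        apply sum_congr rfl
        intro y hy
        have hya : a ≠ y := fun h => ha (h ▸ hy)
        rw [hca, hcy y hy]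
        by_cases h : s = c y
        · rw [if_pos h, if_pos ⟨hya, h⟩]
        · rw [if_neg h, if_neg (fun h' => h h'.2)]
      have h4 : g s = ∑ y ∈ L, (if s = c y then w a y else 0) +
          ∑ y ∈ L, (if s = c y then w y a else 0) := by
        simp only [g]
        rw [← sum_add_distrib]
        apply sum_congr rfl
        intro y _
        split_ifs <;> ring
      rw [h2, h3, h4]
      ring
    have e2 : ∑ x ∈ insert a L, ∑ y ∈ insert a L, (if x ≠ y then w x y else 0) =
        ∑ y ∈ L, (w a y + w y a) + ∑ x ∈ L, ∑ y ∈ L, (if x ≠ y then w x y else 0) := by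
      rw [sum_insert ha, sum_insert ha]
      have h1 : ∀ x ∈ L, ∑ y ∈ insert a L, (if x ≠ y then w x y else 0) =
          w x a + ∑ y ∈ L, (if x ≠ y then w x y else 0) := by
        intro x hx
        rw [sum_insert ha, if_pos (fun h : x = a => ha (h ▸ hx))]
      rw [sum_congr rfl h1, sum_add_distrib, sum_add_distrib]
      have h2 : (if a ≠ a then w a a else 0) = 0 := if_neg (fun h => h rfl)
      have h3 : ∑ y ∈ L, (if a ≠ y then w a y else 0) = ∑ y ∈ L, w a y := by
        apply sum_congr rfl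
        intro y hy
        rw [if_pos (fun h : a = y => ha (h ▸ hy))]
      rw [h2, h3]
      ring
    rw [e1, e2, mul_add]
    exact add_le_add hg hc

end Pool.Agent.Lib.MP_20855c_co.LB
end
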