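import Pool.Agent.Lib.MP_20855c_co.Mg.G001
import Pool.Agent.Lib.MP_20855c_co.Mg.G004

section

/-!
# MP_20855c_co, large b: the bounds for `s` and `σ`; the context
-/

set_option autoImplicit false

namespace Pool.Agent.Lib.MP_20855c_co.LB

open Finset

/-- PROOF. For `z ∈ Y` let `Kz` = the sets `T.erase z`, `z ∈ T ∈ MJ`, and `Gz` = the `D_l ⊆ Y` with `z ∈ Y \ B_l`, `z ∉ D_l`; all facets of the sets of `Gz` are in `Kz`, as `D_l \ {x} ∪ {z}` is in `MJ`. `kkp` (`k = r + 2`): `k * #Gz ≤ m * #Kz`. Sum over `z ∈ Y`: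
`∑ #Gz = ∑_{D_l ⊆ Y} #(Y \ B_l \ D_l) = sg` (`card_YB`), `∑ #Kz = k * #MJ`. -/
theorem sg_le {ι α : Type} [Fintype ι] [DecidableEq α] {r b m : ℕ} {A B : ι → Finset α} {Y : Finset α} (hs : IsSys (r + 2) b A B)
    (hY : #Y = r + 2 + b) (hm : (r + 1).factorial * #(MJ (r + 2) A B Y) ≤ m ^ (r + 1)) :
    sg A B Y ≤ m * #(MJ (r + 2) A B Y) := by
  classical
  set M : Finset (Finset α) := MJ (r + 2) A B Y with hM
  set Kf : α → Finset (Finset α) := fun z => (M.filter fun T => z ∈ T).image fun T => T.erase z with hKf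
  set If : α → Finset ι := fun z => univ.filter fun l => Dd A B l ⊆ Y ∧ z ∉ B l ∧ z ∉ Dd A B l with hIf
  set Gf : α → Finset (Finset α) := fun z => (If z).image (Dd A B) with hGf
  have hMm : ∀ T ∈ M, T ⊆ Y ∧ #T = r + 2 := by
    intro T hT
    rw [hM, mem_MJ] at hT
    exact ⟨hT.1, hT.2.1⟩
  -- the two families
  have hKc : ∀ z, #(Kf z) = #(M.filter fun T => z ∈ T) := by
    intro z
    refine card_image_of_injOn ?_
    intro S hS T hT hST
    have hzS : z ∈ S := (mem_filter.1 hS).2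
    have hzT : z ∈ T := (mem_filter.1 hT).2
    have h : S.erase z = T.erase z := hST
    rw [← insert_erase hzS, ← insert_erase hzT, h]
  have hGc : ∀ z, #(Gf z) = #(If z) := by
    intro z
    exact card_image_of_injective _ fun i j h => Dd_inj hs h
  have hz : ∀ z ∈ Y, (r + 2) * #(If z) ≤ m * #(M.filter fun T => z ∈ T) := by
    intro z hzY
    rw [← hKc z, ← hGc z]
    refine kkp r m (Kf z) (Gf z) ?_ ?_ ?_ ?_
    · intro S hS
      obtain ⟨T, hT, rfl⟩ := mem_image.1 hS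
      rw [mem_filter] at hT
      rw [card_erase_of_mem hT.2, (hMm T hT.1).2]
      rfl
    · intro S hS
      obtain ⟨l, _, rfl⟩ := mem_image.1 hS
      exact card_Dd hs l
    · intro S hS x hx
      obtain ⟨l, hl, rfl⟩ := mem_image.1 hS
      have hl' := (mem_filter.1 hl).2
      obtain ⟨h1, h2, h3⟩ := hl'
      have hze : z ∉ (Dd A B l).erase x := fun h => h3 (mem_of_mem_erase h)
      rw [hKf]
      refine mem_image.2 ⟨insert z ((Dd A B l).erase x), ?_, ?_⟩
      · rw [mem_filter]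
        refine ⟨?_, mem_insert_self _ _⟩
        rw [hM, mem_MJ]
        refine ⟨?_, ?_, l, ?_, ?_⟩
        · exact insert_subset hzY ((erase_subset _ _).trans h1)
        · rw [card_insert_of_notMem hze, card_erase_of_mem hx, card_Dd hs l]
          rfl
        · rw [disjoint_insert_left]
          exact ⟨h2, disjoint_of_subset_left (erase_subset _ _) (Dd_disj_B l)⟩
        · intro h
          exact h3 (h ▸ mem_insert_self _ _)
      · exact erase_insert hze
    · rw [hKc z]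
      exact (Nat.mul_le_mul_left _ (card_filter_le _ _)).trans hm
  -- the sums
  have hsum1 : ∑ z ∈ Y, #(M.filter fun T => z ∈ T) = (r + 2) * #M := by
    have h1 : ∑ z ∈ Y, #(M.filter fun T => z ∈ T) = ∑ T ∈ M, #(Y.filter fun z => z ∈ T) := by
      simp only [card_filter]
      exact sum_comm
    rw [h1]
    have h2 : ∀ T ∈ M, #(Y.filter fun z => z ∈ T) = r + 2 := by
      intro T hT
      rw [← (hMm T hT).2]
      congr 1
      ext z
      rw [mem_filter]
      exact ⟨fun h => h.2, fun h => ⟨(hMm T hT).1 h, h⟩⟩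
    rw [sum_congr rfl h2, sum_const, smul_eq_mul, mul_comm]
  have hsum2 : ∑ z ∈ Y, #(If z) = sg A B Y := by
    have h1 : ∑ z ∈ Y, #(If z) = ∑ l : ι, #(Y.filter fun z => Dd A B l ⊆ Y ∧ z ∉ B l ∧ z ∉ Dd A B l) := by
      simp only [hIf, card_filter]
      exact sum_comm
    rw [h1]
    unfold sg
    rw [sum_filter]
    refine sum_congr rfl fun l _ => ?_
    by_cases hl : Dd A B l ⊆ Y
    · rw [if_pos hl]
      have h2 : (Y.filter fun z => Dd A B l ⊆ Y ∧ z ∉ B l ∧ z ∉ Dd A B l) = (Y \ B l) \ Dd A B l := by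
        ext z
        rw [mem_filter, mem_sdiff, mem_sdiff]
        tauto
      have h3 : Dd A B l ⊆ Y \ B l := by
        intro x hx
        rw [mem_sdiff]
        exact ⟨hl hx, fun hxB => Finset.disjoint_left.1 (Dd_disj_B l) hx hxB⟩
      rw [h2, card_sdiff_of_subset h3, card_YB hs hY l, card_Dd hs l]
      omega
    · rw [if_neg hl, card_eq_zero, filter_eq_empty_iff]
      intro z _ h
      exact hl h.1
  have hfin : (r + 2) * sg A B Y ≤ (r + 2) * (m * #M) := by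
    rw [← hsum2, mul_sum]
    calc ∑ z ∈ Y, (r + 2) * #(If z) ≤ ∑ z ∈ Y, m * #(M.filter fun T => z ∈ T) := sum_le_sum hz
      _ = m * ((r + 2) * #M) := by rw [← mul_sum, hsum1]
      _ = (r + 2) * (m * #M) := by ring
  exact Nat.le_of_mul_le_mul_left hfin (by omega)

end Pool.Agent.Lib.MP_20855c_co.LB
end

section

/-!
# MP_20855c_co, large b: the context
-/

set_option autoImplicit false

namespace Pool.Agent.Lib.MP_20855c_co.LB

open Finset

private theorem Sig2_pow (k s : ℕ) : (s + 1) ^ k ≤ k.factorial * (k + s).choose k := by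
  rw [Nat.add_comm k s, ← Nat.ascFactorial_eq_factorial_mul_choose]
  exact Nat.pow_succ_le_ascFactorial (s + 1) k

/-- PROOF. `δ = (ε / 2) ^ (r + 1) / (r + 1)!`, `m = ⌊ε b⌋`; `sg_le`, `MJ_miss`. `s ^ k / k! ≤ C(k + s, k) ≤ #MJ + 1 ≤ δ b ^ (k - 1) + 1` (`choose_sm`) gives `1 + s ≤ ε b` for `b` large. -/
theorem ctx_of (r : ℕ) (ε : ℝ) (hε : 0 < ε) (hε1 : ((100 * (r + 2 + 2 : ℕ) : ℝ)) ^ (r + 2 + 6) * ε ≤ 1) (δ : ℝ)
    (hδ : δ = (ε / 2) ^ (r + 1) / ((r + 1).factorial : ℝ)) (b : ℕ) (hbb1 : 1 ≤ b) (hN1 : 2 / ε < b)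
    (hN2 : ((r + 2).factorial : ℝ) * (δ + 1) / ε ^ (r + 2) < b) (ι α : Type) [Fintype ι] [DecidableEq α] (A B : ι → Finset α) (Y : Finset α) :
    IsSys (r + 2) b A B → #Y = r + 2 + b → (#(miss (r + 2) A B Y) : ℝ) ≤ δ * (b : ℝ) ^ (r + 1) → Ctx (r + 2) b A B Y ε := by
  have hf1 : (0 : ℝ) < ((r + 1).factorial : ℝ) := by exact_mod_cast Nat.factorial_pos _
  have hf2 : (0 : ℝ) < ((r + 2).factorial : ℝ) := by exact_mod_cast Nat.factorial_pos _
  have hδ0 : 0 < δ := by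
    rw [hδ]
    positivity
  intro hs hY hm
  have hb3 : (1 : ℝ) ≤ b := by exact_mod_cast hbb1
  have hεb : 2 ≤ ε * b := by
    have h1 : 2 / ε < b := hN1
    rw [div_lt_iff₀ hε] at h1
    linarith
  have hM : (#(MJ (r + 2) A B Y) : ℝ) ≤ δ * (b : ℝ) ^ (r + 1) := by
    refine le_trans ?_ hm
    exact_mod_cast card_le_card (MJ_miss hs)
  refine ⟨hs, hY, hε, hε1, ?_, ?_⟩
  · by_contra hcon
    rw [not_le] at hcon
    have h1 : ((sm B Y : ℝ) + 1) ^ (r + 2) ≤ ((r + 2).factorial : ℝ) * (δ * (b : ℝ) ^ (r + 1) + 1) := by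
      have h2 := Sig2_pow (r + 2) (sm B Y)
      have h3 := choose_sm hs hY
      have h4 : (sm B Y + 1) ^ (r + 2) ≤ (r + 2).factorial * (#(MJ (r + 2) A B Y) + 1) :=
        h2.trans (Nat.mul_le_mul_left _ h3)
      have h5 : (((sm B Y + 1) ^ (r + 2) : ℕ) : ℝ) ≤
          (((r + 2).factorial * (#(MJ (r + 2) A B Y) + 1) : ℕ) : ℝ) := by exact_mod_cast h4
      push_cast at h5
      refine h5.trans ?_
      apply mul_le_mul_of_nonneg_left _ hf2.le
      linarith
    have h6 : (ε * b) ^ (r + 2) ≤ ((sm B Y : ℝ) + 1) ^ (r + 2) := by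
      apply pow_le_pow_left₀ (by linarith)
      linarith
    have h7 : δ * (b : ℝ) ^ (r + 1) + 1 ≤ (δ + 1) * (b : ℝ) ^ (r + 1) := by
      have h8 : (1 : ℝ) ≤ (b : ℝ) ^ (r + 1) := one_le_pow₀ hb3
      linarith
    have h9 : (ε * b) ^ (r + 2) ≤ ((r + 2).factorial : ℝ) * ((δ + 1) * (b : ℝ) ^ (r + 1)) :=
      h6.trans (h1.trans (mul_le_mul_of_nonneg_left h7 hf2.le))
    have h10 : ε ^ (r + 2) * b ≤ ((r + 2).factorial : ℝ) * (δ + 1) := by
      have hbp : (0 : ℝ) < (b : ℝ) ^ (r + 1) := by positivity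
      refine le_of_mul_le_mul_right ?_ hbp
      calc ε ^ (r + 2) * b * (b : ℝ) ^ (r + 1) = (ε * b) ^ (r + 2) := by ring
        _ ≤ ((r + 2).factorial : ℝ) * ((δ + 1) * (b : ℝ) ^ (r + 1)) := h9
        _ = ((r + 2).factorial : ℝ) * (δ + 1) * (b : ℝ) ^ (r + 1) := by ring
    have h11 : ((r + 2).factorial : ℝ) * (δ + 1) / ε ^ (r + 2) < b := hN2
    rw [div_lt_iff₀ (by positivity)] at h11
    linarith
  · have hfl : ε * b / 2 ≤ (⌊ε * b⌋₊ : ℝ) := by
      have h1 := Nat.lt_floor_add_one (ε * b)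
      linarith
    have hfl2 : (⌊ε * b⌋₊ : ℝ) ≤ ε * b := Nat.floor_le (by positivity)
    have hk : (r + 1).factorial * #(MJ (r + 2) A B Y) ≤ ⌊ε * b⌋₊ ^ (r + 1) := by
      have h1 : ((r + 1).factorial : ℝ) * #(MJ (r + 2) A B Y) ≤ (⌊ε * b⌋₊ : ℝ) ^ (r + 1) := by
        calc ((r + 1).factorial : ℝ) * #(MJ (r + 2) A B Y)
            ≤ ((r + 1).factorial : ℝ) * (δ * (b : ℝ) ^ (r + 1)) :=
              mul_le_mul_of_nonneg_left hM hf1.le
          _ = (ε * b / 2) ^ (r + 1) := by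
              have h4 : ε * b / 2 = (ε / 2) * b := by ring
              rw [hδ, h4, mul_pow]
              field_simp
          _ ≤ (⌊ε * b⌋₊ : ℝ) ^ (r + 1) := pow_le_pow_left₀ (by positivity) hfl _
      exact_mod_cast h1
    have h2 := sg_le hs hY hk
    have h3 : (sg A B Y : ℝ) ≤ (⌊ε * b⌋₊ : ℝ) * #(MJ (r + 2) A B Y) := by exact_mod_cast h2
    refine h3.trans ?_
    exact mul_le_mul_of_nonneg_right hfl2 (Nat.cast_nonneg _)

end Pool.Agent.Lib.MP_20855c_co.LB
end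

section

/-!
# MP_20855c_co, large b: Bollobas systems, the inequalities for a point and for a group of points

`k = r + 2`, `N = r + 2 + b`.
-/

set_option autoImplicit false

namespace Pool.Agent.Lib.MP_20855c_co.LB

open Finset

variable {ι α : Type} [Fintype ι] [DecidableEq α]

/-- A Bollobas system. -/
structure Boll (k b : ℕ) (D B : ι → Finset α) : Prop where
  cD : ∀ i, #(D i) = k
  cB : ∀ i, #(B i) = b
  dis : ∀ i, Disjoint (D i) (B i)
  cross : ∀ i j, i ≠ j → ¬ Disjoint (D i) (B j)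

/-- The degree of a point. -/
def dg (D : ι → Finset α) (x : α) : ℕ := #(univ.filter fun i => x ∈ D i)

/-- The number of members which do not contain the point. -/
def og (D B : ι → Finset α) (x : α) : ℕ := #(univ.filter fun i => x ∉ D i ∧ x ∉ B i)

/-- The members which meet `X` with `D`, but not with `B`. -/
def dx (D B : ι → Finset α) (X : Finset α) : ℕ := #(univ.filter fun i => ¬ Disjoint (D i) X ∧ Disjoint (B i) X)

/-- The members which meet `X` with `B`. -/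
def bx (B : ι → Finset α) (X : Finset α) : ℕ := #(univ.filter fun i => ¬ Disjoint (B i) X)

theorem boll_card {k b : ℕ} {D B : ι → Finset α} (h : Boll k b D B) : Fintype.card ι ≤ (k + b).choose k := by
  classical
  rw [← card_univ]
  exact lym_card univ D B k b (fun i _ => h.dis i) (fun i _ j _ hij => h.cross i j hij)
    (fun i _ => h.cD i) (fun i _ => (h.cB i).le)

theorem count_pt {k b : ℕ} {D B : ι → Finset α} (h : Boll k b D B) (x : α) : dg D x + dg B x + og D B x = Fintype.card ι := by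
  classical
  unfold dg og
  rw [← card_univ, card_filter, card_filter, card_filter, ← sum_add_distrib, ← sum_add_distrib,
    card_eq_sum_ones]
  apply sum_congr rfl
  intro i _
  have h1 : x ∈ D i → x ∉ B i := fun h1 h2 => disjoint_left.mp (h.dis i) h1 h2
  by_cases h2 : x ∈ D i
  · have h3 := h1 h2
    simp [h2, h3]
  · by_cases h3 : x ∈ B i
    · simp [h2, h3]
    · simp [h2, h3]

theorem pt0 {r b : ℕ} {D B : ι → Finset α} (h : Boll (r + 2) b D B) (x : α) : dg D x ≤ (r + 1 + b).choose (r + 1) := by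
  classical
  apply lym_card (univ.filter fun i => x ∈ D i) (fun i => (D i).erase x) B (r + 1) b
  · exact fun i _ => (h.dis i).mono_left (erase_subset _ _)
  · intro i _ j hj hij hdis
    obtain ⟨y, hy1, hy2⟩ := not_disjoint_iff.mp (h.cross i j hij)
    refine disjoint_left.mp hdis (mem_erase.mpr ⟨?_, hy1⟩) hy2
    rintro rfl
    exact disjoint_left.mp (h.dis j) (mem_filter.mp hj).2 hy2
  · intro i hi
    rw [card_erase_of_mem (mem_filter.mp hi).2, h.cD]
    rfl
  · exact fun i _ => (h.cB i).le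

theorem pt1 {r b : ℕ} {D B : ι → Finset α} (h : Boll (r + 2) b D B) (hb : 1 ≤ b) (x : α) :
    ((r + 2 + b : ℕ) : ℝ) * (((r + 1 + b).choose (r + 1) : ℕ) - (dg D x : ℝ)) ≤
      ((r + 2 + b : ℕ) : ℝ) * (((r + 2 + b).choose (r + 2) : ℕ) - (Fintype.card ι : ℝ)) + ((r + 2 : ℕ) : ℝ) * og D B x := by
  classical
  have h1 := lym (univ.filter fun i => x ∉ D i) D (fun i => (B i).erase x)
    (fun i _ => (h.dis i).mono_right (erase_subset _ _))
    (by
      intro i hi j hj hij hdis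
      obtain ⟨y, hy1, hy2⟩ := not_disjoint_iff.mp (h.cross i j hij)
      refine disjoint_left.mp hdis hy1 (mem_erase.mpr ⟨?_, hy2⟩)
      rintro rfl
      exact (mem_filter.mp hi).2 hy1)
  have hsplit : univ.filter (fun i => x ∉ D i) =
      univ.filter (fun i => x ∈ B i) ∪ univ.filter (fun i => x ∉ D i ∧ x ∉ B i) := by
    ext i
    simp only [mem_filter, mem_univ, true_and, mem_union]
    constructor
    · intro h2
      by_cases h3 : x ∈ B i
      · exact Or.inl h3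
      · exact Or.inr ⟨h2, h3⟩
    · rintro (h2 | h2)
      · exact fun h3 => disjoint_left.mp (h.dis i) h3 h2
      · exact h2.1
  have hdisj : Disjoint (univ.filter (fun i => x ∈ B i))
      (univ.filter (fun i => x ∉ D i ∧ x ∉ B i)) := by
    rw [disjoint_left]
    intro i h2 h3
    exact (mem_filter.mp h3).2.2 (mem_filter.mp h2).2
  rw [hsplit, sum_union hdisj] at h1
  have e1 : ∑ i ∈ univ.filter (fun i => x ∈ B i),
      (1 : ℝ) / ((#(D i) + #((B i).erase x)).choose #(D i) : ℕ) =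
      dg B x * (1 / ((r + 1 + b).choose (r + 2) : ℕ)) := by
    unfold dg
    rw [← nsmul_eq_mul, ← sum_const]
    apply sum_congr rfl
    intro i hi
    rw [card_erase_of_mem (mem_filter.mp hi).2, h.cD, h.cB]
    congr 3
    omega
  have e2 : ∑ i ∈ univ.filter (fun i => x ∉ D i ∧ x ∉ B i),
      (1 : ℝ) / ((#(D i) + #((B i).erase x)).choose #(D i) : ℕ) =
      og D B x * (1 / ((r + 2 + b).choose (r + 2) : ℕ)) := by
    unfold og
    rw [← nsmul_eq_mul, ← sum_const]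
    apply sum_congr rfl
    intro i hi
    rw [erase_eq_of_notMem (mem_filter.mp hi).2.2, h.cD, h.cB]
  rw [e1, e2] at h1
  have i1 := Nat.choose_mul_succ_eq (r + 1 + b) (r + 2)
  have i2 := Nat.add_one_mul_choose_eq (r + 1 + b) (r + 1)
  have e3 : r + 1 + b + 1 = r + 2 + b := by ring
  have e4 : r + 2 + b - (r + 2) = b := by omega
  have e5 : r + 1 + 1 = r + 2 := rfl
  rw [e3, e4] at i1
  rw [e3, e5] at i2
  have hcnt := count_pt h x
  have hC2 : (0 : ℝ) < ((r + 2 + b).choose (r + 2) : ℕ) := by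
    exact_mod_cast Nat.choose_pos (Nat.le_add_right _ _)
  have hC1 : (0 : ℝ) < ((r + 1 + b).choose (r + 2) : ℕ) := by
    exact_mod_cast Nat.choose_pos (by omega)
  have i1' : (((r + 1 + b).choose (r + 2) : ℕ) : ℝ) * ((r + 2 + b : ℕ) : ℝ) =
      ((r + 2 + b).choose (r + 2) : ℕ) * (b : ℝ) := by exact_mod_cast i1
  have i2' : ((r + 2 + b : ℕ) : ℝ) * ((r + 1 + b).choose (r + 1) : ℕ) =
      ((r + 2 + b).choose (r + 2) : ℕ) * ((r + 2 : ℕ) : ℝ) := by exact_mod_cast i2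
  have hcnt' : (dg D x : ℝ) + dg B x + og D B x = Fintype.card ι := by exact_mod_cast hcnt
  set C := (((r + 2 + b).choose (r + 2) : ℕ) : ℝ) with hC
  set C' := (((r + 1 + b).choose (r + 2) : ℕ) : ℝ) with hC'
  have hbp : (0 : ℝ) < b := by exact_mod_cast hb
  have hN : ((r + 2 + b : ℕ) : ℝ) = ((r + 2 : ℕ) : ℝ) + b := by push_cast; ring
  -- multiply by `b * C`
  have h2 : (dg B x : ℝ) * ((r + 2 + b : ℕ) : ℝ) + b * og D B x ≤ b * C := by
    have h3 : (b * C) * ((dg B x : ℝ) * (1 / C') + og D B x * (1 / C)) ≤ (b * C) * 1 :=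
      mul_le_mul_of_nonneg_left h1 (by positivity)
    have h4 : (b * C) * ((dg B x : ℝ) * (1 / C') + og D B x * (1 / C)) =
        (dg B x : ℝ) * ((r + 2 + b : ℕ) : ℝ) + b * og D B x := by
      have h5 : b * C * (1 / C') = ((r + 2 + b : ℕ) : ℝ) := by
        rw [mul_one_div, div_eq_iff hC1.ne']
        linarith
      have h6 : C * (1 / C) = 1 := by
        rw [mul_one_div, div_self hC2.ne']
      calc (b * C) * ((dg B x : ℝ) * (1 / C') + og D B x * (1 / C)) =
          (dg B x : ℝ) * (b * C * (1 / C')) + b * og D B x * (C * (1 / C)) := by ring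
        _ = _ := by rw [h5, h6, mul_one]
    rw [h4, mul_one] at h3
    exact h3
  rw [← hcnt', mul_sub, i2', mul_sub]
  have h7 : ((r + 2 + b : ℕ) : ℝ) * ((dg D x : ℝ) + dg B x + og D B x) =
      ((r + 2 + b : ℕ) : ℝ) * dg D x + dg B x * ((r + 2 + b : ℕ) : ℝ) +
      (((r + 2 : ℕ) : ℝ) + b) * og D B x := by
    rw [← hN]
    ring
  rw [h7]
  have h8 : ((r + 2 + b : ℕ) : ℝ) * C = C * ((r + 2 : ℕ) : ℝ) + b * C := by
    rw [hN]
    ring
  rw [h8]
  nlinarith [h2]

theorem pt2 {r b : ℕ} {D B : ι → Finset α} (h : Boll (r + 2) b D B) (x : α) (m : ℕ)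
    (hm : (r + 1).factorial * ((r + 1 + b).choose (r + 1) - dg D x) ≤ m ^ (r + 1)) :
    (r + 2) * og D B x ≤ (m + (r + 2) * (r + 1)) * ((r + 1 + b).choose (r + 1) - dg D x) := by
  classical
  obtain ⟨F, hF1, hF2, hF3⟩ := poly (r + 1) b (univ.filter fun i => x ∉ D i ∧ x ∉ B i)
    (univ.filter fun i => x ∈ D i) D (fun i => (D i).erase x) B
    (fun i _ => h.cD i)
    (fun i hi => by rw [card_erase_of_mem (mem_filter.mp hi).2, h.cD]; rfl)
    (fun i _ => h.cB i) (fun i _ => h.dis i)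
    (fun i _ => (h.dis i).mono_left (erase_subset _ _))
    (fun i _ j _ hij => h.cross i j hij)
    (by
      intro i _ j hj hij hdis
      obtain ⟨y, hy1, hy2⟩ := not_disjoint_iff.mp (h.cross i j hij)
      refine disjoint_left.mp hdis (mem_erase.mpr ⟨?_, hy1⟩) hy2
      rintro rfl
      exact disjoint_left.mp (h.dis j) (mem_filter.mp hj).2 hy2)
    (by
      intro i hi j hj hdis
      have hij : i ≠ j := by
        rintro rfl
        exact (mem_filter.mp hj).2.1 (mem_filter.mp hi).2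
      obtain ⟨y, hy1, hy2⟩ := not_disjoint_iff.mp (h.cross i j hij)
      refine disjoint_left.mp hdis (mem_erase.mpr ⟨?_, hy1⟩) hy2
      rintro rfl
      exact (mem_filter.mp hj).2.2 hy2)
  change #F = dg D x at hF1
  have hO : #(univ.filter fun i => x ∉ D i ∧ x ∉ B i) = og D B x := rfl
  rw [hO] at hF3
  have hA := monA r b m F hF2 (by rw [hF1]; exact hm)
  rw [hF1] at hA
  have e1 : r + 1 + 1 = r + 2 := rfl
  rw [e1] at hF3
  have h1 : (r + 2) * (og D B x + #(up F)) ≤ (r + 2) * (r + 2 + b).choose (r + 2) :=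
    Nat.mul_le_mul_left _ hF3
  have h2 : (r + 2) * (og D B x + #(up F)) = (r + 2) * og D B x + (r + 2) * #(up F) := by ring
  rw [h2] at h1
  omega

theorem grp {r b : ℕ} {D B : ι → Finset α} (h : Boll (r + 2) b D B) (X : Finset α) (m : ℕ)
    (hm : (r + 1).factorial * dx D B X ≤ m ^ (r + 1)) :
    (((r + 2) * (b + 1) : ℕ) - (m : ℝ) - ((r + 2) * (r + 1) : ℕ)) * dx D B X ≤
      ((r + 2) * (r + 1) : ℕ) * ((((r + 2 + b).choose (r + 2) : ℕ) - (Fintype.card ι : ℝ)) + bx B X) := by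
  classical
  let P : ι → Finset α := fun i => if hi : ∃ x, x ∈ D i ∧ x ∈ X then (D i).erase hi.choose else ∅
  have hP : ∀ i, ¬ Disjoint (D i) X → ∃ x, x ∈ D i ∧ x ∈ X ∧ P i = (D i).erase x := by
    intro i hi
    have h1 : ∃ x, x ∈ D i ∧ x ∈ X := by
      obtain ⟨y, hy1, hy2⟩ := not_disjoint_iff.mp hi
      exact ⟨y, hy1, hy2⟩
    exact ⟨h1.choose, h1.choose_spec.1, h1.choose_spec.2, dif_pos h1⟩
  have key : ∀ i j, i ≠ j → ¬ Disjoint (D i) X → Disjoint (B j) X → ¬ Disjoint (P i) (B j) := by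
    intro i j hij hi hj hdis
    obtain ⟨x, hx1, hx2, hx3⟩ := hP i hi
    obtain ⟨y, hy1, hy2⟩ := not_disjoint_iff.mp (h.cross i j hij)
    rw [hx3] at hdis
    refine disjoint_left.mp hdis (mem_erase.mpr ⟨?_, hy1⟩) hy2
    rintro rfl
    exact disjoint_left.mp hj hy2 hx2
  obtain ⟨F, hF1, hF2, hF3⟩ := poly (r + 1) b
    (univ.filter fun i => Disjoint (D i) X ∧ Disjoint (B i) X)
    (univ.filter fun i => ¬ Disjoint (D i) X ∧ Disjoint (B i) X) D P B
    (fun i _ => h.cD i)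
    (fun i hi => by
      obtain ⟨x, hx1, hx2, hx3⟩ := hP i (mem_filter.mp hi).2.1
      rw [hx3, card_erase_of_mem hx1, h.cD]
      rfl)
    (fun i _ => h.cB i) (fun i _ => h.dis i)
    (fun i hi => by
      obtain ⟨x, hx1, hx2, hx3⟩ := hP i (mem_filter.mp hi).2.1
      rw [hx3]
      exact (h.dis i).mono_left (erase_subset _ _))
    (fun i _ j _ hij => h.cross i j hij)
    (fun i hi j hj hij => key i j hij (mem_filter.mp hi).2.1 (mem_filter.mp hj).2.2)
    (by
      intro i hi j hj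
      refine key i j ?_ (mem_filter.mp hi).2.1 (mem_filter.mp hj).2.2
      rintro rfl
      exact (mem_filter.mp hi).2.1 (mem_filter.mp hj).2.1)
  change #F = dx D B X at hF1
  have e1 : r + 1 + 1 = r + 2 := rfl
  rw [e1] at hF3
  have hB := monB r b m F hF2 (by rw [hF1]; exact hm)
  rw [hF1] at hB
  have hcnt : #(univ.filter fun i => Disjoint (D i) X ∧ Disjoint (B i) X) + dx D B X + bx B X =
      Fintype.card ι := by
    unfold dx bx
    rw [← card_univ, card_filter, card_filter, card_filter, ← sum_add_distrib, ← sum_add_distrib,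
      card_eq_sum_ones]
    apply sum_congr rfl
    intro i _
    by_cases h2 : Disjoint (D i) X
    · by_cases h3 : Disjoint (B i) X
      · simp [h2, h3]
      · simp [h2, h3]
    · by_cases h3 : Disjoint (B i) X
      · simp [h2, h3]
      · simp [h2, h3]
  have hup : (#(up F) : ℝ) ≤ (((r + 2 + b).choose (r + 2) : ℕ) : ℝ) - Fintype.card ι +
      (dx D B X + bx B X) := by
    have h1 : #(up F) + Fintype.card ι ≤ (r + 2 + b).choose (r + 2) + (dx D B X + bx B X) := by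
      omega
    have h2 : (#(up F) : ℝ) + Fintype.card ι ≤
        (((r + 2 + b).choose (r + 2) : ℕ) : ℝ) + (dx D B X + bx B X) := by exact_mod_cast h1
    linarith
  have hB' : (((r + 2) * (b + 1) : ℕ) : ℝ) * dx D B X ≤
      (((r + 2) * (r + 1) : ℕ) : ℝ) * #(up F) + m * dx D B X := by exact_mod_cast hB
  have hpos : (0 : ℝ) ≤ (((r + 2) * (r + 1) : ℕ) : ℝ) := by positivity
  have h9 := mul_le_mul_of_nonneg_left hup hpos
  nlinarith [h9, hB']

end Pool.Agent.Lib.MP_20855c_co.LB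
end

section

/-!
# MP_20855c_co, large b: the inequality for the light points
-/

set_option autoImplicit false

namespace Pool.Agent.Lib.MP_20855c_co.LB

open Finset

variable {ι α : Type} [Fintype ι] [DecidableEq α]

/-- The total degree. -/
def td (D : ι → Finset α) (L : Finset α) : ℕ := ∑ x ∈ L, dg D x

/-- The number of members `i` with `x ∈ D i` and `y ∈ D i ∪ B i`. -/
private def Light_pr (D B : ι → Finset α) (x y : α) : ℕ := #(univ.filter fun i => x ∈ D i ∧ y ∈ D i ∪ B i)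

private theorem Light_td_eq (D : ι → Finset α) (X : Finset α) : ∑ x ∈ X, dg D x = ∑ i, #(X.filter fun x => x ∈ D i) := by
  simp only [dg, card_filter]
  rw [sum_comm]

private theorem Light_bx_le (B : ι → Finset α) (X : Finset α) : bx B X ≤ ∑ x ∈ X, dg B x := by
  rw [Light_td_eq, bx, card_filter]
  refine sum_le_sum fun i _ => ?_
  by_cases hd : Disjoint (B i) X
  · rw [if_neg fun h => h hd]
    exact Nat.zero_le _
  · rw [if_pos hd]
    obtain ⟨y, hy1, hy2⟩ := not_disjoint_iff.1 hd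
    exact Nat.succ_le_of_lt (card_pos.2 ⟨y, mem_filter.2 ⟨hy2, hy1⟩⟩)

private theorem Light_dx_le (D B : ι → Finset α) (X : Finset α) : dx D B X ≤ ∑ x ∈ X, dg D x := by
  refine le_trans ?_ (Light_bx_le D X)
  rw [dx, bx]
  refine card_le_card fun i hi => ?_
  simp only [mem_filter, mem_univ, true_and] at hi ⊢
  exact hi.1

omit [Fintype ι] in
private theorem Light_partner (D B : ι → Finset α) (X : Finset α) (i : ι)
    (h : ∀ x ∈ X, x ∈ D i → ∃ y ∈ X, x ≠ y ∧ y ∈ D i ∪ B i) :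
    #(X.filter fun x => x ∈ D i) ≤ ∑ x ∈ X, ∑ y ∈ X, (if x ≠ y ∧ x ∈ D i ∧ y ∈ D i ∪ B i then 1 else 0) := by
  rw [card_filter]
  refine sum_le_sum fun x hx => ?_
  split_ifs with hxD
  · obtain ⟨y, hy, hxy, hyD⟩ := h x hx hxD
    have h1 : (if x ≠ y ∧ x ∈ D i ∧ y ∈ D i ∪ B i then 1 else 0) ≤
        ∑ y ∈ X, (if x ≠ y ∧ x ∈ D i ∧ y ∈ D i ∪ B i then 1 else 0) :=
      single_le_sum (f := fun y => if x ≠ y ∧ x ∈ D i ∧ y ∈ D i ∪ B i then 1 else 0) (fun _ _ => Nat.zero_le _) hy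
    rw [if_pos ⟨hxy, hxD, hyD⟩] at h1
    exact h1
  · exact Nat.zero_le _

private theorem Light_pr_sum (D B : ι → Finset α) (X : Finset α) :
    ∑ x ∈ X, ∑ y ∈ X, (if x ≠ y then Light_pr D B x y else 0) =
      ∑ i, ∑ x ∈ X, ∑ y ∈ X, (if x ≠ y ∧ x ∈ D i ∧ y ∈ D i ∪ B i then 1 else 0) := by
  symm
  rw [sum_comm]
  refine sum_congr rfl fun x _ => ?_
  rw [sum_comm]
  refine sum_congr rfl fun y _ => ?_
  by_cases hxy : x ≠ y
  · rw [if_pos hxy, Light_pr, card_filter]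
    refine sum_congr rfl fun i _ => ?_
    by_cases hc : x ∈ D i ∧ y ∈ D i ∪ B i
    · rw [if_pos hc, if_pos ⟨hxy, hc⟩]
    · rw [if_neg hc, if_neg fun h => hc h.2]
  · rw [if_neg hxy]
    refine sum_eq_zero fun i _ => ?_
    rw [if_neg fun h => hxy h.1]

private theorem Light_dx_ge {k b : ℕ} {D B : ι → Finset α} (h : Boll k b D B) (X : Finset α) :
    ∑ x ∈ X, dg D x ≤ dx D B X + ∑ x ∈ X, ∑ y ∈ X, (if x ≠ y then Light_pr D B x y else 0) := by
  rw [Light_td_eq, Light_pr_sum, dx, card_filter, ← sum_add_distrib]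
  refine sum_le_sum fun i _ => ?_
  by_cases hB : Disjoint (B i) X
  · by_cases ht : #(X.filter fun x => x ∈ D i) ≤ 1
    · by_cases hD : Disjoint (D i) X
      · have h0 : X.filter (fun x => x ∈ D i) = ∅ := by
          rw [filter_eq_empty_iff]
          exact fun x hx hxD => disjoint_left.1 hD hxD hx
        rw [h0, card_empty]
        exact Nat.zero_le _
      · rw [if_pos ⟨hD, hB⟩]
        exact le_trans ht (Nat.le_add_right _ _)
    · refine le_trans (Light_partner D B X i fun x hx hxD => ?_) (Nat.le_add_left _ _)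
      have h1 : 1 < #(X.filter fun x => x ∈ D i) := by omega
      obtain ⟨y, hy, hyx⟩ := exists_mem_ne h1 x
      rw [mem_filter] at hy
      exact ⟨y, hy.1, hyx.symm, mem_union_left _ hy.2⟩
  · refine le_trans (Light_partner D B X i fun x hx hxD => ?_) (Nat.le_add_left _ _)
    obtain ⟨y, hy1, hy2⟩ := not_disjoint_iff.1 hB
    refine ⟨y, hy2, ?_, mem_union_right _ hy1⟩
    rintro rfl
    exact disjoint_left.1 (h.dis i) hxD hy1

private theorem Light_pairs {k b : ℕ} {D B : ι → Finset α} (h : Boll k b D B) (X : Finset α) :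
    ∑ x ∈ X, ∑ y ∈ X, (if x ≠ y then Light_pr D B x y else 0) ≤ (k + b) * ∑ x ∈ X, dg D x := by
  rw [Light_pr_sum, Light_td_eq, mul_sum]
  refine sum_le_sum fun i _ => ?_
  rw [card_filter, mul_sum]
  refine sum_le_sum fun x _ => ?_
  by_cases hxD : x ∈ D i
  · rw [if_pos hxD, mul_one]
    have h1 : ∑ y ∈ X, (if x ≠ y ∧ x ∈ D i ∧ y ∈ D i ∪ B i then 1 else 0) ≤ #(D i ∪ B i) := by
      rw [← card_filter]
      refine card_le_card fun y hy => ?_
      rw [mem_filter] at hy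
      exact hy.2.2.2
    refine le_trans h1 (le_trans (card_union_le _ _) ?_)
    rw [h.cD i, h.cB i]
  · rw [if_neg hxD, mul_zero]
    refine le_of_eq (sum_eq_zero fun y _ => ?_)
    rw [if_neg fun h => hxD h.2.1]

private theorem Light_one {r b : ℕ} {D B : ι → Finset α} (h : Boll (r + 2) b D B) (X : Finset α) (m : ℕ) (hm : 1 ≤ m)
    (hE : (0 : ℝ) ≤ ((r + 2) * (b + 1) : ℕ) - (m : ℝ) - ((r + 2) * (r + 1) : ℕ)) :
    (((r + 2) * (b + 1) : ℕ) - (m : ℝ) - ((r + 2) * (r + 1) : ℕ)) *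
      ((dx D B X : ℝ) - ((r + 1).factorial : ℝ) / (m : ℝ) ^ (r + 1) * (dx D B X : ℝ) ^ 2) ≤
      ((r + 2) * (r + 1) : ℕ) * ((((r + 2 + b).choose (r + 2) : ℕ) - (Fintype.card ι : ℝ)) + bx B X) := by
  have hm0 : (0 : ℝ) < (m : ℝ) := by exact_mod_cast hm
  have hmp : (0 : ℝ) < (m : ℝ) ^ (r + 1) := pow_pos hm0 _
  by_cases hc : (r + 1).factorial * dx D B X ≤ m ^ (r + 1)
  · refine le_trans (mul_le_mul_of_nonneg_left ?_ hE) (grp h X m hc)
    have h1 : (0 : ℝ) ≤ ((r + 1).factorial : ℝ) / (m : ℝ) ^ (r + 1) * (dx D B X : ℝ) ^ 2 :=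
      mul_nonneg (div_nonneg (Nat.cast_nonneg _) hmp.le) (sq_nonneg _)
    linarith
  · have h2 : (m : ℝ) ^ (r + 1) ≤ ((r + 1).factorial : ℝ) * (dx D B X : ℝ) := by
      have h3 : m ^ (r + 1) ≤ (r + 1).factorial * dx D B X := (not_le.1 hc).le
      exact_mod_cast h3
    have h4 : 1 ≤ ((r + 1).factorial : ℝ) / (m : ℝ) ^ (r + 1) * (dx D B X : ℝ) := by
      rw [div_mul_eq_mul_div, le_div_iff₀ hmp, one_mul]
      exact h2
    have h5 : (dx D B X : ℝ) - ((r + 1).factorial : ℝ) / (m : ℝ) ^ (r + 1) * (dx D B X : ℝ) ^ 2 ≤ 0 := by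
      have h6 : (0 : ℝ) ≤ (dx D B X : ℝ) := Nat.cast_nonneg _
      nlinarith [mul_le_mul_of_nonneg_right h4 h6]
    have h7 : (0 : ℝ) ≤ ((r + 2) * (r + 1) : ℕ) * ((((r + 2 + b).choose (r + 2) : ℕ) - (Fintype.card ι : ℝ)) + bx B X) := by
      have h8 : ((Fintype.card ι : ℕ) : ℝ) ≤ (((r + 2 + b).choose (r + 2) : ℕ) : ℝ) := by exact_mod_cast boll_card h
      have h9 : (0 : ℝ) ≤ (bx B X : ℝ) := Nat.cast_nonneg _
      refine mul_nonneg (Nat.cast_nonneg _) (by linarith)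
    exact le_trans (mul_nonpos_of_nonneg_of_nonpos hE h5) h7

private theorem Light_sq (D B : ι → Finset α) (X : Finset α) (M0 : ℝ) (hM : ∀ x ∈ X, (dg D x : ℝ) ≤ M0) :
    (dx D B X : ℝ) ^ 2 ≤ M0 * ∑ x ∈ X, (dg D x : ℝ) + ∑ x ∈ X, ∑ y ∈ X, (if x ≠ y then (dg D x : ℝ) * (dg D y : ℝ) else 0) := by
  have h1 : (dx D B X : ℝ) ≤ ∑ x ∈ X, (dg D x : ℝ) := by exact_mod_cast Light_dx_le D B X
  have h2 : (dx D B X : ℝ) ^ 2 ≤ (∑ x ∈ X, (dg D x : ℝ)) ^ 2 := pow_le_pow_left₀ (Nat.cast_nonneg _) h1 2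
  refine le_trans h2 ?_
  rw [sq, sum_mul_sum, mul_sum, ← sum_add_distrib]
  refine sum_le_sum fun x hx => ?_
  have h3 : ∑ y ∈ X, (dg D x : ℝ) * (dg D y : ℝ) =
      (dg D x : ℝ) * (dg D x : ℝ) + ∑ y ∈ X, (if x ≠ y then (dg D x : ℝ) * (dg D y : ℝ) else 0) := by
    have h4 : ∑ y ∈ X, (dg D x : ℝ) * (dg D y : ℝ) =
        ∑ y ∈ X, ((if x = y then (dg D x : ℝ) * (dg D y : ℝ) else 0) + (if x ≠ y then (dg D x : ℝ) * (dg D y : ℝ) else 0)) := by
      refine sum_congr rfl fun y _ => ?_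
      by_cases hxy : x = y
      · simp [hxy]
      · simp [hxy]
    rw [h4, sum_add_distrib, sum_ite_eq, if_pos hx]
  rw [h3]
  have h5 : (dg D x : ℝ) * (dg D x : ℝ) ≤ M0 * (dg D x : ℝ) := mul_le_mul_of_nonneg_right (hM x hx) (Nat.cast_nonneg _)
  linarith

private theorem Light_cls {q : ℕ} (L : Finset α) (c : α → Fin q) (w : α → α → ℝ) :
    ∑ s : Fin q, ∑ x ∈ L.filter (fun x => c x = s), ∑ y ∈ L.filter (fun y => c y = s), (if x ≠ y then w x y else 0) =
      ∑ x ∈ L, ∑ y ∈ L, (if x ≠ y ∧ c x = c y then w x y else 0) := by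
  have h1 : ∀ s : Fin q, ∑ x ∈ L.filter (fun x => c x = s), ∑ y ∈ L.filter (fun y => c y = s), (if x ≠ y then w x y else 0) =
      ∑ x ∈ L.filter (fun x => c x = s), ∑ y ∈ L, (if x ≠ y ∧ c x = c y then w x y else 0) := by
    intro s
    refine sum_congr rfl fun x hx => ?_
    rw [mem_filter] at hx
    rw [sum_filter]
    refine sum_congr rfl fun y _ => ?_
    by_cases hy : c y = s
    · rw [if_pos hy]
      by_cases hxy : x ≠ y
      · rw [if_pos hxy, if_pos ⟨hxy, hx.2.trans hy.symm⟩]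
      · rw [if_neg hxy, if_neg fun h => hxy h.1]
    · rw [if_neg hy, if_neg fun h => hy (h.2.symm.trans hx.2)]
  rw [sum_congr rfl fun s _ => h1 s]
  exact sum_fiberwise L c _

/-- PROOF. `E := (r + 2) (b + 1) - m - (r + 2) (r + 1) ≥ 0`, `cc := (r + 1)! / m ^ (r + 1)`, `γ := C - card ι ≥ 0` (`boll_card`). For every set `X`: `E * dx X ≤ (r + 2) (r + 1) (γ + bx X) + E * cc * dx X ^ 2` (if `(r + 1)! * dx X ≤ m ^ (r + 1)` by `grp`,
otherwise `dx X ≤ cc * dx X ^ 2`). Colour `L` by `colour` with `w x y = #{i | x ∈ D i, y ∈ D i ∪ B i} + cc * dg D x * dg D y`; classes `X_1, …, X_q`. `∑ bx (X_s) ≤ td B L`; `dx (X_s) ≥ ∑ x ∈ X_s, dg D x - #{(i, x, y) | x ≠ y in X_s, x ∈ D i, y ∈ D i ∪ B i}`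
(for fixed `i` with `t = #(D i ∩ X_s)`: if `B i` meets `X_s` every `x` has a partner; otherwise `t - t (t - 1) ≤ 1`); `dx (X_s) ^ 2 ≤ (∑ x ∈ X_s, dg D x) ^ 2 ≤ M0 * ∑ x ∈ X_s, dg D x + ∑ x ≠ y in X_s, dg D x * dg D y`.
The sum of `w` over all `x ≠ y` in `L` is at most `N * td D L + cc * td D L ^ 2`. Add over the classes. -/
theorem light {r b : ℕ} {D B : ι → Finset α} (h : Boll (r + 2) b D B) (L : Finset α) (M0 : ℝ) (hM : ∀ x ∈ L, (dg D x : ℝ) ≤ M0)
    (m q : ℕ) (hm : 1 ≤ m) (hq : 1 ≤ q) (hE : (0 : ℝ) ≤ ((r + 2) * (b + 1) : ℕ) - (m : ℝ) - ((r + 2) * (r + 1) : ℕ)) :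
    (((r + 2) * (b + 1) : ℕ) - (m : ℝ) - ((r + 2) * (r + 1) : ℕ)) * (td D L *
      (1 - ((r + 2 + b : ℕ) : ℝ) / q - ((r + 1).factorial : ℝ) / (m : ℝ) ^ (r + 1) * (M0 + td D L / q))) ≤
      ((r + 2) * (r + 1) : ℕ) * ((q : ℝ) * (((r + 2 + b).choose (r + 2) : ℕ) - (Fintype.card ι : ℝ)) + td B L) := by
  obtain ⟨c, hc⟩ := colour L (fun x y => (Light_pr D B x y : ℝ) +
    ((r + 1).factorial : ℝ) / (m : ℝ) ^ (r + 1) * ((dg D x : ℝ) * (dg D y : ℝ))) q hq (fun x y => by positivity)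
  have hm0 : (0 : ℝ) < (m : ℝ) := by exact_mod_cast hm
  have hq0 : (0 : ℝ) < (q : ℝ) := by exact_mod_cast hq
  obtain ⟨cc, hcc⟩ : ∃ cc : ℝ, cc = ((r + 1).factorial : ℝ) / (m : ℝ) ^ (r + 1) := ⟨_, rfl⟩
  obtain ⟨E, hEE⟩ : ∃ E : ℝ, E = ((r + 2) * (b + 1) : ℕ) - (m : ℝ) - ((r + 2) * (r + 1) : ℕ) := ⟨_, rfl⟩
  have hone := fun s : Fin q => Light_one h (L.filter fun x => c x = s) m hm hE
  rw [← hcc] at hc ⊢
  rw [← hEE] at hE ⊢
  simp only [← hcc, ← hEE] at hone
  have hcc0 : 0 ≤ cc := by rw [hcc]; positivity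
  -- the sum over the classes
  have hsum : E * ∑ s : Fin q, ((dx D B (L.filter fun x => c x = s) : ℝ) - cc * (dx D B (L.filter fun x => c x = s) : ℝ) ^ 2) ≤
      ((r + 2) * (r + 1) : ℕ) * ((q : ℝ) * (((r + 2 + b).choose (r + 2) : ℕ) - (Fintype.card ι : ℝ)) + td B L) := by
    rw [mul_sum]
    refine le_trans (sum_le_sum fun s _ => hone s) ?_
    rw [← mul_sum, sum_add_distrib, sum_const, card_univ, Fintype.card_fin, nsmul_eq_mul]
    refine mul_le_mul_of_nonneg_left ?_ (Nat.cast_nonneg _)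
    have h1 : ∑ s : Fin q, (bx B (L.filter fun x => c x = s) : ℝ) ≤ (td B L : ℝ) := by
      have h2 : ∑ s : Fin q, bx B (L.filter fun x => c x = s) ≤ td B L := by
        rw [td, ← sum_fiberwise L c (fun x => dg B x)]
        exact sum_le_sum fun s _ => Light_bx_le B _
      exact_mod_cast h2
    linarith
  refine le_trans (mul_le_mul_of_nonneg_left ?_ hE) hsum
  -- the lower bound for the sum
  have hge : ∀ s : Fin q, ∑ x ∈ L.filter (fun x => c x = s), (dg D x : ℝ) - cc * (M0 * ∑ x ∈ L.filter (fun x => c x = s), (dg D x : ℝ)) -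
      ∑ x ∈ L.filter (fun x => c x = s), ∑ y ∈ L.filter (fun y => c y = s),
        (if x ≠ y then (Light_pr D B x y : ℝ) + cc * ((dg D x : ℝ) * (dg D y : ℝ)) else 0) ≤
      (dx D B (L.filter fun x => c x = s) : ℝ) - cc * (dx D B (L.filter fun x => c x = s) : ℝ) ^ 2 := by
    intro s
    have h1 : ∑ x ∈ L.filter (fun x => c x = s), (dg D x : ℝ) ≤ (dx D B (L.filter fun x => c x = s) : ℝ) +
        ∑ x ∈ L.filter (fun x => c x = s), ∑ y ∈ L.filter (fun y => c y = s), (if x ≠ y then (Light_pr D B x y : ℝ) else 0) := by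
      exact_mod_cast Light_dx_ge h (L.filter fun x => c x = s)
    have h2 := mul_le_mul_of_nonneg_left (Light_sq D B (L.filter fun x => c x = s) M0 fun x hx => hM x (mem_filter.1 hx).1) hcc0
    have h3 : ∑ x ∈ L.filter (fun x => c x = s), ∑ y ∈ L.filter (fun y => c y = s),
        (if x ≠ y then (Light_pr D B x y : ℝ) + cc * ((dg D x : ℝ) * (dg D y : ℝ)) else 0) =
        ∑ x ∈ L.filter (fun x => c x = s), ∑ y ∈ L.filter (fun y => c y = s), (if x ≠ y then (Light_pr D B x y : ℝ) else 0) +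
        cc * ∑ x ∈ L.filter (fun x => c x = s), ∑ y ∈ L.filter (fun y => c y = s), (if x ≠ y then (dg D x : ℝ) * (dg D y : ℝ) else 0) := by
      rw [mul_sum, ← sum_add_distrib]
      refine sum_congr rfl fun x _ => ?_
      rw [mul_sum, ← sum_add_distrib]
      refine sum_congr rfl fun y _ => ?_
      split_ifs
      · rfl
      · simp
    rw [h3]
    rw [mul_add] at h2
    linarith
  refine le_trans ?_ (sum_le_sum fun s _ => hge s)
  rw [sum_sub_distrib, sum_sub_distrib, Light_cls L c (fun x y => (Light_pr D B x y : ℝ) + cc * ((dg D x : ℝ) * (dg D y : ℝ))),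
    ← mul_sum, ← mul_sum, sum_fiberwise L c (fun x => (dg D x : ℝ))]
  have htd : ∑ x ∈ L, (dg D x : ℝ) = (td D L : ℝ) := by rw [td]; push_cast; rfl
  rw [htd]
  -- the total weight
  have hall : ∑ x ∈ L, ∑ y ∈ L, (if x ≠ y then (Light_pr D B x y : ℝ) + cc * ((dg D x : ℝ) * (dg D y : ℝ)) else 0) ≤
      ((r + 2 + b : ℕ) : ℝ) * (td D L : ℝ) + cc * (td D L : ℝ) ^ 2 := by
    have h1 : ∑ x ∈ L, ∑ y ∈ L, (if x ≠ y then (Light_pr D B x y : ℝ) else 0) ≤ ((r + 2 + b : ℕ) : ℝ) * (td D L : ℝ) := by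
      have h2 := Light_pairs h L
      have h3 : ((∑ x ∈ L, ∑ y ∈ L, (if x ≠ y then Light_pr D B x y else 0) : ℕ) : ℝ) ≤ (((r + 2 + b) * ∑ x ∈ L, dg D x : ℕ) : ℝ) := by
        exact_mod_cast h2
      rw [← htd]
      push_cast at h3 ⊢
      exact h3
    have h4 : ∑ x ∈ L, ∑ y ∈ L, (if x ≠ y then (dg D x : ℝ) * (dg D y : ℝ) else 0) ≤ (td D L : ℝ) ^ 2 := by
      rw [← htd, sq, sum_mul_sum]
      refine sum_le_sum fun x _ => sum_le_sum fun y _ => ?_
      split_ifs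
      · exact le_rfl
      · positivity
    have h5 : ∑ x ∈ L, ∑ y ∈ L, (if x ≠ y then (Light_pr D B x y : ℝ) + cc * ((dg D x : ℝ) * (dg D y : ℝ)) else 0) =
        ∑ x ∈ L, ∑ y ∈ L, (if x ≠ y then (Light_pr D B x y : ℝ) else 0) +
        cc * ∑ x ∈ L, ∑ y ∈ L, (if x ≠ y then (dg D x : ℝ) * (dg D y : ℝ) else 0) := by
      rw [mul_sum, ← sum_add_distrib]
      refine sum_congr rfl fun x _ => ?_
      rw [mul_sum, ← sum_add_distrib]
      refine sum_congr rfl fun y _ => ?_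
      split_ifs
      · rfl
      · simp
    rw [h5]
    have h6 := mul_le_mul_of_nonneg_left h4 hcc0
    linarith
  have hfin : ∑ x ∈ L, ∑ y ∈ L, (if x ≠ y ∧ c x = c y then (Light_pr D B x y : ℝ) + cc * ((dg D x : ℝ) * (dg D y : ℝ)) else 0) ≤
      (((r + 2 + b : ℕ) : ℝ) * (td D L : ℝ) + cc * (td D L : ℝ) ^ 2) / q := by
    rw [le_div_iff₀ hq0, mul_comm]
    exact le_trans hc hall
  have halg : (td D L : ℝ) * (1 - ((r + 2 + b : ℕ) : ℝ) / q - cc * (M0 + td D L / q)) =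
      (td D L : ℝ) - cc * (M0 * (td D L : ℝ)) - (((r + 2 + b : ℕ) : ℝ) * (td D L : ℝ) + cc * (td D L : ℝ) ^ 2) / q := by
    field_simp
    ring
  rw [halg]
  linarith

end Pool.Agent.Lib.MP_20855c_co.LB
end
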