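import Mathlib

section

/-!
# MP_20855c_co, large b: definitions

`k = a - 2`. `Dd i = A i \ B i` (`k` points), `Cc i = A i ∩ B i` (the cores, 2 points).
`Y` is a set of `k + b` points. Lists `L` of pairwise disjoint pairs: `good L T` (`rgood L P`) if the
first pair of `L` which does not meet the set in exactly one point exists and is disjoint from (contained in) it.
-/

set_option autoImplicit false

namespace Pool.Agent.Lib.MP_20855c_co.LB

open Finset

section lists

variable {α : Type} [DecidableEq α]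

/-- The first pair which does not meet `T` in one point exists and is disjoint from `T`. -/
def good : List (Finset α) → Finset α → Prop
  | [], _ => False
  | c :: L, T => if #(c ∩ T) = 1 then good L T else Disjoint c T

/-- The first pair which does not meet `T` in one point exists and is contained in `T`. -/
def rgood : List (Finset α) → Finset α → Prop
  | [], _ => False
  | c :: L, T => if #(c ∩ T) = 1 then rgood L T else c ⊆ T

/-- The first pair which does not meet `T` in one point. -/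
def fst1 : List (Finset α) → Finset α → Finset α
  | [], _ => ∅
  | c :: L, T => if #(c ∩ T) = 1 then fst1 L T else c

/-- All pairs meet `T` in one point. -/
def allsplit (L : List (Finset α)) (T : Finset α) : Prop := ∀ c ∈ L, #(c ∩ T) = 1

/-- The points of the pairs. -/
def VV (L : List (Finset α)) : Finset α := L.foldr (· ∪ ·) ∅

theorem mem_VV (L : List (Finset α)) (x : α) : x ∈ VV L ↔ ∃ c ∈ L, x ∈ c := by
  induction L with
  | nil => simp [VV]
  | cons c L ih =>
    have h : VV (c :: L) = c ∪ VV L := rfl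
    rw [h, mem_union, ih]
    simp

theorem VV_perm {L L' : List (Finset α)} (h : L.Perm L') : VV L = VV L' := by
  ext x
  rw [mem_VV, mem_VV]
  simp only [h.mem_iff]

theorem good_nil (T : Finset α) : ¬ good [] T := fun h => h

theorem good_cons_single {c : Finset α} {L : List (Finset α)} {T : Finset α} (h : #(c ∩ T) = 1) :
    good (c :: L) T ↔ good L T := by
  simp [good, h]

theorem good_cons_not {c : Finset α} {L : List (Finset α)} {T : Finset α} (h : #(c ∩ T) ≠ 1) :
    good (c :: L) T ↔ Disjoint c T := by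
  simp [good, h]

theorem rgood_nil (T : Finset α) : ¬ rgood [] T := fun h => h

theorem rgood_cons_single {c : Finset α} {L : List (Finset α)} {T : Finset α} (h : #(c ∩ T) = 1) :
    rgood (c :: L) T ↔ rgood L T := by
  simp [rgood, h]

theorem rgood_cons_not {c : Finset α} {L : List (Finset α)} {T : Finset α} (h : #(c ∩ T) ≠ 1) :
    rgood (c :: L) T ↔ c ⊆ T := by
  simp [rgood, h]

theorem fst1_cons_single {c : Finset α} {L : List (Finset α)} {T : Finset α} (h : #(c ∩ T) = 1) :
    fst1 (c :: L) T = fst1 L T := by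
  simp [fst1, h]

theorem fst1_cons_not {c : Finset α} {L : List (Finset α)} {T : Finset α} (h : #(c ∩ T) ≠ 1) :
    fst1 (c :: L) T = c := by
  simp [fst1, h]

end lists

section systems

variable {ι α : Type} [Fintype ι] [DecidableEq α]

/-- A system: `a = k + 2`. -/
structure IsSys (k b : ℕ) (A B : ι → Finset α) : Prop where
  card_left : ∀ i, #(A i) = k + 2
  card_right : ∀ i, #(B i) = b
  card_inter : ∀ i, #(A i ∩ B i) = 2
  not_sub : ∀ i j l, i ≠ j → ¬ A i ∩ B j ⊆ A l ∩ B l

/-- The differences. -/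
def Dd (A B : ι → Finset α) (i : ι) : Finset α := A i \ B i

/-- The cores. -/
def Cc (A B : ι → Finset α) (i : ι) : Finset α := A i ∩ B i

variable (k : ℕ) (A B : ι → Finset α) (Y : Finset α)

/-- The indices with `D_i` not inside `Y`. -/
def Out : Finset ι := univ.filter fun i => ¬ Dd A B i ⊆ Y

/-- The indices with `A_i` inside `Y`. -/
def cA : Finset ι := univ.filter fun i => A i ⊆ Y

/-- The indices with `D_i` inside `Y`, but not `A_i`. -/
def cI : Finset ι := univ.filter fun i => Dd A B i ⊆ Y ∧ ¬ A i ⊆ Y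

/-- The missing sets. -/
def miss : Finset (Finset α) := (powersetCard k Y).filter fun T => ∀ i, Dd A B i ≠ T

/-- The `k`-subsets of `Y` which are disjoint from some `B_i` and different from `D_i`. -/
def MJ : Finset (Finset α) := (powersetCard k Y).filter fun T => ∃ i, Disjoint T (B i) ∧ T ≠ Dd A B i

/-- The largest number of points of a set `B_i` outside `Y`. -/
def sm : ℕ := univ.sup fun i => #(B i \ Y)

/-- The total number of points outside `Y` of the sets `B_i` with `D_i` inside `Y`. -/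
def sg : ℕ := ∑ i ∈ univ.filter (fun i => Dd A B i ⊆ Y), #(B i \ Y)

open scoped Classical in
/-- The good sets. -/
noncomputable def Gd (L : List (Finset α)) : Finset (Finset α) := (powersetCard k Y).filter (good L)

open scoped Classical in
/-- The sets meeting all pairs in one point. -/
noncomputable def AS (L : List (Finset α)) : Finset (Finset α) := (powersetCard k Y).filter (allsplit L)

open scoped Classical in
/-- The free sets: rgood, removing a pair gives neither a set `D_i` nor a set of `MJ`, and no used row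
(`A_l` with `C_l` in the list or `D_l` not good). -/
noncomputable def Fr (L : List (Finset α)) : Finset (Finset α) :=
  (powersetCard (k + 2) Y).filter fun P => rgood L P ∧
    (∀ c ∈ L, c ⊆ P → P \ c ∉ MJ k A B Y ∧ ∀ i, Dd A B i ≠ P \ c) ∧
    ∀ l, A l = P → Cc A B l ∉ L ∧ good L (Dd A B l)

/-- The gain of an order. -/
noncomputable def GG (L : List (Finset α)) : ℕ := #(MJ k A B Y ∩ Gd k Y L) + #(Fr k A B Y L)

/-- `L` consists of pairwise disjoint cores inside `Y`. -/
structure KL (L : List (Finset α)) : Prop where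
  pw : L.Pairwise Disjoint
  core : ∀ c ∈ L, c ⊆ Y ∧ ∃ l, Cc A B l = c

/-- `D_j` and `B_l` meet outside `Y`. -/
def dconf (j l : ι) : Prop := ¬ Disjoint (Dd A B j \ Y) (B l)

/-- `A_j` and `B_l` meet outside `Y`. -/
def aconf (j l : ι) : Prop := ¬ Disjoint (A j \ Y) (B l)

/-- The class B: `D_l` inside `Y`, `B_l` not. -/
def cB : Finset ι := univ.filter fun l => Dd A B l ⊆ Y ∧ ¬ B l ⊆ Y

variable {k A B Y}

theorem mem_Out {i : ι} : i ∈ Out A B Y ↔ ¬ Dd A B i ⊆ Y := by simp [Out]

theorem mem_cA {i : ι} : i ∈ cA A Y ↔ A i ⊆ Y := by simp [cA]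

theorem mem_cI {i : ι} : i ∈ cI A B Y ↔ Dd A B i ⊆ Y ∧ ¬ A i ⊆ Y := by simp [cI]

theorem mem_cB {i : ι} : i ∈ cB A B Y ↔ Dd A B i ⊆ Y ∧ ¬ B i ⊆ Y := by simp [cB]

theorem mem_miss {T : Finset α} : T ∈ miss k A B Y ↔ T ⊆ Y ∧ #T = k ∧ ∀ i, Dd A B i ≠ T := by
  simp [miss, mem_powersetCard, and_assoc]

theorem mem_MJ {T : Finset α} :
    T ∈ MJ k A B Y ↔ T ⊆ Y ∧ #T = k ∧ ∃ i, Disjoint T (B i) ∧ T ≠ Dd A B i := by
  simp [MJ, mem_powersetCard, and_assoc]

theorem mem_Gd {L : List (Finset α)} {T : Finset α} : T ∈ Gd k Y L ↔ T ⊆ Y ∧ #T = k ∧ good L T := by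
  simp [Gd, mem_powersetCard, and_assoc]

theorem mem_AS {L : List (Finset α)} {T : Finset α} : T ∈ AS k Y L ↔ T ⊆ Y ∧ #T = k ∧ allsplit L T := by
  simp [AS, mem_powersetCard, and_assoc]

theorem mem_Fr {L : List (Finset α)} {P : Finset α} : P ∈ Fr k A B Y L ↔ P ⊆ Y ∧ #P = k + 2 ∧ rgood L P ∧
    (∀ c ∈ L, c ⊆ P → P \ c ∉ MJ k A B Y ∧ ∀ i, Dd A B i ≠ P \ c) ∧
    ∀ l, A l = P → Cc A B l ∉ L ∧ good L (Dd A B l) := by
  simp only [Fr, mem_filter, mem_powersetCard, and_assoc]

theorem le_sm (i : ι) : #(B i \ Y) ≤ sm B Y := Finset.le_sup (f := fun i => #(B i \ Y)) (mem_univ i)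

omit [Fintype ι] in
theorem KL.perm {L L' : List (Finset α)} (h : KL A B Y L) (hp : L.Perm L') : KL A B Y L' :=
  ⟨(hp.pairwise_iff (fun hd => Disjoint.symm hd)).1 h.pw, fun c hc => h.core c (hp.mem_iff.2 hc)⟩

omit [Fintype ι] in
theorem KL.cons {L : List (Finset α)} {c : Finset α} (h : KL A B Y (c :: L)) : KL A B Y L :=
  ⟨(List.pairwise_cons.1 h.pw).2, fun d hd => h.core d (List.mem_cons_of_mem _ hd)⟩

end systems

end Pool.Agent.Lib.MP_20855c_co.LB
end

section

/-!
# MP_20855c_co, large b: facts on lists of pairwise disjoint pairs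

All by induction on the list. A pair `c` with `#c = 2` meets `T` in 0, 1 or 2 points.
-/

set_option autoImplicit false

namespace Pool.Agent.Lib.MP_20855c_co.LB

open Finset

variable {α : Type} [DecidableEq α]

theorem L_pair {c T : Finset α} (h2 : #c = 2) : Disjoint c T ∨ #(c ∩ T) = 1 ∨ c ⊆ T := by
  have h1 : #(c ∩ T) ≤ 2 := h2 ▸ card_le_card inter_subset_left
  rcases Nat.lt_or_ge (#(c ∩ T)) 1 with h | h
  · left
    rw [disjoint_iff_inter_eq_empty, ← card_eq_zero]
    omega
  · rcases Nat.eq_or_lt_of_le h with h' | h'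
    · right; left; exact h'.symm
    · right; right
      have : c ∩ T = c := eq_of_subset_of_card_le inter_subset_left (by omega)
      exact inter_eq_left.1 this

theorem L_dis_card {c T : Finset α} (h : Disjoint c T) : #(c ∩ T) = 0 := by
  rw [card_eq_zero, ← disjoint_iff_inter_eq_empty]; exact h

theorem L_sub_card {c T : Finset α} (h2 : #c = 2) (h : c ⊆ T) : #(c ∩ T) = 2 := by
  rw [inter_eq_left.2 h, h2]

/-- Trichotomy. -/
theorem L_tri {L : List (Finset α)} {T : Finset α} (h2 : ∀ c ∈ L, #c = 2) :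
    good L T ∨ rgood L T ∨ allsplit L T := by
  induction L with
  | nil => right; right; intro c hc; simp at hc
  | cons c L ih =>
    have ih' := ih (fun d hd => h2 d (List.mem_cons_of_mem _ hd))
    have hc2 : #c = 2 := h2 c List.mem_cons_self
    by_cases h1 : #(c ∩ T) = 1
    · rw [good_cons_single h1, rgood_cons_single h1]
      rcases ih' with h | h | h
      · left; exact h
      · right; left; exact h
      · right; right
        intro d hd
        rcases List.mem_cons.1 hd with rfl | hd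
        · exact h1
        · exact h d hd
    · rw [good_cons_not h1, rgood_cons_not h1]
      rcases L_pair (T := T) hc2 with h | h | h
      · left; exact h
      · exact absurd h h1
      · right; left; exact h

theorem good_fst {L : List (Finset α)} {T : Finset α} (h2 : ∀ c ∈ L, #c = 2) (h : good L T) :
    fst1 L T ∈ L ∧ Disjoint (fst1 L T) T := by
  induction L with
  | nil => exact absurd h (good_nil T)
  | cons c L ih =>
    by_cases h1 : #(c ∩ T) = 1
    · rw [good_cons_single h1] at h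
      rw [fst1_cons_single h1]
      have := ih (fun d hd => h2 d (List.mem_cons_of_mem _ hd)) h
      exact ⟨List.mem_cons_of_mem _ this.1, this.2⟩
    · rw [good_cons_not h1] at h
      rw [fst1_cons_not h1]
      exact ⟨List.mem_cons_self, h⟩

theorem rgood_fst {L : List (Finset α)} {T : Finset α} (h2 : ∀ c ∈ L, #c = 2) (h : rgood L T) :
    fst1 L T ∈ L ∧ fst1 L T ⊆ T := by
  induction L with
  | nil => exact absurd h (rgood_nil T)
  | cons c L ih =>
    by_cases h1 : #(c ∩ T) = 1
    · rw [rgood_cons_single h1] at h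
      rw [fst1_cons_single h1]
      have := ih (fun d hd => h2 d (List.mem_cons_of_mem _ hd)) h
      exact ⟨List.mem_cons_of_mem _ this.1, this.2⟩
    · rw [rgood_cons_not h1] at h
      rw [fst1_cons_not h1]
      exact ⟨List.mem_cons_self, h⟩

theorem L_inter_union {c d T : Finset α} (h : Disjoint c d) : c ∩ (T ∪ d) = c ∩ T := by
  rw [inter_union_distrib_left, disjoint_iff_inter_eq_empty.1 h, union_empty]

theorem L_inter_sdiff {c d T : Finset α} (h : Disjoint c d) : c ∩ (T \ d) = c ∩ T := by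
  ext x
  simp only [mem_inter, mem_sdiff]
  constructor
  · rintro ⟨h1, h2, _⟩; exact ⟨h1, h2⟩
  · rintro ⟨h1, h2⟩; exact ⟨h1, h2, fun h3 => disjoint_left.1 h h1 h3⟩

/-- Adding the first pair to a good set. (The other pairs of `L` are disjoint from the first one.) -/
theorem good_union {L : List (Finset α)} {T : Finset α} (hp : L.Pairwise Disjoint) (h2 : ∀ c ∈ L, #c = 2)
    (h : good L T) : rgood L (T ∪ fst1 L T) ∧ fst1 L (T ∪ fst1 L T) = fst1 L T := by
  induction L with
  | nil => exact absurd h (good_nil T)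
  | cons c L ih =>
    by_cases h1 : #(c ∩ T) = 1
    · rw [good_cons_single h1] at h
      rw [fst1_cons_single h1]
      have h2' : ∀ d ∈ L, #d = 2 := fun d hd => h2 d (List.mem_cons_of_mem _ hd)
      have hp' := List.pairwise_cons.1 hp
      have ih' := ih hp'.2 h2' h
      have hm := good_fst h2' h
      have hd : c ∩ (T ∪ fst1 L T) = c ∩ T := L_inter_union (hp'.1 _ hm.1)
      have h3 : #(c ∩ (T ∪ fst1 L T)) = 1 := by rw [hd]; exact h1
      rw [rgood_cons_single h3, fst1_cons_single h3]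
      exact ih'
    · rw [good_cons_not h1] at h
      rw [fst1_cons_not h1]
      have hsub : c ⊆ T ∪ c := subset_union_right
      have h3 : #(c ∩ (T ∪ c)) ≠ 1 := by
        rw [L_sub_card (h2 c List.mem_cons_self) hsub]; decide
      rw [rgood_cons_not h3, fst1_cons_not h3]
      exact ⟨hsub, rfl⟩

/-- Removing the first pair from an rgood set. -/
theorem rgood_sdiff {L : List (Finset α)} {P : Finset α} (hp : L.Pairwise Disjoint) (h2 : ∀ c ∈ L, #c = 2)
    (h : rgood L P) : good L (P \ fst1 L P) ∧ fst1 L (P \ fst1 L P) = fst1 L P := by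
  induction L with
  | nil => exact absurd h (rgood_nil P)
  | cons c L ih =>
    by_cases h1 : #(c ∩ P) = 1
    · rw [rgood_cons_single h1] at h
      rw [fst1_cons_single h1]
      have h2' : ∀ d ∈ L, #d = 2 := fun d hd => h2 d (List.mem_cons_of_mem _ hd)
      have hp' := List.pairwise_cons.1 hp
      have ih' := ih hp'.2 h2' h
      have hm := rgood_fst h2' h
      have hd : c ∩ (P \ fst1 L P) = c ∩ P := L_inter_sdiff (hp'.1 _ hm.1)
      have h3 : #(c ∩ (P \ fst1 L P)) = 1 := by rw [hd]; exact h1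
      rw [good_cons_single h3, fst1_cons_single h3]
      exact ih'
    · rw [rgood_cons_not h1] at h
      rw [fst1_cons_not h1]
      have hdis : Disjoint c (P \ c) := disjoint_sdiff
      have h3 : #(c ∩ (P \ c)) ≠ 1 := by
        rw [L_dis_card hdis]; decide
      rw [good_cons_not h3, fst1_cons_not h3]
      exact ⟨hdis, rfl⟩

/-- Removing another full pair from an rgood set leaves the first pair full. -/
theorem rgood_sdiff_ne {L : List (Finset α)} {P c : Finset α} (hp : L.Pairwise Disjoint) (h2 : ∀ c ∈ L, #c = 2)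
    (h : rgood L P) (hc : c ∈ L) (hcP : c ⊆ P) (hne : c ≠ fst1 L P) : ¬ good L (P \ c) := by
  induction L with
  | nil => exact absurd h (rgood_nil P)
  | cons d L ih =>
    have hd2 : #d = 2 := h2 d List.mem_cons_self
    have h2' : ∀ d ∈ L, #d = 2 := fun d hd => h2 d (List.mem_cons_of_mem _ hd)
    have hp' := List.pairwise_cons.1 hp
    by_cases h1 : #(d ∩ P) = 1
    · rw [rgood_cons_single h1] at h
      rw [fst1_cons_single h1] at hne
      rcases List.mem_cons.1 hc with rfl | hc'
      · rw [L_sub_card hd2 hcP] at h1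
        omega
      · have ih' := ih hp'.2 h2' h hc' hne
        have hdd : d ∩ (P \ c) = d ∩ P := L_inter_sdiff (hp'.1 _ hc')
        have h3 : #(d ∩ (P \ c)) = 1 := by rw [hdd]; exact h1
        rw [good_cons_single h3]
        exact ih'
    · rw [rgood_cons_not h1] at h
      rw [fst1_cons_not h1] at hne
      rcases List.mem_cons.1 hc with rfl | hc'
      · exact absurd rfl hne
      · have hdd : d ∩ (P \ c) = d ∩ P := L_inter_sdiff (hp'.1 _ hc')
        have h3 : #(d ∩ (P \ c)) = 2 := by rw [hdd]; exact L_sub_card hd2 h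
        have h4 : #(d ∩ (P \ c)) ≠ 1 := by omega
        rw [good_cons_not h4]
        intro h5
        rw [L_dis_card h5] at h3
        omega

/-- A set which is not good and not all-split contains a pair. -/
theorem not_good {L : List (Finset α)} {T : Finset α} (h2 : ∀ c ∈ L, #c = 2) (h : ¬ good L T) :
    allsplit L T ∨ ∃ c ∈ L, c ⊆ T := by
  rcases L_tri (T := T) h2 with h' | h' | h'
  · exact absurd h' h
  · right
    exact ⟨_, rgood_fst h2 h'⟩
  · left; exact h'

/-- A good set is not all-split. -/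
theorem good_not_allsplit {L : List (Finset α)} {T : Finset α} (h2 : ∀ c ∈ L, #c = 2) (h : good L T) :
    ¬ allsplit L T := by
  intro ha
  have hm := good_fst h2 h
  have := ha _ hm.1
  rw [L_dis_card hm.2] at this
  omega

/-- If `T` contains no pair of `L` and is not all-split then it is good. -/
theorem good_of_no_pair {L : List (Finset α)} {T : Finset α} (h2 : ∀ c ∈ L, #c = 2)
    (h : ∀ c ∈ L, ¬ c ⊆ T) (hn : ¬ allsplit L T) : good L T := by
  rcases L_tri (T := T) h2 with h' | h' | h'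
  · exact h'
  · have := rgood_fst h2 h'
    exact absurd this.2 (h _ this.1)
  · exact absurd h' hn

/-- If the pairs of `L₁` are met in at most one point, one of them in no point, then `T` is good for `L₁ ++ L₂`. -/
theorem good_append {L₁ L₂ : List (Finset α)} {T : Finset α} (h1 : ∀ c ∈ L₁, #(c ∩ T) ≤ 1)
    (h : ∃ c ∈ L₁, Disjoint c T) : good (L₁ ++ L₂) T := by
  induction L₁ with
  | nil => obtain ⟨c, hc, _⟩ := h; simp at hc
  | cons c L ih =>
    rw [List.cons_append]
    by_cases h3 : #(c ∩ T) = 1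
    · rw [good_cons_single h3]
      obtain ⟨d, hd, hdT⟩ := h
      rcases List.mem_cons.1 hd with rfl | hd'
      · rw [L_dis_card hdT] at h3
        omega
      · exact ih (fun e he => h1 e (List.mem_cons_of_mem _ he)) ⟨d, hd', hdT⟩
    · rw [good_cons_not h3]
      have := h1 c List.mem_cons_self
      rw [disjoint_iff_inter_eq_empty, ← card_eq_zero]
      omega

/-- If `T` meets all pairs but `c` and `d` in one point, `c` in no point, then `T` is good for `L` or for the reversed list. -/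
theorem good_or_reverse {L : List (Finset α)} {T c d : Finset α} (hc : c ∈ L) (hcT : Disjoint c T)
    (hcd : c ≠ d) (h : ∀ e ∈ L, e ≠ c → e ≠ d → #(e ∩ T) = 1) (hn : L.Nodup) : good L T ∨ good L.reverse T := by
  obtain ⟨L₁, L₂, rfl⟩ := List.append_of_mem hc
  have hc0 : #(c ∩ T) ≤ 1 := by rw [L_dis_card hcT]; omega
  by_cases hd : d ∈ L₁
  · right
    have hr : (L₁ ++ c :: L₂).reverse = (L₂.reverse ++ [c]) ++ L₁.reverse := by
      simp
    rw [hr]
    apply good_append
    · intro e he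
      rcases List.mem_append.1 he with he | he
      · have he' : e ∈ L₂ := List.mem_reverse.1 he
        by_cases hec : e = c
        · rw [hec]; exact hc0
        · have hed : e ≠ d := by
            rintro rfl
            rw [List.nodup_append] at hn
            exact hn.2.2 e hd e (List.mem_cons_of_mem _ he') rfl
          rw [h e (by simp [he']) hec hed]
      · rw [List.mem_singleton] at he
        rw [he]; exact hc0
    · exact ⟨c, by simp, hcT⟩
  · left
    have hr : (L₁ ++ c :: L₂) = (L₁ ++ [c]) ++ L₂ := by simp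
    rw [hr]
    apply good_append
    · intro e he
      rcases List.mem_append.1 he with he | he
      · by_cases hec : e = c
        · rw [hec]; exact hc0
        · have hed : e ≠ d := by
            rintro rfl
            exact hd he
          rw [h e (by simp [he]) hec hed]
      · rw [List.mem_singleton] at he
        rw [he]; exact hc0
    · exact ⟨c, by simp, hcT⟩

/-- All-split sets have at least as many points as there are pairs. -/
theorem allsplit_length {L : List (Finset α)} {T : Finset α} (hp : L.Pairwise Disjoint)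
    (h : allsplit L T) : L.length ≤ #T := by
  have key : ∀ (L : List (Finset α)), L.Pairwise Disjoint → allsplit L T → L.length ≤ #(T ∩ VV L) := by
    intro L
    induction L with
    | nil => intro _ _; simp
    | cons c L ih =>
      intro hp h
      have hp' := List.pairwise_cons.1 hp
      have h1 : #(c ∩ T) = 1 := h c List.mem_cons_self
      have ih' := ih hp'.2 (fun d hd => h d (List.mem_cons_of_mem _ hd))
      have hV : VV (c :: L) = c ∪ VV L := rfl
      have hdis : Disjoint (c ∩ T) (T ∩ VV L) := by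
        rw [disjoint_left]
        intro x hx hx'
        obtain ⟨d, hd, hxd⟩ := (mem_VV L x).1 (mem_inter.1 hx').2
        exact disjoint_left.1 (hp'.1 d hd) (mem_inter.1 hx).1 hxd
      have hsub : (c ∩ T) ∪ (T ∩ VV L) ⊆ T ∩ VV (c :: L) := by
        rw [hV]
        intro x hx
        simp only [mem_union, mem_inter] at hx ⊢
        tauto
      have h4 := card_le_card hsub
      rw [card_union_of_disjoint hdis] at h4
      rw [List.length_cons]
      omega
  exact (key L hp h).trans (card_le_card inter_subset_left)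

end Pool.Agent.Lib.MP_20855c_co.LB
end

section

/-!
# MP_20855c_co, large b: the set pair inequality
-/

set_option autoImplicit false

namespace Pool.Agent.Lib.MP_20855c_co.LB

open Finset

theorem lym_aux {ι α : Type*} [DecidableEq α] (D : ι → Finset α) :
    ∀ (n : ℕ) (U : Finset α) (I : Finset ι) (B : ι → Finset α), #U = n →
      (∀ i ∈ I, D i ⊆ U) → (∀ i ∈ I, B i ⊆ U) → (∀ i ∈ I, Disjoint (D i) (B i)) →
      (∀ i ∈ I, ∀ j ∈ I, i ≠ j → ¬ Disjoint (D i) (B j)) →
      ∑ i ∈ I, (1 : ℝ) / ((#(D i) + #(B i)).choose #(D i) : ℕ) ≤ 1 := by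
  classical
  intro n
  induction n with
  | zero =>
    intro U I B hU hD hB h1 h2
    have hU0 : U = ∅ := card_eq_zero.mp hU
    have hI : #I ≤ 1 := by
      rw [card_le_one]
      intro i hi j hj
      by_contra hij
      apply h2 i hi j hj hij
      have h3 := hD i hi
      rw [hU0, subset_empty] at h3
      rw [h3]
      exact disjoint_empty_left _
    calc ∑ i ∈ I, (1 : ℝ) / ((#(D i) + #(B i)).choose #(D i) : ℕ) ≤ ∑ i ∈ I, (1 : ℝ) := by
          apply sum_le_sum
          intro i _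
          have h3 : 0 < (#(D i) + #(B i)).choose #(D i) := Nat.choose_pos (Nat.le_add_right _ _)
          have h4 : (1 : ℝ) ≤ ((#(D i) + #(B i)).choose #(D i) : ℕ) := by exact_mod_cast h3
          rw [div_le_one (by linarith)]
          exact h4
      _ = #I := by rw [sum_const, nsmul_eq_mul, mul_one]
      _ ≤ 1 := by exact_mod_cast hI
  | succ n ih =>
    intro U I B hU hD hB h1 h2
    by_cases hI : #I ≤ 1
    · calc ∑ i ∈ I, (1 : ℝ) / ((#(D i) + #(B i)).choose #(D i) : ℕ) ≤ ∑ i ∈ I, (1 : ℝ) := by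
            apply sum_le_sum
            intro i _
            have h3 : 0 < (#(D i) + #(B i)).choose #(D i) := Nat.choose_pos (Nat.le_add_right _ _)
            have h4 : (1 : ℝ) ≤ ((#(D i) + #(B i)).choose #(D i) : ℕ) := by exact_mod_cast h3
            rw [div_le_one (by linarith)]
            exact h4
        _ = #I := by rw [sum_const, nsmul_eq_mul, mul_one]
        _ ≤ 1 := by exact_mod_cast hI
    push Not at hI
    have hBne : ∀ i ∈ I, 1 ≤ #(B i) := by
      intro i hi
      by_contra hlt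
      have h3 : B i = ∅ := card_eq_zero.mp (by omega)
      obtain ⟨j, hj, hji⟩ := exists_mem_ne hI i
      apply h2 j hj i hi hji
      rw [h3]
      exact disjoint_empty_right _
    -- the inequality for every point
    have hx : ∀ x ∈ U, ∑ i ∈ I.filter (fun i => x ∉ D i),
        (1 : ℝ) / ((#(D i) + #((B i).erase x)).choose #(D i) : ℕ) ≤ 1 := by
      intro x hx
      apply ih (U.erase x) (I.filter fun i => x ∉ D i) (fun i => (B i).erase x)
      · rw [card_erase_of_mem hx, hU]
        omega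
      · intro i hi
        obtain ⟨hi, hxi⟩ := mem_filter.mp hi
        intro y hy
        exact mem_erase.mpr ⟨fun h => hxi (h ▸ hy), hD i hi hy⟩
      · intro i hi
        exact erase_subset_erase x (hB i (mem_filter.mp hi).1)
      · intro i hi
        exact (h1 i (mem_filter.mp hi).1).mono_right (erase_subset _ _)
      · intro i hi j hj hij hdis
        obtain ⟨hi, hxi⟩ := mem_filter.mp hi
        obtain ⟨y, hyD, hyB⟩ := not_disjoint_iff.mp (h2 i hi j (mem_filter.mp hj).1 hij)
        exact disjoint_left.mp hdis hyD (mem_erase.mpr ⟨fun h => hxi (h ▸ hyD), hyB⟩)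
    have hsum : ∑ x ∈ U, ∑ i ∈ I.filter (fun i => x ∉ D i),
        (1 : ℝ) / ((#(D i) + #((B i).erase x)).choose #(D i) : ℕ) ≤ (n + 1 : ℕ) := by
      calc _ ≤ ∑ x ∈ U, (1 : ℝ) := sum_le_sum hx
        _ = (n + 1 : ℕ) := by rw [sum_const, nsmul_eq_mul, mul_one, hU]
    have hswap : ∑ x ∈ U, ∑ i ∈ I.filter (fun i => x ∉ D i),
        (1 : ℝ) / ((#(D i) + #((B i).erase x)).choose #(D i) : ℕ) =
        ∑ i ∈ I, ∑ x ∈ U.filter (fun x => x ∉ D i),
        (1 : ℝ) / ((#(D i) + #((B i).erase x)).choose #(D i) : ℕ) := by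
      simp only [sum_filter]
      exact sum_comm
    rw [hswap] at hsum
    have hone : ∀ i ∈ I, ∑ x ∈ U.filter (fun x => x ∉ D i),
        (1 : ℝ) / ((#(D i) + #((B i).erase x)).choose #(D i) : ℕ) =
        (n + 1 : ℕ) * ((1 : ℝ) / ((#(D i) + #(B i)).choose #(D i) : ℕ)) := by
      intro i hi
      have hsplit : U.filter (fun x => x ∉ D i) = (U \ (D i ∪ B i)) ∪ B i := by
        ext x
        simp only [mem_filter, mem_union, mem_sdiff, not_or]
        constructor
        · rintro ⟨hxU, hxD⟩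
          by_cases hxB : x ∈ B i
          · exact Or.inr hxB
          · exact Or.inl ⟨hxU, hxD, hxB⟩
        · rintro (⟨hxU, hxD, -⟩ | hxB)
          · exact ⟨hxU, hxD⟩
          · exact ⟨hB i hi hxB, fun hxD => disjoint_left.mp (h1 i hi) hxD hxB⟩
      have hdis : Disjoint (U \ (D i ∪ B i)) (B i) := by
        rw [disjoint_left]
        intro x hx hxB
        exact (mem_sdiff.mp hx).2 (mem_union_right _ hxB)
      rw [hsplit, sum_union hdis]
      have hs1 : ∑ x ∈ U \ (D i ∪ B i),
          (1 : ℝ) / ((#(D i) + #((B i).erase x)).choose #(D i) : ℕ) =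
          #(U \ (D i ∪ B i)) * ((1 : ℝ) / ((#(D i) + #(B i)).choose #(D i) : ℕ)) := by
        rw [← nsmul_eq_mul, ← sum_const]
        apply sum_congr rfl
        intro x hx
        rw [erase_eq_of_notMem (fun hxB => (mem_sdiff.mp hx).2 (mem_union_right _ hxB))]
      have hs2 : ∑ x ∈ B i, (1 : ℝ) / ((#(D i) + #((B i).erase x)).choose #(D i) : ℕ) =
          #(B i) * ((1 : ℝ) / ((#(D i) + (#(B i) - 1)).choose #(D i) : ℕ)) := by
        rw [← nsmul_eq_mul, ← sum_const]
        apply sum_congr rfl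
        intro x hx
        rw [card_erase_of_mem hx]
      have hcU : #(U \ (D i ∪ B i)) + (#(D i) + #(B i)) = n + 1 := by
        rw [← card_union_of_disjoint (h1 i hi), ← hU]
        exact card_sdiff_add_card_eq_card (union_subset (hD i hi) (hB i hi))
      obtain ⟨b, hb⟩ : ∃ b, #(B i) = b + 1 := ⟨#(B i) - 1, by have := hBne i hi; omega⟩
      rw [hs1, hs2, hb]
      rw [hb] at hcU
      have hc1 : (#(D i) + b).choose #(D i) * (#(D i) + b + 1) =
          (#(D i) + b + 1).choose #(D i) * (b + 1) := by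
        have h3 := Nat.choose_mul_succ_eq (#(D i) + b) #(D i)
        rw [h3]
        congr 1
        omega
      have hp1 : 0 < (#(D i) + b).choose #(D i) := Nat.choose_pos (Nat.le_add_right _ _)
      have hp2 : 0 < (#(D i) + b + 1).choose #(D i) :=
        Nat.choose_pos ((Nat.le_add_right _ _).trans (Nat.le_succ _))
      have hc1' : ((#(D i) + b).choose #(D i) : ℝ) * (#(D i) + b + 1) =
          ((#(D i) + b + 1).choose #(D i) : ℕ) * (b + 1) := by exact_mod_cast hc1
      have hp1' : (0 : ℝ) < ((#(D i) + b).choose #(D i) : ℕ) := by exact_mod_cast hp1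
      have hp2' : (0 : ℝ) < ((#(D i) + b + 1).choose #(D i) : ℕ) := by exact_mod_cast hp2
      have hcU' : (#(U \ (D i ∪ B i)) : ℝ) = (n + 1 : ℕ) - (#(D i) + b + 1) := by
        have : (#(U \ (D i ∪ B i)) : ℝ) + (#(D i) + (b + 1)) = (n + 1 : ℕ) := by
          exact_mod_cast hcU
        linarith
      have e1 : #(D i) + (b + 1) = #(D i) + b + 1 := by ring
      rw [e1, Nat.add_sub_cancel, hcU']
      have e2 : ((b + 1 : ℕ) : ℝ) * (1 / ((#(D i) + b).choose #(D i) : ℕ)) =
          (#(D i) + b + 1) * (1 / ((#(D i) + b + 1).choose #(D i) : ℕ)) := by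
        rw [mul_one_div, mul_one_div, div_eq_div_iff hp1'.ne' hp2'.ne']
        push_cast
        linarith
      rw [e2]
      ring
    rw [sum_congr rfl hone, ← mul_sum] at hsum
    have hn : (0 : ℝ) < (n + 1 : ℕ) := by positivity
    exact le_of_mul_le_mul_left (hsum.trans (by rw [mul_one])) hn

/-- The set pair inequality in the weighted form. -/
theorem lym {ι α : Type} [DecidableEq α] (I : Finset ι) (D B : ι → Finset α)
    (hd : ∀ i ∈ I, Disjoint (D i) (B i)) (h : ∀ i ∈ I, ∀ j ∈ I, i ≠ j → ¬ Disjoint (D i) (B j)) :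
    ∑ i ∈ I, (1 : ℝ) / ((#(D i) + #(B i)).choose #(D i) : ℕ) ≤ 1 := by
  classical
  exact lym_aux D _ (I.biUnion D ∪ I.biUnion B) I B rfl
    (fun i hi => (subset_biUnion_of_mem D hi).trans subset_union_left)
    (fun i hi => (subset_biUnion_of_mem B hi).trans subset_union_right) hd h

theorem lym_card {ι α : Type} [DecidableEq α] (I : Finset ι) (D B : ι → Finset α) (u s : ℕ)
    (hd : ∀ i ∈ I, Disjoint (D i) (B i)) (h : ∀ i ∈ I, ∀ j ∈ I, i ≠ j → ¬ Disjoint (D i) (B j))
    (hu : ∀ i ∈ I, #(D i) = u) (hs : ∀ i ∈ I, #(B i) ≤ s) : #I ≤ (u + s).choose u := by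
  have h0 := lym I D B hd h
  have hp : (0 : ℝ) < ((u + s).choose u : ℕ) := by
    exact_mod_cast Nat.choose_pos (Nat.le_add_right _ _)
  have h3 : (#I : ℝ) * (1 / ((u + s).choose u : ℕ)) ≤ 1 := by
    refine le_trans ?_ h0
    rw [← nsmul_eq_mul, ← sum_const]
    apply sum_le_sum
    intro i hi
    rw [hu i hi]
    apply one_div_le_one_div_of_le
    · exact_mod_cast Nat.choose_pos (Nat.le_add_right _ _)
    · exact_mod_cast Nat.choose_le_choose u (Nat.add_le_add_left (hs i hi) u)
  rw [mul_one_div, div_le_one hp] at h3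
  exact_mod_cast h3

theorem choose_le_pow1 (u s : ℕ) : (u + s).choose u ≤ (1 + s) ^ u := by
  induction u with
  | zero => simp
  | succ u ih =>
    have h1 : (u + 1) * (u + 1 + s).choose (u + 1) = (u + 1 + s) * (u + s).choose u := by
      have h2 := Nat.add_one_mul_choose_eq (u + s) u
      have e : u + s + 1 = u + 1 + s := by omega
      rw [e] at h2
      rw [h2]
      ring
    have h3 : (u + 1) * (u + 1 + s).choose (u + 1) ≤ (u + 1) * (1 + s) ^ (u + 1) := by
      rw [h1]
      calc (u + 1 + s) * (u + s).choose u ≤ ((u + 1) * (1 + s)) * (1 + s) ^ u := by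
            apply Nat.mul_le_mul _ ih
            nlinarith
        _ = (u + 1) * (1 + s) ^ (u + 1) := by rw [pow_succ]; ring
    exact Nat.le_of_mul_le_mul_left h3 (Nat.succ_pos u)

end Pool.Agent.Lib.MP_20855c_co.LB
end

section

/-!
# MP_20855c_co, large b: the context of stage 2, basic facts, multiplicities

`κ = 16 (k + 2)`, `β = b / κ`. From `hs`: `1 ≤ ε b`, so `b ≥ 1 / ε ≥ (100 (k + 2)) ^ (k + 6)`, and `1 + s ≤ ε b ≤ β`.
-/

set_option autoImplicit false

namespace Pool.Agent.Lib.MP_20855c_co.LB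

open Finset

variable {ι α : Type} [Fintype ι] [DecidableEq α]

/-- The context: the bounds for `s` and `σ`. -/
structure Ctx (k b : ℕ) (A B : ι → Finset α) (Y : Finset α) (ε : ℝ) : Prop where
  sys : IsSys k b A B
  cY : #Y = k + b
  hε : 0 < ε
  hε1 : ((100 * (k + 2 : ℕ) : ℝ)) ^ (k + 6) * ε ≤ 1
  hs : 1 + (sm B Y : ℝ) ≤ ε * b
  hσ : (sg A B Y : ℝ) ≤ ε * b * #(MJ k A B Y)

/-- The constant `κ`. -/
noncomputable def kap (k : ℕ) : ℝ := 16 * (k + 2 : ℕ)

/-- `β = b / κ`. -/
noncomputable def bet (k b : ℕ) : ℝ := b / kap k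

/-! ## Systems -/

omit [Fintype ι] in
theorem card_Cc {k b : ℕ} {A B : ι → Finset α} (hs : IsSys k b A B) (i : ι) : #(Cc A B i) = 2 := hs.card_inter i

omit [Fintype ι] in
theorem card_Dd {k b : ℕ} {A B : ι → Finset α} (hs : IsSys k b A B) (i : ι) : #(Dd A B i) = k := by
  have h := card_sdiff_add_card_inter (A i) (B i)
  rw [hs.card_left, hs.card_inter] at h
  unfold Dd
  omega

omit [Fintype ι] in
theorem Dd_union_Cc {A B : ι → Finset α} (i : ι) : Dd A B i ∪ Cc A B i = A i := by
  exact sdiff_union_inter (A i) (B i)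

omit [Fintype ι] in
theorem Dd_disj_Cc {A B : ι → Finset α} (i : ι) : Disjoint (Dd A B i) (Cc A B i) := by
  unfold Dd Cc
  exact disjoint_sdiff_inter (A i) (B i)

omit [Fintype ι] in
theorem Dd_disj_B {A B : ι → Finset α} (i : ι) : Disjoint (Dd A B i) (B i) := by
  exact sdiff_disjoint

omit [Fintype ι] in
/-- `not_sub` with `l = i`: `A i ∩ B j` is not inside `C i`. -/
theorem cross {k b : ℕ} {A B : ι → Finset α} (hs : IsSys k b A B) {i j : ι} (h : i ≠ j) : ¬ Disjoint (Dd A B i) (B j) := by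
  intro hd
  apply hs.not_sub i j i h
  intro x hx
  rw [mem_inter] at hx ⊢
  refine ⟨hx.1, ?_⟩
  by_contra hxB
  exact (Finset.disjoint_left.1 hd (mem_sdiff.2 ⟨hx.1, hxB⟩)) hx.2

omit [Fintype ι] in
theorem Dd_inj {k b : ℕ} {A B : ι → Finset α} (hs : IsSys k b A B) {i j : ι} (h : Dd A B i = Dd A B j) : i = j := by
  by_contra hij
  apply cross hs hij
  rw [h]
  exact Dd_disj_B j

omit [Fintype ι] in
theorem KL.two {k b : ℕ} {A B : ι → Finset α} {Y : Finset α} {L : List (Finset α)} (hs : IsSys k b A B) (hL : KL A B Y L) :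
    ∀ c ∈ L, #c = 2 := by
  intro c hc
  obtain ⟨_, l, rfl⟩ := hL.core c hc
  exact hs.card_inter l

omit [Fintype ι] in
theorem KL.nodup {k b : ℕ} {A B : ι → Finset α} {Y : Finset α} {L : List (Finset α)} (hs : IsSys k b A B) (hL : KL A B Y L) :
    L.Nodup := by
  have h2 := hL.two hs
  refine List.Pairwise.imp_of_mem ?_ hL.pw
  intro c d hc _ hcd hne
  subst hne
  have h3 : c = ∅ := disjoint_self_iff_empty c |>.1 hcd
  have := h2 c hc
  rw [h3] at this
  simp at this

omit [Fintype ι] in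
theorem card_VV {k b : ℕ} {A B : ι → Finset α} {Y : Finset α} {L : List (Finset α)} (hs : IsSys k b A B) (hL : KL A B Y L) :
    #(VV L) = 2 * L.length ∧ VV L ⊆ Y := by
  induction L with
  | nil => simp [VV]
  | cons c L ih =>
    obtain ⟨ih1, ih2⟩ := ih hL.cons
    have hV : VV (c :: L) = c ∪ VV L := rfl
    have h2 := hL.two hs c List.mem_cons_self
    have hdis : Disjoint c (VV L) := by
      rw [Finset.disjoint_left]
      intro x hx hxV
      obtain ⟨d, hd, hxd⟩ := (mem_VV L x).1 hxV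
      exact Finset.disjoint_left.1 ((List.pairwise_cons.1 hL.pw).1 d hd) hx hxd
    constructor
    · rw [hV, card_union_of_disjoint hdis, h2, ih1, List.length_cons]
      ring
    · rw [hV]
      exact union_subset (hL.core c List.mem_cons_self).1 ih2

/-- A set of `MJ` is no `D_i`. -/
theorem MJ_miss {k b : ℕ} {A B : ι → Finset α} {Y : Finset α} (hs : IsSys k b A B) : MJ k A B Y ⊆ miss k A B Y := by
  intro T hT
  rw [mem_MJ] at hT
  rw [mem_miss]
  obtain ⟨h1, h2, i, h3, h4⟩ := hT
  refine ⟨h1, h2, fun j hj => ?_⟩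
  by_cases hij : j = i
  · subst hij
    exact h4 hj.symm
  · apply cross hs hij
    rw [hj]
    exact h3

/-- PROOF. `i ↦ D i` is a bijection between the `i ∉ Out` and the `k`-subsets of `Y` which are not missing. -/
theorem card_miss {k b : ℕ} {A B : ι → Finset α} {Y : Finset α} (hs : IsSys k b A B) (hY : #Y = k + b) :
    #(miss k A B Y) + Fintype.card ι = (k + b).choose k + #(Out A B Y) := by
  classical
  have h1 : powersetCard k Y = miss k A B Y ∪ (univ.filter fun i => Dd A B i ⊆ Y).image (Dd A B) := by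
    ext T
    rw [mem_union, mem_miss, mem_image, mem_powersetCard]
    constructor
    · rintro ⟨h1, h2⟩
      by_cases h3 : ∃ i, Dd A B i = T
      · obtain ⟨i, hi⟩ := h3
        right
        refine ⟨i, ?_, hi⟩
        rw [mem_filter]
        exact ⟨mem_univ i, by rw [hi]; exact h1⟩
      · left
        push Not at h3
        exact ⟨h1, h2, h3⟩
    · rintro (⟨h1, h2, _⟩ | ⟨i, hi, rfl⟩)
      · exact ⟨h1, h2⟩
      · exact ⟨(mem_filter.1 hi).2, card_Dd hs i⟩
  have h2 : Disjoint (miss k A B Y) ((univ.filter fun i => Dd A B i ⊆ Y).image (Dd A B)) := by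
    rw [Finset.disjoint_left]
    intro T hT hT'
    rw [mem_miss] at hT
    rw [mem_image] at hT'
    obtain ⟨i, _, hi⟩ := hT'
    exact hT.2.2 i hi
  have h3 := congrArg card h1
  rw [card_union_of_disjoint h2, card_powersetCard, hY, card_image_of_injective _ (fun i j h => Dd_inj hs h)] at h3
  have h4 := card_filter_add_card_filter_not (s := (univ : Finset ι)) (fun i => Dd A B i ⊆ Y)
  rw [card_univ] at h4
  unfold Out
  omega

/-- `|ι|` is the sum of the classes. -/
theorem card_classes {A B : ι → Finset α} {Y : Finset α} : Fintype.card ι = #(cA A Y) + #(cI A B Y) + #(Out A B Y) := by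
  classical
  have h1 := card_filter_add_card_filter_not (s := (univ : Finset ι)) (fun i => Dd A B i ⊆ Y)
  have h2 := card_filter_add_card_filter_not (s := (univ.filter fun i => Dd A B i ⊆ Y : Finset ι)) (fun i => A i ⊆ Y)
  rw [card_univ] at h1
  have h3 : ((univ.filter fun i => Dd A B i ⊆ Y).filter fun i => A i ⊆ Y) = cA A Y := by
    ext i
    rw [mem_filter, mem_filter, mem_cA]
    constructor
    · exact fun h => h.2
    · intro h
      exact ⟨⟨mem_univ i, sdiff_subset.trans h⟩, h⟩
  have h4 : ((univ.filter fun i => Dd A B i ⊆ Y).filter fun i => ¬ A i ⊆ Y) = cI A B Y := by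
    rw [filter_filter]
    rfl
  rw [h3, h4] at h2
  unfold Out
  omega

omit [Fintype ι] in
/-- `#(Y \ B i) = k + #(B i \ Y)`. -/
theorem card_YB {k b : ℕ} {A B : ι → Finset α} {Y : Finset α} (hs : IsSys k b A B) (hY : #Y = k + b) (i : ι) :
    #(Y \ B i) = k + #(B i \ Y) := by
  have h1 := card_sdiff_add_card_inter Y (B i)
  have h2 := card_sdiff_add_card_inter (B i) Y
  rw [inter_comm] at h2
  rw [hs.card_right] at h2
  rw [hY] at h1
  omega

/-! ## The bounds for `s` and `σ` -/

/-- PROOF. All `k`-subsets of `Y \ B i` but `D i` are in `MJ`. -/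
theorem choose_sm {k b : ℕ} {A B : ι → Finset α} {Y : Finset α} (hs : IsSys k b A B) (hY : #Y = k + b) :
    (k + sm B Y).choose k ≤ #(MJ k A B Y) + 1 := by
  classical
  rcases isEmpty_or_nonempty ι with hι | hι
  · have h0 : sm B Y = 0 := by
      unfold sm
      simp
    rw [h0]
    simp
  · obtain ⟨i, _, hi⟩ := exists_mem_eq_sup (univ : Finset ι) univ_nonempty (fun i => #(B i \ Y))
    have hsm : sm B Y = #(B i \ Y) := hi
    have h1 : powersetCard k (Y \ B i) ⊆ insert (Dd A B i) (MJ k A B Y) := by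
      intro T hT
      rw [mem_powersetCard] at hT
      rw [mem_insert]
      by_cases h : T = Dd A B i
      · exact Or.inl h
      · right
        rw [mem_MJ]
        refine ⟨hT.1.trans sdiff_subset, hT.2, i, ?_, h⟩
        exact disjoint_of_subset_left hT.1 sdiff_disjoint
    have h2 := card_le_card h1
    rw [card_powersetCard, card_YB hs hY i, ← hsm] at h2
    exact h2.trans (card_insert_le _ _)

/-! ## Context -/

theorem Ctx.b_large {k b : ℕ} {A B : ι → Finset α} {Y : Finset α} {ε : ℝ} (h : Ctx k b A B Y ε) :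
    (100 * (k + 2)) ^ (k + 6) ≤ b := by
  have h1 := h.hε1
  have h2 := h.hs
  have h3 := h.hε
  have h4 : (0 : ℝ) ≤ sm B Y := Nat.cast_nonneg _
  have h5 : ((100 * (k + 2 : ℕ) : ℝ)) ^ (k + 6) * ε ≤ b * ε := by linarith
  have h6 := le_of_mul_le_mul_right h5 h3
  have h7 : (((100 * (k + 2)) ^ (k + 6) : ℕ) : ℝ) ≤ (b : ℝ) := by
    push_cast
    push_cast at h6
    exact h6
  exact_mod_cast h7

theorem Ctx.s_le {k b : ℕ} {A B : ι → Finset α} {Y : Finset α} {ε : ℝ} (h : Ctx k b A B Y ε) :
    1 + (sm B Y : ℝ) ≤ bet k b ∧ 1 ≤ bet k b := by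
  have h1 := h.hε1
  have h2 := h.hs
  have h3 := h.hε
  have h4 : (0 : ℝ) ≤ sm B Y := Nat.cast_nonneg _
  have hk : (0 : ℝ) < kap k := by unfold kap; positivity
  have hk1 : kap k ≤ ((100 * (k + 2 : ℕ) : ℝ)) ^ (k + 6) := by
    have h5 : (1 : ℝ) ≤ 100 * (k + 2 : ℕ) := by
      push_cast
      linarith [(Nat.cast_nonneg k : (0 : ℝ) ≤ k)]
    calc kap k ≤ (100 * (k + 2 : ℕ) : ℝ) := by
          unfold kap
          push_cast
          linarith [(Nat.cast_nonneg k : (0 : ℝ) ≤ k)]
      _ = (100 * (k + 2 : ℕ) : ℝ) ^ 1 := (pow_one _).symm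
      _ ≤ _ := pow_le_pow_right₀ h5 (by omega)
  have h5 : ε * kap k ≤ 1 := by
    calc ε * kap k ≤ ε * ((100 * (k + 2 : ℕ) : ℝ)) ^ (k + 6) := mul_le_mul_of_nonneg_left hk1 h3.le
      _ ≤ 1 := by rw [mul_comm]; exact h1
  have h6 : ε * b ≤ bet k b := by
    unfold bet
    rw [le_div_iff₀ hk]
    calc ε * b * kap k = (ε * kap k) * b := by ring
      _ ≤ 1 * b := mul_le_mul_of_nonneg_right h5 (Nat.cast_nonneg b)
      _ = b := one_mul _
  constructor
  · linarith
  · linarith

/-- PROOF. `lym_card` for the pairs `(D_j \ Y, B_j \ Y)`; `choose_le_pow1`. -/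
theorem mult {k b : ℕ} {A B : ι → Finset α} {Y : Finset α} (hs : IsSys k b A B) (R : Finset α) (u : ℕ) :
    #(univ.filter fun j => Dd A B j ∩ Y = R ∧ #(Dd A B j \ Y) = u) ≤ (1 + sm B Y) ^ u := by
  classical
  set J := univ.filter fun j => Dd A B j ∩ Y = R ∧ #(Dd A B j \ Y) = u with hJ
  refine le_trans (lym_card J (fun j => Dd A B j \ Y) (fun j => B j \ Y) u (sm B Y) ?_ ?_ ?_ ?_) (choose_le_pow1 u _)
  · intro i _
    exact disjoint_of_subset_left sdiff_subset (disjoint_of_subset_right sdiff_subset (Dd_disj_B i))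
  · intro i hi j hj hij hd
    rw [hJ, mem_filter] at hi hj
    apply cross hs hij
    rw [Finset.disjoint_left]
    intro x hx hxB
    by_cases hxY : x ∈ Y
    · have h1 : x ∈ Dd A B j ∩ Y := by
        rw [hj.2.1, ← hi.2.1]
        exact mem_inter.2 ⟨hx, hxY⟩
      exact Finset.disjoint_left.1 (Dd_disj_B j) (mem_inter.1 h1).1 hxB
    · exact Finset.disjoint_left.1 hd (mem_sdiff.2 ⟨hx, hxY⟩) (mem_sdiff.2 ⟨hxB, hxY⟩)
  · intro i hi
    rw [hJ, mem_filter] at hi
    exact hi.2.2
  · intro i _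
    exact le_sm i

open scoped Classical in
/-- PROOF. For every `w ∈ B_l \ Y`: `lym_card` for the pairs `(D_j \ Y \ {w}, B_j \ Y)`, `w ∈ D_j`. -/
theorem multc {k b : ℕ} {A B : ι → Finset α} {Y : Finset α} (hs : IsSys k b A B) (R : Finset α) (u : ℕ) (l : ι) :
    #(univ.filter fun j => Dd A B j ∩ Y = R ∧ #(Dd A B j \ Y) = u ∧ dconf A B Y j l) ≤ #(B l \ Y) * (1 + sm B Y) ^ (u - 1) := by
  have hsub : (univ.filter fun j => Dd A B j ∩ Y = R ∧ #(Dd A B j \ Y) = u ∧ dconf A B Y j l) ⊆
      (B l \ Y).biUnion fun w => univ.filter fun j => (Dd A B j ∩ Y = R ∧ #(Dd A B j \ Y) = u) ∧ w ∈ Dd A B j \ Y := by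
    intro j hj
    rw [mem_filter] at hj
    obtain ⟨-, h1, h2, h3⟩ := hj
    unfold dconf at h3
    rw [Finset.not_disjoint_iff] at h3
    obtain ⟨w, hw1, hw2⟩ := h3
    rw [mem_biUnion]
    refine ⟨w, mem_sdiff.2 ⟨hw2, (mem_sdiff.1 hw1).2⟩, ?_⟩
    rw [mem_filter]
    exact ⟨mem_univ j, ⟨h1, h2⟩, hw1⟩
  refine (card_le_card hsub).trans (card_biUnion_le_card_mul _ _ _ ?_)
  intro w _
  set J := univ.filter fun j => (Dd A B j ∩ Y = R ∧ #(Dd A B j \ Y) = u) ∧ w ∈ Dd A B j \ Y with hJ
  refine le_trans (lym_card J (fun j => (Dd A B j \ Y).erase w) (fun j => B j \ Y) (u - 1) (sm B Y) ?_ ?_ ?_ ?_) (choose_le_pow1 (u - 1) _)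
  · intro i _
    exact disjoint_of_subset_left ((erase_subset _ _).trans sdiff_subset) (disjoint_of_subset_right sdiff_subset (Dd_disj_B i))
  · intro i hi j hj hij hd
    rw [hJ, mem_filter] at hi hj
    apply cross hs hij
    rw [Finset.disjoint_left]
    intro x hx hxB
    by_cases hxY : x ∈ Y
    · have h1 : x ∈ Dd A B j ∩ Y := by
        rw [hj.2.1.1, ← hi.2.1.1]
        exact mem_inter.2 ⟨hx, hxY⟩
      exact Finset.disjoint_left.1 (Dd_disj_B j) (mem_inter.1 h1).1 hxB
    · have hxw : x ≠ w := by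
        rintro rfl
        exact Finset.disjoint_left.1 (Dd_disj_B j) (mem_sdiff.1 hj.2.2).1 hxB
      exact Finset.disjoint_left.1 hd (mem_erase.2 ⟨hxw, mem_sdiff.2 ⟨hx, hxY⟩⟩) (mem_sdiff.2 ⟨hxB, hxY⟩)
  · intro i hi
    rw [hJ, mem_filter] at hi
    rw [card_erase_of_mem hi.2.2, hi.2.1.2]
  · intro i _
    exact le_sm i

/-- `#(D_j \ Y) = u`. -/
def JU (A B : ι → Finset α) (Y : Finset α) (u : ℕ) : Finset ι := univ.filter fun j => #(Dd A B j \ Y) = u

/-- `#(D_j \ Y) = u`, `#(C_j \ Y) = v`. -/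
def JUV (A B : ι → Finset α) (Y : Finset α) (u v : ℕ) : Finset ι :=
  univ.filter fun j => #(Dd A B j \ Y) = u ∧ #(Cc A B j \ Y) = v

/-- PROOF. `mult`, `(1 + s) ^ u ≤ (ε b) (1 + s) ^ (u - 1) ≤ ε κ β ^ u`. -/
theorem mulD1 {k b : ℕ} {A B : ι → Finset α} {Y : Finset α} {ε : ℝ} (h : Ctx k b A B Y ε) (R : Finset α) (u : ℕ) (hu : 1 ≤ u)
    (J : Finset ι) (hJ : J ⊆ JU A B Y u) :
    (#(J.filter fun j => Dd A B j ∩ Y = R) : ℝ) ≤ ε * kap k * bet k b ^ u := by
  classical
  obtain ⟨h1, h2⟩ := h.s_le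
  have h0 : (0 : ℝ) ≤ sm B Y := Nat.cast_nonneg _
  have hεb : ε * b = ε * kap k * bet k b := by
    have hk : (0 : ℝ) < kap k := by unfold kap; positivity
    unfold bet
    field_simp
  have hle : #(J.filter fun j => Dd A B j ∩ Y = R) ≤ (1 + sm B Y) ^ u := by
    refine (card_le_card ?_).trans (mult h.sys R u)
    intro j hj
    rw [mem_filter] at hj ⊢
    exact ⟨mem_univ j, hj.2, (mem_filter.1 (hJ hj.1)).2⟩
  obtain ⟨u, rfl⟩ : ∃ v, u = v + 1 := ⟨u - 1, by omega⟩
  calc (#(J.filter fun j => Dd A B j ∩ Y = R) : ℝ) ≤ (((1 + sm B Y) ^ (u + 1) : ℕ) : ℝ) := by exact_mod_cast hle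
    _ = (1 + (sm B Y : ℝ)) * (1 + (sm B Y : ℝ)) ^ u := by push_cast; ring
    _ ≤ (ε * b) * bet k b ^ u := by
        apply mul_le_mul h.hs _ (by positivity) (by linarith [h.hs])
        exact pow_le_pow_left₀ (by linarith) h1 u
    _ = ε * kap k * bet k b ^ (u + 1) := by rw [hεb]; ring

open scoped Classical in
theorem mulD2 {k b : ℕ} {A B : ι → Finset α} {Y : Finset α} {ε : ℝ} (h : Ctx k b A B Y ε) (R : Finset α) (u : ℕ) (_hu : 1 ≤ u)
    (J : Finset ι) (hJ : J ⊆ JU A B Y u) (l : ι) :
    (#(J.filter fun j => Dd A B j ∩ Y = R ∧ dconf A B Y j l) : ℝ) ≤ 2 * #(B l \ Y) * bet k b ^ (u - 1) := by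
  obtain ⟨h1, h2⟩ := h.s_le
  have h0 : (0 : ℝ) ≤ sm B Y := Nat.cast_nonneg _
  have hle : #(J.filter fun j => Dd A B j ∩ Y = R ∧ dconf A B Y j l) ≤ #(B l \ Y) * (1 + sm B Y) ^ (u - 1) := by
    refine (card_le_card ?_).trans (multc h.sys R u l)
    intro j hj
    rw [mem_filter] at hj ⊢
    exact ⟨mem_univ j, hj.2.1, (mem_filter.1 (hJ hj.1)).2, hj.2.2⟩
  calc (#(J.filter fun j => Dd A B j ∩ Y = R ∧ dconf A B Y j l) : ℝ) ≤ ((#(B l \ Y) * (1 + sm B Y) ^ (u - 1) : ℕ) : ℝ) := by exact_mod_cast hle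
    _ = #(B l \ Y) * (1 + (sm B Y : ℝ)) ^ (u - 1) := by push_cast; ring
    _ ≤ #(B l \ Y) * bet k b ^ (u - 1) := by
        apply mul_le_mul_of_nonneg_left _ (Nat.cast_nonneg _)
        exact pow_le_pow_left₀ (by linarith) h1 _
    _ ≤ 2 * #(B l \ Y) * bet k b ^ (u - 1) := by
        apply mul_le_mul_of_nonneg_right _ (by positivity)
        linarith [(Nat.cast_nonneg #(B l \ Y) : (0 : ℝ) ≤ #(B l \ Y))]

/-- PROOF. As `mulD1`; for `u = 0`: `1 ≤ ε b = ε κ β ≤ ε κ β ^ v`. -/
theorem mulA1 {k b : ℕ} {A B : ι → Finset α} {Y : Finset α} {ε : ℝ} (h : Ctx k b A B Y ε) (R : Finset α) (u v : ℕ) (huv : 1 ≤ u + v)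
    (J : Finset ι) (hJ : J ⊆ JUV A B Y u v) :
    (#(J.filter fun j => Dd A B j ∩ Y = R) : ℝ) ≤ ε * kap k * bet k b ^ (u + v) := by
  classical
  obtain ⟨h1, h2⟩ := h.s_le
  have h0 : (0 : ℝ) ≤ sm B Y := Nat.cast_nonneg _
  have hεb : ε * b = ε * kap k * bet k b := by
    have hk : (0 : ℝ) < kap k := by unfold kap; positivity
    unfold bet
    field_simp
  have hle : #(J.filter fun j => Dd A B j ∩ Y = R) ≤ (1 + sm B Y) ^ u := by
    refine (card_le_card ?_).trans (mult h.sys R u)
    intro j hj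
    rw [mem_filter] at hj ⊢
    exact ⟨mem_univ j, hj.2, (mem_filter.1 (hJ hj.1)).2.1⟩
  have hεk : 0 ≤ ε * kap k := by
    have hk : (0 : ℝ) < kap k := by unfold kap; positivity
    exact mul_nonneg h.hε.le hk.le
  have hle' : (#(J.filter fun j => Dd A B j ∩ Y = R) : ℝ) ≤ (1 + (sm B Y : ℝ)) ^ u := by
    calc (#(J.filter fun j => Dd A B j ∩ Y = R) : ℝ) ≤ (((1 + sm B Y) ^ u : ℕ) : ℝ) := by exact_mod_cast hle
      _ = _ := by push_cast; ring
  rcases Nat.eq_zero_or_pos u with hu | hu
  · subst hu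
    obtain ⟨v, rfl⟩ : ∃ w, v = w + 1 := ⟨v - 1, by omega⟩
    calc (#(J.filter fun j => Dd A B j ∩ Y = R) : ℝ) ≤ (1 + (sm B Y : ℝ)) ^ 0 := hle'
      _ = 1 * 1 := by simp
      _ ≤ (ε * b) * bet k b ^ v := by
          apply mul_le_mul (by linarith [h.hs]) (one_le_pow₀ h2) (by norm_num) (by linarith [h.hs])
      _ = ε * kap k * bet k b ^ (0 + (v + 1)) := by rw [hεb]; ring
  · obtain ⟨u, rfl⟩ : ∃ w, u = w + 1 := ⟨u - 1, by omega⟩
    calc (#(J.filter fun j => Dd A B j ∩ Y = R) : ℝ) ≤ (1 + (sm B Y : ℝ)) ^ (u + 1) := hle'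
      _ = (1 + (sm B Y : ℝ)) * (1 + (sm B Y : ℝ)) ^ u := by ring
      _ ≤ (ε * b) * bet k b ^ (u + v) := by
          apply mul_le_mul h.hs _ (by positivity) (by linarith [h.hs])
          exact (pow_le_pow_left₀ (by linarith) h1 u).trans (pow_le_pow_right₀ h2 (by omega))
      _ = ε * kap k * bet k b ^ (u + 1 + v) := by rw [hεb]; ring

open scoped Classical in
/-- PROOF. `aconf` means `dconf` (then `u ≥ 1`, `multc`, `(1 + s) ^ (u - 1) ≤ β ^ (u + v - 1)`) or `C_j \ Y` meets `B_l` (then `v ≥ 1`, `#(B l \ Y) ≥ 1`, `mult`, `(1 + s) ^ u ≤ β ^ (u + v - 1)`). -/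
theorem mulA2 {k b : ℕ} {A B : ι → Finset α} {Y : Finset α} {ε : ℝ} (h : Ctx k b A B Y ε) (R : Finset α) (u v : ℕ) (_huv : 1 ≤ u + v)
    (J : Finset ι) (hJ : J ⊆ JUV A B Y u v) (l : ι) :
    (#(J.filter fun j => Dd A B j ∩ Y = R ∧ aconf A B Y j l) : ℝ) ≤ 2 * #(B l \ Y) * bet k b ^ (u + v - 1) := by
  obtain ⟨h1, h2⟩ := h.s_le
  have h0 : (0 : ℝ) ≤ sm B Y := Nat.cast_nonneg _
  have hβ : (0 : ℝ) < bet k b := by linarith
  have hsub : (J.filter fun j => Dd A B j ∩ Y = R ∧ aconf A B Y j l) ⊆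
      (J.filter fun j => Dd A B j ∩ Y = R ∧ dconf A B Y j l) ∪
      (J.filter fun j => Dd A B j ∩ Y = R ∧ ¬ Disjoint (Cc A B j \ Y) (B l)) := by
    intro j hj
    rw [mem_filter] at hj
    rw [mem_union, mem_filter, mem_filter]
    obtain ⟨h3, h4, h5⟩ := hj
    unfold aconf at h5
    rw [Finset.not_disjoint_iff] at h5
    obtain ⟨x, hx, hxB⟩ := h5
    rw [mem_sdiff, ← Dd_union_Cc (A := A) (B := B) j, mem_union] at hx
    rcases hx.1 with hx1 | hx1
    · left
      refine ⟨h3, h4, ?_⟩
      unfold dconf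
      rw [Finset.not_disjoint_iff]
      exact ⟨x, mem_sdiff.2 ⟨hx1, hx.2⟩, hxB⟩
    · right
      refine ⟨h3, h4, ?_⟩
      rw [Finset.not_disjoint_iff]
      exact ⟨x, mem_sdiff.2 ⟨hx1, hx.2⟩, hxB⟩
  have hc : (#(J.filter fun j => Dd A B j ∩ Y = R ∧ aconf A B Y j l) : ℝ) ≤
      #(J.filter fun j => Dd A B j ∩ Y = R ∧ dconf A B Y j l) +
      #(J.filter fun j => Dd A B j ∩ Y = R ∧ ¬ Disjoint (Cc A B j \ Y) (B l)) := by
    exact_mod_cast (card_le_card hsub).trans (card_union_le _ _)
  have hl0 : (0 : ℝ) ≤ #(B l \ Y) := Nat.cast_nonneg _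
  -- the first part
  have hp1 : (#(J.filter fun j => Dd A B j ∩ Y = R ∧ dconf A B Y j l) : ℝ) ≤ #(B l \ Y) * bet k b ^ (u + v - 1) := by
    have hle : #(J.filter fun j => Dd A B j ∩ Y = R ∧ dconf A B Y j l) ≤ #(B l \ Y) * (1 + sm B Y) ^ (u - 1) := by
      refine (card_le_card ?_).trans (multc h.sys R u l)
      intro j hj
      rw [mem_filter] at hj ⊢
      exact ⟨mem_univ j, hj.2.1, (mem_filter.1 (hJ hj.1)).2.1, hj.2.2⟩
    calc (#(J.filter fun j => Dd A B j ∩ Y = R ∧ dconf A B Y j l) : ℝ) ≤ ((#(B l \ Y) * (1 + sm B Y) ^ (u - 1) : ℕ) : ℝ) := by exact_mod_cast hle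
      _ = #(B l \ Y) * (1 + (sm B Y : ℝ)) ^ (u - 1) := by push_cast; ring
      _ ≤ #(B l \ Y) * bet k b ^ (u + v - 1) := by
          apply mul_le_mul_of_nonneg_left _ hl0
          exact (pow_le_pow_left₀ (by linarith) h1 _).trans (pow_le_pow_right₀ h2 (by omega))
  -- the second part
  have hp2 : (#(J.filter fun j => Dd A B j ∩ Y = R ∧ ¬ Disjoint (Cc A B j \ Y) (B l)) : ℝ) ≤ #(B l \ Y) * bet k b ^ (u + v - 1) := by
    rcases Finset.eq_empty_or_nonempty (J.filter fun j => Dd A B j ∩ Y = R ∧ ¬ Disjoint (Cc A B j \ Y) (B l)) with he | ⟨j, hj⟩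
    · rw [he]
      simp only [card_empty, Nat.cast_zero]
      positivity
    · rw [mem_filter] at hj
      obtain ⟨hjJ, hjR, hjl⟩ := hj
      rw [Finset.not_disjoint_iff] at hjl
      obtain ⟨x, hx, hxB⟩ := hjl
      have hv : 1 ≤ v := by
        have h3 := (mem_filter.1 (hJ hjJ)).2.2
        rw [← h3]
        exact card_pos.2 ⟨x, hx⟩
      have hl1 : (1 : ℝ) ≤ #(B l \ Y) := by
        exact_mod_cast (card_pos.2 ⟨x, mem_sdiff.2 ⟨hxB, (mem_sdiff.1 hx).2⟩⟩ : 0 < #(B l \ Y))
      have hle : #(J.filter fun j => Dd A B j ∩ Y = R ∧ ¬ Disjoint (Cc A B j \ Y) (B l)) ≤ (1 + sm B Y) ^ u := by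
        refine (card_le_card ?_).trans (mult h.sys R u)
        intro j hj
        rw [mem_filter] at hj ⊢
        exact ⟨mem_univ j, hj.2.1, (mem_filter.1 (hJ hj.1)).2.1⟩
      calc (#(J.filter fun j => Dd A B j ∩ Y = R ∧ ¬ Disjoint (Cc A B j \ Y) (B l)) : ℝ) ≤ (((1 + sm B Y) ^ u : ℕ) : ℝ) := by exact_mod_cast hle
        _ = 1 * (1 + (sm B Y : ℝ)) ^ u := by push_cast; ring
        _ ≤ #(B l \ Y) * bet k b ^ (u + v - 1) := by
            apply mul_le_mul hl1 _ (by positivity) hl0
            exact (pow_le_pow_left₀ (by linarith) h1 _).trans (pow_le_pow_right₀ h2 (by omega))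
  linarith

open scoped Classical in
/-- The counting lemma. `Q j`: test objects of `j`. Every test object leads to an element of `W` or to a conflict with some `l ∈ cB`, and
from these `(D_j ∩ Y, q)` can be decoded up to `C1` (`C2`) possibilities. PROOF. Count the pairs `(j, q)`:
`β ^ e * #J ≤ ∑ j, #(Q j) ≤ ∑ w ∈ W, ∑ (R, q) ∈ dec1 w, #{j ∈ J | D_j ∩ Y = R} + ∑ l ∈ cB, ∑ (R, q) ∈ dec2 l, #{j ∈ J | D_j ∩ Y = R, cf j l}`; divide by `β ^ e`. -/
theorem cnt {τ Ω : Type} [DecidableEq τ] {A B : ι → Finset α} {Y : Finset α} (J : Finset ι) (Q : ι → Finset τ) (β η : ℝ) (e : ℕ)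
    (he : 1 ≤ e) (hβ : 1 ≤ β) (hη : 0 ≤ η) (cf : ι → ι → Prop)
    (hm : ∀ R : Finset α, (#(J.filter fun j => Dd A B j ∩ Y = R) : ℝ) ≤ η * β ^ e)
    (hc : ∀ (R : Finset α) (l : ι), (#(J.filter fun j => Dd A B j ∩ Y = R ∧ cf j l) : ℝ) ≤ 2 * #(B l \ Y) * β ^ (e - 1))
    (hQ : ∀ j ∈ J, β ^ e ≤ #(Q j))
    (W : Finset Ω) (dec1 : Ω → Finset (Finset α × τ)) (dec2 : ι → Finset (Finset α × τ)) (C1 C2 : ℕ)
    (h1 : ∀ w ∈ W, #(dec1 w) ≤ C1) (h2 : ∀ l, #(dec2 l) ≤ C2)
    (hdec : ∀ j ∈ J, ∀ q ∈ Q j, (∃ w ∈ W, (Dd A B j ∩ Y, q) ∈ dec1 w) ∨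
      ∃ l ∈ cB A B Y, cf j l ∧ (Dd A B j ∩ Y, q) ∈ dec2 l) :
    (#J : ℝ) ≤ η * C1 * #W + 2 * C2 * sg A B Y / β := by
  have hβ0 : 0 < β := by linarith
  set P : Finset (Σ _ : ι, τ) := J.sigma Q with hP
  set P1 : Finset (Σ _ : ι, τ) := W.biUnion fun w => (dec1 w).biUnion fun p =>
    (J.filter fun j => Dd A B j ∩ Y = p.1).image fun j => ⟨j, p.2⟩ with hP1
  set P2 : Finset (Σ _ : ι, τ) := (cB A B Y).biUnion fun l => (dec2 l).biUnion fun p =>
    (J.filter fun j => Dd A B j ∩ Y = p.1 ∧ cf j l).image fun j => ⟨j, p.2⟩ with hP2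
  have hsub : P ⊆ P1 ∪ P2 := by
    rintro ⟨j, q⟩ hjq
    rw [hP, mem_sigma] at hjq
    obtain ⟨hj, hq⟩ := hjq
    rw [mem_union]
    rcases hdec j hj q hq with ⟨w, hw, hd⟩ | ⟨l, hl, hcf, hd⟩
    · left
      rw [hP1, mem_biUnion]
      refine ⟨w, hw, ?_⟩
      rw [mem_biUnion]
      refine ⟨_, hd, ?_⟩
      rw [mem_image]
      exact ⟨j, mem_filter.2 ⟨hj, rfl⟩, rfl⟩
    · right
      rw [hP2, mem_biUnion]
      refine ⟨l, hl, ?_⟩
      rw [mem_biUnion]
      refine ⟨_, hd, ?_⟩
      rw [mem_image]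
      exact ⟨j, mem_filter.2 ⟨hj, rfl, hcf⟩, rfl⟩
  have hcard : (#P : ℝ) ≤ #P1 + #P2 := by
    exact_mod_cast (card_le_card hsub).trans (card_union_le _ _)
  have hPl : β ^ e * #J ≤ #P := by
    rw [hP, card_sigma]
    push_cast
    calc β ^ e * #J = ∑ _j ∈ J, β ^ e := by rw [sum_const, nsmul_eq_mul]; ring
      _ ≤ ∑ j ∈ J, (#(Q j) : ℝ) := sum_le_sum hQ
  have hηβ : 0 ≤ η * β ^ e := mul_nonneg hη (by positivity)
  have hP1l : (#P1 : ℝ) ≤ η * β ^ e * C1 * #W := by
    calc (#P1 : ℝ) ≤ ∑ w ∈ W, ∑ p ∈ dec1 w, (#(J.filter fun j => Dd A B j ∩ Y = p.1) : ℝ) := by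
          have h3 : #P1 ≤ ∑ w ∈ W, ∑ p ∈ dec1 w, #(J.filter fun j => Dd A B j ∩ Y = p.1) := by
            refine card_biUnion_le.trans (sum_le_sum fun w _ => ?_)
            refine card_biUnion_le.trans (sum_le_sum fun p _ => ?_)
            exact card_image_le
          exact_mod_cast h3
      _ ≤ ∑ w ∈ W, ∑ p ∈ dec1 w, η * β ^ e := sum_le_sum fun w _ => sum_le_sum fun p _ => hm p.1
      _ = ∑ w ∈ W, #(dec1 w) * (η * β ^ e) := by simp only [sum_const, nsmul_eq_mul]
      _ ≤ ∑ _w ∈ W, (C1 : ℝ) * (η * β ^ e) := by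
          refine sum_le_sum fun w hw => mul_le_mul_of_nonneg_right ?_ hηβ
          exact_mod_cast h1 w hw
      _ = η * β ^ e * C1 * #W := by rw [sum_const, nsmul_eq_mul]; ring
  have hP2l : (#P2 : ℝ) ≤ 2 * C2 * sg A B Y * β ^ (e - 1) := by
    calc (#P2 : ℝ) ≤ ∑ l ∈ cB A B Y, ∑ p ∈ dec2 l, (#(J.filter fun j => Dd A B j ∩ Y = p.1 ∧ cf j l) : ℝ) := by
          have h3 : #P2 ≤ ∑ l ∈ cB A B Y, ∑ p ∈ dec2 l, #(J.filter fun j => Dd A B j ∩ Y = p.1 ∧ cf j l) := by
            refine card_biUnion_le.trans (sum_le_sum fun w _ => ?_)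
            refine card_biUnion_le.trans (sum_le_sum fun p _ => ?_)
            exact card_image_le
          exact_mod_cast h3
      _ ≤ ∑ l ∈ cB A B Y, ∑ p ∈ dec2 l, (2 * #(B l \ Y) * β ^ (e - 1) : ℝ) :=
          sum_le_sum fun l _ => sum_le_sum fun p _ => hc p.1 l
      _ = ∑ l ∈ cB A B Y, #(dec2 l) * (2 * #(B l \ Y) * β ^ (e - 1) : ℝ) := by simp only [sum_const, nsmul_eq_mul]
      _ ≤ ∑ l ∈ cB A B Y, (C2 : ℝ) * (2 * #(B l \ Y) * β ^ (e - 1)) := by
          refine sum_le_sum fun l _ => mul_le_mul_of_nonneg_right ?_ (by positivity)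
          exact_mod_cast h2 l
      _ = 2 * C2 * (∑ l ∈ cB A B Y, (#(B l \ Y) : ℝ)) * β ^ (e - 1) := by
          rw [mul_sum, sum_mul]
          refine sum_congr rfl fun l _ => ?_
          ring
      _ ≤ 2 * C2 * sg A B Y * β ^ (e - 1) := by
          apply mul_le_mul_of_nonneg_right _ (by positivity)
          apply mul_le_mul_of_nonneg_left _ (by positivity)
          unfold sg
          push_cast
          apply sum_le_sum_of_subset_of_nonneg
          · intro l hl
            rw [mem_cB] at hl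
            rw [mem_filter]
            exact ⟨mem_univ l, hl.1⟩
          · intro l _ _
            positivity
  have hfin : β ^ e * #J ≤ β ^ e * (η * C1 * #W + 2 * C2 * sg A B Y / β) := by
    have h3 : β ^ e * (2 * C2 * sg A B Y / β) = 2 * C2 * sg A B Y * β ^ (e - 1) := by
      obtain ⟨e', rfl⟩ : ∃ e', e = e' + 1 := ⟨e - 1, by omega⟩
      rw [Nat.add_sub_cancel, pow_succ]
      field_simp
    rw [mul_add, h3]
    calc β ^ e * #J ≤ #P := hPl
      _ ≤ #P1 + #P2 := hcard
      _ ≤ η * β ^ e * C1 * #W + 2 * C2 * sg A B Y * β ^ (e - 1) := add_le_add hP1l hP2l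
      _ = β ^ e * (η * C1 * #W) + 2 * C2 * sg A B Y * β ^ (e - 1) := by ring
  exact le_of_mul_le_mul_left hfin (by positivity)

/-- `(n / e) ^ e ≤ C(n, e)`. -/
theorem pow_le_choose_mul (n e : ℕ) (h : e ≤ n) : n ^ e ≤ n.choose e * e ^ e := by
  induction e generalizing n with
  | zero => simp
  | succ e ih =>
    obtain ⟨n, rfl⟩ : ∃ m, n = m + 1 := ⟨n - 1, by omega⟩
    have h1 : (n + 1) ^ e ≤ n.choose e * (e + 1) ^ e := by
      rcases Nat.eq_zero_or_pos e with he | he
      · subst he
        simp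
      · have h2 := ih n (by omega)
        have h3 : ((n + 1) * e) ^ e ≤ (n * (e + 1)) ^ e := Nat.pow_le_pow_left (by nlinarith) e
        have h4 : (n + 1) ^ e * e ^ e ≤ n.choose e * (e + 1) ^ e * e ^ e := by
          calc (n + 1) ^ e * e ^ e = ((n + 1) * e) ^ e := (mul_pow _ _ _).symm
            _ ≤ (n * (e + 1)) ^ e := h3
            _ = n ^ e * (e + 1) ^ e := mul_pow _ _ _
            _ ≤ n.choose e * e ^ e * (e + 1) ^ e := Nat.mul_le_mul_right _ h2
            _ = n.choose e * (e + 1) ^ e * e ^ e := by ring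
        exact Nat.le_of_mul_le_mul_right h4 (by positivity)
    have h5 := Nat.add_one_mul_choose_eq n e
    calc (n + 1) ^ (e + 1) = (n + 1) * (n + 1) ^ e := by ring
      _ ≤ (n + 1) * (n.choose e * (e + 1) ^ e) := Nat.mul_le_mul_left _ h1
      _ = ((n + 1) * n.choose e) * (e + 1) ^ e := by ring
      _ = (n + 1).choose (e + 1) * (e + 1) ^ (e + 1) := by rw [h5]; ring

/-- Choosing `e` points from at least `b / 2` points: at least `(8 β) ^ e` possibilities. PROOF. `C(n, e) ≥ (n / e) ^ e`, `n / e ≥ b / (2 (k + 2)) = 8 β`. -/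
theorem choose_ge {k b n e : ℕ} (he : e ≤ k + 2) (hen : e ≤ n) (hn : b ≤ 2 * n) : (8 * bet k b) ^ e ≤ (n.choose e : ℝ) := by
  have h1 : ((n ^ e : ℕ) : ℝ) ≤ ((n.choose e * e ^ e : ℕ) : ℝ) := by exact_mod_cast pow_le_choose_mul n e hen
  push_cast at h1
  rcases Nat.eq_zero_or_pos e with he0 | he0
  · subst he0
    simp
  · have he0' : (0 : ℝ) < (e : ℝ) ^ e := by positivity
    have h2 : 8 * bet k b * e ≤ n := by
      unfold bet kap
      have h3 : (e : ℝ) ≤ ((k + 2 : ℕ) : ℝ) := by exact_mod_cast he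
      have h4 : (b : ℝ) ≤ 2 * n := by exact_mod_cast hn
      have h5 : (0 : ℝ) < ((k + 2 : ℕ) : ℝ) := by positivity
      have h6 : 8 * ((b : ℝ) / (16 * ((k + 2 : ℕ) : ℝ))) * e ≤ 8 * ((b : ℝ) / (16 * ((k + 2 : ℕ) : ℝ))) * ((k + 2 : ℕ) : ℝ) := by
        apply mul_le_mul_of_nonneg_left h3 (by positivity)
      have h7 : 8 * ((b : ℝ) / (16 * ((k + 2 : ℕ) : ℝ))) * ((k + 2 : ℕ) : ℝ) = b / 2 := by
        field_simp
        ring
      linarith
    have h3 : (8 * bet k b) ^ e * (e : ℝ) ^ e ≤ (n.choose e : ℝ) * (e : ℝ) ^ e := by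
      calc (8 * bet k b) ^ e * (e : ℝ) ^ e = (8 * bet k b * e) ^ e := (mul_pow _ _ _).symm
        _ ≤ (n : ℝ) ^ e := by
            apply pow_le_pow_left₀ _ h2
            unfold bet kap
            positivity
        _ ≤ _ := h1
    exact le_of_mul_le_mul_right h3 he0'

end Pool.Agent.Lib.MP_20855c_co.LB
end

section

/-!
# MP_20855c_co, large b: the rank inequality `LA`

Over `ZMod 2` let `col T` be the function `P ↦ if T ⊆ P ∧ P \ T ∈ L then 1 else 0` on `powersetCard (k + 2) Y`.

1. All `col T` (`T` a `k`-subset of `Y`) lie in the span of the `col T` with `T` good: `T` all-split: `col T = 0`. `T = R ∪ c`,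
`c = fst1 L T` full (`rgood L T`): `∑ c' ∈ L, c' disjoint from R, col (R ∪ c') = 0` (each `P` is counted an even number of times: the
involution `c' ↦ P \ (R ∪ c')`), and `R ∪ c'` is good for `c' ≠ c` (the pairs before `c` are single in `R`, so `c'` comes after `c`;
`c` is the first nonsingle pair of `R ∪ c'` and empty).
2. The following `k`-sets `T` are pairwise different, and their `col T` are linearly independent:
 (α) `D_l`, `l ∈ cA`, `C_l ∈ L`; (β) `D_l` good, `l ∈ cI`, or `l ∈ cA` with `C_l ∉ L`; (γ) `T ∈ MJ` good;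
 (δ) `A_l \ fst1 L A_l`, `l ∈ cA`, `C_l ∉ L`, `D_l` not good (`A_l` is rgood by `hr`); (ε) `P \ fst1 L P`, `P ∈ Fr`.
 Test rows: `A_l ⊇ T ∪ c`, i.e. `A_l \ T = c` is a core: then `T ∈ MJ ∪ {D_i}` only for `T = D_l`, `c = C_l` (`not_sub`: if `T` is disjoint from
 `B_i`, then `A_l ∩ B_i ⊆ c`). Rows `P ∈ Fr`: no `D_i`, no `MJ`. On good sets and rgood rows `P` the matrix is the identity `T ↔ T ∪ fst1 L T` (`rgood_sdiff_ne`).
 So in a relation first the coefficients of (δ), (ε) vanish (rows `A_l`, `P`), then those of (α) (rows `A_l`), then (β), (γ) (rows `T ∪ fst1 L T`).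
-/

set_option autoImplicit false

namespace Pool.Agent.Lib.MP_20855c_co.LB

open Finset

variable {ι α : Type} [Fintype ι] [DecidableEq α]

/-- The column of `T`. -/
def col (L : List (Finset α)) (T : Finset α) : Finset α → ZMod 2 :=
  fun P => if T ⊆ P ∧ P \ T ∈ L then 1 else 0

theorem col_apply (L : List (Finset α)) (T P : Finset α) :
    col L T P = if T ⊆ P ∧ P \ T ∈ L then 1 else 0 := rfl

theorem col_allsplit {L : List (Finset α)} {T : Finset α} (h : allsplit L T) : col L T = 0 := by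
  funext P
  rw [col_apply, if_neg]
  · rfl
  · rintro ⟨_, h2⟩
    have h3 := h _ h2
    have h4 : (P \ T) ∩ T = ∅ := by
      rw [← disjoint_iff_inter_eq_empty]
      exact sdiff_disjoint
    rw [h4] at h3
    simp at h3

theorem good_add {L : List (Finset α)} {R c' : Finset α} (hp : L.Pairwise Disjoint)
    (hg : good L R) (hc : c' ∈ L) (hd : Disjoint c' R) (hne : c' ≠ fst1 L R) : good L (R ∪ c') := by
  induction L with
  | nil => exact absurd hg (good_nil R)
  | cons d L ih =>
    have hp' := List.pairwise_cons.1 hp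
    by_cases h1 : #(d ∩ R) = 1
    · rw [good_cons_single h1] at hg
      rw [fst1_cons_single h1] at hne
      have hcL : c' ∈ L := by
        rcases List.mem_cons.1 hc with rfl | h
        · rw [L_dis_card hd] at h1; omega
        · exact h
      have h3 : #(d ∩ (R ∪ c')) = 1 := by
        rw [L_inter_union (hp'.1 _ hcL)]; exact h1
      rw [good_cons_single h3]
      exact ih hp'.2 hg hcL hne
    · rw [good_cons_not h1] at hg
      rw [fst1_cons_not h1] at hne
      have hcL : c' ∈ L := by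
        rcases List.mem_cons.1 hc with h | h
        · exact absurd h hne
        · exact h
      have h4 : Disjoint d (R ∪ c') := by
        rw [disjoint_union_right]
        exact ⟨hg, hp'.1 _ hcL⟩
      have h3 : #(d ∩ (R ∪ c')) ≠ 1 := by
        rw [L_dis_card h4]; decide
      rw [good_cons_not h3]
      exact h4

theorem col_sum {L : List (Finset α)} {R : Finset α} (hne : ∀ c ∈ L, #c = 2) :
    ∑ c ∈ L.toFinset.filter (fun c => Disjoint c R), col L (R ∪ c) = 0 := by
  funext P
  rw [Finset.sum_apply]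
  simp only [col_apply]
  rw [← Finset.sum_filter]
  set s : Finset (Finset α) := (L.toFinset.filter (fun c => Disjoint c R)).filter
    (fun c => R ∪ c ⊆ P ∧ P \ (R ∪ c) ∈ L) with hs
  have hmem : ∀ c, c ∈ s ↔ (c ∈ L ∧ Disjoint c R) ∧ R ∪ c ⊆ P ∧ P \ (R ∪ c) ∈ L := by
    intro c
    simp [hs]
  have hinv : ∀ c, c ∈ s → P \ (R ∪ (P \ (R ∪ c))) = c := by
    intro c hc
    obtain ⟨⟨_, h2⟩, h3, _⟩ := (hmem c).1 hc
    ext x
    simp only [mem_sdiff, mem_union, not_or, not_and, not_not]
    constructor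
    · rintro ⟨h5, h6, h7⟩
      exact h7 h5 h6
    · intro hx
      refine ⟨h3 (mem_union_right _ hx), fun hR => disjoint_left.1 h2 hx hR, fun _ _ => hx⟩
  have hm : ∀ c, c ∈ s → P \ (R ∪ c) ∈ s := by
    intro c hc
    have hc' := (hmem c).1 hc
    rw [hmem, hinv c hc]
    refine ⟨⟨hc'.2.2, ?_⟩, ?_, hc'.1.1⟩
    · rw [disjoint_left]
      intro x hx hR
      exact (mem_sdiff.1 hx).2 (mem_union_left _ hR)
    · intro x hx
      rcases mem_union.1 hx with hx | hx
      · exact hc'.2.1 (mem_union_left _ hx)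
      · exact (mem_sdiff.1 hx).1
  refine Finset.sum_involution (fun c _ => P \ (R ∪ c)) ?_ ?_ ?_ ?_
  · intro a ha
    decide
  · intro a ha _ heq
    have h2 := hne a ((hmem a).1 ha).1.1
    have : a = ∅ := by
      rw [eq_empty_iff_forall_notMem]
      intro x hx
      have hx' : x ∈ P \ (R ∪ a) := by
        rw [heq]; exact hx
      exact (mem_sdiff.1 hx').2 (mem_union_right _ hx)
    rw [this] at h2
    simp at h2
  · intro a ha
    exact hm a ha
  · intro a ha
    exact hinv a ha

theorem col_mem_span {k : ℕ} {Y : Finset α} {L : List (Finset α)} {T : Finset α} (hp : L.Pairwise Disjoint)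
    (h2 : ∀ c ∈ L, #c = 2) (hY : ∀ c ∈ L, c ⊆ Y) (hT : T ⊆ Y) (hk : #T = k) :
    col L T ∈ Submodule.span (ZMod 2) (col L '' (Gd k Y L : Set (Finset α))) := by
  rcases L_tri (T := T) h2 with h | h | h
  · apply Submodule.subset_span
    exact ⟨T, mem_coe.2 (mem_Gd.2 ⟨hT, hk, h⟩), rfl⟩
  · -- rgood
    obtain ⟨hc, hcT⟩ := rgood_fst h2 h
    set c := fst1 L T with hcdef
    obtain ⟨hg, hf⟩ := rgood_sdiff hp h2 h
    rw [← hcdef] at hg hf
    set R := T \ c with hR
    have hsum := col_sum (L := L) (R := R) h2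
    have hcd : Disjoint c R := disjoint_sdiff
    have hcm : c ∈ L.toFinset.filter (fun c => Disjoint c R) := by
      simp [hc, hcd]
    rw [← Finset.add_sum_erase _ _ hcm] at hsum
    have hRc : R ∪ c = T := by
      rw [hR]; exact sdiff_union_of_subset hcT
    rw [hRc] at hsum
    have heq : col L T = ∑ x ∈ (L.toFinset.filter (fun c => Disjoint c R)).erase c, col L (R ∪ x) := by
      have h5 := eq_neg_of_add_eq_zero_left hsum
      rw [h5]
      funext P
      simp only [Pi.neg_apply]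
      exact CharTwo.neg_eq _
    rw [heq]
    apply Submodule.sum_mem
    intro x hx
    apply Submodule.subset_span
    have hx' := mem_erase.1 hx
    have hx2 : x ∈ L ∧ Disjoint x R := by simpa using hx'.2
    refine ⟨R ∪ x, mem_coe.2 (mem_Gd.2 ⟨?_, ?_, ?_⟩), rfl⟩
    · apply union_subset
      · exact sdiff_subset.trans hT
      · exact hY x hx2.1
    · rw [card_union_of_disjoint hx2.2.symm, h2 x hx2.1, ← hk, ← hRc,
        card_union_of_disjoint hcd.symm, h2 c hc]
    · apply good_add hp hg hx2.1 hx2.2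
      rw [hf]
      exact hx'.1
  · rw [col_allsplit h]
    exact Submodule.zero_mem _

/-- A triangular family is linearly independent. -/
theorem tri_indep {I X : Type} [Fintype I] (v : I → X → ZMod 2) (ρ : I → X) (rk : I → ℕ)
    (h1 : ∀ i, v i (ρ i) = 1) (h0 : ∀ i j, i ≠ j → rk i ≤ rk j → v j (ρ i) = 0) :
    LinearIndependent (ZMod 2) v := by
  classical
  rw [Fintype.linearIndependent_iff]
  intro g hg
  have key : ∀ n, ∀ i, rk i < n → g i = 0 := by
    intro n
    induction n with
    | zero => intro i hi; omega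
    | succ n ih =>
      intro i hi
      have h3 := congrFun hg (ρ i)
      rw [Finset.sum_apply] at h3
      rw [Finset.sum_eq_single i] at h3
      · simpa [h1] using h3
      · intro j _ hj
        by_cases hr : rk i ≤ rk j
        · simp [h0 i j hj.symm hr]
        · have := ih j (by omega)
          simp [this]
      · intro h; exact absurd (mem_univ i) h
  intro i
  exact key (rk i + 1) i (Nat.lt_succ_self _)

/-- The rows of good columns. -/
theorem col_good_rgood {L : List (Finset α)} {T P : Finset α} (hp : L.Pairwise Disjoint) (h2 : ∀ c ∈ L, #c = 2)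
    (hP : rgood L P) (hT : good L T) (h : T ⊆ P ∧ P \ T ∈ L) : T = P \ fst1 L P := by
  by_contra hne
  obtain ⟨h3, h4⟩ := h
  have hPT : P \ (P \ T) = T := by
    rw [Finset.sdiff_sdiff_eq_self h3]
  have h5 : P \ T ≠ fst1 L P := by
    intro h6
    apply hne
    rw [← h6, hPT]
  have h6 := rgood_sdiff_ne hp h2 hP h4 sdiff_subset h5
  rw [hPT] at h6
  exact h6 hT

omit [Fintype ι] in
/-- Row `A_l`, column disjoint from `B_i`. -/
theorem row_A {k b : ℕ} {A B : ι → Finset α} (hs : IsSys k b A B) {T c : Finset α} {l i m : ι}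
    (hc : Cc A B m = c) (h : A l \ T ⊆ c) (hi : Disjoint T (B i)) : l = i := by
  by_contra hne
  apply hs.not_sub l i m hne
  intro x hx
  obtain ⟨h1, h2⟩ := mem_inter.1 hx
  have : x ∈ c := h (mem_sdiff.2 ⟨h1, fun hT => disjoint_left.1 hi hT h2⟩)
  rw [← hc] at this
  exact this

omit [Fintype ι] in
theorem LAx_Dd_dis {A B : ι → Finset α} (i : ι) : Disjoint (Dd A B i) (B i) := sdiff_disjoint

omit [Fintype ι] in
theorem LAx_card_Dd {k b : ℕ} {A B : ι → Finset α} (hs : IsSys k b A B) (i : ι) : #(Dd A B i) = k := by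
  have h1 := card_sdiff_add_card_inter (A i) (B i)
  rw [hs.card_left, hs.card_inter] at h1
  unfold Dd
  omega

omit [Fintype ι] in
theorem LAx_card_Cc {k b : ℕ} {A B : ι → Finset α} (hs : IsSys k b A B) (i : ι) : #(Cc A B i) = 2 :=
  hs.card_inter i

omit [Fintype ι] in
theorem LAx_Dd_inj {k b : ℕ} {A B : ι → Finset α} (hs : IsSys k b A B) {i j : ι}
    (h : Disjoint (Dd A B i) (B j)) : i = j := by
  apply row_A hs (T := Dd A B i) (c := Cc A B i) (m := i) rfl _ h
  intro x hx
  unfold Dd at hx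
  unfold Cc
  simp only [mem_sdiff, mem_inter, not_and, not_not] at hx ⊢
  exact ⟨hx.1, hx.2 hx.1⟩

omit [Fintype ι] in
theorem LAx_Dd_injective {k b : ℕ} {A B : ι → Finset α} (hs : IsSys k b A B) : Function.Injective (Dd A B) := by
  intro i j hij
  apply LAx_Dd_inj hs
  rw [hij]
  exact LAx_Dd_dis j

omit [Fintype ι] in
theorem LAx_A_injective {k b : ℕ} {A B : ι → Finset α} (hs : IsSys k b A B) : Function.Injective A := by
  intro i j hij
  by_contra hne
  apply hs.not_sub i j j hne
  rw [hij]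

/-- Row `A_l` and the columns of `MJ` and `D_i`. -/
theorem row_A_col {k b : ℕ} {A B : ι → Finset α} {Y : Finset α} {L : List (Finset α)} (hs : IsSys k b A B)
    (hL : KL A B Y L) {l : ι} {T : Finset α} (h : T ⊆ A l ∧ A l \ T ∈ L)
    (hQ : T ∈ MJ k A B Y ∨ ∃ i, Dd A B i = T) : T = Dd A B l ∧ Cc A B l ∈ L := by
  obtain ⟨_, m, hm⟩ := hL.core _ h.2
  rcases hQ with hQ | ⟨i, hi⟩
  · exfalso
    obtain ⟨_, hk, i, hd, hne⟩ := mem_MJ.1 hQ
    have hli : l = i := row_A hs hm (subset_refl _) hd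
    subst hli
    apply hne
    apply eq_of_subset_of_card_le
    · intro x hx
      exact mem_sdiff.2 ⟨h.1 hx, disjoint_left.1 hd hx⟩
    · rw [LAx_card_Dd hs, hk]
  · have hli : l = i := row_A hs hm (subset_refl _) (by rw [← hi]; exact LAx_Dd_dis i)
    subst hli
    refine ⟨hi.symm, ?_⟩
    have h3 : A l \ T = Cc A B l := by
      rw [← hi]
      unfold Dd Cc
      rw [sdiff_sdiff_right_self]
      rfl
    rw [← h3]
    exact h.2

open scoped Classical in
/-- The rank inequality. -/
theorem LA {k b : ℕ} {A B : ι → Finset α} {Y : Finset α} {L : List (Finset α)} (hs : IsSys k b A B)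
    (hL : KL A B Y L) (hr : ∀ l, A l ⊆ Y → Cc A B l ∉ L → ¬ good L (Dd A B l) → rgood L (A l)) :
    #(cA A Y) + #((cI A B Y).filter fun l => good L (Dd A B l)) + GG k A B Y L ≤ #(Gd k Y L) := by
  have hp := hL.pw
  have h2 : ∀ c ∈ L, #c = 2 := by
    intro c hc
    obtain ⟨_, m, hm⟩ := hL.core c hc
    rw [← hm]
    exact hs.card_inter m
  have hY : ∀ c ∈ L, c ⊆ Y := fun c hc => (hL.core c hc).1
  -- the three classes in `cA`
  set dl : Finset ι := (cA A Y).filter (fun l => Cc A B l ∉ L ∧ ¬ good L (Dd A B l)) with hdl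
  set al : Finset ι := (cA A Y).filter (fun l => Cc A B l ∈ L) with hal
  set be : Finset ι := (cA A Y).filter (fun l => Cc A B l ∉ L ∧ good L (Dd A B l)) with hbe
  set bI : Finset ι := (cI A B Y).filter (fun l => good L (Dd A B l)) with hbI
  have hcA : #(cA A Y) = (al).card + ((be).card + (dl).card) := by
    rw [← Finset.card_filter_add_card_filter_not (s := cA A Y) (fun l => Cc A B l ∈ L)]
    congr 1
    rw [← Finset.card_filter_add_card_filter_not (s := (cA A Y).filter (fun l => Cc A B l ∉ L))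
      (fun l => good L (Dd A B l))]
    rw [filter_filter, filter_filter]
  have hDY : ∀ l, l ∈ cA A Y ∨ l ∈ cI A B Y → Dd A B l ⊆ Y := by
    rintro l (h | h)
    · exact sdiff_subset.trans (mem_cA.1 h)
    · exact (mem_cI.1 h).1
  -- rows and columns
  set R0 : Finset (Finset α) := dl.image A ∪ Fr k A B Y L with hR0
  set S1 : Finset (Finset α) := al.image (Dd A B) with hS1
  set S2 : Finset (Finset α) := (be ∪ bI).image (Dd A B) ∪ (MJ k A B Y ∩ Gd k Y L) with hS2
  have hcR0 : #R0 = (dl).card + #(Fr k A B Y L) := by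
    rw [hR0, card_union_of_disjoint, card_image_of_injective _ (LAx_A_injective hs)]
    rw [disjoint_left]
    intro P hP hF
    obtain ⟨l, hl, rfl⟩ := mem_image.1 hP
    have h3 := (mem_Fr.1 hF).2.2.2.2 l rfl
    exact (mem_filter.1 hl).2.2 h3.2
  have hcS1 : #S1 = (al).card := card_image_of_injective _ (LAx_Dd_injective hs)
  have hcS2 : #S2 = (be).card + #bI + #(MJ k A B Y ∩ Gd k Y L) := by
    rw [hS2, card_union_of_disjoint, card_image_of_injective _ (LAx_Dd_injective hs), card_union_of_disjoint]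
    · rw [disjoint_left]
      intro l hl hl'
      have h3 := (mem_cI.1 (mem_filter.1 hl').1).2
      exact h3 (mem_cA.1 (mem_filter.1 hl).1)
    · rw [disjoint_left]
      intro T hT hT'
      obtain ⟨l, _, rfl⟩ := mem_image.1 hT
      obtain ⟨_, _, i, hi, hne⟩ := mem_MJ.1 (mem_inter.1 hT').1
      exact hne (by rw [LAx_Dd_inj hs hi])
  -- properties
  have hR0r : ∀ P ∈ R0, P ⊆ Y ∧ #P = k + 2 ∧ rgood L P := by
    intro P hP
    rcases mem_union.1 hP with h | h
    · obtain ⟨l, hl, rfl⟩ := mem_image.1 h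
      have h3 := mem_filter.1 hl
      exact ⟨mem_cA.1 h3.1, hs.card_left l, hr l (mem_cA.1 h3.1) h3.2.1 h3.2.2⟩
    · have h3 := mem_Fr.1 h
      exact ⟨h3.1, h3.2.1, h3.2.2.1⟩
  have hR0Q : ∀ P ∈ R0, ∀ T, (T ∈ MJ k A B Y ∨ ∃ i, Dd A B i = T) → ¬ (T ⊆ P ∧ P \ T ∈ L) := by
    intro P hP T hQ hTP
    rcases mem_union.1 hP with h | h
    · obtain ⟨l, hl, rfl⟩ := mem_image.1 h
      have h3 := row_A_col hs hL hTP hQ
      exact (mem_filter.1 hl).2.1 h3.2
    · have h3 := (mem_Fr.1 h).2.2.2.1 _ hTP.2 sdiff_subset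
      rw [Finset.sdiff_sdiff_eq_self hTP.1] at h3
      rcases hQ with hQ | ⟨i, hi⟩
      · exact h3.1 hQ
      · exact h3.2 i hi
  have hS1Q : ∀ T ∈ S1, ∃ l, A l ⊆ Y ∧ Cc A B l ∈ L ∧ Dd A B l = T := by
    intro T hT
    obtain ⟨l, hl, rfl⟩ := mem_image.1 hT
    have h3 := mem_filter.1 hl
    exact ⟨l, mem_cA.1 h3.1, h3.2, rfl⟩
  have hS2Q : ∀ T ∈ S2, (T ∈ MJ k A B Y ∨ ∃ i, Dd A B i = T) ∧ good L T ∧ T ⊆ Y ∧ #T = k := by
    intro T hT
    rcases mem_union.1 hT with h | h
    · obtain ⟨l, hl, rfl⟩ := mem_image.1 h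
      refine ⟨Or.inr ⟨l, rfl⟩, ?_, ?_, LAx_card_Dd hs l⟩
      · rcases mem_union.1 hl with h | h
        · exact (mem_filter.1 h).2.2
        · exact (mem_filter.1 h).2
      · apply hDY
        rcases mem_union.1 hl with h | h
        · exact Or.inl (mem_filter.1 h).1
        · exact Or.inr (mem_filter.1 h).1
    · have h3 := mem_Gd.1 (mem_inter.1 h).2
      exact ⟨Or.inl (mem_inter.1 h).1, h3.2.2, h3.1, h3.2.1⟩
  -- the family
  let tc : (↥R0 ⊕ ↥S1 ⊕ ↥S2) → Finset α := fun i => match i with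
    | Sum.inl P => P.1 \ fst1 L P.1
    | Sum.inr (Sum.inl T) => T.1
    | Sum.inr (Sum.inr T) => T.1
  have hSA : ∀ T : ↥S1, ∃ l, A l ⊆ Y ∧ Cc A B l ∈ L ∧ Dd A B l = T.1 := fun T => hS1Q T.1 T.2
  choose f hf using hSA
  let ρ : (↥R0 ⊕ ↥S1 ⊕ ↥S2) → Finset α := fun i => match i with
    | Sum.inl P => P.1
    | Sum.inr (Sum.inl T) => A (f T)
    | Sum.inr (Sum.inr T) => T.1 ∪ fst1 L T.1
  let rk : (↥R0 ⊕ ↥S1 ⊕ ↥S2) → ℕ := fun i => match i with
    | Sum.inl _ => 0
    | Sum.inr (Sum.inl _) => 1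
    | Sum.inr (Sum.inr _) => 2
  have hind : LinearIndependent (ZMod 2) (fun i => col L (tc i)) := by
    apply tri_indep _ ρ rk
    · rintro (P | T | T)
      · show col L (P.1 \ fst1 L P.1) P.1 = 1
        have h3 := hR0r P.1 P.2
        have h4 := rgood_fst h2 h3.2.2
        rw [col_apply, if_pos]
        refine ⟨sdiff_subset, ?_⟩
        rw [Finset.sdiff_sdiff_eq_self h4.2]
        exact h4.1
      · show col L T.1 (A (f T)) = 1
        have h3 := hf T
        rw [col_apply, if_pos]
        rw [← h3.2.2]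
        refine ⟨sdiff_subset, ?_⟩
        have h4 : A (f T) \ Dd A B (f T) = Cc A B (f T) := by
          unfold Dd Cc
          rw [sdiff_sdiff_right_self]
          rfl
        rw [h4]
        exact h3.2.1
      · show col L T.1 (T.1 ∪ fst1 L T.1) = 1
        have h3 := hS2Q T.1 T.2
        have h4 := good_fst h2 h3.2.1
        rw [col_apply, if_pos]
        refine ⟨subset_union_left, ?_⟩
        rw [union_sdiff_cancel_left h4.2.symm]
        exact h4.1
    · rintro (P | T | T) (P' | T' | T') hne hrk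
      · show col L (P'.1 \ fst1 L P'.1) P.1 = 0
        rw [col_apply, if_neg]
        intro h
        have h3 := hR0r P.1 P.2
        have h4 := hR0r P'.1 P'.2
        have h5 := rgood_sdiff hp h2 h4.2.2
        have h6 := rgood_sdiff hp h2 h3.2.2
        have h7 := col_good_rgood hp h2 h3.2.2 h5.1 h
        apply hne
        congr 1
        apply Subtype.ext
        have h8 : fst1 L P.1 = fst1 L P'.1 := by
          rw [← h6.2, ← h5.2, h7]
        have h9 := rgood_fst h2 h3.2.2
        have h10 := rgood_fst h2 h4.2.2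
        rw [← sdiff_union_of_subset h9.2, ← sdiff_union_of_subset h10.2, h7, h8]
      · show col L T'.1 P.1 = 0
        rw [col_apply, if_neg]
        obtain ⟨l, _, _, hl⟩ := hS1Q T'.1 T'.2
        exact hR0Q P.1 P.2 T'.1 (Or.inr ⟨l, hl⟩)
      · show col L T'.1 P.1 = 0
        rw [col_apply, if_neg]
        exact hR0Q P.1 P.2 T'.1 (hS2Q T'.1 T'.2).1
      · exact absurd hrk (by show ¬ (1 ≤ 0); omega)
      · show col L T'.1 (A (f T)) = 0
        rw [col_apply, if_neg]
        intro h
        obtain ⟨l, _, _, hl⟩ := hS1Q T'.1 T'.2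
        have h3 := row_A_col hs hL h (Or.inr ⟨l, hl⟩)
        apply hne
        congr 2
        apply Subtype.ext
        rw [h3.1, (hf T).2.2]
      · show col L T'.1 (A (f T)) = 0
        rw [col_apply, if_neg]
        intro h
        have h4 := hS2Q T'.1 T'.2
        have h3 := row_A_col hs hL h h4.1
        -- `T' = D_l`, with `C_l ∈ L`, `T' ∈ S2`
        have h5 := T'.2
        rcases mem_union.1 h5 with h6 | h6
        · obtain ⟨m, hm, hmT⟩ := mem_image.1 h6
          rw [h3.1] at hmT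
          have hml : m = f T := LAx_Dd_injective hs hmT
          subst hml
          rcases mem_union.1 hm with h7 | h7
          · exact (mem_filter.1 h7).2.1 h3.2
          · exact (mem_cI.1 (mem_filter.1 h7).1).2 (hf T).1
        · obtain ⟨_, _, i, hi, hne'⟩ := mem_MJ.1 (mem_inter.1 h6).1
          rw [h3.1] at hi hne'
          exact hne' (by rw [LAx_Dd_inj hs hi])
      · exact absurd hrk (by show ¬ (2 ≤ 0); omega)
      · exact absurd hrk (by show ¬ (2 ≤ 1); omega)
      · show col L T'.1 (T.1 ∪ fst1 L T.1) = 0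
        rw [col_apply, if_neg]
        intro h
        have h3 := hS2Q T.1 T.2
        have h4 := hS2Q T'.1 T'.2
        have h5 := good_union hp h2 h3.2.1
        have h6 := col_good_rgood hp h2 h5.1 h4.2.1 h
        apply hne
        congr 2
        apply Subtype.ext
        rw [h6, h5.2]
        have h7 := (good_fst h2 h3.2.1).2
        rw [union_sdiff_cancel_right h7.symm]
  -- the span
  set W : Submodule (ZMod 2) (Finset α → ZMod 2) :=
    Submodule.span (ZMod 2) (col L '' (Gd k Y L : Set (Finset α))) with hW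
  have hmem : ∀ i, col L (tc i) ∈ W := by
    rintro (P | T | T)
    · have h3 := hR0r P.1 P.2
      have h4 := rgood_fst h2 h3.2.2
      apply col_mem_span hp h2 hY
      · exact sdiff_subset.trans h3.1
      · show #(P.1 \ fst1 L P.1) = k
        rw [card_sdiff_of_subset h4.2, h2 _ h4.1, h3.2.1]
        omega
    · have h3 := hf T
      apply col_mem_span hp h2 hY
      · show T.1 ⊆ Y
        rw [← h3.2.2]
        exact sdiff_subset.trans h3.1
      · show #T.1 = k
        rw [← h3.2.2]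
        exact LAx_card_Dd hs _
    · have h3 := hS2Q T.1 T.2
      exact col_mem_span hp h2 hY h3.2.2.1 h3.2.2.2
  have hfin : (col L '' (Gd k Y L : Set (Finset α))).Finite := (Gd k Y L).finite_toSet.image _
  have : FiniteDimensional (ZMod 2) W := FiniteDimensional.span_of_finite _ hfin
  have hind' : LinearIndependent (ZMod 2) (fun i => (⟨col L (tc i), hmem i⟩ : W)) := by
    apply LinearIndependent.of_comp W.subtype
    exact hind
  have h5 := hind'.fintype_card_le_finrank
  have h6 : Module.finrank (ZMod 2) W ≤ #(Gd k Y L) := by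
    have h7 : (col L '' (Gd k Y L : Set (Finset α))) = (((Gd k Y L).image (col L) : Finset _) : Set _) := by
      rw [coe_image]
    rw [hW, h7]
    exact (finrank_span_finset_le_card _).trans card_image_le
  have h7 : Fintype.card (↥R0 ⊕ ↥S1 ⊕ ↥S2) = #R0 + (#S1 + #S2) := by
    rw [Fintype.card_sum, Fintype.card_sum, Fintype.card_coe, Fintype.card_coe, Fintype.card_coe]
  rw [h7, hcR0, hcS1, hcS2] at h5
  unfold GG
  omega

/-- The number of good sets for `ν` pairs. -/
def gct : ℕ → ℕ → ℕ → ℕ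
  | _, _, 0 => 0
  | _, 0, _ + 1 => 1
  | N, k + 1, v + 1 => (N - 2).choose (k + 1) + 2 * gct (N - 2) k v

/-- PROOF. Induction on `L`: `T` disjoint from `c`: `(N - 2).choose k` sets. `#(c ∩ T) = 1`: two points of `c`, and `T \ c` is a good `(k - 1)`-subset of `Y \ c` (the other pairs are disjoint from `c`). -/
theorem card_Gd {k : ℕ} {Y : Finset α} {L : List (Finset α)} (hp : L.Pairwise Disjoint)
    (h2 : ∀ c ∈ L, #c = 2 ∧ c ⊆ Y) : #(Gd k Y L) = gct #Y k L.length := by
  classical
  induction L generalizing k Y with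
  | nil =>
    show #(Gd k Y []) = gct #Y k 0
    rw [show gct #Y k 0 = 0 by cases k <;> rfl, card_eq_zero, eq_empty_iff_forall_notMem]
    intro T hT
    exact good_nil T (mem_Gd.1 hT).2.2
  | cons c L ih =>
    have hp' := List.pairwise_cons.1 hp
    obtain ⟨hc2, hcY⟩ := h2 c List.mem_cons_self
    cases k with
    | zero =>
      show #(Gd 0 Y (c :: L)) = gct #Y 0 (L.length + 1)
      rw [show gct #Y 0 (L.length + 1) = 1 from rfl, card_eq_one]
      refine ⟨∅, ?_⟩
      ext T
      rw [mem_Gd, mem_singleton]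
      constructor
      · rintro ⟨_, h, _⟩
        exact card_eq_zero.1 h
      · rintro rfl
        refine ⟨empty_subset _, rfl, ?_⟩
        have h1 : #(c ∩ (∅ : Finset α)) ≠ 1 := by simp
        rw [good_cons_not h1]
        exact disjoint_empty_right _
    | succ k =>
      show #(Gd (k + 1) Y (c :: L)) = gct #Y (k + 1) (L.length + 1)
      rw [show gct #Y (k + 1) (L.length + 1) = (#Y - 2).choose (k + 1) + 2 * gct (#Y - 2) k L.length from rfl]
      have hYc : #(Y \ c) = #Y - 2 := by rw [card_sdiff_of_subset hcY, hc2]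
      have hih : #(Gd k (Y \ c) L) = gct (#Y - 2) k L.length := by
        rw [← hYc]
        apply ih hp'.2
        intro d hd
        refine ⟨(h2 d (List.mem_cons_of_mem _ hd)).1, ?_⟩
        intro x hx
        exact mem_sdiff.2 ⟨(h2 d (List.mem_cons_of_mem _ hd)).2 hx,
          fun hxc => disjoint_left.1 (hp'.1 d hd) hxc hx⟩
      rw [← Finset.card_filter_add_card_filter_not (s := Gd (k + 1) Y (c :: L)) (fun T => Disjoint c T)]
      congr 1
      · rw [← hYc, ← card_powersetCard]
        congr 1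
        ext T
        rw [mem_filter, mem_Gd, mem_powersetCard]
        constructor
        · rintro ⟨⟨h3, h4, _⟩, h5⟩
          exact ⟨subset_sdiff.2 ⟨h3, h5.symm⟩, h4⟩
        · rintro ⟨h3, h4⟩
          have h5 := subset_sdiff.1 h3
          refine ⟨⟨h5.1, h4, ?_⟩, h5.2.symm⟩
          have h1 : #(c ∩ T) ≠ 1 := by rw [L_dis_card h5.2.symm]; decide
          rw [good_cons_not h1]
          exact h5.2.symm
      · rw [← hih, ← hc2, ← card_product]
        symm
        have hgL : ∀ (x : α) (T : Finset α), x ∈ c → (good L (insert x T) ↔ good L T) := by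
          intro x T hx
          have hxd : ∀ d ∈ L, x ∉ d := fun d hd hxd => disjoint_left.1 (hp'.1 d hd) hx hxd
          clear ih hih
          clear hp h2 hp'
          induction L with
          | nil => exact Iff.rfl
          | cons d L ih =>
            have h1 : d ∩ insert x T = d ∩ T := by
              rw [inter_insert_of_notMem (hxd d List.mem_cons_self)]
            have ih' := ih (fun e he => hxd e (List.mem_cons_of_mem _ he))
            by_cases h3 : #(d ∩ T) = 1
            · rw [good_cons_single h3, good_cons_single (by rw [h1]; exact h3)]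
              exact ih'
            · rw [good_cons_not h3, good_cons_not (by rw [h1]; exact h3)]
              rw [disjoint_iff_inter_eq_empty, disjoint_iff_inter_eq_empty, h1]
        refine card_bij (fun p _ => insert p.1 p.2) ?_ ?_ ?_
        · rintro ⟨x, T⟩ hxT
          obtain ⟨hx, hT⟩ := mem_product.1 hxT
          simp only at hx hT
          obtain ⟨h3, h4, h5⟩ := mem_Gd.1 hT
          have h6 := subset_sdiff.1 h3
          have hxT' : x ∉ T := fun h => disjoint_left.1 h6.2 h hx
          have hcT : c ∩ insert x T = {x} := by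
            rw [inter_insert_of_mem hx, disjoint_iff_inter_eq_empty.1 h6.2.symm]
            rfl
          rw [mem_filter, mem_Gd]
          refine ⟨⟨?_, ?_, ?_⟩, ?_⟩
          · exact insert_subset (hcY hx) h6.1
          · rw [card_insert_of_notMem hxT', h4]
          · have h7 : #(c ∩ insert x T) = 1 := by rw [hcT, card_singleton]
            rw [good_cons_single h7, hgL x T hx]
            exact h5
          · intro h7
            exact disjoint_left.1 h7 hx (mem_insert_self _ _)
        · rintro ⟨x, T⟩ hxT ⟨x', T'⟩ hxT' heq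
          obtain ⟨hx, hT⟩ := mem_product.1 hxT
          obtain ⟨hx', hT'⟩ := mem_product.1 hxT'
          simp only at hx hT hx' hT' heq
          have h6 := subset_sdiff.1 (mem_Gd.1 hT).1
          have h6' := subset_sdiff.1 (mem_Gd.1 hT').1
          have hcT : c ∩ insert x T = {x} := by
            rw [inter_insert_of_mem hx, disjoint_iff_inter_eq_empty.1 h6.2.symm]
            rfl
          have hcT' : c ∩ insert x' T' = {x'} := by
            rw [inter_insert_of_mem hx', disjoint_iff_inter_eq_empty.1 h6'.2.symm]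
            rfl
          have hxx : x = x' := by
            rw [heq, hcT'] at hcT
            exact (singleton_injective hcT).symm
          subst hxx
          have hxT1 : x ∉ T := fun h => disjoint_left.1 h6.2 h hx
          have hxT2 : x ∉ T' := fun h => disjoint_left.1 h6'.2 h hx
          rw [← erase_insert hxT1, ← erase_insert hxT2, heq]
        · intro T hT
          rw [mem_filter, mem_Gd] at hT
          obtain ⟨⟨h3, h4, h5⟩, h6⟩ := hT
          have h1 : #(c ∩ T) = 1 := by
            by_contra hne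
            rw [good_cons_not hne] at h5
            exact h6 h5
          rw [good_cons_single h1] at h5
          obtain ⟨x, hx⟩ := card_eq_one.1 h1
          have hxm : x ∈ c ∩ T := by rw [hx]; exact mem_singleton_self x
          have hxc := (mem_inter.1 hxm).1
          have hxT := (mem_inter.1 hxm).2
          have hins : insert x (T.erase x) = T := insert_erase hxT
          refine ⟨(x, T.erase x), ?_, hins⟩
          rw [mem_product]
          refine ⟨hxc, mem_Gd.2 ⟨?_, ?_, ?_⟩⟩
          · rw [subset_sdiff]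
            refine ⟨(erase_subset _ _).trans h3, ?_⟩
            rw [disjoint_left]
            intro y hy hyc
            have hy' := mem_erase.1 hy
            have : y ∈ c ∩ T := mem_inter.2 ⟨hyc, hy'.2⟩
            rw [hx, mem_singleton] at this
            exact hy'.1 this
          · show #(T.erase x) = k
            rw [card_erase_of_mem hxT, h4]
            rfl
          · show good L (T.erase x)
            rw [← hgL x _ hxc, hins]
            exact h5

end Pool.Agent.Lib.MP_20855c_co.LB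
end

section

/-!
# MP_20855c_co, large b: numbers
-/

set_option autoImplicit false

namespace Pool.Agent.Lib.MP_20855c_co.LB

open Finset

private theorem CovN_zero (N k : ℕ) : gct N k 0 = 0 := by
  cases k <;> rfl

private theorem CovN_zs (N v : ℕ) : gct N 0 (v + 1) = 1 := rfl

private theorem CovN_ss (N k v : ℕ) :
    gct N (k + 1) (v + 1) = (N - 2).choose (k + 1) + 2 * gct (N - 2) k v := rfl

theorem gct_big (N k v : ℕ) (h : k + 1 ≤ v) : gct N k v = gct N k (k + 1) := by
  induction k generalizing N v with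
  | zero =>
    obtain ⟨v, rfl⟩ : ∃ w, v = w + 1 := ⟨v - 1, by omega⟩
    rw [CovN_zs, CovN_zs]
  | succ k ih =>
    obtain ⟨v, rfl⟩ : ∃ w, v = w + 1 := ⟨v - 1, by omega⟩
    rw [CovN_ss, CovN_ss, ih (N - 2) v (by omega)]

/-- PROOF. Induction on `v`; `gct N k (k + 1) ≥ ∑_{i ≤ v} 2 ^ i * C(N - 2 - 2 i, k - i)`. -/
theorem gct_lt (N k v : ℕ) (h : v ≤ k) : gct N k v + 2 ^ v * (N - 2 * v - 2).choose (k - v) ≤ gct N k (k + 1) := by
  induction v generalizing N k with
  | zero =>
    rw [CovN_zero, pow_zero, one_mul, Nat.mul_zero, Nat.sub_zero, Nat.sub_zero, zero_add]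
    cases k with
    | zero => rw [CovN_zs, Nat.choose_zero_right]
    | succ k => rw [CovN_ss]; exact Nat.le_add_right _ _
  | succ v ih =>
    obtain ⟨k, rfl⟩ : ∃ w, k = w + 1 := ⟨k - 1, by omega⟩
    rw [CovN_ss, CovN_ss]
    have h1 := ih (N - 2) k (by omega)
    have h2 : N - 2 * (v + 1) - 2 = N - 2 - 2 * v - 2 := by omega
    have h3 : k + 1 - (v + 1) = k - v := by omega
    rw [h2, h3, pow_succ]
    nlinarith [h1]

theorem gct_sum (N k : ℕ) : gct N k (k + 1) = ∑ i ∈ range (k + 1), 2 ^ i * (N - 2 - 2 * i).choose (k - i) := by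
  induction k generalizing N with
  | zero => simp [CovN_zs]
  | succ k ih =>
    rw [CovN_ss, ih, Finset.sum_range_succ' (fun i => 2 ^ i * (N - 2 - 2 * i).choose (k + 1 - i)) (k + 1),
      Finset.mul_sum, add_comm]
    congr 1
    · apply Finset.sum_congr rfl
      intro i _
      have h2 : N - 2 - 2 * (i + 1) = N - 2 - 2 - 2 * i := by omega
      have h3 : k + 1 - (i + 1) = k - i := by omega
      rw [h2, h3, pow_succ]
      ring
    · simp

/-- PROOF. Induction on `k` (steps of one; `C(N, k + 2) = C(N - 2, k + 2) + 2 C(N - 2, k + 1) + C(N - 2, k)`). -/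
theorem gct_ge (N k : ℕ) (h : 2 * k + 2 ≤ N) : N.choose (k + 2) ≤ gct N (k + 2) (k + 3) + N.choose k := by
  have key : ∀ (M j : ℕ), (M + 2).choose (j + 2) = M.choose (j + 2) + 2 * M.choose (j + 1) + M.choose j := by
    intro M j
    rw [Nat.choose_succ_succ' (M + 1) (j + 1), Nat.choose_succ_succ' M j, Nat.choose_succ_succ' M (j + 1)]
    ring
  induction k generalizing N with
  | zero =>
    obtain ⟨M, rfl⟩ : ∃ w, N = w + 2 := ⟨N - 2, by omega⟩
    rw [key, show gct (M + 2) (0 + 2) (0 + 3) = (M + 2 - 2).choose 2 + 2 * gct (M + 2 - 2) 1 2 from rfl,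
      show gct (M + 2 - 2) 1 2 = (M + 2 - 2 - 2).choose 1 + 2 * 1 from rfl]
    simp only [Nat.add_sub_cancel, Nat.choose_one_right, Nat.choose_zero_right, zero_add]
    omega
  | succ k ih =>
    obtain ⟨M, rfl⟩ : ∃ w, N = w + 2 := ⟨N - 2, by omega⟩
    have h1 := ih M (by omega)
    have h2 := key M (k + 1)
    rw [show gct (M + 2) (k + 1 + 2) (k + 1 + 3) =
      (M + 2 - 2).choose (k + 2 + 1) + 2 * gct (M + 2 - 2) (k + 2) (k + 3) from rfl, Nat.add_sub_cancel]
    have h3 : M.choose (k + 1) + 2 * M.choose k ≤ (M + 2).choose (k + 1) := by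
      rw [Nat.choose_succ_succ' (M + 1) k, Nat.choose_succ_succ' M k]
      have h4 : M.choose k ≤ (M + 1).choose k := Nat.choose_le_choose k (Nat.le_succ M)
      omega
    generalize gct M (k + 2) (k + 3) = x at h1 ⊢
    have h5 : (M + 2).choose (k + 1 + 2) = M.choose (k + 2 + 1) + 2 * M.choose (k + 2) + M.choose (k + 1) := h2
    omega

end Pool.Agent.Lib.MP_20855c_co.LB
end

section

/-!
# MP_20855c_co, large b: ratios of binomial coefficients
-/

set_option autoImplicit false

namespace Pool.Agent.Lib.MP_20855c_co.LB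

open Finset

theorem choose_ratio1 (n r : ℕ) (hn : 1 ≤ n) : (1 - (r : ℝ) / n) * (n.choose r : ℝ) ≤ ((n - 1).choose r : ℝ) := by
  obtain ⟨m, rfl⟩ : ∃ m, n = m + 1 := ⟨n - 1, by omega⟩
  rw [Nat.add_sub_cancel]
  have h1 : ((m + 1).choose r : ℝ) * ((m + 1 : ℕ) - (r : ℝ)) ≤ ((m + 1 : ℕ) : ℝ) * (m.choose r : ℝ) := by
    rcases Nat.lt_or_ge (m + 1) r with h | h
    · rw [Nat.choose_eq_zero_of_lt h]
      simp only [Nat.cast_zero, zero_mul]
      positivity
    · have h2 := Nat.choose_mul_succ_eq m r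
      have h3 : ((m + 1 - r : ℕ) : ℝ) = ((m + 1 : ℕ) : ℝ) - r := Nat.cast_sub h
      rw [← h3]
      have h4 : ((m.choose r * (m + 1) : ℕ) : ℝ) = (((m + 1).choose r * (m + 1 - r) : ℕ) : ℝ) := by exact_mod_cast h2
      rw [Nat.cast_mul, Nat.cast_mul] at h4
      rw [← h4]
      linarith
  have h2 : (0 : ℝ) < ((m + 1 : ℕ) : ℝ) := by positivity
  have h3 : (1 - (r : ℝ) / ((m + 1 : ℕ) : ℝ)) * ((m + 1).choose r : ℝ) = (((m + 1).choose r : ℝ) * ((m + 1 : ℕ) - (r : ℝ))) / ((m + 1 : ℕ) : ℝ) := by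
    field_simp
  rw [h3, div_le_iff₀ h2]
  linarith

theorem choose_ratio (n r s : ℕ) (q : ℝ) (hq : 0 ≤ q) (hq1 : q ≤ 1) (hs : s < n) (h : (r : ℝ) ≤ q * ((n - s : ℕ) : ℝ)) :
    (1 - q) ^ s * (n.choose r : ℝ) ≤ ((n - s).choose r : ℝ) := by
  induction s with
  | zero => simp
  | succ s ih =>
    have h1 : ((n - (s + 1) : ℕ) : ℝ) ≤ ((n - s : ℕ) : ℝ) := by
      exact_mod_cast (by omega : n - (s + 1) ≤ n - s)
    have h2 := ih (by omega) (h.trans (mul_le_mul_of_nonneg_left h1 hq))
    have h3 := choose_ratio1 (n - s) r (by omega)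
    have h4 : (0 : ℝ) < ((n - s : ℕ) : ℝ) := by
      exact_mod_cast (by omega : 0 < n - s)
    have h5 : (r : ℝ) / ((n - s : ℕ) : ℝ) ≤ q := by
      rw [div_le_iff₀ h4]
      exact h.trans (mul_le_mul_of_nonneg_left h1 hq)
    have h6 : n - (s + 1) = n - s - 1 := by omega
    rw [h6]
    calc (1 - q) ^ (s + 1) * (n.choose r : ℝ) = (1 - q) * ((1 - q) ^ s * (n.choose r : ℝ)) := by ring
      _ ≤ (1 - q) * ((n - s).choose r : ℝ) := mul_le_mul_of_nonneg_left h2 (by linarith)
      _ ≤ (1 - (r : ℝ) / ((n - s : ℕ) : ℝ)) * ((n - s).choose r : ℝ) := by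
          apply mul_le_mul_of_nonneg_right _ (Nat.cast_nonneg _)
          linarith
      _ ≤ _ := h3

/-- For large `b` the ratios are close to `1`. -/
theorem ratio (k : ℕ) (η : ℝ) (hη : 0 < η) (M : ℕ) (hM : ((k + 1) * (2 * k + 4) / η : ℝ) < M) (b : ℕ) (hb : M + 2 * k + 5 ≤ b) :
    ∀ r ≤ k, ∀ s ≤ 2 * k + 4, (1 - η) * ((k + b).choose r : ℝ) ≤ ((k + b - s).choose r : ℝ) := by
  intro r hr s hs
  set t : ℝ := ((k + b - s : ℕ) : ℝ) with ht
  have h1 : (M : ℝ) ≤ t := by
    rw [ht]
    exact_mod_cast (by omega : M ≤ k + b - s)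
  have hM0 : (0 : ℝ) < M := lt_of_le_of_lt (by positivity) hM
  have ht0 : 0 < t := by linarith
  by_cases hη1 : 1 ≤ η
  · have h2 : (1 - η) * ((k + b).choose r : ℝ) ≤ 0 := mul_nonpos_of_nonpos_of_nonneg (by linarith) (Nat.cast_nonneg _)
    exact h2.trans (Nat.cast_nonneg _)
  · push Not at hη1
    have hM2 : (k + 1) * (2 * k + 4) < η * t := by
      rw [div_lt_iff₀ hη] at hM
      have : (M : ℝ) * η ≤ t * η := mul_le_mul_of_nonneg_right h1 hη.le
      linarith
    have hk0 : (0 : ℝ) ≤ k := Nat.cast_nonneg k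
    set q : ℝ := (k : ℝ) / t with hq
    have hq0 : 0 ≤ q := by positivity
    have hq1 : q ≤ 1 := by
      rw [hq, div_le_one ht0]
      nlinarith
    have h2 := choose_ratio (k + b) r s q hq0 hq1 (by omega) (by
      rw [← ht, hq, div_mul_cancel₀ _ ht0.ne']
      exact_mod_cast hr)
    refine le_trans ?_ h2
    apply mul_le_mul_of_nonneg_right _ (Nat.cast_nonneg _)
    have h3 : 1 + (s : ℝ) * (-q) ≤ (1 + (-q)) ^ s := one_add_mul_le_pow (by linarith) s
    have h4 : (s : ℝ) * q ≤ η := by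
      rw [hq, mul_div_assoc', div_le_iff₀ ht0]
      have h5 : (s : ℝ) ≤ 2 * k + 4 := by exact_mod_cast hs
      nlinarith
    have h5 : (1 + (-q)) ^ s = (1 - q) ^ s := by ring
    rw [h5] at h3
    linarith

end Pool.Agent.Lib.MP_20855c_co.LB
end
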