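import Pool.Agent.Lib.MP_20855c_co.Mg.G001

section

/-!
# MP_20855c_co, large b: sets meeting all pairs
-/

set_option autoImplicit false

namespace Pool.Agent.Lib.MP_20855c_co.LB

open Finset

variable {α : Type} [DecidableEq α]

open scoped Classical in
/-- The sets meeting all pairs. -/
noncomputable def MA (k : ℕ) (Y : Finset α) (L : List (Finset α)) : Finset (Finset α) :=
  (powersetCard k Y).filter fun T => ∀ c ∈ L, ¬ Disjoint c T

theorem mem_MA {k : ℕ} {Y : Finset α} {L : List (Finset α)} {T : Finset α} :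
    T ∈ MA k Y L ↔ T ⊆ Y ∧ #T = k ∧ ∀ c ∈ L, ¬ Disjoint c T := by
  simp [MA, mem_powersetCard, and_assoc]

/-- Removing a point of the first pair. -/
theorem MA_step {k : ℕ} {Y c : Finset α} {L : List (Finset α)} (hp : (c :: L).Pairwise Disjoint) {T : Finset α} (hT : T ∈ MA (k + 1) Y (c :: L)) :
    ∃ x ∈ c, x ∈ T ∧ T.erase x ∈ MA k Y L := by
  rw [mem_MA] at hT
  obtain ⟨h1, h2, h3⟩ := hT
  have h4 := h3 c List.mem_cons_self
  rw [Finset.not_disjoint_iff] at h4
  obtain ⟨x, hxc, hxT⟩ := h4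
  refine ⟨x, hxc, hxT, ?_⟩
  rw [mem_MA]
  refine ⟨(erase_subset _ _).trans h1, by rw [card_erase_of_mem hxT, h2]; rfl, fun d hd => ?_⟩
  have h5 := h3 d (List.mem_cons_of_mem _ hd)
  rw [Finset.not_disjoint_iff] at h5 ⊢
  obtain ⟨y, hyd, hyT⟩ := h5
  refine ⟨y, hyd, mem_erase.2 ⟨?_, hyT⟩⟩
  rintro rfl
  exact Finset.disjoint_left.1 ((List.pairwise_cons.1 hp).1 d hd) hxc hyd

/-- PROOF. Choose a point of `T` in each pair (at most `2 ^ ν` choices; they are different points), and the `k - ν` others. -/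
theorem card_MA {k : ℕ} {Y : Finset α} {L : List (Finset α)} (hp : L.Pairwise Disjoint) (h2 : ∀ c ∈ L, #c = 2) (hk : L.length ≤ k) :
    #(MA k Y L) ≤ 2 ^ L.length * (#Y).choose (k - L.length) := by
  classical
  induction L generalizing k with
  | nil =>
    simp only [List.length_nil, pow_zero, one_mul, Nat.sub_zero]
    rw [← card_powersetCard]
    apply card_le_card
    intro T hT
    rw [mem_MA] at hT
    exact mem_powersetCard.2 ⟨hT.1, hT.2.1⟩
  | cons c L ih =>
    rw [List.length_cons] at hk ⊢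
    obtain ⟨k, rfl⟩ : ∃ m, k = m + 1 := ⟨k - 1, by omega⟩
    have h3 := ih (List.pairwise_cons.1 hp).2 (fun d hd => h2 d (List.mem_cons_of_mem _ hd)) (by omega : L.length ≤ k)
    have h4 : MA (k + 1) Y (c :: L) ⊆ c.biUnion fun x => (MA k Y L).image (insert x) := by
      intro T hT
      obtain ⟨x, hxc, hxT, hm⟩ := MA_step hp hT
      rw [mem_biUnion]
      refine ⟨x, hxc, ?_⟩
      rw [mem_image]
      exact ⟨T.erase x, hm, insert_erase hxT⟩
    have h5 : k + 1 - (L.length + 1) = k - L.length := by omega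
    rw [h5]
    calc #(MA (k + 1) Y (c :: L)) ≤ #c * #(MA k Y L) := by
          refine (card_le_card h4).trans (card_biUnion_le_card_mul _ _ _ fun x _ => card_image_le)
      _ = 2 * #(MA k Y L) := by rw [h2 c List.mem_cons_self]
      _ ≤ 2 * (2 ^ L.length * (#Y).choose (k - L.length)) := Nat.mul_le_mul_left _ h3
      _ = 2 ^ (L.length + 1) * (#Y).choose (k - L.length) := by ring

theorem MA_empty {k : ℕ} {Y : Finset α} {L : List (Finset α)} (hp : L.Pairwise Disjoint) (hk : k < L.length) :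
    MA k Y L = ∅ := by
  induction L generalizing k with
  | nil => simp at hk
  | cons c L ih =>
    rw [List.length_cons] at hk
    rw [Finset.eq_empty_iff_forall_notMem]
    intro T hT
    cases k with
    | zero =>
      rw [mem_MA] at hT
      obtain ⟨_, h1, h2⟩ := hT
      apply h2 c List.mem_cons_self
      rw [card_eq_zero.1 h1]
      exact disjoint_empty_right _
    | succ k =>
      obtain ⟨x, _, _, hm⟩ := MA_step hp hT
      rw [ih (List.pairwise_cons.1 hp).2 (by omega)] at hm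
      exact absurd hm (notMem_empty _)

theorem AS_sub_MA {k : ℕ} {Y : Finset α} {L : List (Finset α)} : AS k Y L ⊆ MA k Y L := by
  intro T hT
  rw [mem_AS] at hT
  rw [mem_MA]
  refine ⟨hT.1, hT.2.1, fun c hc hd => ?_⟩
  have h1 := hT.2.2 c hc
  rw [disjoint_iff_inter_eq_empty.1 hd] at h1
  simp at h1

/-- PROOF. A point of each pair, and `k - ν` of the `#Y - 2 ν` points outside the pairs. -/
theorem card_AS {k : ℕ} {Y : Finset α} {L : List (Finset α)} (hp : L.Pairwise Disjoint) (h2 : ∀ c ∈ L, #c = 2 ∧ c ⊆ Y) (hk : L.length ≤ k) :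
    #(AS k Y L) ≤ 2 ^ L.length * (#Y - 2 * L.length).choose (k - L.length) := by
  classical
  induction L generalizing k Y with
  | nil =>
    simp only [List.length_nil, pow_zero, one_mul, Nat.sub_zero, mul_zero]
    rw [← card_powersetCard]
    apply card_le_card
    intro T hT
    rw [mem_AS] at hT
    exact mem_powersetCard.2 ⟨hT.1, hT.2.1⟩
  | cons c L ih =>
    rw [List.length_cons] at hk ⊢
    obtain ⟨k, rfl⟩ : ∃ m, k = m + 1 := ⟨k - 1, by omega⟩
    obtain ⟨hc2, hcY⟩ := h2 c List.mem_cons_self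
    have hpc := List.pairwise_cons.1 hp
    have h3 := ih (Y := Y \ c) hpc.2 (fun d hd => ⟨(h2 d (List.mem_cons_of_mem _ hd)).1,
      subset_sdiff.2 ⟨(h2 d (List.mem_cons_of_mem _ hd)).2, (hpc.1 d hd).symm⟩⟩) (by omega : L.length ≤ k)
    have h4 : AS (k + 1) Y (c :: L) ⊆ c.biUnion fun x => (AS k (Y \ c) L).image (insert x) := by
      intro T hT
      rw [mem_AS] at hT
      obtain ⟨h5, h6, h7⟩ := hT
      have h8 := h7 c List.mem_cons_self
      rw [card_eq_one] at h8
      obtain ⟨x, hx⟩ := h8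
      have hx' : x ∈ c ∩ T := by rw [hx]; exact mem_singleton_self x
      rw [mem_inter] at hx'
      rw [mem_biUnion]
      refine ⟨x, hx'.1, ?_⟩
      rw [mem_image]
      refine ⟨T.erase x, ?_, insert_erase hx'.2⟩
      rw [mem_AS]
      refine ⟨?_, by rw [card_erase_of_mem hx'.2, h6]; rfl, fun d hd => ?_⟩
      · intro y hy
        rw [mem_erase] at hy
        rw [mem_sdiff]
        refine ⟨h5 hy.2, fun hyc => ?_⟩
        have h9 : y ∈ c ∩ T := mem_inter.2 ⟨hyc, hy.2⟩
        rw [hx, mem_singleton] at h9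
        exact hy.1 h9
      · have h9 := h7 d (List.mem_cons_of_mem _ hd)
        rw [← h9]
        congr 1
        ext y
        simp only [mem_inter, mem_erase]
        constructor
        · exact fun h => ⟨h.1, h.2.2⟩
        · intro h
          refine ⟨h.1, ?_, h.2⟩
          rintro rfl
          exact Finset.disjoint_left.1 (hpc.1 d hd) hx'.1 h.1
    have h5 : k + 1 - (L.length + 1) = k - L.length := by omega
    have h6 : #(Y \ c) - 2 * L.length = #Y - 2 * (L.length + 1) := by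
      rw [card_sdiff_of_subset hcY, hc2]
      omega
    rw [h6] at h3
    rw [h5]
    calc #(AS (k + 1) Y (c :: L)) ≤ #c * #(AS k (Y \ c) L) := by
          refine (card_le_card h4).trans (card_biUnion_le_card_mul _ _ _ fun x _ => card_image_le)
      _ = 2 * #(AS k (Y \ c) L) := by rw [hc2]
      _ ≤ 2 * (2 ^ L.length * (#Y - 2 * (L.length + 1)).choose (k - L.length)) := Nat.mul_le_mul_left _ h3
      _ = 2 ^ (L.length + 1) * (#Y - 2 * (L.length + 1)).choose (k - L.length) := by ring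

end Pool.Agent.Lib.MP_20855c_co.LB
end

section

/-!
# MP_20855c_co, large b: the size of MJ, the all-split members of the class cI
-/

set_option autoImplicit false

namespace Pool.Agent.Lib.MP_20855c_co.LB

open Finset

variable {ι α : Type} [Fintype ι] [DecidableEq α]

/-- PROOF. If `T ∈ MJ` is disjoint from `c ∈ L`, it is good for `c :: L.erase c`. -/
theorem mj_le {k : ℕ} {A B : ι → Finset α} {Y : Finset α} {L : List (Finset α)} (h2 : ∀ c ∈ L, #c = 2)
    (g : ℕ) (hg : ∀ L' : List (Finset α), L.Perm L' → GG k A B Y L' ≤ g) : #(MJ k A B Y) ≤ L.length * g + #(MA k Y L) := by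
  classical
  have _ := h2
  have hsub : MJ k A B Y ⊆ (L.toFinset.biUnion fun c => MJ k A B Y ∩ Gd k Y (c :: L.erase c)) ∪ MA k Y L := by
    intro T hT
    rw [mem_union]
    by_cases h : ∀ c ∈ L, ¬ Disjoint c T
    · right
      have hT' := mem_MJ.1 hT
      exact mem_filter.2 ⟨mem_powersetCard.2 ⟨hT'.1, hT'.2.1⟩, h⟩
    · left
      push Not at h
      obtain ⟨c, hc, hcT⟩ := h
      have hT' := mem_MJ.1 hT
      rw [mem_biUnion]
      refine ⟨c, List.mem_toFinset.2 hc, mem_inter.2 ⟨hT, mem_Gd.2 ⟨hT'.1, hT'.2.1, ?_⟩⟩⟩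
      have h1 : #(c ∩ T) ≠ 1 := by
        rw [L_dis_card hcT]
        decide
      rw [good_cons_not h1]
      exact hcT
  refine (card_le_card hsub).trans ((card_union_le _ _).trans (Nat.add_le_add_right ?_ _))
  refine (card_biUnion_le_card_mul _ _ g ?_).trans (Nat.mul_le_mul_right _ (List.toFinset_card_le L))
  intro c hc
  have h3 := hg (c :: L.erase c) (List.perm_cons_erase (List.mem_toFinset.1 hc))
  unfold GG at h3
  omega

open scoped Classical in
/-- The all-split members of `cI`. PROOF. `l ∈ cI`: `C_l` is not inside `Y`, so `#(Y \ B_l) ≥ k + 1` (`card_YB`); `z ∈ Y \ B_l \ D_l`; choose a pair `c` not containing `z` and the point `x` of `c ∩ D_l`.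
`M = D_l \ {x} ∪ {z} ∈ MJ` is disjoint from `c` and meets all pairs but `c` and possibly the pair containing `z` in one point: good for `L` or `L.reverse` (`good_or_reverse`). `D_l = M \ {z} ∪ {x}`, `z ∈ M`, `x ∈ VV L` (`#(VV L) = 2 * L.length`). -/
theorem isb {k b : ℕ} {A B : ι → Finset α} {Y : Finset α} {L : List (Finset α)} (hs : IsSys k b A B) (hY : #Y = k + b)
    (hL : KL A B Y L) (h2 : 2 ≤ L.length) :
    #((cI A B Y).filter fun l => allsplit L (Dd A B l)) ≤
      k * (2 * L.length) * (#(MJ k A B Y ∩ Gd k Y L) + #(MJ k A B Y ∩ Gd k Y L.reverse)) := by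
  set S := (cI A B Y).filter fun l => allsplit L (Dd A B l) with hS
  set W := (MJ k A B Y ∩ Gd k Y L) ∪ (MJ k A B Y ∩ Gd k Y L.reverse) with hW
  have hL2 := hL.two hs
  have hdisj : ∀ c ∈ L, ∀ d ∈ L, c ≠ d → Disjoint c d := fun c hc d hd hcd =>
    List.Pairwise.forall (R := Disjoint) hL.pw hc hd hcd
  have hsub : S.image (Dd A B) ⊆ W.biUnion fun M => (M ×ˢ VV L).image fun p => insert p.2 (M.erase p.1) := by
    intro T hT
    obtain ⟨l, hl, rfl⟩ := mem_image.1 hT
    rw [hS, mem_filter, mem_cI] at hl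
    obtain ⟨⟨hDY, hAY⟩, hsp⟩ := hl
    -- a point of the core outside `Y`
    have hw : 1 ≤ #(B l \ Y) := by
      have h3 : ¬ Cc A B l ⊆ Y := by
        intro h3
        apply hAY
        rw [← Dd_union_Cc (A := A) (B := B) l]
        exact union_subset hDY h3
      obtain ⟨w, hw, hwY⟩ := Finset.not_subset.1 h3
      exact card_pos.2 ⟨w, mem_sdiff.2 ⟨(mem_inter.1 hw).2, hwY⟩⟩
    have hcard := card_YB hs hY l
    -- the point `z`
    obtain ⟨z, hz, hzD⟩ : ∃ z ∈ Y \ B l, z ∉ Dd A B l := by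
      apply Finset.exists_mem_notMem_of_card_lt_card
      rw [card_Dd hs l]
      omega
    have hzY := (mem_sdiff.1 hz).1
    have hzB := (mem_sdiff.1 hz).2
    -- a pair not containing `z`
    obtain ⟨c, hc, hzc⟩ : ∃ c ∈ L, z ∉ c := by
      match L, h2, hL with
      | c1 :: c2 :: L', _, hL =>
        by_cases hz1 : z ∈ c1
        · refine ⟨c2, by simp, fun hz2 => ?_⟩
          exact Finset.disjoint_left.1 ((List.pairwise_cons.1 hL.pw).1 c2 (by simp)) hz1 hz2
        · exact ⟨c1, by simp, hz1⟩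
    have hc2 := hL2 c hc
    obtain ⟨x, hx⟩ := card_eq_one.1 (hsp c hc)
    have hxm : x ∈ c ∩ Dd A B l := by rw [hx]; exact mem_singleton_self x
    have hxc := (mem_inter.1 hxm).1
    have hxD := (mem_inter.1 hxm).2
    have hzE : z ∉ (Dd A B l).erase x := fun h => hzD (mem_of_mem_erase h)
    set M := insert z ((Dd A B l).erase x) with hM
    have hMY : M ⊆ Y := insert_subset hzY ((erase_subset _ _).trans hDY)
    have hMk : #M = k := by
      rw [hM, card_insert_of_notMem hzE, card_erase_of_mem hxD, card_Dd hs l]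
      have : 1 ≤ k := by
        rw [← card_Dd hs l]
        exact card_pos.2 ⟨x, hxD⟩
      omega
    have hMB : Disjoint M (B l) := by
      rw [hM, disjoint_insert_left]
      exact ⟨hzB, disjoint_of_subset_left (erase_subset _ _) (Dd_disj_B l)⟩
    have hMJ : M ∈ MJ k A B Y := by
      rw [mem_MJ]
      refine ⟨hMY, hMk, l, hMB, fun h => hzD ?_⟩
      rw [← h, hM]
      exact mem_insert_self _ _
    have hcM : Disjoint c M := by
      rw [Finset.disjoint_left]
      intro y hyc hyM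
      rw [hM, mem_insert, mem_erase] at hyM
      rcases hyM with rfl | ⟨hyx, hyD⟩
      · exact hzc hyc
      · have h3 : y ∈ c ∩ Dd A B l := mem_inter.2 ⟨hyc, hyD⟩
        rw [hx, mem_singleton] at h3
        exact hyx h3
    have hgood : good L M ∨ good L.reverse M := by
      obtain ⟨d, hcd, hd⟩ : ∃ d : Finset α, c ≠ d ∧ ∀ e ∈ L, e ≠ d → z ∉ e := by
        by_cases h3 : ∃ d ∈ L, z ∈ d
        · obtain ⟨d, hd, hzd⟩ := h3
          refine ⟨d, fun h => hzc (h ▸ hzd), fun e he hed hze => ?_⟩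
          exact Finset.disjoint_left.1 (hdisj e he d hd hed) hze hzd
        · refine ⟨∅, fun h => ?_, fun e he _ hze => h3 ⟨e, he, hze⟩⟩
          rw [h] at hc2
          simp at hc2
      refine good_or_reverse hc hcM hcd (fun e he hec hed => ?_) (hL.nodup hs)
      have h4 : e ∩ M = e ∩ Dd A B l := by
        ext y
        rw [mem_inter, mem_inter, hM, mem_insert, mem_erase]
        constructor
        · rintro ⟨h5, h6 | h6⟩
          · rw [h6] at h5
            exact absurd h5 (hd e he hed)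
          · exact ⟨h5, h6.2⟩
        · rintro ⟨h5, h6⟩
          refine ⟨h5, Or.inr ⟨fun h7 => ?_, h6⟩⟩
          rw [h7] at h5
          exact Finset.disjoint_left.1 (hdisj e he c hc hec) h5 hxc
      rw [h4]
      exact hsp e he
    rw [mem_biUnion]
    refine ⟨M, ?_, ?_⟩
    · rw [hW, mem_union, mem_inter, mem_inter, mem_Gd, mem_Gd]
      rcases hgood with h | h
      · exact Or.inl ⟨hMJ, hMY, hMk, h⟩
      · exact Or.inr ⟨hMJ, hMY, hMk, h⟩
    · rw [mem_image]
      refine ⟨(z, x), mem_product.2 ⟨?_, (mem_VV L x).2 ⟨c, hc, hxc⟩⟩, ?_⟩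
      · rw [hM]
        exact mem_insert_self _ _
      · show insert x (M.erase z) = Dd A B l
        rw [hM, erase_insert hzE, insert_erase hxD]
  have hinj : #(S.image (Dd A B)) = #S := card_image_of_injective _ (fun i j h => Dd_inj hs h)
  have hWc : #W ≤ #(MJ k A B Y ∩ Gd k Y L) + #(MJ k A B Y ∩ Gd k Y L.reverse) := card_union_le _ _
  calc #S = #(S.image (Dd A B)) := hinj.symm
    _ ≤ #W * (k * (2 * L.length)) := by
        refine (card_le_card hsub).trans (card_biUnion_le_card_mul _ _ _ ?_)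
        intro M hM
        refine card_image_le.trans ?_
        rw [card_product, (card_VV hs hL).1]
        have h3 : #M = k := by
          rw [hW, mem_union, mem_inter, mem_inter, mem_Gd, mem_Gd] at hM
          rcases hM with h | h
          · exact h.2.2.1
          · exact h.2.2.1
        rw [h3]
    _ = k * (2 * L.length) * #W := by ring
    _ ≤ k * (2 * L.length) * (#(MJ k A B Y ∩ Gd k Y L) + #(MJ k A B Y ∩ Gd k Y L.reverse)) := Nat.mul_le_mul_left _ hWc

end Pool.Agent.Lib.MP_20855c_co.LB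
end

section

/-!
# MP_20855c_co, large b: the consequence of the rank inequality
-/

set_option autoImplicit false

namespace Pool.Agent.Lib.MP_20855c_co.LB

open Finset

variable {ι α : Type} [Fintype ι] [DecidableEq α]

open scoped Classical in
/-- The consequence of `LA`. PROOF. `LA`, `card_classes`; a member of `cI` with `D_l` not good is all-split or contains a pair (`not_good`). -/
theorem key1 {k b : ℕ} {A B : ι → Finset α} {Y : Finset α} {L : List (Finset α)} (hs : IsSys k b A B)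
    (hL : KL A B Y L) (hr : ∀ l, A l ⊆ Y → Cc A B l ∉ L → ¬ good L (Dd A B l) → rgood L (A l)) :
    Fintype.card ι + GG k A B Y L ≤ #(Gd k Y L) + #((cI A B Y).filter fun l => allsplit L (Dd A B l)) +
      #((cI A B Y).filter fun l => ∃ c ∈ L, c ⊆ Dd A B l) + #(Out A B Y) := by
  have h1 := LA hs hL hr
  have h2 := card_classes (A := A) (B := B) (Y := Y)
  have h3 := card_filter_add_card_filter_not (s := cI A B Y) (fun l => good L (Dd A B l))
  have h4 : #((cI A B Y).filter fun l => ¬ good L (Dd A B l)) ≤ #((cI A B Y).filter fun l => allsplit L (Dd A B l)) +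
      #((cI A B Y).filter fun l => ∃ c ∈ L, c ⊆ Dd A B l) := by
    refine (card_le_card ?_).trans (card_union_le _ _)
    intro l hl
    rw [mem_filter] at hl
    rw [mem_union, mem_filter, mem_filter]
    rcases not_good (hL.two hs) hl.2 with h | h
    · exact Or.inl ⟨hl.1, h⟩
    · exact Or.inr ⟨hl.1, h⟩
  omega

omit [Fintype ι] in
private theorem CovC_full {c D P : Finset α} (h2 : #c = 2) (hDP : D ⊆ P) (h1 : #(c ∩ D) = 1) (h : #(c ∩ P) ≠ 1) : c ⊆ P := by
  rcases L_pair (T := P) h2 with h3 | h3 | h3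
  · have h4 := L_dis_card h3
    have h5 : #(c ∩ D) ≤ #(c ∩ P) := card_le_card (inter_subset_inter_left hDP)
    omega
  · exact absurd h3 h
  · exact h3

private theorem CovC_rgood {L : List (Finset α)} {D P : Finset α} (h2 : ∀ c ∈ L, #c = 2) (hDP : D ⊆ P) (h : rgood L D) :
    rgood L P := by
  induction L with
  | nil => exact absurd h (rgood_nil D)
  | cons c L ih =>
    have hc2 := h2 c List.mem_cons_self
    by_cases h1 : #(c ∩ D) = 1
    · rw [rgood_cons_single h1] at h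
      have ih' := ih (fun d hd => h2 d (List.mem_cons_of_mem _ hd)) h
      by_cases h3 : #(c ∩ P) = 1
      · rw [rgood_cons_single h3]
        exact ih'
      · rw [rgood_cons_not h3]
        exact CovC_full hc2 hDP h1 h3
    · rw [rgood_cons_not h1] at h
      have h3 : c ⊆ P := h.trans hDP
      have h4 : #(c ∩ P) ≠ 1 := by
        rw [L_sub_card hc2 h3]
        decide
      rw [rgood_cons_not h4]
      exact h3

private theorem CovC_split {L : List (Finset α)} {D P : Finset α} (h2 : ∀ c ∈ L, #c = 2) (hDP : D ⊆ P) (h : allsplit L D)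
    (hc : ∃ c ∈ L, c ⊆ P) : rgood L P := by
  induction L with
  | nil =>
    obtain ⟨c, hc, _⟩ := hc
    simp at hc
  | cons d L ih =>
    have hd2 := h2 d List.mem_cons_self
    have hd1 : #(d ∩ D) = 1 := h d List.mem_cons_self
    by_cases h3 : #(d ∩ P) = 1
    · rw [rgood_cons_single h3]
      apply ih (fun e he => h2 e (List.mem_cons_of_mem _ he)) (fun e he => h e (List.mem_cons_of_mem _ he))
      obtain ⟨c, hc, hcP⟩ := hc
      rcases List.mem_cons.1 hc with rfl | hc
      · rw [L_sub_card hd2 hcP] at h3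
        omega
      · exact ⟨c, hc, hcP⟩
    · rw [rgood_cons_not h3]
      exact CovC_full hd2 hDP hd1 h3

/-- Case I. PROOF. `D_l` not good. If it is all-split then `C_l` meets a pair, which becomes full, all other pairs are single or full in `A_l`. Otherwise the first nonsingle pair `c` of `D_l` is full in `D_l`; in `A_l` the pairs before it are single or full, `c` is full. -/
theorem hr_I {k b : ℕ} {A B : ι → Finset α} {Y : Finset α} {L : List (Finset α)} (hs : IsSys k b A B)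
    (hL : KL A B Y L) (hI : ∀ l, Cc A B l ⊆ Y → ¬ Disjoint (Cc A B l) (VV L)) :
    ∀ l, A l ⊆ Y → Cc A B l ∉ L → ¬ good L (Dd A B l) → rgood L (A l) := by
  intro l hl _ hg
  have h2 := hL.two hs
  have hDA : Dd A B l ⊆ A l := sdiff_subset
  have hCA : Cc A B l ⊆ A l := inter_subset_left
  rcases L_tri (T := Dd A B l) h2 with h | h | h
  · exact absurd h hg
  · exact CovC_rgood h2 hDA h
  · have h3 := hI l (hCA.trans hl)
    rw [Finset.not_disjoint_iff] at h3
    obtain ⟨x, hx, hxV⟩ := h3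
    obtain ⟨c, hc, hxc⟩ := (mem_VV L x).1 hxV
    apply CovC_split h2 hDA h
    refine ⟨c, hc, ?_⟩
    apply CovC_full (h2 c hc) hDA (h c hc)
    have hxD : x ∉ Dd A B l := fun hxD => Finset.disjoint_left.1 (Dd_disj_Cc l) hxD hx
    have h4 : c ∩ Dd A B l ⊂ c ∩ A l := by
      refine ⟨inter_subset_inter_left hDA, fun hsub => ?_⟩
      exact hxD (mem_inter.1 (hsub (mem_inter.2 ⟨hxc, hCA hx⟩))).2
    have h5 := card_lt_card h4
    have h6 := h c hc
    omega

/-- Case II. PROOF. As `hr_I`; `D_l` cannot be all-split as `k < L.length`. -/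
theorem hr_II {k b : ℕ} {A B : ι → Finset α} {Y : Finset α} {L : List (Finset α)} (hs : IsSys k b A B)
    (hL : KL A B Y L) (hII : k < L.length) :
    ∀ l, A l ⊆ Y → Cc A B l ∉ L → ¬ good L (Dd A B l) → rgood L (A l) := by
  intro l hl _ hg
  have h2 := hL.two hs
  have hDA : Dd A B l ⊆ A l := sdiff_subset
  rcases L_tri (T := Dd A B l) h2 with h | h | h
  · exact absurd h hg
  · exact CovC_rgood h2 hDA h
  · have h3 := allsplit_length hL.pw h
    rw [card_Dd hs l] at h3
    omega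

end Pool.Agent.Lib.MP_20855c_co.LB
end

section

/-!
# MP_20855c_co, large b: maximal sets of pairs, best orders
-/

set_option autoImplicit false

namespace Pool.Agent.Lib.MP_20855c_co.LB

open Finset

variable {ι α : Type} [Fintype ι] [DecidableEq α]

private theorem CovD_step {k b : ℕ} {A B : ι → Finset α} {Y : Finset α} (_hs : IsSys k b A B) (m : ℕ) :
    ∀ L : List (Finset α), KL A B Y L → L.length + m = k + 2 → ∃ L : List (Finset α), KL A B Y L ∧
    (L.length = k + 2 ∨ (L.length ≤ k + 1 ∧ ∀ l, Cc A B l ⊆ Y → ¬ Disjoint (Cc A B l) (VV L))) := by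
  induction m with
  | zero => exact fun L hL h => ⟨L, hL, Or.inl h⟩
  | succ m ih =>
    intro L hL h
    by_cases hex : ∃ l, Cc A B l ⊆ Y ∧ Disjoint (Cc A B l) (VV L)
    · obtain ⟨l, hl, hd⟩ := hex
      refine ih (Cc A B l :: L) ⟨?_, ?_⟩ ?_
      · refine List.pairwise_cons.2 ⟨fun d hdL => ?_, hL.pw⟩
        exact hd.mono_right fun x hx => (mem_VV L x).2 ⟨d, hdL, hx⟩
      · intro c hc
        rcases List.mem_cons.1 hc with rfl | hc
        · exact ⟨hl, l, rfl⟩
        · exact hL.core c hc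
      · simp only [List.length_cons]
        omega
    · refine ⟨L, hL, Or.inr ⟨by omega, fun l hl hd => hex ⟨l, hl, hd⟩⟩⟩

/-- PROOF. Take a longest list with `KL` and length at most `k + 2` (the length is bounded). If its length is at most `k + 1`, a core inside `Y` disjoint from all pairs could be added. -/
theorem exK {k b : ℕ} {A B : ι → Finset α} {Y : Finset α} (hs : IsSys k b A B) : ∃ L : List (Finset α), KL A B Y L ∧
    (L.length = k + 2 ∨ (L.length ≤ k + 1 ∧ ∀ l, Cc A B l ⊆ Y → ¬ Disjoint (Cc A B l) (VV L))) := by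
  refine CovD_step hs (k + 2) [] ⟨List.Pairwise.nil, ?_⟩ (by simp)
  intro c hc
  simp at hc

/-- A best order. -/
theorem exG (k : ℕ) (A B : ι → Finset α) (Y : Finset α) (L : List (Finset α)) : ∃ L0 : List (Finset α), L.Perm L0 ∧
    ∀ L' : List (Finset α), L.Perm L' → GG k A B Y L' ≤ GG k A B Y L0 := by
  classical
  obtain ⟨L0, h0, h1⟩ := Finset.exists_max_image (L.permutations.toFinset) (fun L' => GG k A B Y L')
    ⟨L, by simp⟩
  refine ⟨L0, ?_, fun L' hp => h1 L' ?_⟩
  · exact (List.mem_permutations.1 (List.mem_toFinset.1 h0)).symm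
  · exact List.mem_toFinset.2 (List.mem_permutations.2 hp.symm)

end Pool.Agent.Lib.MP_20855c_co.LB
end

section

/-!
# MP_20855c_co, large b: the class A
-/

set_option autoImplicit false

namespace Pool.Agent.Lib.MP_20855c_co.LB

open Finset

/-- The class A for the pair `c`: `A_j` contains `c`, but is not inside `Y`. -/
def SA {ι α : Type} [Fintype ι] [DecidableEq α] (A : ι → Finset α) (Y c : Finset α) : Finset ι :=
  univ.filter fun j => ¬ A j ⊆ Y ∧ c ⊆ A j

/-- PROOF. `c ⊆ A_j ∩ Y ⊆ P`, so `P` is rgood for `c :: L`. If `P` is not in `Fr` and no `P \ c'` is in `MJ`, then `P \ c' = D_l` for some `l`, or `P = A_l`. `l ≠ j` (`hP`; `A_j` is not inside `Y`). In the first case `A_j ∩ B_l ⊄ c'` (`not_sub`, `c'` is a core) and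
`A_j ∩ Y ∩ B_l ⊆ (D_l ∪ c') ∩ B_l ⊆ c'`; in the second case `A_j ∩ B_l ⊄ C_l` and `A_j ∩ Y ∩ B_l ⊆ A_l ∩ B_l = C_l`. So `A_j \ Y` meets `B_l`. -/
theorem ca_str {ι α : Type} [Fintype ι] [DecidableEq α] {k b : ℕ} {A B : ι → Finset α} {Y c : Finset α} {L : List (Finset α)} (hs : IsSys k b A B)
    (hL : KL A B Y (c :: L)) {j : ι} (hj : ¬ A j ⊆ Y) (hc : c ⊆ A j) {P : Finset α} (hPY : P ⊆ Y) (hPk : #P = k + 2) (hAP : A j ∩ Y ⊆ P)
    (hP : ∀ d ∈ c :: L, P ≠ Dd A B j ∪ d) :
    P ∈ Fr k A B Y (c :: L) ∨ (∃ d ∈ c :: L, d ⊆ P ∧ P \ d ∈ MJ k A B Y) ∨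
      ∃ l ∈ cB A B Y, aconf A B Y j l ∧ (P = A l ∨ ∃ d ∈ c :: L, d ⊆ P ∧ P \ d = Dd A B l) := by
  classical
  have h2 := hL.two hs
  have hcm : c ∈ c :: L := List.mem_cons_self
  have hcY : c ⊆ Y := (hL.core c hcm).1
  have hcP : c ⊆ P := fun x hx => hAP (mem_inter.2 ⟨hc hx, hcY hx⟩)
  by_cases hMJ : ∃ d ∈ c :: L, d ⊆ P ∧ P \ d ∈ MJ k A B Y
  · exact Or.inr (Or.inl hMJ)
  by_cases hDl : ∃ d ∈ c :: L, d ⊆ P ∧ ∃ l, Dd A B l = P \ d
  · right; right
    obtain ⟨d, hd, hdP, l, hl⟩ := hDl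
    have hjl : j ≠ l := by
      rintro rfl
      apply hP d hd
      rw [hl, sdiff_union_of_subset hdP]
    obtain ⟨l0, hl0⟩ := (hL.core d hd).2
    obtain ⟨x, hx, hxd⟩ := not_subset.1 (hs.not_sub j l l0 hjl)
    rw [mem_inter] at hx
    have hxd' : x ∉ d := by
      rw [← hl0]
      exact hxd
    have hxY : x ∉ Y := by
      intro hxY
      have h3 : x ∈ Dd A B l := by
        rw [hl]
        exact mem_sdiff.2 ⟨hAP (mem_inter.2 ⟨hx.1, hxY⟩), hxd'⟩
      exact disjoint_left.1 (Dd_disj_B l) h3 hx.2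
    refine ⟨l, mem_cB.2 ⟨?_, fun h => hxY (h hx.2)⟩, ?_, Or.inr ⟨d, hd, hdP, hl.symm⟩⟩
    · rw [hl]
      exact sdiff_subset.trans hPY
    · unfold aconf
      rw [not_disjoint_iff]
      exact ⟨x, mem_sdiff.2 ⟨hx.1, hxY⟩, hx.2⟩
  by_cases hA : ∃ l, A l = P
  · right; right
    obtain ⟨l, hl⟩ := hA
    have hjl : j ≠ l := by
      rintro rfl
      apply hj
      rw [hl]
      exact hPY
    obtain ⟨x, hx, hxd⟩ := not_subset.1 (hs.not_sub j l l hjl)
    rw [mem_inter] at hx
    have hxY : x ∉ Y := by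
      intro hxY
      apply hxd
      rw [mem_inter, hl]
      exact ⟨hAP (mem_inter.2 ⟨hx.1, hxY⟩), hx.2⟩
    refine ⟨l, mem_cB.2 ⟨?_, fun h => hxY (h hx.2)⟩, ?_, Or.inl hl.symm⟩
    · refine sdiff_subset.trans ?_
      rw [hl]
      exact hPY
    · unfold aconf
      rw [not_disjoint_iff]
      exact ⟨x, mem_sdiff.2 ⟨hx.1, hxY⟩, hx.2⟩
  left
  rw [mem_Fr]
  refine ⟨hPY, hPk, ?_, ?_, fun l hl => absurd ⟨l, hl⟩ hA⟩
  · have h1 : #(c ∩ P) ≠ 1 := by
      rw [inter_eq_left.2 hcP, h2 c hcm]; decide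
    rw [rgood_cons_not h1]
    exact hcP
  · intro d hd hdP
    refine ⟨fun h => hMJ ⟨d, hd, hdP, h⟩, fun i hi => hDl ⟨d, hd, hdP, i, hi⟩⟩

end Pool.Agent.Lib.MP_20855c_co.LB
end

section

/-!
# MP_20855c_co, large b: explicit bounds for the constants
-/
set_option autoImplicit false
namespace Pool.Agent.Lib.MP_20855c_co.LB
open Finset

theorem Z16 (k : ℕ) : (16 : ℝ) ^ (k + 2) ≤ (100 * (k + 2 : ℕ) : ℝ) ^ (k + 2) := by
  apply pow_le_pow_left₀ (by norm_num)
  push_cast
  linarith [(Nat.cast_nonneg k : (0 : ℝ) ≤ k)]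

theorem Z2 (k : ℕ) : (2 : ℝ) ^ (k + 2) * (2 : ℝ) ^ (k + 2) * ((2 : ℝ) ^ (k + 2) * (2 : ℝ) ^ (k + 2)) ≤ (100 * (k + 2 : ℕ) : ℝ) ^ (k + 2) := by
  have h := Z16 k
  have h2 : (2 : ℝ) ^ (k + 2) * (2 : ℝ) ^ (k + 2) * ((2 : ℝ) ^ (k + 2) * (2 : ℝ) ^ (k + 2)) = 16 ^ (k + 2) := by
    rw [← mul_pow, ← mul_pow]
    norm_num
  rw [h2]
  exact h

theorem Ze (k : ℕ) : (((k + 2) * ((k + 1) * 3) : ℕ) : ℝ) * (3 * (2 * 2 ^ (k + 2)) * kap k +
    3 * (2 * ((2 ^ (k + 2) * 2 ^ (k + 2)) * (2 ^ (k + 2) * 2 ^ (k + 2)) * 16)) * kap k) ≤ (100 * (k + 2 : ℕ) : ℝ) ^ (k + 5) := by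
  have h := Z2 k
  obtain ⟨t, ht⟩ : ∃ t : ℝ, t = 2 ^ (k + 2) := ⟨_, rfl⟩
  have ht1 : 1 ≤ t := by rw [ht]; exact one_le_pow₀ (by norm_num)
  rw [← ht] at h ⊢
  obtain ⟨u, hu⟩ : ∃ u : ℝ, u = ((k + 2 : ℕ) : ℝ) := ⟨_, rfl⟩
  have hu2 : 2 ≤ u := by rw [hu]; push_cast; linarith [(Nat.cast_nonneg k : (0 : ℝ) ≤ k)]
  have hk1 : (((k + 2) * ((k + 1) * 3) : ℕ) : ℝ) ≤ 3 * u ^ 2 := by
    rw [hu]
    have : ((k + 2) * ((k + 1) * 3) : ℕ) ≤ 3 * (k + 2) ^ 2 := by nlinarith
    exact_mod_cast this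
  have hkap : kap k = 16 * u := by rw [hu]; rfl
  rw [← hu, hkap]
  have h3 : (100 * u) ^ (k + 5) = (100 * u) ^ (k + 2) * (100 * u) ^ 3 := by rw [← pow_add]
  have h4 : t ≤ t * t * (t * t) := by
    have h5 : 1 ≤ t * t := by nlinarith
    have h6 : t * 1 ≤ t * t := by nlinarith
    nlinarith
  obtain ⟨w, hw⟩ : ∃ w : ℝ, w = t * t * (t * t) := ⟨_, rfl⟩
  rw [← hw] at h4 h ⊢
  rw [← hu] at h
  have hw0 : 0 ≤ w := by linarith
  rw [h3]
  have hu0 : 0 ≤ u := by linarith
  calc (((k + 2) * ((k + 1) * 3) : ℕ) : ℝ) * (3 * (2 * t) * (16 * u) + 3 * (2 * (w * 16)) * (16 * u))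
      ≤ 3 * u ^ 2 * (3 * (2 * w) * (16 * u) + 3 * (2 * (w * 16)) * (16 * u)) := by
        apply mul_le_mul hk1 _ (by positivity) (by positivity)
        have : 3 * (2 * t) * (16 * u) ≤ 3 * (2 * w) * (16 * u) := by
          apply mul_le_mul_of_nonneg_right _ (by positivity)
          linarith
        linarith
    _ = w * (4896 * u ^ 3) := by ring
    _ ≤ (100 * u) ^ (k + 2) * (100 * u) ^ 3 := by
        apply mul_le_mul h _ (by positivity) (by positivity)
        have : (0 : ℝ) ≤ u ^ 3 := by positivity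
        rw [mul_pow]
        norm_num
        nlinarith

theorem Za (k : ℕ) : (((k + 1) * 3 : ℕ) : ℝ) * (5 * (((k + 3) * 2 ^ (k + 2 + 2) : ℕ) : ℝ) * kap k) ≤ (100 * (k + 2 : ℕ) : ℝ) ^ (k + 5) := by
  have h := Z2 k
  obtain ⟨t, ht⟩ : ∃ t : ℝ, t = 2 ^ (k + 2) := ⟨_, rfl⟩
  have ht1 : 1 ≤ t := by rw [ht]; exact one_le_pow₀ (by norm_num)
  have ht2 : (((k + 3) * 2 ^ (k + 2 + 2) : ℕ) : ℝ) = ((k : ℝ) + 3) * (4 * t) := by
    rw [ht]; push_cast; ring
  rw [← ht] at h
  rw [ht2]
  obtain ⟨u, hu⟩ : ∃ u : ℝ, u = ((k + 2 : ℕ) : ℝ) := ⟨_, rfl⟩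
  have huk : u = k + 2 := by rw [hu]; push_cast; ring
  have hk0 : (0 : ℝ) ≤ k := Nat.cast_nonneg k
  have hu2 : 2 ≤ u := by linarith
  have hk1 : (((k + 1) * 3 : ℕ) : ℝ) ≤ 3 * u := by push_cast; linarith
  have hkap : kap k = 16 * u := by rw [hu]; rfl
  rw [← hu] at h ⊢
  rw [hkap]
  have h3 : (100 * u) ^ (k + 5) = (100 * u) ^ (k + 2) * (100 * u) ^ 3 := by rw [← pow_add]
  have h4 : t ≤ t * t * (t * t) := by
    have h5 : 1 ≤ t * t := by nlinarith
    have h6 : t * 1 ≤ t * t := by nlinarith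
    nlinarith
  rw [h3]
  have hu0 : 0 ≤ u := by linarith
  have ht0 : 0 ≤ t := by linarith
  calc (((k + 1) * 3 : ℕ) : ℝ) * (5 * (((k : ℝ) + 3) * (4 * t)) * (16 * u))
      ≤ 3 * u * (5 * ((2 * u) * (4 * t)) * (16 * u)) := by
        apply mul_le_mul hk1 _ (by positivity) (by positivity)
        have : ((k : ℝ) + 3) * (4 * t) ≤ (2 * u) * (4 * t) := by
          apply mul_le_mul_of_nonneg_right _ (by positivity)
          linarith
        apply mul_le_mul_of_nonneg_right _ (by positivity)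
        linarith
    _ = t * (1920 * u ^ 3) := by ring
    _ ≤ (100 * u) ^ (k + 2) * (100 * u) ^ 3 := by
        apply mul_le_mul (h4.trans h) _ (by positivity) (by positivity)
        have : (0 : ℝ) ≤ u ^ 3 := by positivity
        rw [mul_pow]
        norm_num
        nlinarith

theorem Zn (k : ℕ) : (((k + 1) * 2 ^ (k + 2) : ℕ) : ℝ) * (3 * ((k + 3) * 2 ^ (k + 2)) * kap k) ≤ (100 * (k + 2 : ℕ) : ℝ) ^ (k + 5) := by
  have h := Z2 k
  obtain ⟨t, ht⟩ : ∃ t : ℝ, t = 2 ^ (k + 2) := ⟨_, rfl⟩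
  have ht1 : 1 ≤ t := by rw [ht]; exact one_le_pow₀ (by norm_num)
  have ht2 : (((k + 1) * 2 ^ (k + 2) : ℕ) : ℝ) = ((k : ℝ) + 1) * t := by
    rw [ht]; push_cast; ring
  rw [ht2]
  rw [← ht] at h ⊢
  obtain ⟨u, hu⟩ : ∃ u : ℝ, u = ((k + 2 : ℕ) : ℝ) := ⟨_, rfl⟩
  have huk : u = k + 2 := by rw [hu]; push_cast; ring
  have hk0 : (0 : ℝ) ≤ k := Nat.cast_nonneg k
  have hu2 : 2 ≤ u := by linarith
  have hkap : kap k = 16 * u := by rw [hu]; rfl
  rw [← hu] at h ⊢
  rw [hkap]
  have h3 : (100 * u) ^ (k + 5) = (100 * u) ^ (k + 2) * (100 * u) ^ 3 := by rw [← pow_add]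
  have h4 : t * t ≤ t * t * (t * t) := by
    have h5 : 1 ≤ t * t := by nlinarith
    nlinarith
  rw [h3]
  have hu0 : 0 ≤ u := by linarith
  have ht0 : 0 ≤ t := by linarith
  calc ((k : ℝ) + 1) * t * (3 * (((k : ℝ) + 3) * t) * (16 * u))
      ≤ u * t * (3 * ((2 * u) * t) * (16 * u)) := by
        apply mul_le_mul _ _ (by positivity) (by positivity)
        · apply mul_le_mul_of_nonneg_right _ ht0
          linarith
        · apply mul_le_mul_of_nonneg_right _ (by positivity)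
          have : ((k : ℝ) + 3) * t ≤ (2 * u) * t := by
            apply mul_le_mul_of_nonneg_right _ ht0
            linarith
          linarith
    _ = t * t * (96 * u ^ 3) := by ring
    _ ≤ (100 * u) ^ (k + 2) * (100 * u) ^ 3 := by
        apply mul_le_mul (h4.trans h) _ (by positivity) (by positivity)
        have : (0 : ℝ) ≤ u ^ 3 := by positivity
        rw [mul_pow]
        norm_num
        nlinarith

theorem Zf (k : ℕ) : (((k + 1 : ℕ)) : ℝ) * (3 * 2 ^ (k + 2) * kap k) ≤ (100 * (k + 2 : ℕ) : ℝ) ^ (k + 5) := by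
  refine le_trans ?_ (Zn k)
  have h1 : (1 : ℝ) ≤ 2 ^ (k + 2) := one_le_pow₀ (by norm_num)
  have hκ : (0 : ℝ) < kap k := by unfold kap; positivity
  push_cast
  have hk0 : (0 : ℝ) ≤ k := Nat.cast_nonneg k
  have h2 : (3 : ℝ) * 2 ^ (k + 2) * kap k ≤ 3 * ((k + 3) * 2 ^ (k + 2)) * kap k := by
    apply mul_le_mul_of_nonneg_right _ hκ.le
    nlinarith
  calc ((k : ℝ) + 1) * (3 * 2 ^ (k + 2) * kap k) ≤ ((k : ℝ) + 1) * (3 * ((k + 3) * 2 ^ (k + 2)) * kap k) := mul_le_mul_of_nonneg_left h2 (by positivity)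
    _ ≤ ((k : ℝ) + 1) * 2 ^ (k + 2) * (3 * ((k + 3) * 2 ^ (k + 2)) * kap k) := by
        apply mul_le_mul_of_nonneg_right _ (by positivity)
        nlinarith

end Pool.Agent.Lib.MP_20855c_co.LB
end

section

/-!
# MP_20855c_co, large b: the class A, counting
-/

set_option autoImplicit false

namespace Pool.Agent.Lib.MP_20855c_co.LB

open Finset

/-- The pairs `(R, P)`, `R ⊆ P`, `P ∈ S`. -/
private def ClA2_dec {α : Type} [DecidableEq α] (S : Finset (Finset α)) : Finset (Finset α × Finset α) :=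
  S.biUnion fun P => P.powerset.image fun R => (R, P)

private theorem ClA2_mem_dec {α : Type} [DecidableEq α] {S : Finset (Finset α)} {R P : Finset α} (hP : P ∈ S) (hR : R ⊆ P) :
    (R, P) ∈ ClA2_dec S := by
  unfold ClA2_dec
  rw [mem_biUnion]
  exact ⟨P, hP, mem_image.2 ⟨R, mem_powerset.2 hR, rfl⟩⟩

private theorem ClA2_card_dec {α : Type} [DecidableEq α] {S : Finset (Finset α)} {m : ℕ} (h : ∀ P ∈ S, #P ≤ m) :
    #(ClA2_dec S) ≤ #S * 2 ^ m := by
  unfold ClA2_dec
  apply card_biUnion_le_card_mul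
  intro P hP
  refine card_image_le.trans ?_
  rw [card_powerset]
  exact Nat.pow_le_pow_right (by norm_num) (h P hP)

/-- The candidates for `P`. -/
private def ClA2_cand {α : Type} [DecidableEq α] (L : List (Finset α)) (w : Finset α) : Finset (Finset α) :=
  insert w (L.toFinset.image fun d => w ∪ d)

private theorem ClA2_card_cand {α : Type} [DecidableEq α] {L : List (Finset α)} {w : Finset α} {k m : ℕ} (hL : L.length ≤ k + 2)
    (h2 : ∀ d ∈ L, #d = 2) (hw : #w ≤ m) : #(ClA2_dec (ClA2_cand L w)) ≤ (k + 3) * 2 ^ (m + 2) := by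
  have h1 : ∀ P ∈ ClA2_cand L w, #P ≤ m + 2 := by
    intro P hP
    unfold ClA2_cand at hP
    rw [mem_insert, mem_image] at hP
    rcases hP with rfl | ⟨d, hd, rfl⟩
    · omega
    · refine (card_union_le _ _).trans ?_
      rw [h2 d (List.mem_toFinset.1 hd)]
      omega
  refine (ClA2_card_dec h1).trans (Nat.mul_le_mul_right _ ?_)
  unfold ClA2_cand
  refine (card_insert_le _ _).trans ?_
  have h3 : #(L.toFinset.image fun d => w ∪ d) ≤ L.length := card_image_le.trans (List.toFinset_card_le L)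
  omega

private theorem ClA2_bet {k b : ℕ} {ι α : Type} [Fintype ι] [DecidableEq α] {A B : ι → Finset α} {Y : Finset α} {ε : ℝ} (h : Ctx k b A B Y ε) :
    ((k + 2 : ℕ) : ℝ) ≤ bet k b := by
  have h1 := h.b_large
  have h2 : (k + 2) * (16 * (k + 2)) ≤ b := by
    refine le_trans ?_ h1
    calc (k + 2) * (16 * (k + 2)) ≤ (100 * (k + 2)) * (100 * (k + 2)) := Nat.mul_le_mul (by omega) (by omega)
      _ = (100 * (k + 2)) ^ 2 := by ring
      _ ≤ (100 * (k + 2)) ^ (k + 6) := Nat.pow_le_pow_right (by omega) (by omega)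
  unfold bet kap
  rw [le_div_iff₀ (by positivity)]
  exact_mod_cast h2

/-- The number of test sets. -/
private theorem ClA2_Q {k b : ℕ} {ι α : Type} [Fintype ι] [DecidableEq α] {A B : ι → Finset α} {Y : Finset α} {ε : ℝ} (h : Ctx k b A B Y ε)
    {L : List (Finset α)} (hL : L.length ≤ k + 2) (j : ι) (e : ℕ) (he1 : 1 ≤ e) (he : #(A j \ Y) = e) :
    bet k b ^ e ≤ #((powersetCard (k + 2) Y).filter fun P => A j ∩ Y ⊆ P ∧ ∀ d ∈ L, P ≠ Dd A B j ∪ d) := by
  classical
  have hs := h.sys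
  have hY := h.cY
  have hβ1 := (h.s_le).2
  have hβ2 := ClA2_bet h
  have hb := h.b_large
  have hb4 : 100 ≤ b := by
    refine le_trans ?_ hb
    calc 100 = 100 ^ 1 := by norm_num
      _ ≤ (100 * (k + 2)) ^ 1 := Nat.pow_le_pow_left (by omega) 1
      _ ≤ (100 * (k + 2)) ^ (k + 6) := Nat.pow_le_pow_right (by omega) (by omega)
  have hAc : #(A j) = k + 2 := hs.card_left j
  have hek : e ≤ k + 2 := by
    rw [← he, ← hAc]
    exact card_le_card sdiff_subset
  have hAY : #(A j ∩ Y) = k + 2 - e := by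
    have h1 := card_inter_add_card_sdiff (A j) Y
    omega
  have hYA : #(Y \ A j) = b - 2 + e := by
    have h1 := card_inter_add_card_sdiff Y (A j)
    rw [inter_comm] at h1
    omega
  set S := (powersetCard (k + 2) Y).filter fun P => A j ∩ Y ⊆ P ∧ ∀ d ∈ L, P ≠ Dd A B j ∪ d with hS
  set T := (powersetCard e (Y \ A j)).image fun E => (A j ∩ Y) ∪ E with hT
  have hTc : #T = (b - 2 + e).choose e := by
    rw [hT, card_image_of_injOn, card_powersetCard, hYA]
    intro E hE E' hE' hEE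
    have hE := (mem_powersetCard.1 (mem_coe.1 hE)).1
    have hE' := (mem_powersetCard.1 (mem_coe.1 hE')).1
    have hx : ∀ F : Finset α, F ⊆ Y \ A j → ((A j ∩ Y) ∪ F) \ (A j ∩ Y) = F := by
      intro F hF
      rw [union_sdiff_left]
      rw [Finset.sdiff_eq_self_iff_disjoint]
      exact disjoint_of_subset_left hF (disjoint_of_subset_right inter_subset_left sdiff_disjoint)
    rw [← hx E hE, ← hx E' hE']
    exact congrArg (fun F => F \ (A j ∩ Y)) hEE
  have hsub : T \ (L.toFinset.image fun d => Dd A B j ∪ d) ⊆ S := by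
    intro P hP
    rw [mem_sdiff] at hP
    obtain ⟨hP1, hP2⟩ := hP
    rw [hT, mem_image] at hP1
    obtain ⟨E, hE, rfl⟩ := hP1
    rw [mem_powersetCard] at hE
    rw [hS, mem_filter, mem_powersetCard]
    refine ⟨⟨union_subset inter_subset_right (hE.1.trans sdiff_subset), ?_⟩, subset_union_left, ?_⟩
    · rw [card_union_of_disjoint, hAY, hE.2]
      · omega
      · exact disjoint_of_subset_right hE.1 (disjoint_of_subset_left inter_subset_left disjoint_sdiff)
    · intro d hd hd2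
      apply hP2
      rw [mem_image]
      exact ⟨d, List.mem_toFinset.2 hd, hd2.symm⟩
  have hcard : (b - 2 + e).choose e ≤ #S + (k + 2) := by
    have h1 := card_le_card hsub
    have h2 := le_card_sdiff (L.toFinset.image fun d => Dd A B j ∪ d) T
    have h3 : #(L.toFinset.image fun d => Dd A B j ∪ d) ≤ L.length := card_image_le.trans (List.toFinset_card_le L)
    rw [hTc] at h2
    omega
  have hch : (8 * bet k b) ^ e ≤ ((b - 2 + e).choose e : ℝ) := choose_ge hek (by omega) (by omega)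
  have hcard' : ((b - 2 + e).choose e : ℝ) ≤ #S + ((k + 2 : ℕ) : ℝ) := by exact_mod_cast hcard
  have hpow : bet k b ≤ bet k b ^ e := by
    calc bet k b = bet k b ^ 1 := (pow_one _).symm
      _ ≤ bet k b ^ e := pow_le_pow_right₀ hβ1 he1
  have h8 : (8 : ℝ) ≤ 8 ^ e := by
    calc (8 : ℝ) = 8 ^ 1 := (pow_one _).symm
      _ ≤ 8 ^ e := pow_le_pow_right₀ (by norm_num) he1
  have hβ0 : 0 ≤ bet k b ^ e := by positivity
  rw [mul_pow] at hch
  have h9 : 8 * bet k b ^ e ≤ 8 ^ e * bet k b ^ e := mul_le_mul_of_nonneg_right h8 hβ0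
  linarith

open scoped Classical in
private theorem ClA2_one {k b : ℕ} {ι α : Type} [Fintype ι] [DecidableEq α] {A B : ι → Finset α} {Y : Finset α} {ε : ℝ} (h : Ctx k b A B Y ε)
    {c : Finset α} {L : List (Finset α)} (hK : KL A B Y (c :: L)) (hL : (c :: L).length ≤ k + 2) (u v : ℕ) (huv : 1 ≤ u + v) :
    (#(SA A Y c ∩ JUV A B Y u v) : ℝ) ≤ ε * kap k * (((k + 3) * 2 ^ (k + 2 + 2) : ℕ) : ℝ) * (#(Fr k A B Y (c :: L)) + #(MJ k A B Y)) +
      4 * (((k + 3) * 2 ^ (k + 2 + 2) : ℕ) : ℝ) * (ε * kap k * #(MJ k A B Y)) := by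
  have hs := h.sys
  have hβ1 := (h.s_le).2
  have hk : (0 : ℝ) < kap k := by unfold kap; positivity
  have h2 := hK.two hs
  set J := SA A Y c ∩ JUV A B Y u v with hJ
  have hJs : J ⊆ JUV A B Y u v := inter_subset_right
  have hAu : ∀ j ∈ J, #(A j \ Y) = u + v := by
    intro j hj
    have h3 := (mem_filter.1 (hJs hj)).2
    rw [← h3.1, ← h3.2, ← card_union_of_disjoint, ← union_sdiff_distrib, Dd_union_Cc]
    exact disjoint_of_subset_left sdiff_subset (disjoint_of_subset_right sdiff_subset (Dd_disj_Cc j))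
  have hsg : (sg A B Y : ℝ) / bet k b ≤ ε * kap k * #(MJ k A B Y) := by
    rw [div_le_iff₀ (by linarith)]
    refine h.hσ.trans (le_of_eq ?_)
    unfold bet
    field_simp
  have hmain := cnt (A := A) (B := B) (Y := Y) J
    (fun j => (powersetCard (k + 2) Y).filter fun P => A j ∩ Y ⊆ P ∧ ∀ d ∈ c :: L, P ≠ Dd A B j ∪ d)
    (bet k b) (ε * kap k) (u + v) huv hβ1 (by have := h.hε; positivity) (aconf A B Y)
    (fun R => mulA1 h R u v huv J hJs)
    (fun R l => mulA2 h R u v huv J hJs l)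
    (fun j hj => ClA2_Q h hL j (u + v) huv (hAu j hj))
    (Fr k A B Y (c :: L) ∪ MJ k A B Y)
    (fun w => ClA2_dec (ClA2_cand (c :: L) w))
    (fun l => ClA2_dec (ClA2_cand (c :: L) (A l) ∪ ClA2_cand (c :: L) (Dd A B l)))
    ((k + 3) * 2 ^ (k + 2 + 2)) (2 * ((k + 3) * 2 ^ (k + 2 + 2)))
    (by
      intro w hw
      apply ClA2_card_cand hL h2
      rcases mem_union.1 hw with h3 | h3
      · exact (mem_Fr.1 h3).2.1.le
      · rw [(mem_MJ.1 h3).2.1]
        omega)
    (by
      intro l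
      have h3 : ClA2_dec (ClA2_cand (c :: L) (A l) ∪ ClA2_cand (c :: L) (Dd A B l)) ⊆
          ClA2_dec (ClA2_cand (c :: L) (A l)) ∪ ClA2_dec (ClA2_cand (c :: L) (Dd A B l)) := by
        intro p hp
        unfold ClA2_dec at hp ⊢
        rw [mem_biUnion] at hp
        rw [mem_union, mem_biUnion, mem_biUnion]
        obtain ⟨P, hP, hp⟩ := hp
        rcases mem_union.1 hP with hP | hP
        · exact Or.inl ⟨P, hP, hp⟩
        · exact Or.inr ⟨P, hP, hp⟩
      refine (card_le_card h3).trans ((card_union_le _ _).trans ?_)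
      have h4 := ClA2_card_cand (w := A l) (k := k) (m := k + 2) hL h2 (hs.card_left l).le
      have h5 := ClA2_card_cand (w := Dd A B l) (k := k) (m := k + 2) hL h2 (by rw [card_Dd hs]; omega)
      omega)
    (by
      intro j hj P hP
      have hjS := (mem_filter.1 (mem_inter.1 hj).1).2
      rw [mem_filter, mem_powersetCard] at hP
      obtain ⟨⟨hPY, hPk⟩, hAP, hPd⟩ := hP
      have hR : Dd A B j ∩ Y ⊆ P := (inter_subset_inter_right sdiff_subset).trans hAP
      have hun : ∀ d : Finset α, d ⊆ P → (P \ d) ∪ d = P := fun d hd => sdiff_union_of_subset hd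
      rcases ca_str hs hK hjS.1 hjS.2 hPY hPk hAP hPd with h3 | ⟨d, hd, hdP, h3⟩ | ⟨l, hl, hcf, h3⟩
      · left
        exact ⟨P, mem_union_left _ h3, ClA2_mem_dec (mem_insert_self _ _) hR⟩
      · left
        refine ⟨P \ d, mem_union_right _ h3, ClA2_mem_dec ?_ hR⟩
        unfold ClA2_cand
        rw [mem_insert, mem_image]
        exact Or.inr ⟨d, List.mem_toFinset.2 hd, hun d hdP⟩
      · right
        refine ⟨l, hl, hcf, ClA2_mem_dec ?_ hR⟩
        rw [mem_union]
        rcases h3 with h3 | ⟨d, hd, hdP, h3⟩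
        · left
          rw [h3]
          exact mem_insert_self _ _
        · right
          unfold ClA2_cand
          rw [mem_insert, mem_image]
          refine Or.inr ⟨d, List.mem_toFinset.2 hd, ?_⟩
          rw [← h3]
          exact hun d hdP)
  refine hmain.trans ?_
  have hWc : (#(Fr k A B Y (c :: L) ∪ MJ k A B Y) : ℝ) ≤ #(Fr k A B Y (c :: L)) + #(MJ k A B Y) := by
    exact_mod_cast card_union_le _ _
  have hN : (0 : ℝ) ≤ (((k + 3) * 2 ^ (k + 2 + 2) : ℕ) : ℝ) := Nat.cast_nonneg _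
  have h3 : ε * kap k * (((k + 3) * 2 ^ (k + 2 + 2) : ℕ) : ℝ) * #(Fr k A B Y (c :: L) ∪ MJ k A B Y) ≤
      ε * kap k * (((k + 3) * 2 ^ (k + 2 + 2) : ℕ) : ℝ) * (#(Fr k A B Y (c :: L)) + #(MJ k A B Y)) := by
    apply mul_le_mul_of_nonneg_left hWc
    have := h.hε
    positivity
  have h4 : 2 * ((2 * ((k + 3) * 2 ^ (k + 2 + 2)) : ℕ) : ℝ) * sg A B Y / bet k b ≤
      4 * (((k + 3) * 2 ^ (k + 2 + 2) : ℕ) : ℝ) * (ε * kap k * #(MJ k A B Y)) := by
    calc 2 * ((2 * ((k + 3) * 2 ^ (k + 2 + 2)) : ℕ) : ℝ) * sg A B Y / bet k b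
        = 4 * (((k + 3) * 2 ^ (k + 2 + 2) : ℕ) : ℝ) * (sg A B Y / bet k b) := by
          push_cast
          ring
      _ ≤ _ := mul_le_mul_of_nonneg_left hsg (by positivity)
  exact add_le_add h3 h4

/-- PROOF. For fixed `u = #(D_j \ Y)`, `v = #(C_j \ Y)`, `e = u + v ≥ 1`: `cnt` with `J = SA ∩ JUV`, `Q j` = the `P` of `ca_str` (`choose_ge`: there are at least `(8 β) ^ e - (k + 2) ≥ β ^ e` of them, as `#(Y \ A_j) = b - 2 + e`), `W = Fr ∪ MJ`,
`dec1 w` = the pairs `(R, P)`, `R ⊆ P`, `P = w` or `P = w ∪ d`; `dec2 l` = the pairs `(R, P)`, `R ⊆ P`, `P = A_l` or `P = D_l ∪ d`. `η = ε κ`, `sg / β ≤ ε κ * #MJ`. Sum over `u ≤ k`, `v ≤ 2`. -/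
theorem ca (k : ℕ) : ∃ C : ℝ, 0 < C ∧ C ≤ (100 * (k + 2 : ℕ) : ℝ) ^ (k + 5) ∧ ∀ (b : ℕ) (ι α : Type) [Fintype ι] [DecidableEq α] (A B : ι → Finset α) (Y : Finset α) (ε : ℝ),
    Ctx k b A B Y ε → ∀ (c : Finset α) (L : List (Finset α)), KL A B Y (c :: L) → (c :: L).length ≤ k + 2 →
    (#(SA A Y c) : ℝ) ≤ C * ε * (#(Fr k A B Y (c :: L)) + #(MJ k A B Y)) := by
  set N : ℕ := (k + 3) * 2 ^ (k + 2 + 2) with hN
  have hk : (0 : ℝ) < kap k := by unfold kap; positivity
  have hNp : 0 < N := by rw [hN]; positivity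
  have hNp' : (0 : ℝ) < (N : ℝ) := by exact_mod_cast hNp
  refine ⟨(((k + 1) * 3 : ℕ) : ℝ) * (5 * (N : ℝ) * kap k), by positivity, Za k, ?_⟩
  intro b ι α _ _ A B Y ε h c L hK hL
  classical
  have hs := h.sys
  have hε := h.hε
  have hsub : SA A Y c ⊆ (range (k + 1) ×ˢ range 3).biUnion fun p => SA A Y c ∩ JUV A B Y p.1 p.2 := by
    intro j hj
    rw [mem_biUnion]
    refine ⟨(#(Dd A B j \ Y), #(Cc A B j \ Y)), ?_, ?_⟩
    · rw [mem_product, mem_range, mem_range]
      have h1 : #(Dd A B j \ Y) ≤ #(Dd A B j) := card_le_card sdiff_subset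
      have h2 : #(Cc A B j \ Y) ≤ #(Cc A B j) := card_le_card sdiff_subset
      rw [card_Dd hs] at h1
      rw [card_Cc hs] at h2
      constructor
      · show #(Dd A B j \ Y) < k + 1
        omega
      · show #(Cc A B j \ Y) < 3
        omega
    · rw [mem_inter]
      refine ⟨hj, ?_⟩
      unfold JUV
      rw [mem_filter]
      exact ⟨mem_univ j, rfl, rfl⟩
  set X : ℝ := 5 * (N : ℝ) * kap k * ε * (#(Fr k A B Y (c :: L)) + #(MJ k A B Y)) with hX
  have hX0 : 0 ≤ X := by rw [hX]; positivity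
  have hone : ∀ p ∈ range (k + 1) ×ˢ range 3, (#(SA A Y c ∩ JUV A B Y p.1 p.2) : ℝ) ≤ X := by
    intro p _
    rcases Nat.eq_zero_or_pos (p.1 + p.2) with h0 | h0
    · have h1 : SA A Y c ∩ JUV A B Y p.1 p.2 = ∅ := by
        rw [eq_empty_iff_forall_notMem]
        intro j hj
        rw [mem_inter] at hj
        have h2 := (mem_filter.1 hj.2).2
        have h3 := (mem_filter.1 hj.1).2.1
        apply h3
        rw [← Dd_union_Cc (A := A) (B := B) j]
        apply union_subset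
        · rw [← sdiff_eq_empty_iff_subset, ← card_eq_zero]
          omega
        · rw [← sdiff_eq_empty_iff_subset, ← card_eq_zero]
          omega
      rw [h1, card_empty, Nat.cast_zero]
      exact hX0
    · refine (ClA2_one h hK hL p.1 p.2 h0).trans ?_
      rw [← hN, hX]
      have h4 : (0 : ℝ) ≤ #(Fr k A B Y (c :: L)) := Nat.cast_nonneg _
      have h5 : (0 : ℝ) ≤ #(MJ k A B Y) := Nat.cast_nonneg _
      have h6 : 0 ≤ 4 * (N : ℝ) * (ε * kap k * #(Fr k A B Y (c :: L))) := by positivity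
      have h7 : 5 * (N : ℝ) * kap k * ε * (#(Fr k A B Y (c :: L)) + #(MJ k A B Y)) =
          ε * kap k * (N : ℝ) * (#(Fr k A B Y (c :: L)) + #(MJ k A B Y)) + 4 * (N : ℝ) * (ε * kap k * #(MJ k A B Y)) +
          4 * (N : ℝ) * (ε * kap k * #(Fr k A B Y (c :: L))) := by ring
      rw [h7]
      linarith
  calc (#(SA A Y c) : ℝ) ≤ ((∑ p ∈ range (k + 1) ×ˢ range 3, #(SA A Y c ∩ JUV A B Y p.1 p.2) : ℕ) : ℝ) := by
        exact_mod_cast (card_le_card hsub).trans card_biUnion_le
    _ = ∑ p ∈ range (k + 1) ×ˢ range 3, (#(SA A Y c ∩ JUV A B Y p.1 p.2) : ℝ) := by push_cast; rfl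
    _ ≤ ∑ _p ∈ range (k + 1) ×ˢ range 3, X := sum_le_sum hone
    _ = (((k + 1) * 3 : ℕ) : ℝ) * X := by
        rw [sum_const, card_product, card_range, card_range, nsmul_eq_mul]
    _ = _ := by rw [hX]; ring

end Pool.Agent.Lib.MP_20855c_co.LB
end
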