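import Mathlib

section

/-!
# MP_20855c_co: orderings in which one set comes before another
-/

set_option autoImplicit false

namespace Pool.Agent.Lib.MP_20855c_co

open Finset

variable {α : Type*} [Fintype α] [DecidableEq α]

/-- The orderings of `α` in which every element of `P` comes before every element of `Q`. -/
def K (P Q : Finset α) : Finset (α ≃ Fin (Fintype.card α)) :=
  univ.filter fun s => ∀ u ∈ P, ∀ v ∈ Q, s u < s v

lemma mem_K {P Q : Finset α} {s : α ≃ Fin (Fintype.card α)} :
    s ∈ K P Q ↔ ∀ u ∈ P, ∀ v ∈ Q, s u < s v := by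
  simp [K]

lemma exists_initial (s : α ≃ Fin (Fintype.card α)) (R : Finset α) :
    ∀ p, p ≤ R.card → ∃ P' ⊆ R, P'.card = p ∧ ∀ u ∈ P', ∀ v ∈ R \ P', s u < s v := by
  intro p
  induction p with
  | zero =>
    intro _
    exact ⟨∅, empty_subset _, card_empty, by simp⟩
  | succ p ih =>
    intro hp
    obtain ⟨P', hP', hc, hlt⟩ := ih (by omega)
    have hne : (R \ P').Nonempty := by
      rw [← card_pos, card_sdiff_of_subset hP']
      omega
    obtain ⟨w, hw, hmin⟩ := exists_min_image (R \ P') s hne
    have hw' := mem_sdiff.1 hw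
    refine ⟨insert w P', insert_subset hw'.1 hP', ?_, ?_⟩
    · rw [card_insert_of_notMem hw'.2, hc]
    · intro u hu v hv
      rw [mem_sdiff, mem_insert, not_or] at hv
      rw [mem_insert] at hu
      rcases hu with rfl | hu
      · apply lt_of_le_of_ne (hmin v (mem_sdiff.2 ⟨hv.1, hv.2.2⟩))
        intro h
        exact hv.2.1 (s.injective h).symm
      · exact hlt u hu v (mem_sdiff.2 ⟨hv.1, hv.2.2⟩)

omit [DecidableEq α] in
lemma exists_perm {β : Type*} [DecidableEq β] (f g : α → β)
    (h : ∀ c, (univ.filter fun u => f u = c).card = (univ.filter fun u => g u = c).card) :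
    ∃ π : Equiv.Perm α, ∀ u, g (π u) = f u := by
  have h' : ∀ c, Fintype.card {u // f u = c} = Fintype.card {u // g u = c} := by
    intro c
    rw [Fintype.card_subtype, Fintype.card_subtype]
    exact h c
  let e : ∀ c, {u // f u = c} ≃ {u // g u = c} := fun c => Fintype.equivOfCardEq (h' c)
  refine ⟨(Equiv.sigmaFiberEquiv f).symm.trans
    ((Equiv.sigmaCongrRight e).trans (Equiv.sigmaFiberEquiv g)), ?_⟩
  intro u
  exact (e (f u) ⟨u, rfl⟩).2

/-- The colouring by membership. -/
def col (P Q : Finset α) (u : α) : Fin 3 := if u ∈ P then 0 else if u ∈ Q then 1 else 2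

omit [Fintype α] in
lemma col_zero {P Q : Finset α} {u : α} : col P Q u = 0 ↔ u ∈ P := by
  unfold col
  split_ifs with h1 h2 <;> simp [h1]

omit [Fintype α] in
lemma col_one {P Q : Finset α} (hPQ : Disjoint P Q) {u : α} : col P Q u = 1 ↔ u ∈ Q := by
  unfold col
  split_ifs with h1 h2
  · simp only [Fin.reduceEq, false_iff]
    exact Finset.disjoint_left.1 hPQ h1
  · simp [h2]
  · simp [h2]

omit [Fintype α] in
lemma col_two {P Q : Finset α} {u : α} : col P Q u = 2 ↔ u ∉ P ∪ Q := by
  unfold col
  split_ifs with h1 h2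
  · simp [h1]
  · simp [h2]
  · simp [h1, h2]

lemma K_card_le {P Q P' Q' : Finset α} (hd : Disjoint P Q) (hd' : Disjoint P' Q')
    (hP : P.card = P'.card) (hQ : Q.card = Q'.card) : (K P' Q').card ≤ (K P Q).card := by
  have hcol : ∀ c, (univ.filter fun u => col P Q u = c).card =
      (univ.filter fun u => col P' Q' u = c).card := by
    intro c
    fin_cases c
    · simp only [Fin.zero_eta, col_zero]
      simpa using hP
    · simp only [Fin.mk_one, col_one hd, col_one hd']
      simpa using hQ
    · simp only [Fin.reduceFinMk, col_two]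
      have h1 : ∀ S : Finset α, (univ.filter fun u => u ∉ S) = Sᶜ := by
        intro S
        ext u
        simp
      rw [h1, h1, card_compl, card_compl, card_union_of_disjoint hd, card_union_of_disjoint hd',
        hP, hQ]
  obtain ⟨π, hπ⟩ := exists_perm (col P Q) (col P' Q') hcol
  apply Finset.card_le_card_of_injOn (fun s => π.trans s)
  · intro s hs
    rw [Finset.mem_coe, mem_K] at hs ⊢
    intro u hu v hv
    apply hs
    · rw [← col_zero (P := P') (Q := Q'), hπ, col_zero]
      exact hu
    · rw [← col_one hd', hπ, col_one hd]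
      exact hv
  · intro s _ t _ hst
    simp only at hst
    ext u
    have := DFunLike.congr_fun hst (π.symm u)
    simp only [Equiv.trans_apply, Equiv.apply_symm_apply] at this
    rw [this]

/-- All orderings are covered. -/
theorem factorial_le (P Q : Finset α) (hd : Disjoint P Q) :
    (Fintype.card α).factorial ≤ (P.card + Q.card).choose P.card * (K P Q).card := by
  set R := P ∪ Q with hR
  have hRc : R.card = P.card + Q.card := card_union_of_disjoint hd
  have hcov : (univ : Finset (α ≃ Fin (Fintype.card α))) ⊆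
      (powersetCard P.card R).biUnion (fun P' => K P' (R \ P')) := by
    intro s _
    obtain ⟨P', hP', hc, hlt⟩ := exists_initial s R P.card (by omega)
    rw [mem_biUnion]
    exact ⟨P', mem_powersetCard.2 ⟨hP', hc⟩, mem_K.2 hlt⟩
  have hcu : (univ : Finset (α ≃ Fin (Fintype.card α))).card = (Fintype.card α).factorial := by
    rw [card_univ]
    exact Fintype.card_equiv (Fintype.equivFin α)
  calc (Fintype.card α).factorial = (univ : Finset (α ≃ Fin (Fintype.card α))).card := hcu.symm
    _ ≤ _ := card_le_card hcov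
    _ ≤ ∑ P' ∈ powersetCard P.card R, (K P' (R \ P')).card := card_biUnion_le
    _ ≤ (powersetCard P.card R).card • (K P Q).card := by
        apply Finset.sum_le_card_nsmul
        intro P' hP'
        rw [mem_powersetCard] at hP'
        apply K_card_le hd disjoint_sdiff hP'.2.symm
        rw [card_sdiff_of_subset hP'.1, hRc, hP'.2]
        omega
    _ = _ := by rw [card_powersetCard, hRc, smul_eq_mul]

end Pool.Agent.Lib.MP_20855c_co
end

section

set_option autoImplicit false

namespace Pool.Agent.Lib.MP_20855c_co.Match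

theorem mt3_step {K E : Type*} [Field K] [Infinite K] [AddCommGroup E] [Module K E]
    [FiniteDimensional K E] {J : Type*} [Finite J] (Y : J → Submodule K E)
    (X0 : Submodule K E) (hY : ∀ j, Module.finrank K X0 + 1 + Module.finrank K (Y j) ≤ Module.finrank K E)
    (hN : Module.finrank K X0 + 1 ≤ Module.finrank K E) (hd : ∀ j, Disjoint X0 (Y j)) :
    ∃ X1 : Submodule K E, X0 ≤ X1 ∧ Module.finrank K X1 = Module.finrank K X0 + 1 ∧
      ∀ j, Disjoint X1 (Y j) := by
  obtain ⟨v, hv⟩ : ∃ v : E, ∀ o : Option J, v ∉ (o.elim X0 fun j => X0 ⊔ Y j : Submodule K E) := by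
    by_contra hne
    push Not at hne
    obtain ⟨o, ho⟩ := Subspace.exists_eq_top_of_iUnion_eq_univ
      (p := fun o : Option J => (o.elim X0 fun j => X0 ⊔ Y j : Submodule K E))
      (Set.eq_univ_of_forall fun v => Set.mem_iUnion.2 (hne v))
    rcases o with _ | j
    · have h1 : X0 = ⊤ := ho
      rw [h1, finrank_top] at hN
      omega
    · have h1 : X0 ⊔ Y j = ⊤ := ho
      have h2 := Submodule.finrank_add_le_finrank_add_finrank X0 (Y j)
      rw [h1, finrank_top] at h2
      have := hY j
      omega
  have hv0 : v ∉ X0 := hv none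
  have hvj : ∀ j, v ∉ X0 ⊔ Y j := fun j => hv (some j)
  have hv1 : v ≠ 0 := fun h => hv0 (h ▸ X0.zero_mem)
  refine ⟨X0 ⊔ Submodule.span K {v}, le_sup_left, ?_, fun j => ?_⟩
  · have h3 : X0 ⊓ Submodule.span K {v} = ⊥ := by
      rw [← disjoint_iff, Submodule.disjoint_span_singleton]
      exact fun h => absurd h hv0
    have h4 := Submodule.finrank_sup_add_finrank_inf_eq X0 (Submodule.span K {v})
    rw [h3, finrank_bot, add_zero, finrank_span_singleton hv1] at h4
    exact h4
  · rw [Submodule.disjoint_def]
    intro y hy hyj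
    obtain ⟨u, hu, w, hw, rfl⟩ := Submodule.mem_sup.1 hy
    obtain ⟨a, rfl⟩ := Submodule.mem_span_singleton.1 hw
    by_cases ha : a = 0
    · subst ha
      rw [zero_smul, add_zero] at hyj ⊢
      exact (Submodule.disjoint_def.1 (hd j)) u hu hyj
    · exfalso
      apply hvj j
      have h5 : v = -(a⁻¹ • u) + a⁻¹ • (u + a • v) := by
        rw [smul_add, smul_smul, inv_mul_cancel₀ ha, one_smul]
        abel
      rw [h5]
      exact add_mem (Submodule.mem_sup_left (neg_mem (X0.smul_mem _ hu)))
        (Submodule.mem_sup_right ((Y j).smul_mem _ hyj))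

/-- MT3. Extension of a subspace, keeping it disjoint from finitely many given subspaces. -/
theorem extend {K E : Type*} [Field K] [Infinite K] [AddCommGroup E] [Module K E]
    [FiniteDimensional K E] {J : Type*} [Finite J] (Y : J → Submodule K E) (N : ℕ)
    (X0 : Submodule K E) (hX0 : Module.finrank K X0 ≤ N)
    (hY : ∀ j, N + Module.finrank K (Y j) ≤ Module.finrank K E) (hN : N ≤ Module.finrank K E)
    (hd : ∀ j, Disjoint X0 (Y j)) :
    ∃ X1 : Submodule K E, X0 ≤ X1 ∧ Module.finrank K X1 = N ∧ ∀ j, Disjoint X1 (Y j) := by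
  obtain ⟨k, hk⟩ := Nat.exists_eq_add_of_le hX0
  induction k generalizing X0 with
  | zero => exact ⟨X0, le_rfl, hk.symm, hd⟩
  | succ k ih =>
    obtain ⟨X1, h1, h2, h3⟩ := mt3_step Y X0 (fun j => by have := hY j; omega) (by omega) hd
    obtain ⟨X2, h4, h5, h6⟩ := ih X1 (by omega) h3 (by omega)
    exact ⟨X2, h1.trans h4, h5, h6⟩

end Pool.Agent.Lib.MP_20855c_co.Match
end
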