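import Pool.Agent.Lib.MP_20855c_co.Mg.G007
import Pool.Agent.Lib.MP_20855c_co.Mg.G006

section

set_option autoImplicit false

namespace Pool.Agent.Lib.MP_20855c_co.Match

open Finset Pool.Agent.Lib.MP_20855c_co.Star

variable {V : Type*} [DecidableEq V] [Fintype V] {K : Type*} [Field K] [CharP K 2]

/-- The sum of the products of `g` over the pairs of `G`. -/
noncomputable def mt4_Q (G : Finset (Finset V)) (t : Finset V → K) (g : V → SR K V) : SR K V :=
  ∑ e ∈ G, t e • ∏ v ∈ e, g v

omit [CharP K 2] in
lemma mt4_row (G : Finset (Finset V)) (hG : ∀ e ∈ G, e.card = 2) (t : Finset V → K)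
    (h : V → SR K V) (u : V) :
    ∑ e ∈ G with u ∈ e, t e • ∏ v ∈ e.erase u, h v = ∑ v, cm G t u v • h v := by
  have h1 : ∑ v, cm G t u v • h v =
      ∑ v with (u ≠ v ∧ ({u, v} : Finset V) ∈ G), t {u, v} • h v := by
    rw [Finset.sum_filter]
    refine Finset.sum_congr rfl fun v _ => ?_
    unfold cm
    split_ifs <;> simp
  rw [h1]
  symm
  refine Finset.sum_bij (fun v _ => ({u, v} : Finset V)) ?_ ?_ ?_ ?_
  · intro v hv
    rw [Finset.mem_filter] at hv ⊢
    exact ⟨hv.2.2, by simp⟩
  · intro v hv w hw hvw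
    rw [Finset.mem_filter] at hv hw
    have h2 : v ∈ ({u, w} : Finset V) := by
      rw [← hvw]
      simp
    rw [Finset.mem_insert, Finset.mem_singleton] at h2
    rcases h2 with h2 | h2
    · exact absurd h2.symm hv.2.1
    · exact h2
  · intro e he
    rw [Finset.mem_filter] at he
    obtain ⟨a, b, hab, rfl⟩ := Finset.card_eq_two.1 (hG e he.1)
    have h2 := he.2
    rw [Finset.mem_insert, Finset.mem_singleton] at h2
    rcases h2 with rfl | rfl
    · exact ⟨b, Finset.mem_filter.2 ⟨mem_univ _, hab, he.1⟩, rfl⟩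
    · refine ⟨a, Finset.mem_filter.2 ⟨mem_univ _, hab.symm, ?_⟩, Finset.pair_comm _ _⟩
      rw [Finset.pair_comm]
      exact he.1
  · intro v hv
    rw [Finset.mem_filter] at hv
    have h2 : ({u, v} : Finset V).erase u = {v} := by
      rw [Finset.erase_insert]
      rw [Finset.mem_singleton]
      exact hv.2.1
    rw [h2, Finset.prod_singleton]

omit [CharP K 2] in
lemma mt4_polar (G : Finset (Finset V)) (hG : ∀ e ∈ G, e.card = 2) (t : Finset V → K)
    (g h : V → SR K V) :
    mt4_Q G t (fun v => g v + h v) = mt4_Q G t g + mt4_Q G t h +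
      ∑ u, g u * ∑ v, cm G t u v • h v := by
  have h1 : ∀ e ∈ G, ∏ v ∈ e, (g v + h v) =
      ∏ v ∈ e, g v + ∏ v ∈ e, h v + ∑ u ∈ e, g u * ∏ v ∈ e.erase u, h v := by
    intro e he
    obtain ⟨a, b, hab, rfl⟩ := Finset.card_eq_two.1 (hG e he)
    have ha : ({a, b} : Finset V).erase a = {b} := by
      rw [Finset.erase_insert]
      rw [Finset.mem_singleton]
      exact hab
    have hb : ({a, b} : Finset V).erase b = {a} := by
      rw [Finset.pair_comm, Finset.erase_insert]
      rw [Finset.mem_singleton]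
      exact hab.symm
    rw [Finset.prod_pair hab, Finset.prod_pair hab, Finset.prod_pair hab, Finset.sum_pair hab,
      ha, hb, Finset.prod_singleton, Finset.prod_singleton]
    ring
  unfold mt4_Q
  rw [Finset.sum_congr rfl fun e he => by rw [h1 e he, smul_add, smul_add],
    Finset.sum_add_distrib, Finset.sum_add_distrib]
  congr 1
  rw [Finset.sum_congr rfl fun e _ => Finset.smul_sum,
    Finset.sum_comm' (t' := univ) (s' := fun u => G.filter fun e => u ∈ e)
      (by intro e u; simp)]
  refine Finset.sum_congr rfl fun u _ => ?_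
  rw [← mt4_row G hG t h u, Finset.mul_sum]
  exact Finset.sum_congr rfl fun e _ => (mul_smul_comm _ _ _).symm

omit [CharP K 2] in
lemma mt4_zero (G : Finset (Finset V)) (hG : ∀ e ∈ G, e.card = 2) (t : Finset V → K)
    (a : V → V → K) (ha : ∀ u m, ∑ v, cm G t u v * a v m = 0) (S : Finset V) :
    mt4_Q G t (fun v => ∑ m ∈ S, a v m • x K m) = 0 := by
  induction S using Finset.induction_on with
  | empty =>
    unfold mt4_Q
    refine Finset.sum_eq_zero fun e he => ?_
    obtain ⟨b, c, hbc, rfl⟩ := Finset.card_eq_two.1 (hG e he)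
    rw [Finset.prod_pair hbc, Finset.sum_empty, zero_mul, smul_zero]
  | insert m S hm ih =>
    have e1 : (fun v => ∑ m ∈ insert m S, a v m • x K m) =
        fun v => (∑ m ∈ S, a v m • x K m) + a v m • x K m := by
      funext v
      rw [Finset.sum_insert hm, add_comm]
    rw [e1, mt4_polar G hG t, ih, zero_add]
    have e2 : mt4_Q G t (fun v => a v m • x K m) = 0 := by
      unfold mt4_Q
      refine Finset.sum_eq_zero fun e he => ?_
      obtain ⟨b, c, hbc, rfl⟩ := Finset.card_eq_two.1 (hG e he)
      rw [Finset.prod_pair hbc, smul_mul_smul_comm, x_mul_self, smul_zero, smul_zero]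
    rw [e2, zero_add]
    refine Finset.sum_eq_zero fun u _ => ?_
    have e3 : ∑ v, cm G t u v • (a v m • x K m) = (∑ v, cm G t u v * a v m) • x K m := by
      rw [Finset.sum_smul]
      exact Finset.sum_congr rfl fun v _ => smul_smul _ _ _
    rw [e3, ha, zero_smul, mul_zero]

/-- MT4. The quadratic element `qG G t` lies in the square of the space of linear forms of the
vectors `cm G t b`.
Proof. Write `c = cm G t` and for functions `g : V → SR K V` let `Q g = ∑ e ∈ G, t e • ∏ v ∈ e, g v`, so
`qG G t = Q x`. For `e = {u, v}` expand `(g u + h u) * (g v + h v)`: since every pair has 2 points,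
`Q (g + h) = Q g + Q h + ∑ u, g u * (∑ v, c u v • h v)`. (*)
Let `X0 = range c.mulVecLin`. Choose a complement `C` of `X0` in `V → K` and a projection: linear maps
`p q : (V → K) → (V → K)` with `p y ∈ X0`, `q y ∈ C`, `y = p y + q y`. Put
`ξ v = lf (p (Pi.single v 1))`, `μ v = lf (q (Pi.single v 1))`, so `x v = ξ v + μ v` (`lf_single`).
For every `u`: `∑ v, c u v • Pi.single v 1` is the row `c u` which is `c.mulVec (Pi.single u 1)`
(symmetry) and lies in `X0`, so `q` of it is `0` and `∑ v, c u v • μ v = 0`. By (*)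
`Q x = Q ξ + Q μ`. `Q ξ ∈ (X0.map lf) ^ 2` since every pair has two points. `Q μ = 0`: let
`b` be a basis of `V → K` (or just the standard one): `μ v = ∑ m, a v m • y m` with
`y m = x m` and `a v m = (q (Pi.single v 1)) m`. The functions `g_m v = a v m • y m` have
`Q (g_m) = 0` because `y m * y m = 0`, and by (*) `Q (∑ m, g_m) = ∑ m, Q g_m = 0` by induction on the set
of the `m`, because the cross terms are multiples of `∑ v, c u v • a v m = 0` (this is the `m`-th
coordinate of `q (row u) = 0`). -/
theorem quad_mem (G : Finset (Finset V)) (hG : ∀ e ∈ G, e.card = 2) (t : Finset V → K) :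
    qG G t ∈ ((LinearMap.range (cm G t).mulVecLin).map (lf K)) ^ 2 := by
  set c := cm G t with hc
  set X0 := LinearMap.range c.mulVecLin with hX0
  obtain ⟨C, hC⟩ := Submodule.exists_isCompl X0
  let p : (V → K) →ₗ[K] (V → K) := X0.subtype.comp (Submodule.projectionOnto X0 C hC)
  let q : (V → K) →ₗ[K] (V → K) := LinearMap.id - p
  have hp : ∀ y, p y ∈ X0 := fun y => (Submodule.projectionOnto X0 C hC y).2
  have hpq : ∀ y, y = p y + q y := by
    intro y
    show y = p y + (y - p y)
    abel
  have hq : ∀ y ∈ X0, q y = 0 := by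
    intro y hy
    show y - p y = 0
    have h1 : Submodule.projectionOnto X0 C hC y = ⟨y, hy⟩ :=
      Submodule.projectionOnto_apply_left hC ⟨y, hy⟩
    have h2 : p y = y := by
      show ((Submodule.projectionOnto X0 C hC y : X0) : V → K) = y
      rw [h1]
    rw [h2, sub_self]
  have hrow : ∀ u, q (∑ v, c u v • Pi.single v (1 : K)) = 0 := by
    intro u
    apply hq
    refine ⟨Pi.single u 1, ?_⟩
    rw [Matrix.mulVecLin_apply, Matrix.mulVec_single_one]
    funext i
    rw [Finset.sum_apply, Finset.sum_eq_single i]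
    · rw [Pi.smul_apply, Pi.single_eq_same, smul_eq_mul, mul_one, Matrix.col_apply, hc]
      exact cm_symm G t i u
    · intro v _ hv
      rw [Pi.smul_apply, Pi.single_eq_of_ne hv.symm, smul_zero]
    · intro h
      exact absurd (mem_univ i) h
  have ha : ∀ u m, ∑ v, c u v * (q (Pi.single v 1)) m = 0 := by
    intro u m
    have h1 := congrFun (hrow u) m
    rw [map_sum, Finset.sum_apply] at h1
    rw [← h1.trans (Pi.zero_apply m)]
    refine Finset.sum_congr rfl fun v _ => ?_
    rw [map_smul, Pi.smul_apply, smul_eq_mul]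
  have hx : ∀ v, x K v = lf K (p (Pi.single v 1)) + lf K (q (Pi.single v 1)) := by
    intro v
    rw [← map_add, ← hpq, lf_single]
  have hmu : (fun v => lf K (q (Pi.single v 1))) =
      fun v => ∑ m, (q (Pi.single v 1)) m • x K m := rfl
  have hQ : qG G t = mt4_Q G t (fun v => x K v) := rfl
  have hx' : (fun v => x K v) =
      fun v => lf K (p (Pi.single v 1)) + lf K (q (Pi.single v 1)) := funext hx
  rw [hQ, hx', mt4_polar G hG t]
  have e1 : mt4_Q G t (fun v => lf K (q (Pi.single v 1))) = 0 := by
    rw [hmu]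
    exact mt4_zero G hG t (fun v m => (q (Pi.single v 1)) m) ha univ
  have e2 : ∑ u, lf K (p (Pi.single u 1)) * ∑ v, cm G t u v • lf K (q (Pi.single v 1)) = 0 := by
    refine Finset.sum_eq_zero fun u _ => ?_
    have h1 : ∑ v, cm G t u v • lf K (q (Pi.single v 1)) =
        lf K (q (∑ v, c u v • Pi.single v (1 : K))) := by
      rw [map_sum, map_sum]
      refine Finset.sum_congr rfl fun v _ => ?_
      rw [map_smul, map_smul]
    rw [h1, hrow, map_zero, mul_zero]
  rw [e1, e2, add_zero, add_zero]
  unfold mt4_Q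
  refine Submodule.sum_mem _ fun e he => Submodule.smul_mem _ _ ?_
  obtain ⟨a, b, hab, rfl⟩ := Finset.card_eq_two.1 (hG e he)
  rw [Finset.prod_pair hab, pow_two]
  exact Submodule.mul_mem_mul (Submodule.mem_map_of_mem (hp _)) (Submodule.mem_map_of_mem (hp _))

end Pool.Agent.Lib.MP_20855c_co.Match
end

section

set_option autoImplicit false

namespace Pool.Agent.Lib.MP_20855c_co.Match

open Finset

section

variable (K : Type*) {σ R : Type*} [DecidableEq σ] [Field K] [CharP K 2] [CommRing R] [Algebra K R]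

omit [DecidableEq σ] [CharP K 2] in
lemma mt5_U_mono (x : σ → R) {W W' : Finset σ} (h : W ⊆ W') (m : ℕ) {f : R}
    (hf : f ∈ StarK.U K x W m) : f ∈ StarK.U K x W' m := by
  have h1 : StarK.U K x W m ≤ StarK.U K x W' m := by
    unfold StarK.U
    refine Submodule.span_mono (Set.image_mono ?_)
    exact_mod_cast powersetCard_mono h
  exact h1 hf

/-- MT5a. Like `StarK.rank_le` (file Star/RankK.lean), but `q` uses only the variables of `W₀`. The
proof is the same: `exists_split` is applied in `W₀`, everything it gives lies in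
`(W₀.erase v).erase w`, a subset of `(W.erase v).erase w` (monotonicity of `StarK.U` in `W`), and
the induction is over `N` with `n₀` and `W₀` universally quantified. -/
theorem rank_nu (x : σ → R) (hx : ∀ w, x w * x w = 0) :
    ∀ (N : ℕ) (W : Finset σ), W.card = N → ∀ (n₀ : ℕ) (W₀ : Finset σ), W₀ ⊆ W → W₀.card = n₀ →
      ∀ (m : ℕ) (q : R), q ∈ StarK.U K x W₀ 2 →
      Module.finrank K (StarK.V K x W m q) ≤ Tn n₀ N m := by
  intro N
  induction N using Nat.strong_induction_on with
  | _ N ih =>
  intro W hW n₀ W₀ hWW hW₀ m q hq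
  by_cases h0 : q = 0
  · have : StarK.V K x W m q = ⊥ := by
      rw [h0, StarK.V, eq_bot_iff]
      rintro _ ⟨u, _, rfl⟩
      simp
    rw [this, finrank_bot]
    exact Nat.zero_le _
  obtain ⟨v, hv₀, w, hw₀, hvw, l₁, hl₁₀, l₂, hl₂₀, r, hr₀, c, hc, hqe⟩ := StarK.exists_split K x W₀ hq h0
  have hv : v ∈ W := hWW hv₀
  have hw : w ∈ W := hWW hw₀
  have hsub : (W₀.erase v).erase w ⊆ (W.erase v).erase w :=
    Finset.erase_subset_erase _ (Finset.erase_subset_erase _ hWW)
  have hl₁ := mt5_U_mono K x hsub 1 hl₁₀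
  have hl₂ := mt5_U_mono K x hsub 1 hl₂₀
  have hr := mt5_U_mono K x hsub 2 hr₀
  have hcard₀ : ((W₀.erase v).erase w).card + 2 = n₀ := by
    have hwv : w ∈ W₀.erase v := Finset.mem_erase.2 ⟨hvw.symm, hw₀⟩
    rw [card_erase_of_mem hwv, card_erase_of_mem hv₀, hW₀]
    have h1 : 1 ≤ (W₀.erase v).card := Finset.card_pos.2 ⟨w, hwv⟩
    rw [card_erase_of_mem hv₀, hW₀] at h1
    omega
  obtain ⟨k₀, rfl⟩ : ∃ k₀, n₀ = k₀ + 2 := ⟨((W₀.erase v).erase w).card, hcard₀.symm⟩
  rw [← StarK.V_smul K x W m hc q]
  generalize c • q = q1 at hqe ⊢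
  set W' := (W.erase v).erase w with hW'
  have hwv : w ∈ W.erase v := Finset.mem_erase.2 ⟨hvw.symm, hw⟩
  have hcard : W'.card + 2 = N := by
    rw [hW', card_erase_of_mem hwv, card_erase_of_mem hv, hW]
    have h1 : 1 ≤ (W.erase v).card := Finset.card_pos.2 ⟨w, hwv⟩
    rw [card_erase_of_mem hv, hW] at h1
    omega
  obtain ⟨n, rfl⟩ : ∃ n, N = n + 2 := ⟨W'.card, hcard.symm⟩
  have hW'c : W'.card = n := by omega
  cases m with
  | zero =>
    calc Module.finrank K (StarK.V K x W 0 q1) ≤ Module.finrank K (StarK.U K x W 0) :=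
          Submodule.finrank_map_le _ _
      _ ≤ W.card.choose 0 := StarK.finrank_U K x W 0
      _ = 1 := Nat.choose_zero_right _
      _ = Tn (k₀ + 2) (n + 2) 0 := by rw [Tn]
  | succ m =>
    have h2 : (2 : R) = 0 := StarK.two_eq_zero' K
    set X := x v + l₂ with hX
    set Y := x w + l₁ with hY
    set q' := r + l₁ * l₂ with hq'
    have hl₂2 : l₂ * l₂ = 0 := StarK.U_sq K x hx W' 0 hl₂
    have hl₁2 : l₁ * l₁ = 0 := StarK.U_sq K x hx W' 0 hl₁
    have hXX : X * X = 0 := by
      rw [hX]
      linear_combination hx v + hl₂2 + x v * l₂ * h2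
    have hYY : Y * Y = 0 := by
      rw [hY]
      linear_combination hx w + hl₁2 + x w * l₁ * h2
    have hq'U : q' ∈ StarK.U K x W' 2 := Submodule.add_mem _ hr (StarK.U_mul K x hx W' 1 1 hl₁ hl₂)
    have hq'U₀ : q' ∈ StarK.U K x ((W₀.erase v).erase w) 2 :=
      Submodule.add_mem _ hr₀ (StarK.U_mul K x hx _ 1 1 hl₁₀ hl₂₀)
    have hq'2 : q' * q' = 0 := StarK.U_sq K x hx W' 1 hq'U
    have hq2 : q1 = X * Y + q' := by
      rw [hqe, hX, hY, hq']
      linear_combination (- l₁ * l₂) * h2
    have hle : StarK.V K x W (m + 1) q1 ≤ StarK.V K x W' (m + 1) q1 ⊔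
        ((StarK.V K x W' m q').map (LinearMap.mulLeft K X) ⊔
          (StarK.V K x W' m q').map (LinearMap.mulLeft K Y)) := by
      have hA : ∀ u ∈ StarK.U K x W' (m + 1), q1 * u ∈ StarK.V K x W' (m + 1) q1 ⊔
        ((StarK.V K x W' m q').map (LinearMap.mulLeft K X) ⊔
          (StarK.V K x W' m q').map (LinearMap.mulLeft K Y)) :=
        fun u hu => Submodule.mem_sup_left (StarK.mul_mem_V K x hu)
      have hB : ∀ u ∈ StarK.U K x W' m, X * (q' * u) ∈ StarK.V K x W' (m + 1) q1 ⊔
        ((StarK.V K x W' m q').map (LinearMap.mulLeft K X) ⊔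
          (StarK.V K x W' m q').map (LinearMap.mulLeft K Y)) :=
        fun u hu => Submodule.mem_sup_right (Submodule.mem_sup_left ⟨q' * u, StarK.mul_mem_V K x hu, rfl⟩)
      have hC : ∀ u ∈ StarK.U K x W' m, Y * (q' * u) ∈ StarK.V K x W' (m + 1) q1 ⊔
        ((StarK.V K x W' m q').map (LinearMap.mulLeft K X) ⊔
          (StarK.V K x W' m q').map (LinearMap.mulLeft K Y)) :=
        fun u hu => Submodule.mem_sup_right (Submodule.mem_sup_right ⟨q' * u, StarK.mul_mem_V K x hu, rfl⟩)
      unfold StarK.V StarK.U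
      rw [Submodule.map_span, Submodule.span_le]
      rintro _ ⟨_, ⟨P, hP, rfl⟩, rfl⟩
      rw [Finset.mem_coe, mem_powersetCard] at hP
      obtain ⟨hPW, hPc⟩ := hP
      rw [LinearMap.mulLeft_apply]
      change q1 * mon x P ∈ StarK.V K x W' (m + 1) q1 ⊔
        ((StarK.V K x W' m q').map (LinearMap.mulLeft K X) ⊔
          (StarK.V K x W' m q').map (LinearMap.mulLeft K Y))
      by_cases hvP : v ∈ P
      · by_cases hwP : w ∈ P
        · have hwP' : w ∈ P.erase v := Finset.mem_erase.2 ⟨hvw.symm, hwP⟩
          have hc1 : ((P.erase v).erase w).card + 2 = m + 1 := by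
            rw [card_erase_of_mem hwP', card_erase_of_mem hvP, hPc]
            have h1 : 1 ≤ (P.erase v).card := Finset.card_pos.2 ⟨w, hwP'⟩
            rw [card_erase_of_mem hvP, hPc] at h1
            omega
          obtain ⟨k, rfl⟩ : ∃ k, m = k + 1 := ⟨((P.erase v).erase w).card, by omega⟩
          have hu : mon x ((P.erase v).erase w) ∈ StarK.U K x W' k := by
            apply StarK.mon_mem' K _ _ (by omega)
            exact Finset.erase_subset_erase _ (Finset.erase_subset_erase _ hPW)
          rw [mon_erase x hvP, mon_erase x hwP']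
          set u := mon x ((P.erase v).erase w) with hu'
          have e : q1 * (x v * (x w * u)) = q1 * (q' * u) + (X * (q' * (l₁ * u)) +
              (Y * (q' * (l₂ * u)) + q1 * (l₁ * l₂ * u))) := by
            have hxv : x v = X - l₂ := by rw [hX]; ring
            have hxw : x w = Y - l₁ := by rw [hY]; ring
            rw [hxv, hxw, hq2]
            linear_combination (Y * Y * u - Y * l₁ * u) * hXX - (X * l₂ * u) * hYY -
              u * hq'2 - (X * l₁ * q' * u + Y * l₂ * q' * u) * h2
          rw [e]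
          refine Submodule.add_mem _ (hA _ ?_) (Submodule.add_mem _ (hB _ ?_)
            (Submodule.add_mem _ (hC _ ?_) (hA _ ?_)))
          · have := StarK.U_mul K x hx W' 2 k hq'U hu
            rwa [show k + 1 + 1 = 2 + k by ring]
          · have := StarK.U_mul K x hx W' 1 k hl₁ hu
            rwa [show k + 1 = 1 + k by ring]
          · have := StarK.U_mul K x hx W' 1 k hl₂ hu
            rwa [show k + 1 = 1 + k by ring]
          · have := StarK.U_mul K x hx W' 2 k (StarK.U_mul K x hx W' 1 1 hl₁ hl₂) hu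
            rwa [show k + 1 + 1 = 2 + k by ring]
        · have hu : mon x (P.erase v) ∈ StarK.U K x W' m := by
            apply StarK.mon_mem'
            · intro t ht
              rw [Finset.mem_erase] at ht
              rw [hW', Finset.mem_erase, Finset.mem_erase]
              refine ⟨?_, ht.1, hPW ht.2⟩
              rintro rfl
              exact hwP ht.2
            · rw [card_erase_of_mem hvP, hPc]
              rfl
          rw [mon_erase x hvP]
          set u := mon x (P.erase v) with hu'
          have e : q1 * (x v * u) = X * (q' * u) + q1 * (l₂ * u) := by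
            have hxv : x v = X - l₂ := by rw [hX]; ring
            rw [hxv, hq2]
            linear_combination (Y * u) * hXX - ((X * Y + q') * l₂ * u) * h2
          rw [e]
          refine Submodule.add_mem _ (hB _ hu) (hA _ ?_)
          have := StarK.U_mul K x hx W' 1 m hl₂ hu
          rwa [show m + 1 = 1 + m by ring]
      · by_cases hwP : w ∈ P
        · have hu : mon x (P.erase w) ∈ StarK.U K x W' m := by
            apply StarK.mon_mem'
            · intro t ht
              rw [Finset.mem_erase] at ht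
              rw [hW', Finset.mem_erase, Finset.mem_erase]
              refine ⟨ht.1, ?_, hPW ht.2⟩
              rintro rfl
              exact hvP ht.2
            · rw [card_erase_of_mem hwP, hPc]
              rfl
          rw [mon_erase x hwP]
          set u := mon x (P.erase w) with hu'
          have e : q1 * (x w * u) = Y * (q' * u) + q1 * (l₁ * u) := by
            have hxw : x w = Y - l₁ := by rw [hY]; ring
            rw [hxw, hq2]
            linear_combination (X * u) * hYY - ((X * Y + q') * l₁ * u) * h2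
          rw [e]
          refine Submodule.add_mem _ (hC _ hu) (hA _ ?_)
          have := StarK.U_mul K x hx W' 1 m hl₁ hu
          rwa [show m + 1 = 1 + m by ring]
        · apply hA
          apply StarK.mon_mem' K _ _ hPc
          intro t ht
          rw [hW', Finset.mem_erase, Finset.mem_erase]
          refine ⟨?_, ?_, hPW ht⟩
          · rintro rfl
            exact hwP ht
          · rintro rfl
            exact hvP ht
    have hih := ih n (by omega) W' hW'c k₀ _ hsub (by omega) m q' hq'U₀
    calc Module.finrank K (StarK.V K x W (m + 1) q1) ≤ _ := Submodule.finrank_mono hle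
      _ ≤ Module.finrank K (StarK.V K x W' (m + 1) q1) + Module.finrank K
        ((StarK.V K x W' m q').map (LinearMap.mulLeft K X) ⊔
          (StarK.V K x W' m q').map (LinearMap.mulLeft K Y) : Submodule K R) :=
          Submodule.finrank_add_le_finrank_add_finrank _ _
      _ ≤ Nat.choose n (m + 1) + (Tn k₀ n m + Tn k₀ n m) := by
          gcongr
          · calc _ ≤ Module.finrank K (StarK.U K x W' (m + 1)) := Submodule.finrank_map_le _ _
              _ ≤ W'.card.choose (m + 1) := StarK.finrank_U K x W' (m + 1)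
              _ = _ := by rw [hW'c]
          · refine (Submodule.finrank_add_le_finrank_add_finrank _ _).trans ?_
            gcongr
            · exact (Submodule.finrank_map_le _ _).trans hih
            · exact (Submodule.finrank_map_le _ _).trans hih
      _ = Tn (k₀ + 2) (n + 2) (m + 1) := by rw [Tn]; ring

end

/-- Spanning families adapted to a subspace. -/
lemma mt5_family {K E : Type*} [Field K] [AddCommGroup E] [Module K E] (L0 L1 : Submodule K E)
    (h01 : L0 ≤ L1) [Module.Finite K L1] :
    ∃ (a b : ℕ) (x : Fin a ⊕ Fin b → E), a = Module.finrank K L0 ∧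
      a + b = Module.finrank K L1 ∧ (∀ w, x w ∈ L1) ∧
      L0 ≤ Submodule.span K (Set.range fun i => x (Sum.inl i)) ∧
      L1 ≤ Submodule.span K (Set.range x) := by
  obtain ⟨C, hC⟩ := Submodule.exists_isCompl (L0.submoduleOf L1)
  let b0 := Module.finBasis K (L0.submoduleOf L1)
  let b1 := Module.finBasis K C
  refine ⟨_, _, Sum.elim (fun i => ((b0 i : L1) : E)) (fun j => ((b1 j : L1) : E)),
    (Submodule.submoduleOfEquivOfLe h01).finrank_eq, Submodule.finrank_add_eq_of_isCompl hC,
    ?_, ?_, ?_⟩
  · rintro (i | j)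
    · exact (b0 i : L1).2
    · exact (b1 j : L1).2
  · intro l hl
    have h1 := b0.sum_repr ⟨⟨l, h01 hl⟩, hl⟩
    have h2 := congrArg (fun z : L0.submoduleOf L1 => ((z : L1) : E)) h1
    simp only [Submodule.coe_sum, Submodule.coe_smul] at h2
    rw [← h2]
    exact Submodule.sum_mem _ fun i _ =>
      Submodule.smul_mem _ _ (Submodule.subset_span ⟨i, rfl⟩)
  · intro l hl
    have h1 : (⟨l, hl⟩ : L1) ∈ L0.submoduleOf L1 ⊔ C := by
      rw [hC.sup_eq_top]
      exact Submodule.mem_top
    obtain ⟨y, hy, z, hz, hyz⟩ := Submodule.mem_sup.1 h1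
    have h2 : l = (y : E) + (z : E) := by
      rw [← Submodule.coe_add, hyz]
    rw [h2]
    refine Submodule.add_mem _ ?_ ?_
    · have h1 := b0.sum_repr ⟨y, hy⟩
      have h2 := congrArg (fun z : L0.submoduleOf L1 => ((z : L1) : E)) h1
      simp only [Submodule.coe_sum, Submodule.coe_smul] at h2
      rw [← h2]
      exact Submodule.sum_mem _ fun i _ =>
        Submodule.smul_mem _ _ (Submodule.subset_span ⟨Sum.inl i, rfl⟩)
    · have h1 := b1.sum_repr ⟨z, hz⟩
      have h2 := congrArg (fun z : C => ((z : L1) : E)) h1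
      simp only [Submodule.coe_sum, Submodule.coe_smul] at h2
      rw [← h2]
      exact Submodule.sum_mem _ fun i _ =>
        Submodule.smul_mem _ _ (Submodule.subset_span ⟨Sum.inr i, rfl⟩)

/-- MT5b. The rank bound for spaces of elements with square zero.
Proof. Take a basis of `L0` and extend it to a basis of `L1`: a finite type `σ` (e.g. `Fin n₀ ⊕ Fin n₁`),
`x : σ → R` linearly independent with span `L1`, `W₀` the set of the indices of the basis of `L0`,
`W = univ`. Then `x w * x w = 0`; `L1 ^ m ≤ StarK.U K x univ m` (products of basis elements are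
monomials or zero; induction on `m` with `StarK.U_mul`) and in the same way
`L0 ^ 2 ≤ StarK.U K x W₀ 2`. So `(L1 ^ m).map (mulLeft q) ≤ StarK.V K x univ m q` and `rank_nu`
gives the bound. -/
theorem rank_sub {K R : Type*} [Field K] [CharP K 2] [CommRing R] [Algebra K R]
    (L0 L1 : Submodule K R) (h01 : L0 ≤ L1) [Module.Finite K L1]
    (hsq : ∀ l ∈ L1, l * l = 0) (q : R) (hq : q ∈ L0 ^ 2) (m : ℕ) :
    Module.finrank K ((L1 ^ m).map (LinearMap.mulLeft K q)) ≤
      Tn (Module.finrank K L0) (Module.finrank K L1) m := by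
  classical
  obtain ⟨a, b, x, ha, hb, hx1, h0, h1⟩ := mt5_family L0 L1 h01
  have hx : ∀ w, x w * x w = 0 := fun w => hsq _ (hx1 w)
  set W₀ : Finset (Fin a ⊕ Fin b) := univ.map Function.Embedding.inl with hW₀
  have hxU : ∀ (W : Finset _) (w), w ∈ W → x w ∈ StarK.U K x W 1 := by
    intro W w hw
    have h1 : mon x {w} = x w := by
      unfold mon
      rw [Finset.prod_singleton]
    rw [← h1]
    exact StarK.mon_mem' K x (Finset.singleton_subset_iff.2 hw) (Finset.card_singleton w)
  have hL0 : L0 ≤ StarK.U K x W₀ 1 := by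
    refine h0.trans (Submodule.span_le.2 ?_)
    rintro _ ⟨i, rfl⟩
    exact hxU W₀ (Sum.inl i) (by rw [hW₀, Finset.mem_map]; exact ⟨i, mem_univ _, rfl⟩)
  have hL1 : L1 ≤ StarK.U K x univ 1 := by
    refine h1.trans (Submodule.span_le.2 ?_)
    rintro _ ⟨w, rfl⟩
    exact hxU univ w (mem_univ _)
  have hpow : ∀ m : ℕ, L1 ^ m ≤ StarK.U K x univ m := by
    intro m
    induction m with
    | zero =>
      rw [pow_zero, Submodule.one_eq_span, Submodule.span_le, Set.singleton_subset_iff]
      have h1 : mon x (∅ : Finset _) = 1 := by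
        unfold mon
        rw [Finset.prod_empty]
      rw [SetLike.mem_coe, ← h1]
      exact StarK.mon_mem' K x (Finset.empty_subset _) Finset.card_empty
    | succ m ih =>
      rw [pow_succ, Submodule.mul_le]
      intro f hf g hg
      exact StarK.U_mul K x hx univ m 1 (ih hf) (hL1 hg)
  have hq0 : q ∈ StarK.U K x W₀ 2 := by
    have h1 : L0 ^ 2 ≤ StarK.U K x W₀ 2 := by
      rw [pow_two, Submodule.mul_le]
      intro f hf g hg
      exact StarK.U_mul K x hx W₀ 1 1 (hL0 hf) (hL0 hg)
    exact h1 hq
  have hc0 : W₀.card = Module.finrank K L0 := by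
    rw [hW₀, Finset.card_map, Finset.card_univ, Fintype.card_fin]
    exact ha
  have hc1 : (univ : Finset (Fin a ⊕ Fin b)).card = Module.finrank K L1 := by
    rw [Finset.card_univ, Fintype.card_sum, Fintype.card_fin, Fintype.card_fin]
    exact hb
  have h1 := rank_nu K x hx _ univ hc1 _ W₀ (subset_univ _) hc0 m q hq0
  exact (Submodule.finrank_mono (Submodule.map_mono (hpow m))).trans h1

end Pool.Agent.Lib.MP_20855c_co.Match
end

section

/-!
# MP_20855c_co, matchings of the core graph: the main bound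
-/

set_option autoImplicit false

namespace Pool.Agent.Lib.MP_20855c_co.Match

open Finset Pool.Agent.Lib.MP_20855c_co.Star

lemma card_cov {V : Type*} [DecidableEq V] {M : Finset (Finset V)} (hM : IsMatching M) :
    (cov M).card = 2 * M.card := by
  have h : (M.biUnion id).card = ∑ e ∈ M, (id e : Finset V).card :=
    card_biUnion (fun e he f hf hef => hM.2 e he f hf hef)
  unfold cov
  rw [h, sum_congr rfl (fun e he => show (id e : Finset V).card = 2 from hM.1 e he), sum_const,
    smul_eq_mul, mul_comm]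

section

variable {V : Type*} [DecidableEq V] [Fintype V] {K : Type*} [Field K]

lemma coef_lf (f : V → K) (v : V) : coef K {v} (lf K f) = f v := by
  change coef K {v} (∑ u, f u • x K u) = f v
  rw [map_sum, Finset.sum_eq_single v]
  · rw [map_smul]
    have h : x K v = mon (x K) {v} := by simp [mon]
    rw [h, coef_mon, if_pos rfl, smul_eq_mul, mul_one]
  · intro u _ hu
    rw [map_smul]
    have h : x K u = mon (x K) {u} := by simp [mon]
    rw [h, coef_mon, if_neg (fun h => hu (Finset.singleton_injective h)), smul_zero]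
  · intro h
    exact absurd (mem_univ v) h

lemma lf_injective : Function.Injective (lf K : (V → K) →ₗ[K] SR K V) := by
  intro f g h
  funext v
  rw [← coef_lf f v, ← coef_lf g v, h]

/-- The vectors supported on `R`. -/
def Y (K : Type*) [Field K] (R : Finset V) : Submodule K (V → K) :=
  Submodule.span K (Set.range fun v : R => (Pi.single (v : V) 1 : V → K))

omit [Fintype V] in
lemma mem_Y_apply {R : Finset V} {f : V → K} (hf : f ∈ Y K R) {v : V} (hv : v ∉ R) : f v = 0 := by
  unfold Y at hf
  induction hf using Submodule.span_induction with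
  | mem f hf =>
    obtain ⟨u, rfl⟩ := hf
    have h : v ≠ u := fun h => hv (h ▸ u.2)
    exact Pi.single_eq_of_ne h _
  | zero => rfl
  | add f g _ _ hf hg => rw [Pi.add_apply, hf, hg, add_zero]
  | smul a f _ hf => rw [Pi.smul_apply, hf, smul_zero]

lemma finrank_Y (R : Finset V) : Module.finrank K (Y K R) = R.card := by
  unfold Y
  rw [finrank_span_eq_card, Fintype.card_coe]
  have h := (Pi.basisFun K V).linearIndependent.comp (fun v : R => (v : V))
    Subtype.val_injective
  have h2 : (⇑(Pi.basisFun K V) ∘ fun v : R => (v : V)) =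
      fun v : R => (Pi.single (v : V) 1 : V → K) := by
    funext v
    exact Pi.basisFun_apply K V v
  rwa [h2] at h

end

/-- MT9. The main bound for skew systems on a finite ground set. -/
theorem main_fin {ι V : Type*} [Fintype ι] [Fintype V] [DecidableEq V] (k b : ℕ)
    (A B : ι → Finset V) (hA : ∀ i, (A i).card = k + 2) (hB : ∀ i, (B i).card = b)
    (hAB : ∀ i, (A i ∩ B i).card = 2) (G : Finset (Finset V)) (hG : ∀ e ∈ G, e.card = 2)
    (hcore : ∀ i, A i ∩ B i ∈ G) (τ : ι → ℕ)
    (hc : ∀ i j, i ≠ j → τ i ≤ τ j → ∀ e ∈ G, ¬ A i ∩ B j ⊆ e)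
    (ν : ℕ) (hν : ∀ M ⊆ G, IsMatching M → M.card ≤ ν)
    (hM : ∀ i, ∃ M ⊆ G, IsMatching M ∧ M.card = ν ∧ cov M ⊆ A i ∪ B i) :
    ∃ n₀ ≤ 2 * ν, Fintype.card ι ≤ Tn n₀ (k + b) k := by
  classical
  rcases isEmpty_or_nonempty ι with hι | ⟨⟨i0⟩⟩
  · exact ⟨0, Nat.zero_le _, by rw [Fintype.card_eq_zero]; exact Nat.zero_le _⟩
  obtain ⟨K, _, _, _, t, ht, hdet⟩ := exists_coeffs G
  set X0 : Submodule K (V → K) := LinearMap.range (cm G t).mulVecLin with hX0
  -- vectors of `X0` which vanish on a maximum matching are zero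
  have key : ∀ M ⊆ G, IsMatching M → M.card = ν → ∀ f ∈ X0, (∀ v ∈ cov M, f v = 0) → f = 0 := by
    intro M hMG hMM hMν f hf hv
    obtain ⟨y, rfl⟩ := hf
    apply mulVec_eq_zero (cm G t) (cm_symm G t) (cm_self G t) (cov M) (hdet M hMG hMM) _ y hv
    intro w hw m hm hwm
    by_contra hne
    obtain ⟨M', hM'G, hM', hcov⟩ := exists_matching_of_det_ne_zero G t _ hne
    have h1 := card_cov hM'
    have h2 := card_cov hMM
    have h3 : w ∉ insert m (cov M) := by
      rw [mem_insert, not_or]
      exact ⟨hwm, hw⟩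
    rw [hcov, card_insert_of_notMem h3, card_insert_of_notMem hm] at h1
    have h4 := hν M' hM'G hM'
    omega
  -- the complements of the sets `A i ∪ B i`
  set R : ι → Finset V := fun i => univ \ (A i ∪ B i) with hR
  have hcard : ∀ i, (A i ∪ B i).card = k + b := by
    intro i
    have h1 := card_union_add_card_inter (A i) (B i)
    rw [hA, hB, hAB] at h1
    omega
  have hRc : ∀ i, k + b + (R i).card = Fintype.card V := by
    intro i
    have h1 := card_sdiff_add_card_eq_card (subset_univ (A i ∪ B i))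
    rw [hcard, card_univ] at h1
    have h2 : (R i).card = (univ \ (A i ∪ B i)).card := rfl
    omega
  have hfr : Module.finrank K (V → K) = Fintype.card V := Module.finrank_fintype_fun_eq_card K
  have hdis : ∀ i, Disjoint X0 (Y K (R i)) := by
    intro i
    rw [Submodule.disjoint_def]
    intro f hf hfY
    obtain ⟨M, hMG, hMM, hMν, hMc⟩ := hM i
    apply key M hMG hMM hMν f hf
    intro v hv
    apply mem_Y_apply hfY
    rw [hR]
    simp only [mem_sdiff, mem_univ, true_and, not_not]
    exact hMc hv
  -- the dimension of `X0`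
  have hX0f : Module.finrank K X0 ≤ 2 * ν := by
    obtain ⟨M, hMG, hMM, hMν, hMc⟩ := hM i0
    have hinj : Function.Injective
        ((LinearMap.funLeft K K (fun v : cov M => (v : V))).comp X0.subtype) := by
      rw [← LinearMap.ker_eq_bot, LinearMap.ker_eq_bot']
      intro f hf
      apply Subtype.ext
      apply key M hMG hMM hMν f.1 f.2
      intro v hv
      exact congrFun hf ⟨v, hv⟩
    have h1 := LinearMap.finrank_le_finrank_of_injective hinj
    rw [Module.finrank_fintype_fun_eq_card, Fintype.card_coe, card_cov hMM, hMν] at h1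
    exact h1
  have hX0N : Module.finrank K X0 ≤ k + b := by
    have h1 := Submodule.finrank_add_finrank_le_of_disjoint (hdis i0)
    rw [finrank_Y, hfr, ← hRc i0] at h1
    omega
  obtain ⟨X1, h01, hX1, hX1d⟩ := extend (fun i => Y K (R i)) (k + b) X0 hX0N
    (fun i => by rw [finrank_Y, hfr, hRc i]) (by rw [hfr, ← hRc i0]; omega) hdis
  -- the vectors
  have hvec : ∀ i, ∃ w ∈ (X1.map (lf K)) ^ (A i \ B i).card, w - mon (x K) (A i \ B i) ∈
      Submodule.span K {y | ∃ P ⊆ (A i \ B i) ∪ R i, ¬ Disjoint P (R i) ∧ y = mon (x K) P} := by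
    intro i
    apply exists_vec
    · rw [Finset.disjoint_left]
      intro v hv hv'
      exact (mem_sdiff.1 hv').2 (mem_union_left _ (mem_sdiff.1 hv).1)
    · intro d hd
      have htop : X1 ⊔ Y K (R i) = ⊤ := by
        apply Submodule.eq_top_of_finrank_eq
        have h1 := Submodule.finrank_sup_add_finrank_inf_eq X1 (Y K (R i))
        rw [(hX1d i).eq_bot, finrank_bot, finrank_Y, hX1, add_zero, hRc i] at h1
        rw [h1, hfr]
      have h1 : (Pi.single d 1 : V → K) ∈ X1 ⊔ Y K (R i) := by
        rw [htop]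
        exact Submodule.mem_top
      obtain ⟨f, hf, g, hg, hfg⟩ := Submodule.mem_sup.1 h1
      refine ⟨f, hf, ?_, ?_⟩
      · have h2 : d ∉ R i := fun h => (mem_sdiff.1 h).2 (mem_union_left _ (mem_sdiff.1 hd).1)
        have h3 := congrFun hfg d
        rw [Pi.add_apply, mem_Y_apply hg h2, add_zero, Pi.single_eq_same] at h3
        exact h3
      · intro v hv hvd
        have h3 := congrFun hfg v
        rw [Pi.add_apply, mem_Y_apply hg hv, add_zero, Pi.single_eq_of_ne hvd] at h3
        exact h3
  choose w hw hw2 using hvec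
  have hDk : ∀ i, (A i \ B i).card = k := by
    intro i
    have h1 := Finset.card_sdiff_add_card_inter (A i) (B i)
    rw [hA i, hAB i] at h1
    omega
  have hcoef1 : ∀ i, coef K (A i) (qG G t * w i) = t (A i ∩ B i) := by
    intro i
    · have h1 : A i \ (A i \ B i) = A i ∩ B i := by
        rw [sdiff_sdiff_right_self, Finset.inf_eq_inter]
      rw [← h1]
      apply coef_diag G t (A i) (A i \ B i) (R i) (w i) sdiff_subset
      · rw [Finset.disjoint_left]
        intro v hv hv'
        exact (mem_sdiff.1 hv').2 (mem_union_left _ hv)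
      · rw [h1]
        exact hcore i
      · exact hw2 i
  have hcoef0 : ∀ i j, i ≠ j → τ i ≤ τ j → coef K (A i) (qG G t * w j) = 0 := by
    intro i j hij hτ
    · apply coef_zero G t (A i) ((A j \ B j) ∪ R j)
      · have h1 : w j = mon (x K) (A j \ B j) + (w j - mon (x K) (A j \ B j)) := by abel
        rw [h1]
        apply Submodule.add_mem
        · exact Submodule.subset_span ⟨_, subset_union_left, rfl⟩
        · apply Submodule.span_mono _ (hw2 j)
          rintro y ⟨P, hP, _, rfl⟩
          exact ⟨P, hP, rfl⟩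
      · intro e he h
        apply hc i j hij hτ e he
        intro v hv
        obtain ⟨hvA, hvB⟩ := mem_inter.1 hv
        by_contra hve
        rcases mem_union.1 (h (mem_sdiff.2 ⟨hvA, hve⟩)) with h' | h'
        · exact (mem_sdiff.1 h').2 hvB
        · exact (mem_sdiff.1 h').2 (mem_union_right _ hvB)
  have hmem : ∀ j, qG G t * w j ∈
      ((X1.map (lf K)) ^ k).map (LinearMap.mulLeft K (qG G t)) := by
    intro j
    have h1 := hw j
    rw [hDk j] at h1
    exact ⟨w j, h1, rfl⟩
  have : Module.Finite K (X1.map (lf K)) := inferInstance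
  have hfin : Module.Finite K (((X1.map (lf K)) ^ k).map (LinearMap.mulLeft K (qG G t))) := by
    have h1 : ((X1.map (lf K)) ^ k).FG := by
      apply Submodule.FG.pow
      exact Module.Finite.iff_fg.1 inferInstance
    exact Module.Finite.iff_fg.2 (h1.map _)
  have hli : LinearIndependent K (fun j => (⟨qG G t * w j, hmem j⟩ :
      (((X1.map (lf K)) ^ k).map (LinearMap.mulLeft K (qG G t)) : Submodule K (SR K V)))) := by
    apply LinearIndependent.of_comp (Submodule.subtype _)
    rw [Fintype.linearIndependent_iff]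
    intro g hg
    simp only [Function.comp_apply, Submodule.subtype_apply] at hg
    by_contra hcon
    push Not at hcon
    obtain ⟨r0, hr0⟩ := hcon
    obtain ⟨i, hi, hmin⟩ := Finset.exists_min_image (univ.filter fun p => g p ≠ 0) τ
      ⟨r0, by simpa using hr0⟩
    rw [mem_filter] at hi
    have h1 := congrArg (coef K (A i)) hg
    rw [map_sum, map_zero] at h1
    simp_rw [map_smul] at h1
    rw [Finset.sum_eq_single i] at h1
    · rw [hcoef1, smul_eq_mul] at h1
      exact hi.2 ((mul_eq_zero.1 h1).resolve_right (ht _))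
    · intro j _ hj
      by_cases hgj : g j = 0
      · rw [hgj, zero_smul]
      · rw [hcoef0 i j (Ne.symm hj) (hmin j (by simpa using hgj)), smul_zero]
    · intro h
      exact absurd (mem_univ i) h
  refine ⟨Module.finrank K (X0.map (lf K)), ?_, ?_⟩
  · exact (Submodule.finrank_map_le _ _).trans hX0f
  · have h1 := rank_sub (X0.map (lf K)) (X1.map (lf K)) (Submodule.map_mono h01)
      (by
        rintro l ⟨f, _, rfl⟩
        exact lf_mul_self f) (qG G t) (quad_mem G hG t) k
    have h2 : Module.finrank K (X1.map (lf K)) = k + b := by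
      rw [← hX1]
      exact ((Submodule.equivMapOfInjective (lf K) lf_injective X1).finrank_eq).symm
    rw [h2] at h1
    exact hli.fintype_card_le_finrank.trans h1

/-- The main bound for skew systems and any ground type. -/
theorem main {ι α : Type*} [Fintype ι] [DecidableEq α] (k b : ℕ) (hkb : k + 2 ≤ b)
    (A B : ι → Finset α) (hA : ∀ i, (A i).card = k + 2) (hB : ∀ i, (B i).card = b)
    (hAB : ∀ i, (A i ∩ B i).card = 2) (G : Finset (Finset α)) (hG : ∀ e ∈ G, e.card = 2)
    (hcore : ∀ i, A i ∩ B i ∈ G) (τ : ι → ℕ)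
    (hc : ∀ i j, i ≠ j → τ i ≤ τ j → ∀ e ∈ G, ¬ A i ∩ B j ⊆ e)
    (ν : ℕ) (hν : ∀ M ⊆ G, IsMatching M → M.card ≤ ν)
    (hM : ∀ i, ∃ M ⊆ G, IsMatching M ∧ M.card = ν ∧ cov M ⊆ A i ∪ B i) :
    Fintype.card ι ≤
      ∑ j ∈ range (min ν (k + 1)), 2 ^ j * (k + b - 2 - 2 * j).choose (k - j) := by
  classical
  suffices hmain : ∃ n₀ ≤ 2 * ν, Fintype.card ι ≤ Tn n₀ (k + b) k by
    obtain ⟨n₀, hn₀, h⟩ := hmain
    exact h.trans (Tn_le ν n₀ k b hn₀ hkb)
  set Ω : Finset α := ((univ : Finset ι).biUnion fun k => A k ∪ B k) ∪ G.biUnion id with hΩ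
  have hAΩ : ∀ i, A i ⊆ Ω := fun i u hu =>
    mem_union_left _ (mem_biUnion.2 ⟨i, mem_univ _, mem_union_left _ hu⟩)
  have hBΩ : ∀ i, B i ⊆ Ω := fun i u hu =>
    mem_union_left _ (mem_biUnion.2 ⟨i, mem_univ _, mem_union_right _ hu⟩)
  have hGΩ : ∀ e ∈ G, e ⊆ Ω := fun e he u hu =>
    mem_union_right _ (mem_biUnion.2 ⟨e, he, hu⟩)
  set φ : Finset α → Finset Ω := fun S => S.subtype (· ∈ Ω) with hφ
  have hmem : ∀ (S : Finset α) (u : Ω), u ∈ φ S ↔ (u : α) ∈ S := fun S u => mem_subtype
  have hcard : ∀ S : Finset α, S ⊆ Ω → (φ S).card = S.card := by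
    intro S hS
    rw [hφ]
    simp only
    rw [card_subtype, filter_true_of_mem hS]
  have hinter : ∀ S S' : Finset α, φ S ∩ φ S' = φ (S ∩ S') := by
    intro S S'
    ext u
    rw [mem_inter, hmem, hmem, hmem, mem_inter]
  have hsubt : ∀ S S' : Finset α, S ⊆ Ω → (φ S ⊆ φ S' ↔ S ⊆ S') := by
    intro S S' hS
    constructor
    · intro h u hu
      exact (hmem S' ⟨u, hS hu⟩).1 (h ((hmem S ⟨u, hS hu⟩).2 hu))
    · intro h u hu
      exact (hmem S' u).2 (h ((hmem S u).1 hu))
  have hinj : ∀ S S' : Finset α, S ⊆ Ω → S' ⊆ Ω → φ S = φ S' → S = S' := by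
    intro S S' hS hS' h
    exact Subset.antisymm ((hsubt S S' hS).1 h.le) ((hsubt S' S hS').1 h.ge)
  apply main_fin k b (fun i => φ (A i)) (fun i => φ (B i)) _ _ _ (G.image φ) _ _ τ _ ν
  · -- matchings of the image
    intro M' hM'G hM'
    have hex : ∀ e' ∈ M', ∃ e ∈ G, φ e = e' := fun e' he' => mem_image.1 (hM'G he')
    set M := G.filter fun e => φ e ∈ M' with hMdef
    have hM1 : M ⊆ G := filter_subset _ _
    have hM2 : M' = M.image φ := by
      ext e'
      rw [mem_image]
      constructor
      · intro h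
        obtain ⟨e, he, rfl⟩ := hex e' h
        exact ⟨e, mem_filter.2 ⟨he, h⟩, rfl⟩
      · rintro ⟨e, he, rfl⟩
        exact (mem_filter.1 he).2
    have hM3 : IsMatching M := by
      refine ⟨fun e he => hG e (hM1 he), ?_⟩
      intro e he f hf hef
      have h1 := hM'.2 (φ e) (mem_filter.1 he).2 (φ f) (mem_filter.1 hf).2
        (fun h => hef (hinj e f (hGΩ e (hM1 he)) (hGΩ f (hM1 hf)) h))
      rw [Finset.disjoint_left] at h1 ⊢
      intro u hu hu'
      exact h1 ((hmem e ⟨u, hGΩ e (hM1 he) hu⟩).2 hu) ((hmem f ⟨u, hGΩ e (hM1 he) hu⟩).2 hu')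
    rw [hM2]
    exact card_image_le.trans (hν M hM1 hM3)
  · intro i
    obtain ⟨M, hMG, hMM, hMν, hMc⟩ := hM i
    refine ⟨M.image φ, image_subset_image hMG, ⟨?_, ?_⟩, ?_, ?_⟩
    · intro e' he'
      obtain ⟨e, he, rfl⟩ := mem_image.1 he'
      rw [hcard e (hGΩ e (hMG he))]
      exact hMM.1 e he
    · intro e' he' f' hf' hef
      obtain ⟨e, he, rfl⟩ := mem_image.1 he'
      obtain ⟨f, hf, rfl⟩ := mem_image.1 hf'
      have h1 := hMM.2 e he f hf (fun h => hef (by rw [h]))
      rw [Finset.disjoint_left] at h1 ⊢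
      intro u hu hu'
      exact h1 ((hmem e u).1 hu) ((hmem f u).1 hu')
    · rw [card_image_of_injOn, hMν]
      intro e he f hf h
      exact hinj e f (hGΩ e (hMG he)) (hGΩ f (hMG hf)) h
    · intro u hu
      obtain ⟨e', he', hu'⟩ := mem_cov.1 hu
      obtain ⟨e, he, rfl⟩ := mem_image.1 he'
      have h1 := hMc (mem_cov.2 ⟨e, he, (hmem e u).1 hu'⟩)
      rw [mem_union, hmem, hmem]
      exact mem_union.1 h1
  · intro i
    rw [hcard _ (hAΩ i), hA]
  · intro i
    rw [hcard _ (hBΩ i), hB]
  · intro i
    rw [hinter, hcard _ (inter_subset_left.trans (hAΩ i)), hAB]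
  · intro e' he'
    obtain ⟨e, he, rfl⟩ := mem_image.1 he'
    rw [hcard e (hGΩ e he)]
    exact hG e he
  · intro i
    rw [hinter]
    exact mem_image_of_mem φ (hcore i)
  · intro i j hij hτ e' he' h
    obtain ⟨e, he, rfl⟩ := mem_image.1 he'
    rw [hinter, hsubt _ _ (inter_subset_left.trans (hAΩ i))] at h
    exact hc i j hij hτ e he h

end Pool.Agent.Lib.MP_20855c_co.Match
end
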