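import Pool.Agent.Lib.MP_20855c_co.Mg.G001
import Pool.Agent.Lib.MP_20855c_co.Mg.G002

section

/-!
# MP_20855c_co, large b: the class E (case II), structure

`#(c :: L) = k + 2` pairs, `j ∈ Out`, `A_j` contains no pair and is disjoint from `c`. `E`: `#(D_j \ Y)` points and `F`: `#(C_j \ Y)` points of `Y` outside all pairs and outside `A_j`.
-/

set_option autoImplicit false

namespace Pool.Agent.Lib.MP_20855c_co.LB

open Finset

variable {ι α : Type} [Fintype ι] [DecidableEq α]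

/-- Common part of levels 0, 1, 2. -/
theorem ceX {k b : ℕ} {A B : ι → Finset α} {Y c : Finset α} {L : List (Finset α)} (hs : IsSys k b A B) (hL : KL A B Y (c :: L)) (hlen : (c :: L).length = k + 2)
    {T : Finset α} (hTY : T ⊆ Y) (hTk : #T = k) (hcT : Disjoint c T) (hn : ∀ d ∈ c :: L, ¬ d ⊆ T) :
    T ∈ MJ k A B Y ∨ (∃ l, T = Dd A B l) ∨ T ∪ c ∈ Fr k A B Y (c :: L) ∨
      ∃ l, A l = T ∪ c ∧ Cc A B l ⊆ T := by
  classical
  have h2 := hL.two hs
  by_cases hMJ : T ∈ MJ k A B Y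
  · exact Or.inl hMJ
  by_cases hD : ∃ l, T = Dd A B l
  · exact Or.inr (Or.inl hD)
  by_cases hF : T ∪ c ∈ Fr k A B Y (c :: L)
  · exact Or.inr (Or.inr (Or.inl hF))
  right; right; right
  have hcm : c ∈ c :: L := List.mem_cons_self
  have hcY : c ⊆ Y := (hL.core c hcm).1
  have hPsd : (T ∪ c) \ c = T := union_sdiff_cancel_right hcT.symm
  have honly : ∀ d ∈ c :: L, d ⊆ T ∪ c → d = c := by
    intro d hd hdP
    by_contra hne
    have hdL : d ∈ L := by
      rcases List.mem_cons.1 hd with h | h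
      · exact absurd h hne
      · exact h
    have hcd : Disjoint c d := (List.pairwise_cons.1 hL.pw).1 d hdL
    apply hn d hd
    intro x hx
    rcases mem_union.1 (hdP hx) with h | h
    · exact h
    · exact absurd hx (disjoint_left.1 hcd h)
  rw [mem_Fr] at hF
  have hPr : rgood (c :: L) (T ∪ c) := by
    have h1 : #(c ∩ (T ∪ c)) ≠ 1 := by
      rw [inter_eq_left.2 subset_union_right, h2 c hcm]; decide
    rw [rgood_cons_not h1]
    exact subset_union_right
  have hex : ¬ ∀ l, A l = T ∪ c → Cc A B l ∉ c :: L ∧ good (c :: L) (Dd A B l) := by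
    intro hall
    apply hF
    refine ⟨union_subset hTY hcY, ?_, hPr, ?_, hall⟩
    · rw [card_union_of_disjoint hcT.symm, hTk, h2 c hcm]
    · intro d hd hdP
      rw [honly d hd hdP, hPsd]
      exact ⟨hMJ, fun i hi => hD ⟨i, hi.symm⟩⟩
  push Not at hex
  obtain ⟨l, hl, hl2⟩ := hex
  have hCP : Cc A B l ⊆ T ∪ c := by rw [← hl]; exact inter_subset_left
  have hCL : Cc A B l ∉ c :: L := by
    intro hm
    have hCc := honly _ hm hCP
    apply hD
    refine ⟨l, ?_⟩
    rw [← hPsd, ← hl, ← hCc, ← Dd_union_Cc (A := A) (B := B) l, union_sdiff_cancel_right (Dd_disj_Cc l)]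
  have hDg := hl2 hCL
  have hDP : Dd A B l ⊆ T ∪ c := by rw [← hl]; exact sdiff_subset
  rcases not_good h2 hDg with h | ⟨d, hd, hdD⟩
  · have h3 := allsplit_length hL.pw h
    rw [hlen, card_Dd hs] at h3
    omega
  · have hdc := honly d hd (hdD.trans hDP)
    subst hdc
    refine ⟨l, hl, ?_⟩
    intro x hx
    rcases mem_union.1 (hCP hx) with h | h
    · exact h
    · exact absurd hx (disjoint_left.1 (Dd_disj_Cc l) (hdD h))

/-- Level 0, `T = (D_j ∩ Y) ∪ E`. PROOF. If `T = D_l` then `D_j` meets `B_l` (`cross`), `D_j ∩ Y ⊆ D_l` does not: `dconf`. Otherwise, `T ∉ MJ`: `T` is disjoint from `c`, so good, `P = T ∪ c` is rgood and `c` is the only pair in `P` (`T` contains no pair), so `P ∈ Fr` unless `P = A_l`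
with `C_l ∈ c :: L` or `D_l` not good. `C_l ∈ c :: L` gives `C_l = c`, `T = D_l`, excluded. So `D_l` is not good, it is not all-split (`k < k + 2`, `allsplit_length`), so it contains a pair, which is `c`; `C_l` is disjoint from `c`, so `C_l ⊆ T`. `D_j` meets `B_l`; outside `Y`: `dconf`;
in `Y`: `D_j ∩ Y ∩ B_l ⊆ A_l ∩ B_l = C_l`. -/
theorem ce0 {k b : ℕ} {A B : ι → Finset α} {Y c : Finset α} {L : List (Finset α)} (hs : IsSys k b A B) (hL : KL A B Y (c :: L)) (hlen : (c :: L).length = k + 2)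
    {j : ι} (hj : ¬ Dd A B j ⊆ Y) (hc : Disjoint c (A j)) (hn : ∀ d ∈ c :: L, ¬ d ⊆ A j)
    {E : Finset α} (hE : E ⊆ Y) (hEc : #E = #(Dd A B j \ Y)) (hEV : Disjoint E (VV (c :: L))) (hEA : Disjoint E (A j))
    {T : Finset α} (hT : T = (Dd A B j ∩ Y) ∪ E) :
    T ∈ MJ k A B Y ∨ (∃ l ∈ cB A B Y, dconf A B Y j l ∧ (T = Dd A B l ∨ T ∪ c = A l)) ∨ T ∪ c ∈ Fr k A B Y (c :: L) ∨
      ∃ l, A l = T ∪ c ∧ Cc A B l ⊆ T ∧ ¬ Disjoint (Cc A B l) (Dd A B j) := by
  classical
  have hcV : ∀ d ∈ c :: L, Disjoint E d := by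
    intro d hd
    rw [disjoint_left]
    intro x hx hxd
    exact disjoint_left.1 hEV hx ((mem_VV _ _).2 ⟨d, hd, hxd⟩)
  have hcm : c ∈ c :: L := List.mem_cons_self
  have hDA : Dd A B j ⊆ A j := sdiff_subset
  have hTY : T ⊆ Y := by rw [hT]; exact union_subset inter_subset_right hE
  have hTk : #T = k := by
    have h1 : Disjoint (Dd A B j ∩ Y) E := by
      rw [disjoint_left]
      intro x hx hxE
      exact disjoint_left.1 hEA hxE (hDA (mem_inter.1 hx).1)
    rw [hT, card_union_of_disjoint h1, hEc, card_inter_add_card_sdiff, card_Dd hs]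
  have hcT : Disjoint c T := by
    rw [hT, disjoint_union_right]
    refine ⟨?_, (hcV c hcm).symm⟩
    exact disjoint_of_subset_right (inter_subset_left.trans hDA) hc
  have hnT : ∀ d ∈ c :: L, ¬ d ⊆ T := by
    intro d hd hdT
    apply hn d hd
    intro x hx
    have h1 := hdT hx
    rw [hT, mem_union] at h1
    rcases h1 with h1 | h1
    · exact hDA (mem_inter.1 h1).1
    · exact absurd hx (disjoint_left.1 (hcV d hd) h1)
  have hRT : Dd A B j ∩ Y ⊆ T := by rw [hT]; exact subset_union_left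
  -- the conflict
  have key : ∀ l, Dd A B l ⊆ Y → (l ∈ cB A B Y ∧ dconf A B Y j l) ∨ ∃ x, x ∈ Dd A B j ∩ Y ∧ x ∈ B l := by
    intro l hlY
    have hjl : j ≠ l := by
      rintro rfl
      exact hj hlY
    obtain ⟨x, hx, hxB⟩ := not_disjoint_iff.1 (cross hs hjl)
    by_cases hxY : x ∈ Y
    · right
      exact ⟨x, mem_inter.2 ⟨hx, hxY⟩, hxB⟩
    · left
      refine ⟨mem_cB.2 ⟨hlY, fun h => hxY (h hxB)⟩, ?_⟩
      unfold dconf
      rw [not_disjoint_iff]
      exact ⟨x, mem_sdiff.2 ⟨hx, hxY⟩, hxB⟩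
  rcases ceX hs hL hlen hTY hTk hcT hnT with h | ⟨l, h⟩ | h | ⟨l, h, h'⟩
  · exact Or.inl h
  · right; left
    rcases key l (by rw [← h]; exact hTY) with h3 | ⟨x, hx, hxB⟩
    · exact ⟨l, h3.1, h3.2, Or.inl h⟩
    · exfalso
      have h4 := hRT hx
      rw [h] at h4
      exact disjoint_left.1 (Dd_disj_B l) h4 hxB
  · exact Or.inr (Or.inr (Or.inl h))
  · have hAY : A l ⊆ Y := by
      rw [h]; exact union_subset hTY (hL.core c hcm).1
    rcases key l (sdiff_subset.trans hAY) with h3 | ⟨x, hx, hxB⟩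
    · right; left
      exact ⟨l, h3.1, h3.2, Or.inr h.symm⟩
    · right; right; right
      refine ⟨l, h, h', ?_⟩
      rw [not_disjoint_iff]
      refine ⟨x, ?_, (mem_inter.1 hx).1⟩
      refine mem_inter.2 ⟨?_, hxB⟩
      rw [h]
      exact mem_union_left _ (hRT hx)

/-- Levels 1 and 2: `g` is a core inside `A_j ∩ Y`, `T = ((A_j ∩ Y) \ g) ∪ E ∪ F`. PROOF. As `ce0`, with `not_sub`: `A_j ∩ B_l ⊄ g`, and `A_j ∩ Y ⊆ T ∪ g`. -/
theorem ce1 {k b : ℕ} {A B : ι → Finset α} {Y c : Finset α} {L : List (Finset α)} (hs : IsSys k b A B) (hL : KL A B Y (c :: L)) (hlen : (c :: L).length = k + 2)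
    {j : ι} (hj : ¬ Dd A B j ⊆ Y) (hc : Disjoint c (A j)) (hn : ∀ d ∈ c :: L, ¬ d ⊆ A j)
    {E F : Finset α} (hE : E ⊆ Y) (hEc : #E = #(Dd A B j \ Y)) (hEV : Disjoint E (VV (c :: L))) (hEA : Disjoint E (A j))
    (hF : F ⊆ Y) (hFc : #F = #(Cc A B j \ Y)) (hFV : Disjoint F (VV (c :: L))) (hFA : Disjoint F (A j)) (hEF : Disjoint E F)
    {l0 : ι} (hg : Cc A B l0 ⊆ A j ∩ Y) {T : Finset α} (hT : T = ((A j ∩ Y) \ Cc A B l0) ∪ E ∪ F) :
    T ∈ MJ k A B Y ∨ (∃ l ∈ cB A B Y, aconf A B Y j l ∧ (T = Dd A B l ∨ T ∪ c = A l)) ∨ T ∪ c ∈ Fr k A B Y (c :: L) ∨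
      ∃ l, A l = T ∪ c ∧ Cc A B l ⊆ T ∧ ¬ Disjoint (Cc A B l) (A j) := by
  classical
  have hcV : ∀ d ∈ c :: L, Disjoint E d ∧ Disjoint F d := by
    intro d hd
    rw [disjoint_left, disjoint_left]
    constructor
    · intro x hx hxd
      exact disjoint_left.1 hEV hx ((mem_VV _ _).2 ⟨d, hd, hxd⟩)
    · intro x hx hxd
      exact disjoint_left.1 hFV hx ((mem_VV _ _).2 ⟨d, hd, hxd⟩)
  have hcm : c ∈ c :: L := List.mem_cons_self
  have hTY : T ⊆ Y := by
    rw [hT]; exact union_subset (union_subset (sdiff_subset.trans inter_subset_right) hE) hF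
  have hTk : #T = k := by
    have h1 : Disjoint ((A j ∩ Y) \ Cc A B l0) E := by
      rw [disjoint_left]
      intro x hx hxE
      exact disjoint_left.1 hEA hxE (mem_inter.1 (mem_sdiff.1 hx).1).1
    have h2 : Disjoint (((A j ∩ Y) \ Cc A B l0) ∪ E) F := by
      rw [disjoint_union_left]
      refine ⟨?_, hEF⟩
      rw [disjoint_left]
      intro x hx hxF
      exact disjoint_left.1 hFA hxF (mem_inter.1 (mem_sdiff.1 hx).1).1
    have h3 : #(A j \ Y) = #(Dd A B j \ Y) + #(Cc A B j \ Y) := by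
      rw [← card_union_of_disjoint]
      · rw [← union_sdiff_distrib, Dd_union_Cc]
      · exact disjoint_of_subset_left sdiff_subset (disjoint_of_subset_right sdiff_subset (Dd_disj_Cc j))
    have h4 := card_inter_add_card_sdiff (A j) Y
    rw [hs.card_left] at h4
    have h5 : 2 ≤ #(A j ∩ Y) := by
      rw [← card_Cc hs l0]; exact card_le_card hg
    rw [hT, card_union_of_disjoint h2, card_union_of_disjoint h1, card_sdiff_of_subset hg, card_Cc hs, hEc, hFc]
    omega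
  have hcT : Disjoint c T := by
    rw [hT, disjoint_union_right, disjoint_union_right]
    refine ⟨⟨?_, (hcV c hcm).1.symm⟩, (hcV c hcm).2.symm⟩
    exact disjoint_of_subset_right (sdiff_subset.trans inter_subset_left) hc
  have hnT : ∀ d ∈ c :: L, ¬ d ⊆ T := by
    intro d hd hdT
    apply hn d hd
    intro x hx
    have h1 := hdT hx
    rw [hT, mem_union, mem_union] at h1
    rcases h1 with (h1 | h1) | h1
    · exact (mem_inter.1 (mem_sdiff.1 h1).1).1
    · exact absurd hx (disjoint_left.1 (hcV d hd).1 h1)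
    · exact absurd hx (disjoint_left.1 (hcV d hd).2 h1)
  have hRT : (A j ∩ Y) \ Cc A B l0 ⊆ T := by
    rw [hT, union_assoc]; exact subset_union_left
  have key : ∀ l, Dd A B l ⊆ Y → (l ∈ cB A B Y ∧ aconf A B Y j l) ∨
      ∃ x, x ∈ (A j ∩ Y) \ Cc A B l0 ∧ x ∈ B l := by
    intro l hlY
    have hjl : j ≠ l := by
      rintro rfl
      exact hj hlY
    have h6 := hs.not_sub j l l0 hjl
    rw [not_subset] at h6
    obtain ⟨x, hx, hxg⟩ := h6
    obtain ⟨hxA, hxB⟩ := mem_inter.1 hx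
    by_cases hxY : x ∈ Y
    · right
      exact ⟨x, mem_sdiff.2 ⟨mem_inter.2 ⟨hxA, hxY⟩, hxg⟩, hxB⟩
    · left
      refine ⟨mem_cB.2 ⟨hlY, fun h => hxY (h hxB)⟩, ?_⟩
      unfold aconf
      rw [not_disjoint_iff]
      exact ⟨x, mem_sdiff.2 ⟨hxA, hxY⟩, hxB⟩
  rcases ceX hs hL hlen hTY hTk hcT hnT with h | ⟨l, h⟩ | h | ⟨l, h, h'⟩
  · exact Or.inl h
  · right; left
    rcases key l (by rw [← h]; exact hTY) with h3 | ⟨x, hx, hxB⟩
    · exact ⟨l, h3.1, h3.2, Or.inl h⟩
    · exfalso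
      have h4 := hRT hx
      rw [h] at h4
      exact disjoint_left.1 (Dd_disj_B l) h4 hxB
  · exact Or.inr (Or.inr (Or.inl h))
  · have hAY : A l ⊆ Y := by
      rw [h]; exact union_subset hTY (hL.core c hcm).1
    rcases key l (sdiff_subset.trans hAY) with h3 | ⟨x, hx, hxB⟩
    · right; left
      exact ⟨l, h3.1, h3.2, Or.inr h.symm⟩
    · right; right; right
      refine ⟨l, h, h', ?_⟩
      rw [not_disjoint_iff]
      refine ⟨x, ?_, (mem_inter.1 (mem_sdiff.1 hx).1).1⟩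
      refine mem_inter.2 ⟨?_, hxB⟩
      rw [h]
      exact mem_union_left _ (hRT hx)

/-- PROOF. `g2 = C_{l1} ⊆ A_{l1}` is disjoint from `g1 = C_{l0}`, so `g1 ⊆ A_{l2}`, `g1 ⊄ A_{l1}`, `l2 ≠ l1`. `A_{l2} ∩ B_{l1} ⊆ g1`: a point `x` of it in `A_{l1}` would be in `C_{l1} = g2`, which is disjoint from `A_{l2}`; and `A_{l2} \ A_{l1} ⊆ g1`. Contradiction to `not_sub l2 l1 l0`. -/
theorem ce2 {k b : ℕ} {A B : ι → Finset α} {Y c : Finset α} (hs : IsSys k b A B)
    {j : ι} (hc : Disjoint c (A j)) {E F : Finset α} (hEA : Disjoint E (A j)) (hFA : Disjoint F (A j))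
    {l0 l1 l2 : ι} (hg1 : Cc A B l0 ⊆ A j ∩ Y) (hA1 : A l1 = ((A j ∩ Y) \ Cc A B l0) ∪ E ∪ F ∪ c) (hg2 : Cc A B l1 ⊆ A j ∩ Y)
    (hA2 : A l2 = ((A j ∩ Y) \ Cc A B l1) ∪ E ∪ F ∪ c) : False := by
  classical
  have hg2A : Cc A B l1 ⊆ A l1 := inter_subset_left
  -- `g1` is disjoint from `A l1`
  have hd1 : ∀ x, x ∈ Cc A B l0 → x ∉ A l1 := by
    intro x hx hxA
    have hxj : x ∈ A j := (mem_inter.1 (hg1 hx)).1
    rw [hA1] at hxA
    simp only [mem_union, mem_sdiff] at hxA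
    rcases hxA with ((h | h) | h) | h
    · exact h.2 hx
    · exact disjoint_left.1 hEA h hxj
    · exact disjoint_left.1 hFA h hxj
    · exact disjoint_left.1 hc h hxj
  obtain ⟨y, hy⟩ : (Cc A B l0).Nonempty := by
    rw [← card_pos, card_Cc hs]; omega
  have hyA2 : y ∈ A l2 := by
    rw [hA2]
    simp only [mem_union, mem_sdiff]
    left; left; left
    exact ⟨hg1 hy, fun h => hd1 y hy (hg2A h)⟩
  have hne : l2 ≠ l1 := by
    rintro rfl
    exact hd1 y hy hyA2
  apply hs.not_sub l2 l1 l0 hne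
  intro x hx
  obtain ⟨hx2, hxB⟩ := mem_inter.1 hx
  by_contra hx0
  have hx1 : x ∈ A l1 := by
    rw [hA2] at hx2
    rw [hA1]
    simp only [mem_union, mem_sdiff] at hx2 ⊢
    rcases hx2 with ((h | h) | h) | h
    · left; left; left
      exact ⟨h.1, hx0⟩
    · left; left; right; exact h
    · left; right; exact h
    · right; exact h
  have hxC : x ∈ Cc A B l1 := mem_inter.2 ⟨hx1, hxB⟩
  have hxj : x ∈ A j := (mem_inter.1 (hg2 hxC)).1
  rw [hA2] at hx2
  simp only [mem_union, mem_sdiff] at hx2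
  rcases hx2 with ((h | h) | h) | h
  · exact h.2 hxC
  · exact disjoint_left.1 hEA h hxj
  · exact disjoint_left.1 hFA h hxj
  · exact disjoint_left.1 hc h hxj

theorem few_aux {R E c : Finset α} {y z : α} (hy : y ∈ R) (hz : z ∈ E) (hRE : Disjoint R E) (hRc : Disjoint R c)
    (hEc : Disjoint E c) : (R ∪ E ∪ c) \ {y, z} = R.erase y ∪ E.erase z ∪ c := by
  ext x
  simp only [mem_sdiff, mem_union, mem_insert, mem_singleton, mem_erase, not_or]
  constructor
  · rintro ⟨(h | h) | h, h1, h2⟩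
    · exact Or.inl (Or.inl ⟨h1, h⟩)
    · exact Or.inl (Or.inr ⟨h2, h⟩)
    · exact Or.inr h
  · rintro ((h | h) | h)
    · refine ⟨Or.inl (Or.inl h.2), h.1, ?_⟩
      rintro rfl
      exact disjoint_left.1 hRE h.2 hz
    · refine ⟨Or.inl (Or.inr h.2), ?_, h.1⟩
      rintro rfl
      exact disjoint_left.1 hRE hy h.2
    · refine ⟨Or.inr h, ?_, ?_⟩
      · rintro rfl
        exact disjoint_left.1 hRc hy h
      · rintro rfl
        exact disjoint_left.1 hEc hz h

open scoped Classical in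
/-- Few `E` with a core `C_l = {y, z}`, `y ∈ D_j`, `z ∈ E`. PROOF. `E ↦ (y, E \ {z})` is injective: `D_l = A_l \ C_l` is determined by `y` and `E \ {z}`, so `l` is determined (`Dd_inj`), and `E = A_l \ c \ (D_j ∩ Y)`. At most `k * (k + b) ^ (u - 1)` pairs. -/
theorem few0 {k b : ℕ} {A B : ι → Finset α} {Y c : Finset α} (hs : IsSys k b A B) (hY : #Y = k + b)
    {j : ι} (hc : Disjoint c (A j)) (hcY : c ⊆ Y) (u : ℕ) (hu : #(Dd A B j \ Y) = u) :
    #((powersetCard u Y).filter fun E => Disjoint E (A j) ∧ Disjoint E c ∧ ∃ l, A l = (Dd A B j ∩ Y) ∪ E ∪ c ∧ Cc A B l ⊆ (Dd A B j ∩ Y) ∪ E ∧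
      ¬ Disjoint (Cc A B l) (Dd A B j) ∧ ¬ Cc A B l ⊆ Dd A B j) ≤ k * (k + b) ^ (u - 1) := by
  classical
  set R : Finset α := Dd A B j ∩ Y with hR
  set S := (powersetCard u Y).filter fun E => Disjoint E (A j) ∧ Disjoint E c ∧ ∃ l, A l = R ∪ E ∪ c ∧ Cc A B l ⊆ R ∪ E ∧
      ¬ Disjoint (Cc A B l) (Dd A B j) ∧ ¬ Cc A B l ⊆ Dd A B j with hS
  have hRA : R ⊆ A j := inter_subset_left.trans sdiff_subset
  have hex : ∀ E : ↥S, ∃ l y z, Disjoint E.1 (A j) ∧ Disjoint E.1 c ∧ A l = R ∪ E.1 ∪ c ∧ Cc A B l = {y, z} ∧ y ∈ R ∧ z ∈ E.1 := by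
    rintro ⟨E, hE⟩
    obtain ⟨_, hEA, hEc, l, hl, hC, hd, hn⟩ := mem_filter.1 hE
    obtain ⟨y, hyC, hyD⟩ := not_disjoint_iff.1 hd
    obtain ⟨z, hzC, hzD⟩ := not_subset.1 hn
    have hyz : y ≠ z := by rintro rfl; exact hzD hyD
    have hyR : y ∈ R := by
      rcases mem_union.1 (hC hyC) with h | h
      · exact h
      · exact absurd (sdiff_subset hyD) (disjoint_left.1 hEA h)
    have hzE : z ∈ E := by
      rcases mem_union.1 (hC hzC) with h | h
      · exact absurd (mem_inter.1 h).1 hzD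
      · exact h
    refine ⟨l, y, z, hEA, hEc, hl, ?_, hyR, hzE⟩
    symm
    apply eq_of_subset_of_card_le
    · intro x hx
      rcases mem_insert.1 hx with rfl | hx
      · exact hyC
      · rw [mem_singleton.1 hx]; exact hzC
    · rw [card_Cc hs, card_pair hyz]
  choose fl fy fz hf using hex
  have hinj : Function.Injective (fun E : ↥S => (fy E, E.1.erase (fz E))) := by
    intro E1 E2 h
    obtain ⟨hEA, hEc, hl, hC, hy, hz⟩ := hf E1
    obtain ⟨hEA', hEc', hl', hC', hy', hz'⟩ := hf E2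
    have h1 : fy E1 = fy E2 := congrArg Prod.fst h
    have h2 : E1.1.erase (fz E1) = E2.1.erase (fz E2) := congrArg Prod.snd h
    have hRc : Disjoint R c := disjoint_of_subset_left hRA hc.symm
    have hRE : Disjoint R E1.1 := disjoint_of_subset_left hRA hEA.symm
    have hRE' : Disjoint R E2.1 := disjoint_of_subset_left hRA hEA'.symm
    have hD : ∀ l, Dd A B l = A l \ Cc A B l := by
      intro l
      unfold Dd Cc
      rw [sdiff_inter_self_left]
    have hDD : Dd A B (fl E1) = Dd A B (fl E2) := by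
      rw [hD, hD, hl, hl', hC, hC', few_aux hy hz hRE hRc hEc, few_aux hy' hz' hRE' hRc hEc', h1, h2]
    have hll := Dd_inj hs hDD
    rw [hll, hl'] at hl
    apply Subtype.ext
    have h3 : ∀ E : Finset α, Disjoint R E → Disjoint E c → (R ∪ E ∪ c) \ (R ∪ c) = E := by
      intro E h4 h5
      ext x
      simp only [mem_sdiff, mem_union, not_or]
      constructor
      · rintro ⟨(h | h) | h, h6, h7⟩
        · exact absurd h h6
        · exact h
        · exact absurd h h7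
      · intro hx
        exact ⟨Or.inl (Or.inr hx), disjoint_right.1 h4 hx, disjoint_left.1 h5 hx⟩
    rw [← h3 E1.1 hRE hEc, ← h3 E2.1 hRE' hEc', hl]
  have hmaps : ∀ E : ↥S, (fy E, E.1.erase (fz E)) ∈ R ×ˢ powersetCard (u - 1) Y := by
    intro E
    obtain ⟨hEA, hEc, hl, hC, hy, hz⟩ := hf E
    have hE := mem_powersetCard.1 (mem_filter.1 E.2).1
    rw [mem_product, mem_powersetCard]
    refine ⟨hy, (erase_subset _ _).trans hE.1, ?_⟩
    show #(E.1.erase (fz E)) = u - 1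
    rw [card_erase_of_mem hz, hE.2]
  have hcard : #S ≤ #(R ×ˢ powersetCard (u - 1) Y) := by
    rw [← card_attach]
    apply card_le_card_of_injOn (fun E : ↥S => (fy E, E.1.erase (fz E)))
    · intro E _
      exact hmaps E
    · exact hinj.injOn
  refine hcard.trans ?_
  rw [card_product, card_powersetCard, hY]
  apply Nat.mul_le_mul
  · rw [← card_Dd hs j]
    exact card_le_card inter_subset_left
  · exact Nat.choose_le_pow _ _

open scoped Classical in
/-- Few pairs `(E, F)` with a core `C_{l1} = {y, z}`, `y ∈ A_j`, `z ∈ E ∪ F`. PROOF. `(E, F) ↦ (C_{l0}, y, whether z ∈ E, (E \ {z}, F) or (E, F \ {z}))` is injective: `D_{l1}` is determined by these data, so `l1` and `z` are determined. At most `2 ^ (k + 2) * (k + 2) * 2 * (k + b) ^ (u + v - 1)` values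
(for `z ∈ E` we have `u ≥ 1`, for `z ∈ F` `v ≥ 1`). -/
theorem few1 {k b : ℕ} {A B : ι → Finset α} {Y c : Finset α} (hs : IsSys k b A B) (hY : #Y = k + b)
    {j : ι} (hc : Disjoint c (A j)) (hcY : c ⊆ Y) (u v : ℕ) (hu : #(Dd A B j \ Y) = u) (hv : #(Cc A B j \ Y) = v) :
    #((powersetCard u Y ×ˢ powersetCard v Y).filter fun p => Disjoint p.1 (A j) ∧ Disjoint p.2 (A j) ∧ Disjoint p.1 p.2 ∧ Disjoint p.1 c ∧ Disjoint p.2 c ∧
      ∃ l0 l1, Cc A B l0 ⊆ A j ∩ Y ∧ A l1 = ((A j ∩ Y) \ Cc A B l0) ∪ p.1 ∪ p.2 ∪ c ∧ Cc A B l1 ⊆ ((A j ∩ Y) \ Cc A B l0) ∪ p.1 ∪ p.2 ∧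
      ¬ Disjoint (Cc A B l1) (A j) ∧ ¬ Cc A B l1 ⊆ A j) ≤ 2 ^ (k + 2) * (k + 2) * 2 * (k + b) ^ (u + v - 1) := by
  classical
  set S := (powersetCard u Y ×ˢ powersetCard v Y).filter fun p => Disjoint p.1 (A j) ∧ Disjoint p.2 (A j) ∧ Disjoint p.1 p.2 ∧ Disjoint p.1 c ∧ Disjoint p.2 c ∧
      ∃ l0 l1, Cc A B l0 ⊆ A j ∩ Y ∧ A l1 = ((A j ∩ Y) \ Cc A B l0) ∪ p.1 ∪ p.2 ∪ c ∧ Cc A B l1 ⊆ ((A j ∩ Y) \ Cc A B l0) ∪ p.1 ∪ p.2 ∧
      ¬ Disjoint (Cc A B l1) (A j) ∧ ¬ Cc A B l1 ⊆ A j with hS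
  have hex : ∀ p : ↥S, ∃ l0 l1 y z, Cc A B l0 ⊆ A j ∩ Y ∧ A l1 = ((A j ∩ Y) \ Cc A B l0) ∪ (p.1.1 ∪ p.1.2) ∪ c ∧
      Cc A B l1 = {y, z} ∧ y ∈ (A j ∩ Y) \ Cc A B l0 ∧ z ∈ p.1.1 ∪ p.1.2 := by
    rintro ⟨p, hp⟩
    obtain ⟨_, hEA, hFA, hEF, hEc, hFc, l0, l1, h0, h1, hC, hd, hn⟩ := mem_filter.1 hp
    obtain ⟨y, hyC, hyD⟩ := not_disjoint_iff.1 hd
    obtain ⟨z, hzC, hzD⟩ := not_subset.1 hn
    have hyz : y ≠ z := by rintro rfl; exact hzD hyD
    rw [union_assoc] at hC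
    have hyR : y ∈ (A j ∩ Y) \ Cc A B l0 := by
      rcases mem_union.1 (hC hyC) with h | h
      · exact h
      · exfalso
        rcases mem_union.1 h with h | h
        · exact disjoint_left.1 hEA h hyD
        · exact disjoint_left.1 hFA h hyD
    have hzE : z ∈ p.1 ∪ p.2 := by
      rcases mem_union.1 (hC hzC) with h | h
      · exact absurd (mem_inter.1 (mem_sdiff.1 h).1).1 hzD
      · exact h
    refine ⟨l0, l1, y, z, h0, ?_, ?_, hyR, hzE⟩
    · rw [h1, union_assoc ((A j ∩ Y) \ Cc A B l0)]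
    symm
    apply eq_of_subset_of_card_le
    · intro x hx
      rcases mem_insert.1 hx with rfl | hx
      · exact hyC
      · rw [mem_singleton.1 hx]; exact hzC
    · rw [card_Cc hs, card_pair hyz]
  choose f0 f1 fy fz hf using hex
  have hprop : ∀ p : ↥S, Disjoint p.1.1 (A j) ∧ Disjoint p.1.2 (A j) ∧ Disjoint p.1.1 p.1.2 ∧ Disjoint p.1.1 c ∧ Disjoint p.1.2 c ∧
      p.1.1 ⊆ Y ∧ #p.1.1 = u ∧ p.1.2 ⊆ Y ∧ #p.1.2 = v := by
    rintro ⟨p, hp⟩
    obtain ⟨h1, hEA, hFA, hEF, hEc, hFc, _⟩ := mem_filter.1 hp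
    obtain ⟨h3, h4⟩ := mem_product.1 h1
    rw [mem_powersetCard] at h3 h4
    exact ⟨hEA, hFA, hEF, hEc, hFc, h3.1, h3.2, h4.1, h4.2⟩
  have hD : ∀ l, Dd A B l = A l \ Cc A B l := by
    intro l
    unfold Dd Cc
    rw [sdiff_inter_self_left]
  let g : ↥S → (Finset α × α) × (Finset α × Finset α) := fun p =>
    ((Cc A B (f0 p), fy p), (p.1.1.erase (fz p), p.1.2.erase (fz p)))
  have hinj : ∀ p q : ↥S, g p = g q → (fz p ∈ p.1.1 ↔ fz q ∈ q.1.1) → p = q := by
    intro p q h hiff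
    have h1 : Cc A B (f0 p) = Cc A B (f0 q) := congrArg (fun t => t.1.1) h
    have h2 : fy p = fy q := congrArg (fun t => t.1.2) h
    have h3 : p.1.1.erase (fz p) = q.1.1.erase (fz q) := congrArg (fun t => t.2.1) h
    have h4 : p.1.2.erase (fz p) = q.1.2.erase (fz q) := congrArg (fun t => t.2.2) h
    obtain ⟨a0, a1, a2, ay, az⟩ := hf p
    obtain ⟨b0, b1, b2, by', bz⟩ := hf q
    obtain ⟨pEA, pFA, pEF, pEc, pFc, _⟩ := hprop p
    obtain ⟨qEA, qFA, qEF, qEc, qFc, _⟩ := hprop q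
    have hRc : ∀ t : Finset α, Disjoint ((A j ∩ Y) \ t) c := by
      intro t
      exact disjoint_of_subset_left (sdiff_subset.trans inter_subset_left) hc.symm
    have hRE : ∀ t : Finset α, Disjoint ((A j ∩ Y) \ t) (p.1.1 ∪ p.1.2) := by
      intro t
      rw [disjoint_union_right]
      exact ⟨disjoint_of_subset_left (sdiff_subset.trans inter_subset_left) pEA.symm,
        disjoint_of_subset_left (sdiff_subset.trans inter_subset_left) pFA.symm⟩
    have hRE' : ∀ t : Finset α, Disjoint ((A j ∩ Y) \ t) (q.1.1 ∪ q.1.2) := by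
      intro t
      rw [disjoint_union_right]
      exact ⟨disjoint_of_subset_left (sdiff_subset.trans inter_subset_left) qEA.symm,
        disjoint_of_subset_left (sdiff_subset.trans inter_subset_left) qFA.symm⟩
    have hEc1 : Disjoint (p.1.1 ∪ p.1.2) c := disjoint_union_left.2 ⟨pEc, pFc⟩
    have hEc2 : Disjoint (q.1.1 ∪ q.1.2) c := disjoint_union_left.2 ⟨qEc, qFc⟩
    have hDD : Dd A B (f1 p) = Dd A B (f1 q) := by
      rw [hD, hD, a1, b1, a2, b2, few_aux ay az (hRE _) (hRc _) hEc1, few_aux by' bz (hRE' _) (hRc _) hEc2,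
        h1, h2, erase_union_distrib, erase_union_distrib, h3, h4]
    have hll := Dd_inj hs hDD
    have hzz : fz p = fz q := by
      have h5 : fz p ∈ Cc A B (f1 q) := by
        rw [← hll, a2]; simp
      rw [b2, mem_insert, mem_singleton] at h5
      rcases h5 with h5 | h5
      · exfalso
        rw [← h2] at h5
        rw [h5] at az
        exact disjoint_left.1 (hRE _) ay az
      · exact h5
    apply Subtype.ext
    apply Prod.ext
    · by_cases hm : fz p ∈ p.1.1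
      · rw [← insert_erase hm, ← insert_erase (hiff.1 hm), h3, hzz]
      · have hm' : fz q ∉ q.1.1 := fun h => hm (hiff.2 h)
        rw [erase_eq_of_notMem hm, erase_eq_of_notMem hm'] at h3
        exact h3
    · by_cases hm : fz p ∈ p.1.1
      · have hm1 : fz p ∉ p.1.2 := disjoint_left.1 pEF hm
        have hm2 : fz q ∉ q.1.2 := disjoint_left.1 qEF (hiff.1 hm)
        rw [erase_eq_of_notMem hm1, erase_eq_of_notMem hm2] at h4
        exact h4
      · have hm' : fz q ∉ q.1.1 := fun h => hm (hiff.2 h)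
        have hm1 : fz p ∈ p.1.2 := (mem_union.1 az).resolve_left hm
        have hm2 : fz q ∈ q.1.2 := (mem_union.1 bz).resolve_left hm'
        rw [← insert_erase hm1, ← insert_erase hm2, h4, hzz]
  set X : Finset (Finset α × α) := (A j).powerset ×ˢ A j with hX
  have hXc : #X = 2 ^ (k + 2) * (k + 2) := by
    rw [hX, card_product, card_powerset, hs.card_left]
  have hgX : ∀ p : ↥S, (Cc A B (f0 p), fy p) ∈ X := by
    intro p
    obtain ⟨a0, a1, a2, ay, az⟩ := hf p
    rw [hX, mem_product, mem_powerset]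
    exact ⟨a0.trans inter_subset_left, (mem_inter.1 (mem_sdiff.1 ay).1).1⟩
  have hA1 : #(S.attach.filter fun p => fz p ∈ p.1.1) ≤ 2 ^ (k + 2) * (k + 2) * (k + b) ^ (u + v - 1) := by
    rcases (S.attach.filter fun p => fz p ∈ p.1.1).eq_empty_or_nonempty with h0 | ⟨p0, hp0⟩
    · rw [h0]; simp
    have hu1 : 1 ≤ u := by
      rw [← (hprop p0).2.2.2.2.2.2.1]
      exact card_pos.2 ⟨_, (mem_filter.1 hp0).2⟩
    have h5 : #(S.attach.filter fun p => fz p ∈ p.1.1) ≤ #(X ×ˢ (powersetCard (u - 1) Y ×ˢ powersetCard v Y)) := by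
      apply card_le_card_of_injOn g
      · intro p hp
        have hp' := (mem_filter.1 (mem_coe.1 hp)).2
        obtain ⟨pEA, pFA, pEF, pEc, pFc, h6, h7, h8, h9⟩ := hprop p
        have hz2 : fz p ∉ p.1.2 := disjoint_left.1 pEF hp'
        rw [mem_coe]
        refine mem_product.2 ⟨hgX p, mem_product.2 ⟨mem_powersetCard.2 ⟨(erase_subset _ _).trans h6, ?_⟩,
          mem_powersetCard.2 ⟨(erase_subset _ _).trans h8, ?_⟩⟩⟩
        · show #(p.1.1.erase (fz p)) = u - 1
          rw [card_erase_of_mem hp', h7]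
        · show #(p.1.2.erase (fz p)) = v
          rw [erase_eq_of_notMem hz2, h9]
      · intro p hp q hq hpq
        have hp' := (mem_filter.1 (mem_coe.1 hp)).2
        have hq' := (mem_filter.1 (mem_coe.1 hq)).2
        exact hinj p q hpq ⟨fun _ => hq', fun _ => hp'⟩
    refine h5.trans ?_
    rw [card_product X, hXc, card_product, card_powersetCard, card_powersetCard, hY]
    apply Nat.mul_le_mul_left
    have h10 : u + v - 1 = (u - 1) + v := by omega
    rw [h10, pow_add]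
    exact Nat.mul_le_mul (Nat.choose_le_pow _ _) (Nat.choose_le_pow _ _)
  have hA2 : #(S.attach.filter fun p => ¬ fz p ∈ p.1.1) ≤ 2 ^ (k + 2) * (k + 2) * (k + b) ^ (u + v - 1) := by
    rcases (S.attach.filter fun p => ¬ fz p ∈ p.1.1).eq_empty_or_nonempty with h0 | ⟨p0, hp0⟩
    · rw [h0]; simp
    have hv1 : 1 ≤ v := by
      rw [← (hprop p0).2.2.2.2.2.2.2.2]
      exact card_pos.2 ⟨_, (mem_union.1 (hf p0).2.2.2.2).resolve_left (mem_filter.1 hp0).2⟩
    have h5 : #(S.attach.filter fun p => ¬ fz p ∈ p.1.1) ≤ #(X ×ˢ (powersetCard u Y ×ˢ powersetCard (v - 1) Y)) := by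
      apply card_le_card_of_injOn g
      · intro p hp
        have hp' := (mem_filter.1 (mem_coe.1 hp)).2
        obtain ⟨pEA, pFA, pEF, pEc, pFc, h6, h7, h8, h9⟩ := hprop p
        have hz2 : fz p ∈ p.1.2 := (mem_union.1 (hf p).2.2.2.2).resolve_left hp'
        rw [mem_coe]
        refine mem_product.2 ⟨hgX p, mem_product.2 ⟨mem_powersetCard.2 ⟨(erase_subset _ _).trans h6, ?_⟩,
          mem_powersetCard.2 ⟨(erase_subset _ _).trans h8, ?_⟩⟩⟩
        · show #(p.1.1.erase (fz p)) = u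
          rw [erase_eq_of_notMem hp', h7]
        · show #(p.1.2.erase (fz p)) = v - 1
          rw [card_erase_of_mem hz2, h9]
      · intro p hp q hq hpq
        have hp' := (mem_filter.1 (mem_coe.1 hp)).2
        have hq' := (mem_filter.1 (mem_coe.1 hq)).2
        exact hinj p q hpq ⟨fun h => absurd h hp', fun h => absurd h hq'⟩
    refine h5.trans ?_
    rw [card_product X, hXc, card_product, card_powersetCard, card_powersetCard, hY]
    apply Nat.mul_le_mul_left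
    have h10 : u + v - 1 = u + (v - 1) := by omega
    rw [h10, pow_add]
    exact Nat.mul_le_mul (Nat.choose_le_pow _ _) (Nat.choose_le_pow _ _)
  have hsplit := Finset.card_filter_add_card_filter_not (s := S.attach) (fun p => fz p ∈ p.1.1)
  rw [card_attach] at hsplit
  calc #S = _ := hsplit.symm
    _ ≤ 2 ^ (k + 2) * (k + 2) * (k + b) ^ (u + v - 1) + 2 ^ (k + 2) * (k + 2) * (k + b) ^ (u + v - 1) := Nat.add_le_add hA1 hA2
    _ = 2 ^ (k + 2) * (k + 2) * 2 * (k + b) ^ (u + v - 1) := by ring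

end Pool.Agent.Lib.MP_20855c_co.LB
end

section

/-!
# MP_20855c_co, large b: the class E (case II), counting
-/

set_option autoImplicit false

namespace Pool.Agent.Lib.MP_20855c_co.LB

open Finset

open scoped Classical in
/-- The class E: `D_j` is not inside `Y` and `A_j` contains no pair of `L`. -/
noncomputable def SE {ι α : Type} [Fintype ι] [DecidableEq α] (A B : ι → Finset α) (Y : Finset α) (L : List (Finset α)) : Finset ι :=
  univ.filter fun j => ¬ Dd A B j ⊆ Y ∧ ∀ c ∈ L, ¬ c ⊆ A j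

/-- Bound for the exceptional sets. -/
theorem ClE2_few {ι α : Type} [Fintype ι] [DecidableEq α] {k b : ℕ} {A B : ι → Finset α} {Y : Finset α} {ε : ℝ} (h : Ctx k b A B Y ε) {e : ℕ} (he1 : 1 ≤ e) (he : e ≤ k + 2) :
    ((2 ^ (k + 2) * (k + 2) * 2 * (k + b) ^ (e - 1) : ℕ) : ℝ) ≤ bet k b ^ e := by
  obtain ⟨f, rfl⟩ : ∃ f, e = f + 1 := ⟨e - 1, by omega⟩
  rw [Nat.add_sub_cancel]
  have hb := h.b_large
  have hβ := h.s_le.2
  have hκ : (0 : ℝ) < kap k := by unfold kap; positivity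
  have hκ2 : (1 : ℝ) ≤ 2 * kap k := by
    unfold kap
    push_cast
    linarith [(Nat.cast_nonneg k : (0 : ℝ) ≤ k)]
  have hkb : k ≤ b := by
    calc k ≤ 100 * (k + 2) := by omega
      _ = (100 * (k + 2)) ^ 1 := (pow_one _).symm
      _ ≤ (100 * (k + 2)) ^ (k + 6) := Nat.pow_le_pow_right (by omega) (by omega)
      _ ≤ b := hb
  have h1 : (k : ℝ) + b ≤ 2 * kap k * bet k b := by
    have h2 : 2 * kap k * bet k b = 2 * b := by
      unfold bet
      field_simp
    rw [h2]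
    have : (k : ℝ) ≤ b := by exact_mod_cast hkb
    linarith
  have h3 : ((k : ℝ) + b) ^ f ≤ (2 * kap k) ^ (k + 1) * bet k b ^ f := by
    calc ((k : ℝ) + b) ^ f ≤ (2 * kap k * bet k b) ^ f := pow_le_pow_left₀ (by positivity) h1 f
      _ = (2 * kap k) ^ f * bet k b ^ f := mul_pow _ _ _
      _ ≤ (2 * kap k) ^ (k + 1) * bet k b ^ f := by
          apply mul_le_mul_of_nonneg_right _ (by positivity)
          exact pow_le_pow_right₀ hκ2 (by omega)
  have h4 : (2 : ℝ) ^ (k + 2) * (k + 2) * 2 * (2 * kap k) ^ (k + 1) ≤ bet k b := by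
    unfold bet
    rw [le_div_iff₀ hκ]
    have h5 : (2 : ℝ) ^ (k + 2) * (k + 2) * 2 * (2 * kap k) ^ (k + 1) * kap k ≤ (2 : ℝ) ^ (k + 2) * (k + 2) * 2 * (2 * kap k) ^ (k + 2) := by
      have : (2 * kap k) ^ (k + 2) = (2 * kap k) ^ (k + 1) * (2 * kap k) := pow_succ _ _
      rw [this]
      have h6 : 0 ≤ (2 : ℝ) ^ (k + 2) * (k + 2) * 2 * (2 * kap k) ^ (k + 1) := by positivity
      nlinarith
    refine h5.trans ?_
    have h6 : (2 : ℝ) ^ (k + 2) * (k + 2) * 2 * (2 * kap k) ^ (k + 2) = (2 * (k + 2)) * (64 * (k + 2)) ^ (k + 2) := by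
      unfold kap
      push_cast
      have : (64 * ((k : ℝ) + 2)) ^ (k + 2) = 2 ^ (k + 2) * (2 * (16 * ((k : ℝ) + 2))) ^ (k + 2) := by
        rw [← mul_pow]
        congr 1
        ring
      rw [this]
      ring
    rw [h6]
    have h7 : (2 * ((k : ℝ) + 2)) * (64 * (k + 2)) ^ (k + 2) ≤ (100 * (k + 2)) ^ (k + 6) := by
      have h8 : (64 * ((k : ℝ) + 2)) ^ (k + 2) ≤ (100 * (k + 2)) ^ (k + 2) := by
        apply pow_le_pow_left₀ (by positivity)
        linarith [(Nat.cast_nonneg k : (0 : ℝ) ≤ k)]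
      have h9 : (1 : ℝ) ≤ 100 * ((k : ℝ) + 2) := by linarith [(Nat.cast_nonneg k : (0 : ℝ) ≤ k)]
      calc (2 * ((k : ℝ) + 2)) * (64 * (k + 2)) ^ (k + 2) ≤ (100 * ((k : ℝ) + 2)) * (100 * (k + 2)) ^ (k + 2) := by
            apply mul_le_mul _ h8 (by positivity) (by positivity)
            linarith [(Nat.cast_nonneg k : (0 : ℝ) ≤ k)]
        _ = (100 * ((k : ℝ) + 2)) ^ (k + 3) := by ring
        _ ≤ (100 * (k + 2)) ^ (k + 6) := pow_le_pow_right₀ h9 (by omega)
    refine h7.trans ?_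
    have : (((100 * (k + 2)) ^ (k + 6) : ℕ) : ℝ) ≤ (b : ℝ) := by exact_mod_cast hb
    push_cast at this
    exact this
  push_cast
  calc (2 : ℝ) ^ (k + 2) * (k + 2) * 2 * ((k : ℝ) + b) ^ f ≤ (2 : ℝ) ^ (k + 2) * (k + 2) * 2 * ((2 * kap k) ^ (k + 1) * bet k b ^ f) :=
        mul_le_mul_of_nonneg_left h3 (by positivity)
    _ = ((2 : ℝ) ^ (k + 2) * (k + 2) * 2 * (2 * kap k) ^ (k + 1)) * bet k b ^ f := by ring
    _ ≤ bet k b * bet k b ^ f := mul_le_mul_of_nonneg_right h4 (by positivity)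
    _ = bet k b ^ (f + 1) := by ring

/-- `sg / β ≤ ε κ #MJ`. -/
theorem ClE2_sg {ι α : Type} [Fintype ι] [DecidableEq α] {k b : ℕ} {A B : ι → Finset α} {Y : Finset α} {ε : ℝ} (h : Ctx k b A B Y ε) :
    (sg A B Y : ℝ) / bet k b ≤ ε * kap k * #(MJ k A B Y) := by
  have hβ := h.s_le.2
  have hκ : (0 : ℝ) < kap k := by unfold kap; positivity
  rw [div_le_iff₀ (by linarith)]
  calc (sg A B Y : ℝ) ≤ ε * b * #(MJ k A B Y) := h.hσ
    _ = ε * kap k * #(MJ k A B Y) * bet k b := by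
        unfold bet
        field_simp

open scoped Classical in
/-- The core of the index with difference `S`. -/
noncomputable def coreOf {ι α : Type} [DecidableEq α] (A B : ι → Finset α) (S : Finset α) : Finset α :=
  if h : ∃ l, Dd A B l = S then Cc A B h.choose else ∅

theorem coreOf_eq {ι α : Type} [Fintype ι] [DecidableEq α] {k b : ℕ} {A B : ι → Finset α} (hs : IsSys k b A B) (l : ι) :
    coreOf A B (Dd A B l) = Cc A B l := by
  have h : ∃ m, Dd A B m = Dd A B l := ⟨l, rfl⟩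
  unfold coreOf
  rw [dif_pos h, Dd_inj hs h.choose_spec]

theorem coreOf_card {ι α : Type} [DecidableEq α] {k b : ℕ} {A B : ι → Finset α} (hs : IsSys k b A B) (S : Finset α) :
    #(coreOf A B S) ≤ 2 := by
  unfold coreOf
  split_ifs with h
  · exact (hs.card_inter _).le
  · simp

/-- Candidates of level 0. -/
def Cand0 {α : Type} [DecidableEq α] (T : Finset α) : Finset (Finset α × Finset α) := T.powerset.image fun R => (R, T \ R)

theorem card_Cand0 {α : Type} [DecidableEq α] (T : Finset α) (k : ℕ) (h : #T ≤ k + 2) : #(Cand0 T) ≤ 2 ^ (k + 2) := by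
  refine card_image_le.trans ?_
  rw [card_powerset]
  exact Nat.pow_le_pow_right (by norm_num) h

/-- Candidates of levels 1 and 2. -/
noncomputable def Cand {ι α : Type} [DecidableEq α] (A B : ι → Finset α) (c T : Finset α) : Finset (Finset α × (Finset α × Finset α)) :=
  ((T.powerset ×ˢ T.powerset) ×ˢ (T.powerset ×ˢ T.powerset)).biUnion fun p =>
    (coreOf A B (p.1.1 ∪ p.1.2 ∪ p.2.1 ∪ c) ∪ coreOf A B (p.1.1 ∪ p.1.2 ∪ c)).powerset.image fun R2 => (p.2.2 ∪ R2, (p.1.2, p.2.1))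

theorem mem_Cand {ι α : Type} [DecidableEq α] {A B : ι → Finset α} {c T X E F R1 R2 : Finset α} (hX : X ⊆ T) (hE : E ⊆ T) (hF : F ⊆ T) (hR : R1 ⊆ T)
    (hR2 : R2 ⊆ coreOf A B (X ∪ E ∪ F ∪ c) ∨ R2 ⊆ coreOf A B (X ∪ E ∪ c)) : (R1 ∪ R2, (E, F)) ∈ Cand A B c T := by
  unfold Cand
  rw [mem_biUnion]
  refine ⟨((X, E), (F, R1)), ?_, ?_⟩
  · simp only [mem_product, mem_powerset]
    exact ⟨⟨hX, hE⟩, hF, hR⟩
  · rw [mem_image]
    refine ⟨R2, ?_, rfl⟩
    rw [mem_powerset]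
    rcases hR2 with h | h
    · exact h.trans subset_union_left
    · exact h.trans subset_union_right

theorem card_Cand {ι α : Type} [DecidableEq α] {k b : ℕ} {A B : ι → Finset α} (hs : IsSys k b A B) (c T : Finset α) (h : #T ≤ k + 2) :
    #(Cand A B c T) ≤ (2 ^ (k + 2) * 2 ^ (k + 2)) * (2 ^ (k + 2) * 2 ^ (k + 2)) * 16 := by
  unfold Cand
  refine (card_biUnion_le_card_mul _ _ 16 ?_).trans ?_
  · intro p _
    refine card_image_le.trans ?_
    rw [card_powerset]
    calc 2 ^ #(coreOf A B (p.1.1 ∪ p.1.2 ∪ p.2.1 ∪ c) ∪ coreOf A B (p.1.1 ∪ p.1.2 ∪ c)) ≤ 2 ^ 4 := by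
          apply Nat.pow_le_pow_right (by norm_num)
          refine (card_union_le _ _).trans ?_
          have h1 := coreOf_card hs (p.1.1 ∪ p.1.2 ∪ p.2.1 ∪ c)
          have h2 := coreOf_card hs (p.1.1 ∪ p.1.2 ∪ c)
          omega
      _ = 16 := by norm_num
  · apply Nat.mul_le_mul_right
    rw [card_product, card_product, card_powerset]
    have h1 : 2 ^ #T ≤ 2 ^ (k + 2) := Nat.pow_le_pow_right (by norm_num) h
    exact Nat.mul_le_mul (Nat.mul_le_mul h1 h1) (Nat.mul_le_mul h1 h1)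

open scoped Classical in
/-- Level 0. -/
theorem ce_p1 {ι α : Type} [Fintype ι] [DecidableEq α] {k b : ℕ} {A B : ι → Finset α} {Y c : Finset α} {L : List (Finset α)} {ε : ℝ} (h : Ctx k b A B Y ε)
    (u : ℕ) (hu : 1 ≤ u) (J : Finset ι) (hJ : J ⊆ JU A B Y u) (Q : ι → Finset (Finset α)) (hcA : ∀ j ∈ J, Disjoint c (A j))
    (hQ : ∀ j ∈ J, bet k b ^ u ≤ #(Q j))
    (hQ2 : ∀ j ∈ J, ∀ E ∈ Q j, Disjoint E (A j) ∧ Disjoint E c ∧ ((Dd A B j ∩ Y) ∪ E ∈ MJ k A B Y ∨
      (∃ l ∈ cB A B Y, dconf A B Y j l ∧ ((Dd A B j ∩ Y) ∪ E = Dd A B l ∨ (Dd A B j ∩ Y) ∪ E ∪ c = A l)) ∨ (Dd A B j ∩ Y) ∪ E ∪ c ∈ Fr k A B Y (c :: L))) :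
    (#J : ℝ) ≤ 3 * (2 * 2 ^ (k + 2)) * kap k * ε * (#(Fr k A B Y (c :: L)) + #(MJ k A B Y)) := by
  have hκ : (0 : ℝ) < kap k := by unfold kap; positivity
  have hε := h.hε
  have h1 := cnt (A := A) (B := B) (Y := Y) J Q (bet k b) (ε * kap k) u hu h.s_le.2 (by positivity) (dconf A B Y)
    (fun R => mulD1 h R u hu J hJ) (fun R l => mulD2 h R u hu J hJ l) hQ (MJ k A B Y ∪ Fr k A B Y (c :: L))
    (fun w => Cand0 w ∪ Cand0 (w \ c)) (fun l => Cand0 (Dd A B l) ∪ Cand0 (A l \ c)) (2 * 2 ^ (k + 2)) (2 * 2 ^ (k + 2))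
    (by
      intro w hw
      have hwk : #w ≤ k + 2 := by
        rw [mem_union, mem_MJ, mem_Fr] at hw
        rcases hw with hw | hw
        · omega
        · omega
      refine (card_union_le _ _).trans ?_
      have h2 := card_Cand0 w k hwk
      have h3 := card_Cand0 (w \ c) k ((card_le_card sdiff_subset).trans hwk)
      omega)
    (by
      intro l
      refine (card_union_le _ _).trans ?_
      have h2 := card_Cand0 (Dd A B l) k (by rw [card_Dd h.sys]; omega)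
      have h3 := card_Cand0 (A l \ c) k ((card_le_card sdiff_subset).trans (h.sys.card_left l).le)
      omega)
    (by
      intro j hj E hE
      obtain ⟨hEA, hEc, hcase⟩ := hQ2 j hj E hE
      have hcj := hcA j hj
      have hTE : E = ((Dd A B j ∩ Y) ∪ E) \ (Dd A B j ∩ Y) := by
        ext x
        simp only [mem_sdiff, mem_union, mem_inter]
        constructor
        · intro hx
          refine ⟨Or.inr hx, fun hx2 => ?_⟩
          exact Finset.disjoint_left.1 hEA hx (mem_sdiff.1 hx2.1).1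
        · rintro ⟨h5 | h5, h6⟩
          · exact absurd h5 h6
          · exact h5
      have hmem : ∀ T : Finset α, T = (Dd A B j ∩ Y) ∪ E → (Dd A B j ∩ Y, E) ∈ Cand0 T := by
        rintro T rfl
        unfold Cand0
        rw [mem_image]
        refine ⟨Dd A B j ∩ Y, mem_powerset.2 subset_union_left, ?_⟩
        rw [← hTE]
      have hTc : ∀ P : Finset α, (Dd A B j ∩ Y) ∪ E ∪ c = P → P \ c = (Dd A B j ∩ Y) ∪ E := by
        rintro P rfl
        rw [union_sdiff_right]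
        apply sdiff_eq_self_of_disjoint
        rw [Finset.disjoint_left]
        intro x hx hxc
        rw [mem_union, mem_inter] at hx
        rcases hx with hx | hx
        · exact Finset.disjoint_left.1 hcj hxc (mem_sdiff.1 hx.1).1
        · exact Finset.disjoint_left.1 hEc hx hxc
      rcases hcase with h5 | ⟨l, hl, hcf, h5 | h5⟩ | h5
      · left
        exact ⟨_, mem_union_left _ h5, mem_union_left _ (hmem _ rfl)⟩
      · right
        exact ⟨l, hl, hcf, mem_union_left _ (hmem _ h5.symm)⟩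
      · right
        exact ⟨l, hl, hcf, mem_union_right _ (hmem _ (hTc _ h5))⟩
      · left
        exact ⟨_, mem_union_right _ h5, mem_union_right _ (hmem _ (hTc _ rfl))⟩)
  have h2 := ClE2_sg h
  have h3 : (#(MJ k A B Y ∪ Fr k A B Y (c :: L)) : ℝ) ≤ #(MJ k A B Y) + #(Fr k A B Y (c :: L)) := by
    exact_mod_cast card_union_le _ _
  have hM0 : (0 : ℝ) ≤ #(MJ k A B Y) := Nat.cast_nonneg _
  have hF0 : (0 : ℝ) ≤ #(Fr k A B Y (c :: L)) := Nat.cast_nonneg _
  have hP : (0 : ℝ) < ((2 * 2 ^ (k + 2) : ℕ) : ℝ) := by positivity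
  calc (#J : ℝ) ≤ ε * kap k * ((2 * 2 ^ (k + 2) : ℕ) : ℝ) * #(MJ k A B Y ∪ Fr k A B Y (c :: L)) + 2 * ((2 * 2 ^ (k + 2) : ℕ) : ℝ) * sg A B Y / bet k b := h1
    _ = ε * kap k * ((2 * 2 ^ (k + 2) : ℕ) : ℝ) * #(MJ k A B Y ∪ Fr k A B Y (c :: L)) + 2 * ((2 * 2 ^ (k + 2) : ℕ) : ℝ) * (sg A B Y / bet k b) := by ring
    _ ≤ ε * kap k * ((2 * 2 ^ (k + 2) : ℕ) : ℝ) * (#(MJ k A B Y) + #(Fr k A B Y (c :: L))) + 2 * ((2 * 2 ^ (k + 2) : ℕ) : ℝ) * (ε * kap k * #(MJ k A B Y)) := by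
        apply add_le_add
        · exact mul_le_mul_of_nonneg_left h3 (by positivity)
        · exact mul_le_mul_of_nonneg_left h2 (by positivity)
    _ ≤ 3 * (2 * 2 ^ (k + 2)) * kap k * ε * (#(Fr k A B Y (c :: L)) + #(MJ k A B Y)) := by
        push_cast
        have h4 : 0 ≤ ε * kap k * (2 * 2 ^ (k + 2)) := by positivity
        nlinarith [mul_nonneg h4 hM0, mul_nonneg h4 hF0]

open scoped Classical in
/-- Levels 1 and 2. -/
theorem ce_p2 {ι α : Type} [Fintype ι] [DecidableEq α] {k b : ℕ} {A B : ι → Finset α} {Y c : Finset α} {L : List (Finset α)} {ε : ℝ} (h : Ctx k b A B Y ε)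
    (hL : KL A B Y (c :: L)) (hlen : (c :: L).length = k + 2)
    (u v : ℕ) (hu : 1 ≤ u) (J : Finset ι) (hJ : J ⊆ JUV A B Y u v) (Q : ι → Finset (Finset α × Finset α))
    (hJ2 : ∀ j ∈ J, ¬ Dd A B j ⊆ Y ∧ Disjoint c (A j) ∧ ∀ d ∈ c :: L, ¬ d ⊆ A j)
    (hQ : ∀ j ∈ J, bet k b ^ (u + v) ≤ #(Q j))
    (hQ2 : ∀ j ∈ J, ∀ p ∈ Q j, (p.1 ⊆ Y ∧ #p.1 = u ∧ Disjoint p.1 (VV (c :: L)) ∧ Disjoint p.1 (A j)) ∧
      (p.2 ⊆ Y ∧ #p.2 = v ∧ Disjoint p.2 (VV (c :: L)) ∧ Disjoint p.2 (A j)) ∧ Disjoint p.1 p.2 ∧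
      (∃ l0, A l0 = (Dd A B j ∩ Y) ∪ p.1 ∪ c ∧ Cc A B l0 ⊆ Dd A B j) ∧
      ¬ ∃ l0 l1, Cc A B l0 ⊆ A j ∩ Y ∧ A l1 = ((A j ∩ Y) \ Cc A B l0) ∪ p.1 ∪ p.2 ∪ c ∧ Cc A B l1 ⊆ ((A j ∩ Y) \ Cc A B l0) ∪ p.1 ∪ p.2 ∧
        ¬ Disjoint (Cc A B l1) (A j) ∧ ¬ Cc A B l1 ⊆ A j) :
    (#J : ℝ) ≤ 3 * (2 * ((2 ^ (k + 2) * 2 ^ (k + 2)) * (2 ^ (k + 2) * 2 ^ (k + 2)) * 16)) * kap k * ε * (#(Fr k A B Y (c :: L)) + #(MJ k A B Y)) := by
  have hκ : (0 : ℝ) < kap k := by unfold kap; positivity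
  have hε := h.hε
  have hs := h.sys
  set C1 : ℕ := 2 * ((2 ^ (k + 2) * 2 ^ (k + 2)) * (2 ^ (k + 2) * 2 ^ (k + 2)) * 16) with hC1
  have h1 := cnt (A := A) (B := B) (Y := Y) J Q (bet k b) (ε * kap k) (u + v) (by omega) h.s_le.2 (by positivity) (aconf A B Y)
    (fun R => mulA1 h R u v (by omega) J hJ) (fun R l => mulA2 h R u v (by omega) J hJ l) hQ (MJ k A B Y ∪ Fr k A B Y (c :: L))
    (fun w => Cand A B c w ∪ Cand A B c (w \ c)) (fun l => Cand A B c (Dd A B l) ∪ Cand A B c (A l \ c)) C1 C1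
    (by
      intro w hw
      have hwk : #w ≤ k + 2 := by
        rw [mem_union, mem_MJ, mem_Fr] at hw
        rcases hw with hw | hw
        · omega
        · omega
      refine (card_union_le _ _).trans ?_
      have h2 := card_Cand hs c w hwk
      have h3 := card_Cand hs c (w \ c) ((card_le_card sdiff_subset).trans hwk)
      omega)
    (by
      intro l
      refine (card_union_le _ _).trans ?_
      have h2 := card_Cand hs c (Dd A B l) (by rw [card_Dd h.sys]; omega)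
      have h3 := card_Cand hs c (A l \ c) ((card_le_card sdiff_subset).trans (h.sys.card_left l).le)
      omega)
    (by
      rintro j hj ⟨E, F⟩ hEF
      obtain ⟨hjO, hcj, hn⟩ := hJ2 j hj
      obtain ⟨⟨hEY, hEu, hEV, hEA⟩, ⟨hFY, hFv, hFV, hFA⟩, hEFd, ⟨l0, hA0, hg1⟩, hfew⟩ := hQ2 j hj _ hEF
      simp only at hEY hEu hEV hEA hFY hFv hFV hFA hEFd hA0 hfew
      have hju := (mem_filter.1 (hJ hj)).2
      have hcY : c ⊆ Y := (hL.core c List.mem_cons_self).1
      have hcV : c ⊆ VV (c :: L) := by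
        intro x hx
        rw [mem_VV]
        exact ⟨c, List.mem_cons_self, hx⟩
      have hEc : Disjoint E c := disjoint_of_subset_right hcV hEV
      have hFc : Disjoint F c := disjoint_of_subset_right hcV hFV
      have hA0Y : A l0 ⊆ Y := by
        rw [hA0]
        exact union_subset (union_subset inter_subset_right hEY) hcY
      have hC0Y : Cc A B l0 ⊆ Y := (inter_subset_left).trans hA0Y
      have hDA : Dd A B j ⊆ A j := sdiff_subset
      have hg1' : Cc A B l0 ⊆ A j ∩ Y := subset_inter (hg1.trans hDA) hC0Y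
      -- candidates of level 1
      have cand1 : ∀ T, T = ((A j ∩ Y) \ Cc A B l0) ∪ E ∪ F → (Dd A B j ∩ Y, (E, F)) ∈ Cand A B c T := by
        rintro T rfl
        have hD0 : Dd A B l0 = ((Dd A B j ∩ Y) \ Cc A B l0) ∪ E ∪ c := by
          have h5 : Dd A B l0 = A l0 \ Cc A B l0 := by
            unfold Dd Cc
            rw [sdiff_inter_self_left]
          rw [h5, hA0]
          ext x
          simp only [mem_sdiff, mem_union, mem_inter]
          constructor
          · rintro ⟨(h6 | h6) | h6, h7⟩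
            · exact Or.inl (Or.inl ⟨h6, h7⟩)
            · exact Or.inl (Or.inr h6)
            · exact Or.inr h6
          · rintro ((⟨h6, h7⟩ | h6) | h6)
            · exact ⟨Or.inl (Or.inl h6), h7⟩
            · exact ⟨Or.inl (Or.inr h6), fun h7 => Finset.disjoint_left.1 hEA h6 (mem_inter.1 (hg1' h7)).1⟩
            · exact ⟨Or.inr h6, fun h7 => Finset.disjoint_left.1 hcj h6 (mem_inter.1 (hg1' h7)).1⟩
        have hX : (Dd A B j ∩ Y) \ Cc A B l0 ⊆ ((A j ∩ Y) \ Cc A B l0) ∪ E ∪ F := by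
          intro x hx
          rw [mem_sdiff, mem_inter] at hx
          rw [mem_union, mem_union, mem_sdiff, mem_inter]
          exact Or.inl (Or.inl ⟨⟨hDA hx.1.1, hx.1.2⟩, hx.2⟩)
        have h6 := mem_Cand (A := A) (B := B) (c := c) (T := ((A j ∩ Y) \ Cc A B l0) ∪ E ∪ F) (X := (Dd A B j ∩ Y) \ Cc A B l0) (E := E) (F := F)
          (R1 := (Dd A B j ∩ Y) \ Cc A B l0) (R2 := Cc A B l0) hX
          (subset_union_right.trans subset_union_left) subset_union_right hX
          (Or.inr (by rw [← hD0, coreOf_eq hs]))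
        have h7 : (Dd A B j ∩ Y) \ Cc A B l0 ∪ Cc A B l0 = Dd A B j ∩ Y := sdiff_union_of_subset (subset_inter hg1 hC0Y)
        rw [h7] at h6
        exact h6
      have hTc : ∀ (g P : Finset α), ((A j ∩ Y) \ g) ∪ E ∪ F ∪ c = P → P \ c = ((A j ∩ Y) \ g) ∪ E ∪ F := by
        rintro g P rfl
        rw [union_sdiff_right]
        apply sdiff_eq_self_of_disjoint
        rw [Finset.disjoint_left]
        intro x hx hxc
        rw [mem_union, mem_union, mem_sdiff, mem_inter] at hx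
        rcases hx with (hx | hx) | hx
        · exact Finset.disjoint_left.1 hcj hxc hx.1.1
        · exact Finset.disjoint_left.1 hEc hx hxc
        · exact Finset.disjoint_left.1 hFc hx hxc
      rcases ce1 hs hL hlen hjO hcj hn hEY (hEu.trans hju.1.symm) hEV hEA hFY (hFv.trans hju.2.symm) hFV hFA hEFd hg1' rfl with
        h5 | ⟨l, hl, hcf, h5 | h5⟩ | h5 | ⟨l1, hA1, hC1T, hC1A⟩
      · left
        exact ⟨_, mem_union_left _ h5, mem_union_left _ (cand1 _ rfl)⟩
      · right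
        exact ⟨l, hl, hcf, mem_union_left _ (cand1 _ h5.symm)⟩
      · right
        exact ⟨l, hl, hcf, mem_union_right _ (cand1 _ (hTc _ _ h5))⟩
      · left
        exact ⟨_, mem_union_right _ h5, mem_union_right _ (cand1 _ (hTc _ _ rfl))⟩
      · -- level 2
        have hg2 : Cc A B l1 ⊆ A j := by
          by_contra hcon
          exact hfew ⟨l0, l1, hg1', hA1, hC1T, hC1A, hcon⟩
        have hC1Y : Cc A B l1 ⊆ Y := by
          refine hC1T.trans ?_
          exact union_subset (union_subset (sdiff_subset.trans inter_subset_right) hEY) hFY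
        have hg2' : Cc A B l1 ⊆ A j ∩ Y := subset_inter hg2 hC1Y
        have cand2 : ∀ T, T = ((A j ∩ Y) \ Cc A B l1) ∪ E ∪ F → (Dd A B j ∩ Y, (E, F)) ∈ Cand A B c T := by
          rintro T rfl
          have hD1 : Dd A B l1 = (((A j ∩ Y) \ Cc A B l0) \ Cc A B l1) ∪ E ∪ F ∪ c := by
            have h5 : Dd A B l1 = A l1 \ Cc A B l1 := by
              unfold Dd Cc
              rw [sdiff_inter_self_left]
            rw [h5, hA1]
            ext x
            simp only [mem_sdiff, mem_union, mem_inter]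
            constructor
            · rintro ⟨((h6 | h6) | h6) | h6, h7⟩
              · exact Or.inl (Or.inl (Or.inl ⟨h6, h7⟩))
              · exact Or.inl (Or.inl (Or.inr h6))
              · exact Or.inl (Or.inr h6)
              · exact Or.inr h6
            · rintro (((⟨h6, h7⟩ | h6) | h6) | h6)
              · exact ⟨Or.inl (Or.inl (Or.inl h6)), h7⟩
              · exact ⟨Or.inl (Or.inl (Or.inr h6)), fun h7 => Finset.disjoint_left.1 hEA h6 (hg2 h7)⟩
              · exact ⟨Or.inl (Or.inr h6), fun h7 => Finset.disjoint_left.1 hFA h6 (hg2 h7)⟩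
              · exact ⟨Or.inr h6, fun h7 => Finset.disjoint_left.1 hcj h6 (hg2 h7)⟩
          have hX : ((A j ∩ Y) \ Cc A B l0) \ Cc A B l1 ⊆ ((A j ∩ Y) \ Cc A B l1) ∪ E ∪ F := by
            intro x hx
            rw [mem_sdiff, mem_sdiff] at hx
            rw [mem_union, mem_union, mem_sdiff]
            exact Or.inl (Or.inl ⟨hx.1.1, hx.2⟩)
          have hR1 : (Dd A B j ∩ Y) \ Cc A B l1 ⊆ ((A j ∩ Y) \ Cc A B l1) ∪ E ∪ F := by
            intro x hx
            rw [mem_sdiff, mem_inter] at hx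
            rw [mem_union, mem_union, mem_sdiff, mem_inter]
            exact Or.inl (Or.inl ⟨⟨hDA hx.1.1, hx.1.2⟩, hx.2⟩)
          have h6 := mem_Cand (A := A) (B := B) (c := c) (T := ((A j ∩ Y) \ Cc A B l1) ∪ E ∪ F) (X := ((A j ∩ Y) \ Cc A B l0) \ Cc A B l1) (E := E) (F := F)
            (R1 := (Dd A B j ∩ Y) \ Cc A B l1) (R2 := (Dd A B j ∩ Y) ∩ Cc A B l1) hX
            (subset_union_right.trans subset_union_left) subset_union_right hR1
            (Or.inl (by rw [← hD1, coreOf_eq hs]; exact inter_subset_right))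
          have h7 : (Dd A B j ∩ Y) \ Cc A B l1 ∪ (Dd A B j ∩ Y) ∩ Cc A B l1 = Dd A B j ∩ Y := sdiff_union_inter _ _
          rw [h7] at h6
          exact h6
        rcases ce1 hs hL hlen hjO hcj hn hEY (hEu.trans hju.1.symm) hEV hEA hFY (hFv.trans hju.2.symm) hFV hFA hEFd hg2' rfl with
          h5 | ⟨l, hl, hcf, h5 | h5⟩ | h5 | ⟨l2, hA2, _, _⟩
        · left
          exact ⟨_, mem_union_left _ h5, mem_union_left _ (cand2 _ rfl)⟩
        · right
          exact ⟨l, hl, hcf, mem_union_left _ (cand2 _ h5.symm)⟩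
        · right
          exact ⟨l, hl, hcf, mem_union_right _ (cand2 _ (hTc _ _ h5))⟩
        · left
          exact ⟨_, mem_union_right _ h5, mem_union_right _ (cand2 _ (hTc _ _ rfl))⟩
        · exact (ce2 hs hcj hEA hFA hg1' hA1 hg2' hA2).elim)
  have h2 := ClE2_sg h
  have h3 : (#(MJ k A B Y ∪ Fr k A B Y (c :: L)) : ℝ) ≤ #(MJ k A B Y) + #(Fr k A B Y (c :: L)) := by
    exact_mod_cast card_union_le _ _
  have hM0 : (0 : ℝ) ≤ #(MJ k A B Y) := Nat.cast_nonneg _
  have hF0 : (0 : ℝ) ≤ #(Fr k A B Y (c :: L)) := Nat.cast_nonneg _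
  have hP : (0 : ℝ) < (C1 : ℝ) := by rw [hC1]; positivity
  calc (#J : ℝ) ≤ ε * kap k * (C1 : ℝ) * #(MJ k A B Y ∪ Fr k A B Y (c :: L)) + 2 * (C1 : ℝ) * sg A B Y / bet k b := h1
    _ = ε * kap k * (C1 : ℝ) * #(MJ k A B Y ∪ Fr k A B Y (c :: L)) + 2 * (C1 : ℝ) * (sg A B Y / bet k b) := by ring
    _ ≤ ε * kap k * (C1 : ℝ) * (#(MJ k A B Y) + #(Fr k A B Y (c :: L))) + 2 * (C1 : ℝ) * (ε * kap k * #(MJ k A B Y)) := by
        apply add_le_add
        · exact mul_le_mul_of_nonneg_left h3 (by positivity)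
        · exact mul_le_mul_of_nonneg_left h2 (by positivity)
    _ ≤ 3 * (C1 : ℝ) * kap k * ε * (#(Fr k A B Y (c :: L)) + #(MJ k A B Y)) := by
        have h4 : 0 ≤ ε * kap k * (C1 : ℝ) := by positivity
        nlinarith [mul_nonneg h4 hM0, mul_nonneg h4 hF0]
    _ = 3 * (2 * ((2 ^ (k + 2) * 2 ^ (k + 2)) * (2 ^ (k + 2) * 2 ^ (k + 2)) * 16)) * kap k * ε * (#(Fr k A B Y (c :: L)) + #(MJ k A B Y)) := by
        rw [hC1]
        push_cast
        ring

open scoped Classical in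
/-- The lower bound for the number of test objects. -/
theorem ce_low {ι α : Type} [Fintype ι] [DecidableEq α] {k b : ℕ} {A B : ι → Finset α} {Y c : Finset α} {L : List (Finset α)} {ε : ℝ} (h : Ctx k b A B Y ε)
    (hL : KL A B Y (c :: L)) (hlen : (c :: L).length = k + 2) (u v : ℕ) (hu : 1 ≤ u) (huk : u ≤ k) (hv : v ≤ 2) (j : ι)
    (hj : ¬ Dd A B j ⊆ Y) (hcj : Disjoint c (A j)) (hn : ∀ d ∈ c :: L, ¬ d ⊆ A j) (hju : #(Dd A B j \ Y) = u) (hjv : #(Cc A B j \ Y) = v)
    (hQ1 : (#((powersetCard u ((Y \ VV (c :: L)) \ A j)).filter fun E => ((Dd A B j ∩ Y) ∪ E ∈ MJ k A B Y ∨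
      (∃ l ∈ cB A B Y, dconf A B Y j l ∧ ((Dd A B j ∩ Y) ∪ E = Dd A B l ∨ (Dd A B j ∩ Y) ∪ E ∪ c = A l)) ∨ (Dd A B j ∩ Y) ∪ E ∪ c ∈ Fr k A B Y (c :: L))) : ℝ) < bet k b ^ u) :
    bet k b ^ (u + v) ≤ #((powersetCard u Y ×ˢ powersetCard v Y).filter fun p => (Disjoint p.1 (VV (c :: L)) ∧ Disjoint p.1 (A j)) ∧
      (Disjoint p.2 (VV (c :: L)) ∧ Disjoint p.2 (A j)) ∧ Disjoint p.1 p.2 ∧
      (∃ l0, A l0 = (Dd A B j ∩ Y) ∪ p.1 ∪ c ∧ Cc A B l0 ⊆ Dd A B j) ∧
      ¬ ∃ l0 l1, Cc A B l0 ⊆ A j ∩ Y ∧ A l1 = ((A j ∩ Y) \ Cc A B l0) ∪ p.1 ∪ p.2 ∪ c ∧ Cc A B l1 ⊆ ((A j ∩ Y) \ Cc A B l0) ∪ p.1 ∪ p.2 ∧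
        ¬ Disjoint (Cc A B l1) (A j) ∧ ¬ Cc A B l1 ⊆ A j) := by
  have hs := h.sys
  have hY := h.cY
  have hcY : c ⊆ Y := (hL.core c List.mem_cons_self).1
  have hcV : c ⊆ VV (c :: L) := by
    intro x hx
    rw [mem_VV]
    exact ⟨c, List.mem_cons_self, hx⟩
  have hβ := h.s_le.2
  have hβ0 : (0 : ℝ) < bet k b := by linarith
  have hb := h.b_large
  have hb2 : 100 * (k + 2) ≤ b := by
    calc 100 * (k + 2) = (100 * (k + 2)) ^ 1 := (pow_one _).symm
      _ ≤ (100 * (k + 2)) ^ (k + 6) := Nat.pow_le_pow_right (by omega) (by omega)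
      _ ≤ b := hb
  set Y' := (Y \ VV (c :: L)) \ A j with hY'
  have hVV := card_VV hs hL
  have hn0 : k + b ≤ #Y' + 2 * (k + 2) + (k + 2) := by
    have h1 : #(Y \ VV (c :: L)) + #(VV (c :: L)) ≥ #Y := by
      have := card_le_card (subset_union_left (s₁ := Y) (s₂ := VV (c :: L)))
      have h2 := card_sdiff_add_card Y (VV (c :: L))
      omega
    have h2 : #Y' + #(A j) ≥ #(Y \ VV (c :: L)) := by
      have := card_le_card (subset_union_left (s₁ := Y \ VV (c :: L)) (s₂ := A j))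
      have h3 : #Y' + #(A j) = #((Y \ VV (c :: L)) ∪ A j) := card_sdiff_add_card (Y \ VV (c :: L)) (A j)
      omega
    rw [hs.card_left] at h2
    rw [hVV.1, hlen] at h1
    omega
  have hY'sub : Y' ⊆ Y := sdiff_subset.trans sdiff_subset
  have hE1 : ∀ E, E ⊆ Y' → E ⊆ Y ∧ Disjoint E (VV (c :: L)) ∧ Disjoint E (A j) := by
    intro E hE
    refine ⟨hE.trans hY'sub, ?_, ?_⟩
    · exact disjoint_of_subset_left (hE.trans sdiff_subset) sdiff_disjoint
    · exact disjoint_of_subset_left hE sdiff_disjoint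
  set EE := powersetCard u Y' with hEE
  set Q1 := EE.filter fun E => ((Dd A B j ∩ Y) ∪ E ∈ MJ k A B Y ∨
      (∃ l ∈ cB A B Y, dconf A B Y j l ∧ ((Dd A B j ∩ Y) ∪ E = Dd A B l ∨ (Dd A B j ∩ Y) ∪ E ∪ c = A l)) ∨ (Dd A B j ∩ Y) ∪ E ∪ c ∈ Fr k A B Y (c :: L)) with hQ1d
  set E2 := EE.filter fun E => ∃ l0, A l0 = (Dd A B j ∩ Y) ∪ E ∪ c ∧ Cc A B l0 ⊆ Dd A B j with hE2
  set F0 := (powersetCard u Y).filter fun E => Disjoint E (A j) ∧ Disjoint E c ∧ ∃ l, A l = (Dd A B j ∩ Y) ∪ E ∪ c ∧ Cc A B l ⊆ (Dd A B j ∩ Y) ∪ E ∧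
      ¬ Disjoint (Cc A B l) (Dd A B j) ∧ ¬ Cc A B l ⊆ Dd A B j with hF0
  have hsub1 : EE ⊆ (Q1 ∪ E2) ∪ F0 := by
    intro E hE
    have hE' := mem_powersetCard.1 hE
    obtain ⟨h1, h2, h3⟩ := hE1 E hE'.1
    rw [mem_union, mem_union]
    rcases ce0 hs hL hlen hj hcj hn h1 (hE'.2.trans hju.symm) h2 h3 rfl with h4 | h4 | h4 | ⟨l, h4, h5, h6⟩
    · left; left
      exact mem_filter.2 ⟨hE, Or.inl h4⟩
    · left; left
      exact mem_filter.2 ⟨hE, Or.inr (Or.inl h4)⟩
    · left; left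
      exact mem_filter.2 ⟨hE, Or.inr (Or.inr h4)⟩
    · by_cases h7 : Cc A B l ⊆ Dd A B j
      · left; right
        exact mem_filter.2 ⟨hE, l, h4, h7⟩
      · right
        exact mem_filter.2 ⟨mem_powersetCard.2 ⟨h1, hE'.2⟩, h3, disjoint_of_subset_right hcV h2, l, h4, h5, h6, h7⟩
  have hF0c : (#F0 : ℝ) ≤ bet k b ^ u := by
    have h1 : #F0 ≤ k * (k + b) ^ (u - 1) := few0 hs hY hcj hcY u hju
    have h2 := ClE2_few h hu (by omega : u ≤ k + 2)
    have h3 : k * (k + b) ^ (u - 1) ≤ 2 ^ (k + 2) * (k + 2) * 2 * (k + b) ^ (u - 1) := by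
      apply Nat.mul_le_mul_right
      have : 1 ≤ 2 ^ (k + 2) := Nat.one_le_two_pow
      nlinarith
    have h4 : (#F0 : ℝ) ≤ ((2 ^ (k + 2) * (k + 2) * 2 * (k + b) ^ (u - 1) : ℕ) : ℝ) := by exact_mod_cast h1.trans h3
    exact h4.trans h2
  have hEEc : 8 * bet k b ^ u ≤ (#EE : ℝ) := by
    rw [hEE, card_powersetCard]
    have h1 := choose_ge (k := k) (b := b) (n := #Y') (e := u) (by omega) (by omega) (by omega)
    have h2 : (8 * bet k b) ^ u = 8 ^ u * bet k b ^ u := mul_pow _ _ _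
    have h3 : (8 : ℝ) ≤ 8 ^ u := by
      calc (8 : ℝ) = 8 ^ 1 := (pow_one _).symm
        _ ≤ 8 ^ u := pow_le_pow_right₀ (by norm_num) hu
    calc 8 * bet k b ^ u ≤ 8 ^ u * bet k b ^ u := mul_le_mul_of_nonneg_right h3 (by positivity)
      _ ≤ _ := by rw [← h2]; exact h1
  have hE2c : 6 * bet k b ^ u ≤ (#E2 : ℝ) := by
    have h1 : (#EE : ℝ) ≤ #Q1 + #E2 + #F0 := by
      exact_mod_cast (card_le_card hsub1).trans ((card_union_le _ _).trans (Nat.add_le_add_right (card_union_le _ _) _))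
    linarith
  -- pairs
  set PP := (E2.sigma fun E => powersetCard v (Y' \ E)).image (fun p => (p.1, p.2)) with hPP
  have hPPc : 6 * bet k b ^ (u + v) ≤ (#PP : ℝ) := by
    have h1 : #PP = ∑ E ∈ E2, #(powersetCard v (Y' \ E)) := by
      rw [hPP, card_image_of_injOn, card_sigma]
      rintro ⟨a1, a2⟩ _ ⟨b1, b2⟩ _ hab
      simp only [Prod.mk.injEq] at hab
      obtain ⟨rfl, rfl⟩ := hab
      rfl
    rw [h1]
    push_cast
    have h2 : ∀ E ∈ E2, bet k b ^ v ≤ (#(powersetCard v (Y' \ E)) : ℝ) := by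
      intro E hE
      have hE' := mem_powersetCard.1 (mem_filter.1 hE).1
      rw [card_powersetCard]
      have h3 : #(Y' \ E) + u = #Y' := by
        rw [← hE'.2]
        exact card_sdiff_add_card_eq_card hE'.1
      have h4 := choose_ge (k := k) (b := b) (n := #(Y' \ E)) (e := v) (by omega) (by omega) (by omega)
      refine le_trans ?_ h4
      apply pow_le_pow_left₀ hβ0.le
      linarith
    calc 6 * bet k b ^ (u + v) = (6 * bet k b ^ u) * bet k b ^ v := by ring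
      _ ≤ #E2 * bet k b ^ v := mul_le_mul_of_nonneg_right hE2c (by positivity)
      _ = ∑ _E ∈ E2, bet k b ^ v := by rw [sum_const, nsmul_eq_mul]
      _ ≤ ∑ E ∈ E2, (#(powersetCard v (Y' \ E)) : ℝ) := sum_le_sum h2
  set F1 := (powersetCard u Y ×ˢ powersetCard v Y).filter fun p => Disjoint p.1 (A j) ∧ Disjoint p.2 (A j) ∧ Disjoint p.1 p.2 ∧ Disjoint p.1 c ∧ Disjoint p.2 c ∧
      ∃ l0 l1, Cc A B l0 ⊆ A j ∩ Y ∧ A l1 = ((A j ∩ Y) \ Cc A B l0) ∪ p.1 ∪ p.2 ∪ c ∧ Cc A B l1 ⊆ ((A j ∩ Y) \ Cc A B l0) ∪ p.1 ∪ p.2 ∧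
      ¬ Disjoint (Cc A B l1) (A j) ∧ ¬ Cc A B l1 ⊆ A j with hF1
  have hF1c : (#F1 : ℝ) ≤ bet k b ^ (u + v) := by
    have h1 : #F1 ≤ 2 ^ (k + 2) * (k + 2) * 2 * (k + b) ^ (u + v - 1) := few1 hs hY hcj hcY u v hju hjv
    have h2 := ClE2_few h (by omega : 1 ≤ u + v) (by omega : u + v ≤ k + 2)
    have h4 : (#F1 : ℝ) ≤ ((2 ^ (k + 2) * (k + 2) * 2 * (k + b) ^ (u + v - 1) : ℕ) : ℝ) := by exact_mod_cast h1
    exact h4.trans h2
  set Q2 := (powersetCard u Y ×ˢ powersetCard v Y).filter fun p => (Disjoint p.1 (VV (c :: L)) ∧ Disjoint p.1 (A j)) ∧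
      (Disjoint p.2 (VV (c :: L)) ∧ Disjoint p.2 (A j)) ∧ Disjoint p.1 p.2 ∧
      (∃ l0, A l0 = (Dd A B j ∩ Y) ∪ p.1 ∪ c ∧ Cc A B l0 ⊆ Dd A B j) ∧
      ¬ ∃ l0 l1, Cc A B l0 ⊆ A j ∩ Y ∧ A l1 = ((A j ∩ Y) \ Cc A B l0) ∪ p.1 ∪ p.2 ∪ c ∧ Cc A B l1 ⊆ ((A j ∩ Y) \ Cc A B l0) ∪ p.1 ∪ p.2 ∧
        ¬ Disjoint (Cc A B l1) (A j) ∧ ¬ Cc A B l1 ⊆ A j with hQ2
  have hsub2 : PP ⊆ Q2 ∪ F1 := by
    intro p hp
    rw [hPP, mem_image] at hp
    obtain ⟨⟨E, F⟩, hEF, rfl⟩ := hp
    rw [mem_sigma] at hEF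
    obtain ⟨hE, hF⟩ := hEF
    simp only at hE hF
    obtain ⟨hE3, hE4⟩ := mem_filter.1 hE
    have hE' := mem_powersetCard.1 hE3
    have hF' := mem_powersetCard.1 hF
    obtain ⟨h1, h2, h3⟩ := hE1 E hE'.1
    obtain ⟨h4, h5, h6⟩ := hE1 F (hF'.1.trans sdiff_subset)
    have hEF : Disjoint E F := (disjoint_of_subset_left hF'.1 sdiff_disjoint).symm
    rw [mem_union]
    by_cases hf : ∃ l0 l1, Cc A B l0 ⊆ A j ∩ Y ∧ A l1 = ((A j ∩ Y) \ Cc A B l0) ∪ E ∪ F ∪ c ∧ Cc A B l1 ⊆ ((A j ∩ Y) \ Cc A B l0) ∪ E ∪ F ∧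
        ¬ Disjoint (Cc A B l1) (A j) ∧ ¬ Cc A B l1 ⊆ A j
    · right
      rw [hF1, mem_filter]
      exact ⟨mem_product.2 ⟨mem_powersetCard.2 ⟨h1, hE'.2⟩, mem_powersetCard.2 ⟨h4, hF'.2⟩⟩, h3, h6, hEF,
        disjoint_of_subset_right hcV h2, disjoint_of_subset_right hcV h5, hf⟩
    · left
      rw [hQ2, mem_filter]
      exact ⟨mem_product.2 ⟨mem_powersetCard.2 ⟨h1, hE'.2⟩, mem_powersetCard.2 ⟨h4, hF'.2⟩⟩, ⟨h2, h3⟩, ⟨h5, h6⟩, hEF, hE4, hf⟩
  have h7 : (#PP : ℝ) ≤ #Q2 + #F1 := by exact_mod_cast (card_le_card hsub2).trans (card_union_le _ _)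
  have h8 : 0 < bet k b ^ (u + v) := by positivity
  linarith

open scoped Classical in
/-- PROOF. See `ce_p1`, `ce_p2`, `ce_low`. -/
theorem ce (k : ℕ) : ∃ C : ℝ, 0 < C ∧ C ≤ (100 * (k + 2 : ℕ) : ℝ) ^ (k + 5) ∧ ∀ (b : ℕ) (ι α : Type) [Fintype ι] [DecidableEq α] (A B : ι → Finset α) (Y : Finset α) (ε : ℝ),
    Ctx k b A B Y ε → ∀ (L : List (Finset α)), KL A B Y L → L.length = k + 2 →
    ∀ g : ℕ, (∀ L' : List (Finset α), L.Perm L' → #(Fr k A B Y L') ≤ g) →
    (#(SE A B Y L) : ℝ) ≤ C * ε * (g + #(MJ k A B Y)) := by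
  have hκ : (0 : ℝ) < kap k := by unfold kap; positivity
  set K1 : ℝ := 3 * (2 * 2 ^ (k + 2)) * kap k with hK1
  set K2 : ℝ := 3 * (2 * ((2 ^ (k + 2) * 2 ^ (k + 2)) * (2 ^ (k + 2) * 2 ^ (k + 2)) * 16)) * kap k with hK2
  have hK1p : 0 < K1 := by positivity
  have hK2p : 0 < K2 := by positivity
  refine ⟨((k + 2) * ((k + 1) * 3) : ℕ) * (K1 + K2), by positivity, Ze k, ?_⟩
  intro b ι α _ _ A B Y ε h L hL hlen g hg
  have hs := h.sys
  have hε := h.hε
  have hM0 : (0 : ℝ) ≤ #(MJ k A B Y) := Nat.cast_nonneg _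
  have hg0 : (0 : ℝ) ≤ g := Nat.cast_nonneg _
  set S := SE A B Y L with hS
  have hSmem : ∀ j, j ∈ S ↔ ¬ Dd A B j ⊆ Y ∧ ∀ c ∈ L, ¬ c ⊆ A j := by
    intro j
    rw [hS, SE, mem_filter]
    simp
  set JJ : Finset α → ℕ → ℕ → Finset ι := fun c u v => S.filter fun j => Disjoint c (A j) ∧ #(Dd A B j \ Y) = u ∧ #(Cc A B j \ Y) = v with hJJ
  have hcover : S ⊆ L.toFinset.biUnion fun c => (range (k + 1)).biUnion fun u => (range 3).biUnion fun v => JJ c u v := by
    intro j hj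
    have hj' := (hSmem j).1 hj
    -- a pair disjoint from A j
    have hex : ∃ c ∈ L, Disjoint c (A j) := by
      by_contra hcon
      push Not at hcon
      have h1 : L.length ≤ #(A j ∩ Y) := by
        -- allsplit of A j ∩ Y
        apply allsplit_length hL.pw
        intro c hc
        have h2 := hL.two hs c hc
        have h3 := hcon c hc
        have h4 := hj'.2 c hc
        have hcY := (hL.core c hc).1
        have h5 : c ∩ (A j ∩ Y) = c ∩ A j := by
          ext x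
          simp only [mem_inter]
          constructor
          · exact fun h => ⟨h.1, h.2.1⟩
          · exact fun h => ⟨h.1, h.2, hcY h.1⟩
        rw [h5]
        have h6 : #(c ∩ A j) ≠ 0 := by
          rw [Ne, card_eq_zero]
          intro h7
          exact h3 (disjoint_iff_inter_eq_empty.2 h7)
        have h7 : #(c ∩ A j) ≠ 2 := by
          intro h8
          apply h4
          rw [← h2] at h8
          have h9 : c ∩ A j = c := eq_of_subset_of_card_le inter_subset_left h8.ge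
          exact inter_eq_left.1 h9
        have h8 : #(c ∩ A j) ≤ 2 := by
          rw [← h2]
          exact card_le_card inter_subset_left
        omega
      have h2 : #(A j ∩ Y) + #(A j \ Y) = #(A j) := by
        rw [add_comm]
        exact card_sdiff_add_card_inter _ _
      have h3 : 0 < #(A j \ Y) := by
        rw [card_pos]
        obtain ⟨x, hx, hxY⟩ := Finset.not_subset.1 hj'.1
        exact ⟨x, mem_sdiff.2 ⟨(mem_sdiff.1 hx).1, hxY⟩⟩
      rw [hs.card_left] at h2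
      omega
    obtain ⟨c, hc, hcA⟩ := hex
    rw [mem_biUnion]
    refine ⟨c, List.mem_toFinset.2 hc, ?_⟩
    rw [mem_biUnion]
    refine ⟨#(Dd A B j \ Y), ?_, ?_⟩
    · rw [mem_range]
      have h1 := card_le_card (sdiff_subset (s := Dd A B j) (t := Y))
      rw [card_Dd hs] at h1
      omega
    · rw [mem_biUnion]
      refine ⟨#(Cc A B j \ Y), ?_, ?_⟩
      · rw [mem_range]
        have h1 := card_le_card (sdiff_subset (s := Cc A B j) (t := Y))
        rw [card_Cc hs] at h1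
        omega
      · exact mem_filter.2 ⟨hj, hcA, rfl, rfl⟩
  have hone : ∀ c ∈ L, ∀ u ≤ k, ∀ v ≤ 2, (#(JJ c u v) : ℝ) ≤ (K1 + K2) * ε * (g + #(MJ k A B Y)) := by
    intro c hc u huk v hv
    rcases Nat.eq_zero_or_pos u with hu0 | hu
    · have h0 : JJ c u v = ∅ := by
        rw [hJJ]
        simp only
        rw [filter_eq_empty_iff]
        rintro j hj ⟨_, h2, _⟩
        have hj' := (hSmem j).1 hj
        rw [hu0, card_eq_zero, sdiff_eq_empty_iff_subset] at h2
        exact hj'.1 h2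
      rw [h0]
      simp only [card_empty, Nat.cast_zero]
      positivity
    · have hp : L.Perm (c :: L.erase c) := List.perm_cons_erase hc
      have hLc : KL A B Y (c :: L.erase c) := hL.perm hp
      have hlenc : (c :: L.erase c).length = k + 2 := by rw [← hp.length_eq, hlen]
      have hFr : (#(Fr k A B Y (c :: L.erase c)) : ℝ) ≤ g := by exact_mod_cast hg _ hp
      have hJm : ∀ j ∈ JJ c u v, (¬ Dd A B j ⊆ Y ∧ Disjoint c (A j) ∧ ∀ d ∈ c :: L.erase c, ¬ d ⊆ A j) ∧ #(Dd A B j \ Y) = u ∧ #(Cc A B j \ Y) = v := by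
        intro j hj
        rw [hJJ] at hj
        simp only [mem_filter] at hj
        have hj' := (hSmem j).1 hj.1
        refine ⟨⟨hj'.1, hj.2.1, fun d hd => hj'.2 d (hp.mem_iff.2 hd)⟩, hj.2.2.1, hj.2.2.2⟩
      set V := VV (c :: L.erase c) with hV
      have hcV : c ⊆ V := by
        intro x hx
        rw [hV, mem_VV]
        exact ⟨c, List.mem_cons_self, hx⟩
      set Q1 : ι → Finset (Finset α) := fun j => (powersetCard u ((Y \ V) \ A j)).filter fun E => ((Dd A B j ∩ Y) ∪ E ∈ MJ k A B Y ∨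
        (∃ l ∈ cB A B Y, dconf A B Y j l ∧ ((Dd A B j ∩ Y) ∪ E = Dd A B l ∨ (Dd A B j ∩ Y) ∪ E ∪ c = A l)) ∨ (Dd A B j ∩ Y) ∪ E ∪ c ∈ Fr k A B Y (c :: L.erase c)) with hQ1
      set Q2 : ι → Finset (Finset α × Finset α) := fun j => (powersetCard u Y ×ˢ powersetCard v Y).filter fun p => (Disjoint p.1 V ∧ Disjoint p.1 (A j)) ∧
        (Disjoint p.2 V ∧ Disjoint p.2 (A j)) ∧ Disjoint p.1 p.2 ∧
        (∃ l0, A l0 = (Dd A B j ∩ Y) ∪ p.1 ∪ c ∧ Cc A B l0 ⊆ Dd A B j) ∧
        ¬ ∃ l0 l1, Cc A B l0 ⊆ A j ∩ Y ∧ A l1 = ((A j ∩ Y) \ Cc A B l0) ∪ p.1 ∪ p.2 ∪ c ∧ Cc A B l1 ⊆ ((A j ∩ Y) \ Cc A B l0) ∪ p.1 ∪ p.2 ∧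
          ¬ Disjoint (Cc A B l1) (A j) ∧ ¬ Cc A B l1 ⊆ A j with hQ2
      set J1 := (JJ c u v).filter fun j => bet k b ^ u ≤ #(Q1 j) with hJ1
      set J2 := (JJ c u v).filter fun j => ¬ bet k b ^ u ≤ #(Q1 j) with hJ2
      have h12 : #(JJ c u v) = #J1 + #J2 := (card_filter_add_card_filter_not _).symm
      have hb1 : (#J1 : ℝ) ≤ K1 * ε * (#(Fr k A B Y (c :: L.erase c)) + #(MJ k A B Y)) := by
        refine ce_p1 h u hu J1 ?_ Q1 ?_ ?_ ?_
        · intro j hj
          rw [JU, mem_filter]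
          exact ⟨mem_univ j, (hJm j (mem_filter.1 hj).1).2.1⟩
        · intro j hj
          exact (hJm j (mem_filter.1 hj).1).1.2.1
        · intro j hj
          exact (mem_filter.1 hj).2
        · intro j hj E hE
          rw [hQ1] at hE
          simp only [mem_filter] at hE
          have hE' := (mem_powersetCard.1 hE.1).1
          refine ⟨disjoint_of_subset_left hE' sdiff_disjoint, ?_, hE.2⟩
          exact disjoint_of_subset_left (hE'.trans sdiff_subset) (disjoint_of_subset_right hcV sdiff_disjoint)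
      have hb2 : (#J2 : ℝ) ≤ K2 * ε * (#(Fr k A B Y (c :: L.erase c)) + #(MJ k A B Y)) := by
        refine ce_p2 h hLc hlenc u v hu J2 ?_ Q2 ?_ ?_ ?_
        · intro j hj
          rw [JUV, mem_filter]
          exact ⟨mem_univ j, (hJm j (mem_filter.1 hj).1).2⟩
        · intro j hj
          exact (hJm j (mem_filter.1 hj).1).1
        · intro j hj
          obtain ⟨hj1, hj2⟩ := mem_filter.1 hj
          obtain ⟨⟨h3, h4, h5⟩, h6, h7⟩ := hJm j hj1
          push Not at hj2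
          exact ce_low h hLc hlenc u v hu huk hv j h3 h4 h5 h6 h7 hj2
        · intro j hj p hp'
          rw [hQ2] at hp'
          simp only [mem_filter, mem_product, mem_powersetCard] at hp'
          obtain ⟨⟨⟨h3, h4⟩, h5, h6⟩, ⟨h7, h8⟩, ⟨h9, h10⟩, h11, h12, h13⟩ := hp'
          exact ⟨⟨h3, h4, h7, h8⟩, ⟨h5, h6, h9, h10⟩, h11, h12, h13⟩
      have h3 : (#(Fr k A B Y (c :: L.erase c)) : ℝ) + #(MJ k A B Y) ≤ g + #(MJ k A B Y) := by linarith
      rw [h12]
      push_cast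
      calc (#J1 : ℝ) + #J2 ≤ K1 * ε * (#(Fr k A B Y (c :: L.erase c)) + #(MJ k A B Y)) + K2 * ε * (#(Fr k A B Y (c :: L.erase c)) + #(MJ k A B Y)) := add_le_add hb1 hb2
        _ = (K1 + K2) * ε * (#(Fr k A B Y (c :: L.erase c)) + #(MJ k A B Y)) := by ring
        _ ≤ (K1 + K2) * ε * (g + #(MJ k A B Y)) := mul_le_mul_of_nonneg_left h3 (by positivity)
  have hsum : #S ≤ ∑ c ∈ L.toFinset, ∑ u ∈ range (k + 1), ∑ v ∈ range 3, #(JJ c u v) := by
    refine (card_le_card hcover).trans ?_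
    refine card_biUnion_le.trans (sum_le_sum fun c _ => ?_)
    refine card_biUnion_le.trans (sum_le_sum fun u _ => ?_)
    exact card_biUnion_le
  have hT0 : 0 ≤ (K1 + K2) * ε * (g + #(MJ k A B Y)) := by positivity
  calc (#S : ℝ) ≤ ∑ c ∈ L.toFinset, ∑ u ∈ range (k + 1), ∑ v ∈ range 3, (#(JJ c u v) : ℝ) := by exact_mod_cast hsum
    _ ≤ ∑ c ∈ L.toFinset, ∑ u ∈ range (k + 1), ∑ v ∈ range 3, (K1 + K2) * ε * (g + #(MJ k A B Y)) := by
        refine sum_le_sum fun c hc => sum_le_sum fun u hu => sum_le_sum fun v hv => ?_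
        rw [mem_range] at hu hv
        exact hone c (List.mem_toFinset.1 hc) u (by omega) v (by omega)
    _ = #L.toFinset * ((k + 1 : ℕ) * (3 * ((K1 + K2) * ε * (g + #(MJ k A B Y))))) := by
        simp only [sum_const, nsmul_eq_mul, card_range]
        push_cast
        ring
    _ ≤ (k + 2 : ℕ) * ((k + 1 : ℕ) * (3 * ((K1 + K2) * ε * (g + #(MJ k A B Y))))) := by
        apply mul_le_mul_of_nonneg_right _ (by positivity)
        have h1 : #L.toFinset ≤ k + 2 := (List.toFinset_card_le L).trans hlen.le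
        exact_mod_cast h1
    _ = ((k + 2) * ((k + 1) * 3) : ℕ) * (K1 + K2) * ε * (g + #(MJ k A B Y)) := by
        push_cast
        ring

end Pool.Agent.Lib.MP_20855c_co.LB
end

section

/-!
# MP_20855c_co, large b: the class N (case I) and the bound for `Out`
-/

set_option autoImplicit false

namespace Pool.Agent.Lib.MP_20855c_co.LB

open Finset

open scoped Classical in
/-- The class N: `D_j` is not inside `Y` and contains no pair of `L`. -/
noncomputable def SN {ι α : Type} [Fintype ι] [DecidableEq α] (A B : ι → Finset α) (Y : Finset α) (L : List (Finset α)) : Finset ι :=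
  univ.filter fun j => ¬ Dd A B j ⊆ Y ∧ ∀ c ∈ L, ¬ c ⊆ Dd A B j

/-- `T = (D_j ∩ Y) ∪ E` with `E` outside all pairs; the pairs of `L₁` are single, those of `L₂` empty for `D_j` (hence for `T`). Case I: every core inside `Y` meets a pair.
PROOF. If `T` is some `D_l`, then `D_j` meets `B_l` (`cross`), `D_j ∩ Y ⊆ D_l` does not. Otherwise, if `T ∉ MJ` and `T` is not all-split, `T` is good, `c = fst1 T`, `P = T ∪ c` is rgood and contains no other pair, so it is free unless `P = A_l` with `C_l ∈ L` or `D_l` not good.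
`C_l ∈ L` would give `C_l = c`, `T = D_l`. `C_l` inside `T`: it meets a pair `d` (case I); `d` is single in `T` (`C_l ≠ c`, `T` meets no other pair), so `d ∈ L₁` becomes empty in `D_l`, and all pairs of `L₁` are met by `D_l` in at most one point: `D_l` is good
(`good_append`), contradiction. So `C_l` has one point in `c` and one point `y` in `T`; if `y` is in a pair `d` (of `L₁`) then `D_l` is good again. So `D_l` meets the single pairs and `c` in one point; if another pair is empty then `D_l` is good (`good_of_no_pair`). So `D_l` is all-split. -/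
theorem cn_str {ι α : Type} [Fintype ι] [DecidableEq α] {k b : ℕ} {A B : ι → Finset α} {Y : Finset α} {L₁ L₂ : List (Finset α)} (hs : IsSys k b A B)
    (hL : KL A B Y (L₁ ++ L₂)) (hI : ∀ l, Cc A B l ⊆ Y → ¬ Disjoint (Cc A B l) (VV (L₁ ++ L₂))) {j : ι} (hj : ¬ Dd A B j ⊆ Y)
    (h1 : ∀ c ∈ L₁, #(c ∩ Dd A B j) = 1) (h2 : ∀ c ∈ L₂, Disjoint c (Dd A B j))
    {T : Finset α} (hTY : T ⊆ Y) (hTk : #T = k) (hRT : Dd A B j ∩ Y ⊆ T) (hTV : Disjoint (T \ Dd A B j) (VV (L₁ ++ L₂))) :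
    T ∈ MJ k A B Y ∨ (∃ l ∈ cB A B Y, dconf A B Y j l ∧ T = Dd A B l) ∨ T ∈ AS k Y (L₁ ++ L₂) ∨
      (∃ c ∈ L₁ ++ L₂, Disjoint c T ∧ T ∪ c ∈ Fr k A B Y (L₁ ++ L₂)) ∨
      ∃ l, Dd A B l ∈ AS k Y (L₁ ++ L₂) ∧ ∃ c ∈ L₁ ++ L₂, T = A l \ c := by
  classical
  have ht := hL.two hs
  have hint : ∀ c ∈ L₁ ++ L₂, c ∩ T = c ∩ Dd A B j := by
    intro c hc
    have hcY := (hL.core c hc).1
    ext x
    rw [mem_inter, mem_inter]
    constructor
    · rintro ⟨hx, hxT⟩
      refine ⟨hx, ?_⟩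
      by_contra hxD
      exact disjoint_left.1 hTV (mem_sdiff.2 ⟨hxT, hxD⟩) ((mem_VV _ _).2 ⟨c, hc, hx⟩)
    · rintro ⟨hx, hxD⟩
      exact ⟨hx, hRT (mem_inter.2 ⟨hxD, hcY hx⟩)⟩
  have hT1 : ∀ c ∈ L₁, #(c ∩ T) = 1 := fun c hc => by
    rw [hint c (List.mem_append_left _ hc)]; exact h1 c hc
  have hT2 : ∀ c ∈ L₂, Disjoint c T := fun c hc => by
    rw [disjoint_iff_inter_eq_empty, hint c (List.mem_append_right _ hc), ← disjoint_iff_inter_eq_empty]; exact h2 c hc
  by_cases hMJ : T ∈ MJ k A B Y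
  · exact Or.inl hMJ
  by_cases hD : ∃ l, T = Dd A B l
  · obtain ⟨l, hl⟩ := hD
    right; left
    have hjl : j ≠ l := by
      rintro rfl
      exact hj (hl ▸ hTY)
    have hcr := cross hs hjl
    rw [not_disjoint_iff] at hcr
    obtain ⟨x, hxj, hxl⟩ := hcr
    have hxY : x ∉ Y := by
      intro hxY
      have h3 : x ∈ Dd A B l := hl ▸ hRT (mem_inter.2 ⟨hxj, hxY⟩)
      exact disjoint_left.1 (Dd_disj_B l) h3 hxl
    refine ⟨l, mem_cB.2 ⟨hl ▸ hTY, fun h => hxY (h hxl)⟩, ?_, hl⟩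
    unfold dconf
    rw [not_disjoint_iff]
    exact ⟨x, mem_sdiff.2 ⟨hxj, hxY⟩, hxl⟩
  by_cases hAS : allsplit (L₁ ++ L₂) T
  · exact Or.inr (Or.inr (Or.inl (mem_AS.2 ⟨hTY, hTk, hAS⟩)))
  have hnp : ∀ c ∈ L₁ ++ L₂, ¬ c ⊆ T := by
    intro c hc hcT
    have h3 := L_sub_card (ht c hc) hcT
    rcases List.mem_append.1 hc with h | h
    · rw [hT1 c h] at h3; omega
    · rw [L_dis_card (hT2 c h)] at h3; omega
  have hg : good (L₁ ++ L₂) T := good_of_no_pair ht hnp hAS
  obtain ⟨hcm, hcT⟩ := good_fst ht hg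
  have hgu := good_union hL.pw ht hg
  set c := fst1 (L₁ ++ L₂) T with hc
  by_cases hF : T ∪ c ∈ Fr k A B Y (L₁ ++ L₂)
  · exact Or.inr (Or.inr (Or.inr (Or.inl ⟨c, hcm, hcT, hF⟩)))
  right; right; right; right
  have hcY : c ⊆ Y := (hL.core c hcm).1
  have hPsd : (T ∪ c) \ c = T := union_sdiff_cancel_right hcT.symm
  have hdisj : ∀ d ∈ L₁ ++ L₂, d ≠ c → Disjoint d c := by
    intro d hd hne
    exact List.Pairwise.forall (R := Disjoint) hL.pw hd hcm hne
  have honly : ∀ d ∈ L₁ ++ L₂, d ⊆ T ∪ c → d = c := by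
    intro d hd hdP
    by_contra hne
    have hcd := hdisj d hd hne
    apply hnp d hd
    intro x hx
    rcases mem_union.1 (hdP hx) with h | h
    · exact h
    · exact absurd h (disjoint_left.1 hcd hx)
  have hex : ¬ ∀ l, A l = T ∪ c → Cc A B l ∉ L₁ ++ L₂ ∧ good (L₁ ++ L₂) (Dd A B l) := by
    intro hall
    apply hF
    rw [mem_Fr]
    refine ⟨union_subset hTY hcY, ?_, hgu.1, ?_, hall⟩
    · rw [card_union_of_disjoint hcT.symm, hTk, ht c hcm]
    · intro d hd hdP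
      rw [honly d hd hdP, hPsd]
      exact ⟨hMJ, fun i hi => hD ⟨i, hi.symm⟩⟩
  push Not at hex
  obtain ⟨l, hl, hl2⟩ := hex
  have hCP : Cc A B l ⊆ T ∪ c := by rw [← hl]; exact inter_subset_left
  have hCL : Cc A B l ∉ L₁ ++ L₂ := by
    intro hm
    have hCc := honly _ hm hCP
    apply hD
    refine ⟨l, ?_⟩
    rw [← hPsd, ← hl, ← hCc, ← Dd_union_Cc (A := A) (B := B) l, union_sdiff_cancel_right (Dd_disj_Cc l)]
  have hDg := hl2 hCL
  have hDP : Dd A B l ⊆ T ∪ c := by rw [← hl]; exact sdiff_subset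
  rcases not_good ht hDg with h | ⟨d, hd, hdD⟩
  · refine ⟨l, mem_AS.2 ⟨hDP.trans (union_subset hTY hcY), card_Dd hs l, h⟩, c, hcm, ?_⟩
    rw [hl, hPsd]
  · exfalso
    have hdc := honly d hd (hdD.trans hDP)
    rw [hdc] at hdD
    have hCT : Cc A B l ⊆ T := by
      intro x hx
      rcases mem_union.1 (hCP hx) with h | h
      · exact h
      · exact absurd hx (disjoint_left.1 (Dd_disj_Cc l) (hdD h))
    have h3 := hI l (hCT.trans hTY)
    rw [not_disjoint_iff] at h3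
    obtain ⟨y, hyC, hyV⟩ := h3
    obtain ⟨e, he, hye⟩ := (mem_VV _ _).1 hyV
    have hyT := hCT hyC
    have he1 : e ∈ L₁ := by
      rcases List.mem_append.1 he with h | h
      · exact h
      · exact absurd hyT (disjoint_left.1 (hT2 e h) hye)
    have hne : ∀ d ∈ L₁, d ≠ c := by
      rintro d hd rfl
      have h4 := hT1 _ hd
      rw [L_dis_card hcT] at h4
      omega
    have hle : ∀ d ∈ L₁, d ∩ Dd A B l ⊆ d ∩ T := by
      intro d hd x hx
      rw [mem_inter] at hx ⊢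
      refine ⟨hx.1, ?_⟩
      rcases mem_union.1 (hDP hx.2) with h | h
      · exact h
      · exact absurd h (disjoint_left.1 (hdisj d (List.mem_append_left _ hd) (hne d hd)) hx.1)
    apply hDg
    refine good_append (fun d hd => (card_le_card (hle d hd)).trans (hT1 d hd).le) ⟨e, he1, ?_⟩
    rw [disjoint_left]
    intro x hx hxD
    have h4 := hle e he1 (mem_inter.2 ⟨hx, hxD⟩)
    have h5 : x = y := card_le_one.1 (hT1 e he1).le x h4 y (mem_inter.2 ⟨hye, hyT⟩)
    rw [h5] at hxD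
    exact disjoint_left.1 (Dd_disj_Cc l) hxD hyC

end Pool.Agent.Lib.MP_20855c_co.LB
end

section

/-!
# MP_20855c_co, large b: the class N (case I) and the bound for `Out`, counting
-/

set_option autoImplicit false

namespace Pool.Agent.Lib.MP_20855c_co.LB

open Finset

theorem mem_Cand0 {α : Type} [DecidableEq α] {R E T : Finset α} (hT : T = R ∪ E) (hRE : Disjoint R E) : (R, E) ∈ Cand0 T := by
  subst hT
  unfold Cand0
  rw [mem_image]
  refine ⟨R, mem_powerset.2 subset_union_left, ?_⟩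
  rw [union_sdiff_cancel_left hRE]

theorem ClN2_card {ι α : Type} [DecidableEq α] {k b u : ℕ} {A B : ι → Finset α} {Y : Finset α} (hs : IsSys k b A B) {j : ι} (hu : #(Dd A B j \ Y) = u)
    {E : Finset α} (hE : Disjoint E (Dd A B j)) (hEu : #E = u) : #((Dd A B j ∩ Y) ∪ E) = k := by
  rw [card_union_of_disjoint, hEu]
  · have h1 := card_sdiff_add_card_inter (Dd A B j) Y
    rw [card_Dd hs, hu] at h1
    omega
  · exact disjoint_of_subset_left inter_subset_left hE.symm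

/-- The bound for `Out`. -/
theorem f5 (k : ℕ) : ∃ C : ℝ, 0 < C ∧ C ≤ (100 * (k + 2 : ℕ) : ℝ) ^ (k + 5) ∧ ∀ (b : ℕ) (ι α : Type) [Fintype ι] [DecidableEq α] (A B : ι → Finset α) (Y : Finset α) (ε : ℝ),
    Ctx k b A B Y ε → (#(Out A B Y) : ℝ) ≤ C * ε * #(miss k A B Y) := by
  have hκ : (0 : ℝ) < kap k := by unfold kap; positivity
  refine ⟨(k + 1 : ℕ) * (3 * 2 ^ (k + 2) * kap k), by positivity, Zf k, ?_⟩
  intro b ι α _ _ A B Y ε h
  classical
  have hs := h.sys
  have hε := h.hε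
  have hb := h.b_large
  have hb2 : 100 * (k + 2) ≤ b := by
    calc 100 * (k + 2) = (100 * (k + 2)) ^ 1 := (pow_one _).symm
      _ ≤ (100 * (k + 2)) ^ (k + 6) := Nat.pow_le_pow_right (by omega) (by omega)
      _ ≤ b := hb
  have hβ := h.s_le.2
  have hm0 : (0 : ℝ) ≤ #(miss k A B Y) := Nat.cast_nonneg _
  have hMm : (#(MJ k A B Y) : ℝ) ≤ #(miss k A B Y) := by exact_mod_cast card_le_card (MJ_miss (Y := Y) hs)
  have hcover : Out A B Y ⊆ (range (k + 1)).biUnion fun u => (JU A B Y u).filter fun j => ¬ Dd A B j ⊆ Y := by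
    intro j hj
    rw [mem_Out] at hj
    rw [mem_biUnion]
    refine ⟨#(Dd A B j \ Y), ?_, ?_⟩
    · rw [mem_range]
      have h1 := card_le_card (sdiff_subset (s := Dd A B j) (t := Y))
      rw [card_Dd hs] at h1
      omega
    · rw [mem_filter, JU, mem_filter]
      exact ⟨⟨mem_univ j, rfl⟩, hj⟩
  have hone : ∀ u ≤ k, (#((JU A B Y u).filter fun j => ¬ Dd A B j ⊆ Y) : ℝ) ≤ 3 * 2 ^ (k + 2) * kap k * ε * #(miss k A B Y) := by
    intro u huk
    rcases Nat.eq_zero_or_pos u with hu0 | hu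
    · have h0 : ((JU A B Y u).filter fun j => ¬ Dd A B j ⊆ Y) = ∅ := by
        rw [filter_eq_empty_iff]
        intro j hj h2
        rw [JU, mem_filter] at hj
        have h3 := hj.2
        rw [hu0, card_eq_zero, sdiff_eq_empty_iff_subset] at h3
        exact h2 h3
      rw [h0]
      simp only [card_empty, Nat.cast_zero]
      positivity
    · set J := (JU A B Y u).filter fun j => ¬ Dd A B j ⊆ Y with hJ
      have hJs : J ⊆ JU A B Y u := filter_subset _ _
      have h1 := cnt (A := A) (B := B) (Y := Y) J (fun j => powersetCard u (Y \ Dd A B j)) (bet k b) (ε * kap k) u hu hβ (by positivity) (dconf A B Y)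
        (fun R => mulD1 h R u hu J hJs) (fun R l => mulD2 h R u hu J hJs l)
        (by
          intro j _
          rw [card_powersetCard]
          have h2 : b ≤ #(Y \ Dd A B j) := by
            have h3 := le_card_sdiff (Dd A B j) Y
            rw [card_Dd hs, h.cY] at h3
            omega
          have h4 := choose_ge (k := k) (b := b) (n := #(Y \ Dd A B j)) (e := u) (by omega) (by omega) (by omega)
          refine le_trans ?_ h4
          apply pow_le_pow_left₀ (by linarith)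
          linarith)
        (miss k A B Y) (fun w => Cand0 w) (fun l => Cand0 (Dd A B l)) (2 ^ (k + 2)) (2 ^ (k + 2))
        (by
          intro w hw
          rw [mem_miss] at hw
          exact card_Cand0 w k (by omega))
        (by
          intro l
          exact card_Cand0 _ k (by rw [card_Dd hs]; omega))
        (by
          intro j hj E hE
          rw [mem_powersetCard] at hE
          have hj1 := mem_filter.1 hj
          have hju := (mem_filter.1 hj1.1).2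
          have hED : Disjoint E (Dd A B j) := disjoint_of_subset_left hE.1 sdiff_disjoint
          have hEY : E ⊆ Y := hE.1.trans sdiff_subset
          have hRE : Disjoint (Dd A B j ∩ Y) E := disjoint_of_subset_left inter_subset_left hED.symm
          by_cases hT : ∀ i, Dd A B i ≠ (Dd A B j ∩ Y) ∪ E
          · left
            refine ⟨(Dd A B j ∩ Y) ∪ E, ?_, mem_Cand0 rfl hRE⟩
            rw [mem_miss]
            exact ⟨union_subset inter_subset_right hEY, ClN2_card hs hju hED hE.2, hT⟩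
          · right
            push Not at hT
            obtain ⟨l, hl⟩ := hT
            have hlY : Dd A B l ⊆ Y := by
              rw [hl]
              exact union_subset inter_subset_right hEY
            have hjl : j ≠ l := by
              rintro rfl
              exact hj1.2 hlY
            have h2 := cross hs hjl
            rw [Finset.not_disjoint_iff] at h2
            obtain ⟨x, hx, hxB⟩ := h2
            have hxY : x ∉ Y := by
              intro hxY
              have h3 : x ∈ Dd A B l := by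
                rw [hl]
                exact mem_union_left _ (mem_inter.2 ⟨hx, hxY⟩)
              exact Finset.disjoint_left.1 (Dd_disj_B l) h3 hxB
            refine ⟨l, ?_, ?_, mem_Cand0 hl hRE⟩
            · rw [mem_cB]
              exact ⟨hlY, fun hB => hxY (hB hxB)⟩
            · unfold dconf
              rw [Finset.not_disjoint_iff]
              exact ⟨x, mem_sdiff.2 ⟨hx, hxY⟩, hxB⟩)
      have h2 := ClE2_sg h
      calc (#J : ℝ) ≤ ε * kap k * ((2 ^ (k + 2) : ℕ) : ℝ) * #(miss k A B Y) + 2 * ((2 ^ (k + 2) : ℕ) : ℝ) * sg A B Y / bet k b := h1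
        _ = ε * kap k * ((2 ^ (k + 2) : ℕ) : ℝ) * #(miss k A B Y) + 2 * ((2 ^ (k + 2) : ℕ) : ℝ) * (sg A B Y / bet k b) := by ring
        _ ≤ ε * kap k * ((2 ^ (k + 2) : ℕ) : ℝ) * #(miss k A B Y) + 2 * ((2 ^ (k + 2) : ℕ) : ℝ) * (ε * kap k * #(miss k A B Y)) := by
            apply add_le_add le_rfl
            apply mul_le_mul_of_nonneg_left _ (by positivity)
            exact h2.trans (mul_le_mul_of_nonneg_left hMm (by positivity))
        _ = 3 * 2 ^ (k + 2) * kap k * ε * #(miss k A B Y) := by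
            push_cast
            ring
  have hsum : #(Out A B Y) ≤ ∑ u ∈ range (k + 1), #((JU A B Y u).filter fun j => ¬ Dd A B j ⊆ Y) :=
    (card_le_card hcover).trans card_biUnion_le
  calc (#(Out A B Y) : ℝ) ≤ ∑ u ∈ range (k + 1), (#((JU A B Y u).filter fun j => ¬ Dd A B j ⊆ Y) : ℝ) := by exact_mod_cast hsum
    _ ≤ ∑ u ∈ range (k + 1), 3 * 2 ^ (k + 2) * kap k * ε * #(miss k A B Y) := by
        refine sum_le_sum fun u hu => ?_
        rw [mem_range] at hu
        exact hone u (by omega)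
    _ = (k + 1 : ℕ) * (3 * 2 ^ (k + 2) * kap k) * ε * #(miss k A B Y) := by
        rw [sum_const, nsmul_eq_mul, card_range]
        ring

open scoped Classical in
/-- One class. -/
theorem cn_one {ι α : Type} [Fintype ι] [DecidableEq α] {k b : ℕ} {A B : ι → Finset α} {Y : Finset α} {ε : ℝ} (h : Ctx k b A B Y ε)
    {L₁ L₂ : List (Finset α)} (hL : KL A B Y (L₁ ++ L₂)) (hlen : (L₁ ++ L₂).length ≤ k + 2)
    (hI : ∀ l, Cc A B l ⊆ Y → ¬ Disjoint (Cc A B l) (VV (L₁ ++ L₂))) (u : ℕ) (hu : 1 ≤ u) (huk : u ≤ k) (J : Finset ι) (hJ : J ⊆ JU A B Y u)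
    (hJ2 : ∀ j ∈ J, ¬ Dd A B j ⊆ Y ∧ (∀ c ∈ L₁, #(c ∩ Dd A B j) = 1) ∧ ∀ c ∈ L₂, Disjoint c (Dd A B j)) :
    (#J : ℝ) ≤ 3 * ((k + 3) * 2 ^ (k + 2)) * kap k * ε * (#(Fr k A B Y (L₁ ++ L₂)) + #(MJ k A B Y) + #(AS k Y (L₁ ++ L₂))) := by
  have hκ : (0 : ℝ) < kap k := by unfold kap; positivity
  have hs := h.sys
  have hε := h.hε
  have hb := h.b_large
  have hb2 : 100 * (k + 2) ≤ b := by
    calc 100 * (k + 2) = (100 * (k + 2)) ^ 1 := (pow_one _).symm
      _ ≤ (100 * (k + 2)) ^ (k + 6) := Nat.pow_le_pow_right (by omega) (by omega)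
      _ ≤ b := hb
  have hβ := h.s_le.2
  set L := L₁ ++ L₂ with hLd
  have hVV := card_VV hs hL
  set W : Finset (Finset α) := (MJ k A B Y ∪ AS k Y L) ∪ (Fr k A B Y L ∪ (univ.filter fun l => Dd A B l ∈ AS k Y L).image A) with hW
  set C1 : ℕ := (k + 3) * 2 ^ (k + 2) with hC1
  have hcard : ∀ w : Finset α, #w ≤ k + 2 → #(Cand0 w ∪ L.toFinset.biUnion fun c => Cand0 (w \ c)) ≤ C1 := by
    intro w hw
    refine (card_union_le _ _).trans ?_
    have h2 := card_Cand0 w k hw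
    have h3 : #(L.toFinset.biUnion fun c => Cand0 (w \ c)) ≤ #L.toFinset * 2 ^ (k + 2) :=
      card_biUnion_le_card_mul _ _ _ fun c _ => card_Cand0 (w \ c) k ((card_le_card sdiff_subset).trans hw)
    have h4 : #L.toFinset ≤ k + 2 := (List.toFinset_card_le L).trans hlen
    have h5 : #L.toFinset * 2 ^ (k + 2) ≤ (k + 2) * 2 ^ (k + 2) := Nat.mul_le_mul_right _ h4
    rw [hC1]
    have h6 : (k + 3) * 2 ^ (k + 2) = 2 ^ (k + 2) + (k + 2) * 2 ^ (k + 2) := by ring
    omega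
  have h1 := cnt (A := A) (B := B) (Y := Y) J (fun j => powersetCard u ((Y \ VV L) \ Dd A B j)) (bet k b) (ε * kap k) u hu hβ (by positivity) (dconf A B Y)
    (fun R => mulD1 h R u hu J hJ) (fun R l => mulD2 h R u hu J hJ l)
    (by
      intro j _
      rw [card_powersetCard]
      have h3 := le_card_sdiff (Dd A B j) (Y \ VV L)
      have h4 := le_card_sdiff (VV L) Y
      rw [card_Dd hs] at h3
      rw [h.cY, hVV.1] at h4
      have h5 := choose_ge (k := k) (b := b) (n := #((Y \ VV L) \ Dd A B j)) (e := u) (by omega) (by omega) (by omega)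
      refine le_trans ?_ h5
      apply pow_le_pow_left₀ (by linarith)
      linarith)
    W (fun w => Cand0 w ∪ L.toFinset.biUnion fun c => Cand0 (w \ c)) (fun l => Cand0 (Dd A B l)) C1 C1
    (by
      intro w hw
      apply hcard
      rw [hW, mem_union, mem_union, mem_union, mem_MJ, mem_AS, mem_Fr, mem_image] at hw
      rcases hw with (hw | hw) | (hw | ⟨l, _, rfl⟩)
      · omega
      · omega
      · omega
      · exact (hs.card_left l).le)
    (by
      intro l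
      have h2 := card_Cand0 (Dd A B l) k (by rw [card_Dd hs]; omega)
      refine h2.trans ?_
      rw [hC1]
      have : 1 * 2 ^ (k + 2) ≤ (k + 3) * 2 ^ (k + 2) := Nat.mul_le_mul_right _ (by omega)
      omega)
    (by
      intro j hj E hE
      rw [mem_powersetCard] at hE
      obtain ⟨hjO, hj1, hj2⟩ := hJ2 j hj
      have hju := (mem_filter.1 (hJ hj)).2
      have hED : Disjoint E (Dd A B j) := disjoint_of_subset_left hE.1 sdiff_disjoint
      have hEY : E ⊆ Y := hE.1.trans (sdiff_subset.trans sdiff_subset)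
      have hEV : Disjoint E (VV L) := disjoint_of_subset_left (hE.1.trans sdiff_subset) sdiff_disjoint
      have hRE : Disjoint (Dd A B j ∩ Y) E := disjoint_of_subset_left inter_subset_left hED.symm
      have hTV : Disjoint (((Dd A B j ∩ Y) ∪ E) \ Dd A B j) (VV L) := by
        rw [Finset.disjoint_left]
        intro x hx hxV
        rw [mem_sdiff, mem_union, mem_inter] at hx
        rcases hx.1 with hx1 | hx1
        · exact hx.2 hx1.1
        · exact Finset.disjoint_left.1 hEV hx1 hxV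
      rcases cn_str hs hL hI hjO hj1 hj2 (union_subset inter_subset_right hEY) (ClN2_card hs hju hED hE.2) subset_union_left hTV with
        h5 | ⟨l, hl, hcf, h5⟩ | h5 | ⟨c, hc, hcT, h5⟩ | ⟨l, hl, c, hc, h5⟩
      · left
        exact ⟨_, mem_union_left _ (mem_union_left _ h5), mem_union_left _ (mem_Cand0 rfl hRE)⟩
      · right
        exact ⟨l, hl, hcf, mem_Cand0 h5.symm hRE⟩
      · left
        exact ⟨_, mem_union_left _ (mem_union_right _ h5), mem_union_left _ (mem_Cand0 rfl hRE)⟩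
      · left
        refine ⟨_, mem_union_right _ (mem_union_left _ h5), mem_union_right _ ?_⟩
        rw [mem_biUnion]
        refine ⟨c, List.mem_toFinset.2 hc, mem_Cand0 ?_ hRE⟩
        rw [union_sdiff_right]
        exact sdiff_eq_self_of_disjoint hcT.symm
      · left
        refine ⟨A l, mem_union_right _ (mem_union_right _ (mem_image.2 ⟨l, mem_filter.2 ⟨mem_univ l, hl⟩, rfl⟩)), mem_union_right _ ?_⟩
        rw [mem_biUnion]
        exact ⟨c, List.mem_toFinset.2 hc, mem_Cand0 h5.symm hRE⟩)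
  have h2 := ClE2_sg h
  have hWc : (#W : ℝ) ≤ #(MJ k A B Y) + #(AS k Y L) + (#(Fr k A B Y L) + #(AS k Y L)) := by
    have h3 : #((univ.filter fun l => Dd A B l ∈ AS k Y L).image A) ≤ #(AS k Y L) := by
      refine card_image_le.trans ?_
      apply card_le_card_of_injOn (Dd A B)
      · intro l hl
        exact (mem_filter.1 hl).2
      · intro i _ j _ hij
        exact Dd_inj hs hij
    have h4 : #W ≤ #(MJ k A B Y) + #(AS k Y L) + (#(Fr k A B Y L) + #(AS k Y L)) := by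
      rw [hW]
      refine (card_union_le _ _).trans (Nat.add_le_add (card_union_le _ _) ?_)
      exact (card_union_le _ _).trans (Nat.add_le_add_left h3 _)
    exact_mod_cast h4
  have hM0 : (0 : ℝ) ≤ #(MJ k A B Y) := Nat.cast_nonneg _
  have hF0 : (0 : ℝ) ≤ #(Fr k A B Y L) := Nat.cast_nonneg _
  have hA0 : (0 : ℝ) ≤ #(AS k Y L) := Nat.cast_nonneg _
  have hP : (0 : ℝ) < (C1 : ℝ) := by rw [hC1]; positivity
  calc (#J : ℝ) ≤ ε * kap k * (C1 : ℝ) * #W + 2 * (C1 : ℝ) * sg A B Y / bet k b := h1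
    _ = ε * kap k * (C1 : ℝ) * #W + 2 * (C1 : ℝ) * (sg A B Y / bet k b) := by ring
    _ ≤ ε * kap k * (C1 : ℝ) * (#(MJ k A B Y) + #(AS k Y L) + (#(Fr k A B Y L) + #(AS k Y L))) + 2 * (C1 : ℝ) * (ε * kap k * #(MJ k A B Y)) := by
        apply add_le_add
        · exact mul_le_mul_of_nonneg_left hWc (by positivity)
        · exact mul_le_mul_of_nonneg_left h2 (by positivity)
    _ ≤ 3 * (C1 : ℝ) * kap k * ε * (#(Fr k A B Y L) + #(MJ k A B Y) + #(AS k Y L)) := by
        have h4 : 0 ≤ ε * kap k * (C1 : ℝ) := by positivity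
        nlinarith [mul_nonneg h4 hM0, mul_nonneg h4 hF0, mul_nonneg h4 hA0]
    _ = 3 * ((k + 3) * 2 ^ (k + 2)) * kap k * ε * (#(Fr k A B Y L) + #(MJ k A B Y) + #(AS k Y L)) := by
        rw [hC1]
        push_cast
        ring

open scoped Classical in
theorem cn (k : ℕ) : ∃ C : ℝ, 0 < C ∧ C ≤ (100 * (k + 2 : ℕ) : ℝ) ^ (k + 5) ∧ ∀ (b : ℕ) (ι α : Type) [Fintype ι] [DecidableEq α] (A B : ι → Finset α) (Y : Finset α) (ε : ℝ),
    Ctx k b A B Y ε → ∀ (L : List (Finset α)), KL A B Y L → L.length ≤ k + 2 → (∀ l, Cc A B l ⊆ Y → ¬ Disjoint (Cc A B l) (VV L)) →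
    ∀ g : ℕ, (∀ L' : List (Finset α), L.Perm L' → #(Fr k A B Y L') ≤ g) →
    (#(SN A B Y L) : ℝ) ≤ C * ε * (g + #(MJ k A B Y) + #(AS k Y L)) := by
  have hκ : (0 : ℝ) < kap k := by unfold kap; positivity
  refine ⟨((k + 1) * 2 ^ (k + 2) : ℕ) * (3 * ((k + 3) * 2 ^ (k + 2)) * kap k), by positivity, Zn k, ?_⟩
  intro b ι α _ _ A B Y ε h L hL hlen hI g hg
  have hs := h.sys
  have hε := h.hε
  have hM0 : (0 : ℝ) ≤ #(MJ k A B Y) := Nat.cast_nonneg _
  have hg0 : (0 : ℝ) ≤ g := Nat.cast_nonneg _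
  have hA0 : (0 : ℝ) ≤ #(AS k Y L) := Nat.cast_nonneg _
  have hSmem : ∀ j, j ∈ SN A B Y L ↔ ¬ Dd A B j ⊆ Y ∧ ∀ c ∈ L, ¬ c ⊆ Dd A B j := by
    intro j
    rw [SN, mem_filter]
    simp
  set JJ : ℕ → Finset (Finset α) → Finset ι := fun u S => (SN A B Y L).filter fun j => #(Dd A B j \ Y) = u ∧ (L.toFinset.filter fun c => #(c ∩ Dd A B j) = 1) = S with hJJ
  have hcover : SN A B Y L ⊆ (range (k + 1)).biUnion fun u => L.toFinset.powerset.biUnion fun S => JJ u S := by
    intro j hj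
    rw [mem_biUnion]
    refine ⟨#(Dd A B j \ Y), ?_, ?_⟩
    · rw [mem_range]
      have h1 := card_le_card (sdiff_subset (s := Dd A B j) (t := Y))
      rw [card_Dd hs] at h1
      omega
    · rw [mem_biUnion]
      refine ⟨L.toFinset.filter fun c => #(c ∩ Dd A B j) = 1, mem_powerset.2 (filter_subset _ _), ?_⟩
      exact mem_filter.2 ⟨hj, rfl, rfl⟩
  have hone : ∀ u ≤ k, ∀ S ∈ L.toFinset.powerset, (#(JJ u S) : ℝ) ≤ 3 * ((k + 3) * 2 ^ (k + 2)) * kap k * ε * (g + #(MJ k A B Y) + #(AS k Y L)) := by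
    intro u huk S hS
    rcases Nat.eq_zero_or_pos u with hu0 | hu
    · have h0 : JJ u S = ∅ := by
        rw [hJJ]
        simp only
        rw [filter_eq_empty_iff]
        rintro j hj ⟨h2, _⟩
        have hj' := (hSmem j).1 hj
        rw [hu0, card_eq_zero, sdiff_eq_empty_iff_subset] at h2
        exact hj'.1 h2
      rw [h0]
      simp only [card_empty, Nat.cast_zero]
      positivity
    · set L₁ := L.filter (fun c => decide (c ∈ S)) with hL1
      set L₂ := L.filter (fun c => !decide (c ∈ S)) with hL2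
      have hp : L.Perm (L₁ ++ L₂) := (List.filter_append_perm (fun c => decide (c ∈ S)) L).symm
      have hL' : KL A B Y (L₁ ++ L₂) := hL.perm hp
      have hFr : (#(Fr k A B Y (L₁ ++ L₂)) : ℝ) ≤ g := by exact_mod_cast hg _ hp
      have hAS : AS k Y (L₁ ++ L₂) = AS k Y L := by
        ext T
        rw [mem_AS, mem_AS]
        unfold allsplit
        simp only [hp.mem_iff]
      have h1 := cn_one h hL' (by rw [← hp.length_eq]; exact hlen) (by rw [← VV_perm hp]; exact hI) u hu huk (JJ u S)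
        (by
          intro j hj
          have hj1 := mem_filter.1 hj
          rw [JU, mem_filter]
          exact ⟨mem_univ j, hj1.2.1⟩)
        (by
          intro j hj
          obtain ⟨hj1, hj2, hj3⟩ := mem_filter.1 hj
          have hj' := (hSmem j).1 hj1
          refine ⟨hj'.1, ?_, ?_⟩
          · intro c hc
            rw [hL1, List.mem_filter] at hc
            have hcS : c ∈ S := by simpa using hc.2
            rw [← hj3, mem_filter] at hcS
            exact hcS.2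
          · intro c hc
            rw [hL2, List.mem_filter] at hc
            have hcS : c ∉ S := by simpa using hc.2
            rcases L_pair (T := Dd A B j) (hL.two hs c hc.1) with h2 | h2 | h2
            · exact h2
            · exfalso
              apply hcS
              rw [← hj3, mem_filter]
              exact ⟨List.mem_toFinset.2 hc.1, h2⟩
            · exact absurd h2 (hj'.2 c hc.1))
      rw [hAS] at h1
      refine h1.trans ?_
      apply mul_le_mul_of_nonneg_left _ (by positivity)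
      linarith
  have hsum : #(SN A B Y L) ≤ ∑ u ∈ range (k + 1), ∑ S ∈ L.toFinset.powerset, #(JJ u S) := by
    refine (card_le_card hcover).trans ?_
    refine card_biUnion_le.trans (sum_le_sum fun u _ => ?_)
    exact card_biUnion_le
  calc (#(SN A B Y L) : ℝ) ≤ ∑ u ∈ range (k + 1), ∑ S ∈ L.toFinset.powerset, (#(JJ u S) : ℝ) := by exact_mod_cast hsum
    _ ≤ ∑ u ∈ range (k + 1), ∑ S ∈ L.toFinset.powerset, 3 * ((k + 3) * 2 ^ (k + 2)) * kap k * ε * (g + #(MJ k A B Y) + #(AS k Y L)) := by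
        refine sum_le_sum fun u hu => sum_le_sum fun S hS => ?_
        rw [mem_range] at hu
        exact hone u (by omega) S hS
    _ = (k + 1 : ℕ) * ((2 ^ #L.toFinset : ℕ) * (3 * ((k + 3) * 2 ^ (k + 2)) * kap k * ε * (g + #(MJ k A B Y) + #(AS k Y L)))) := by
        simp only [sum_const, nsmul_eq_mul, card_range, card_powerset]
    _ ≤ (k + 1 : ℕ) * ((2 ^ (k + 2) : ℕ) * (3 * ((k + 3) * 2 ^ (k + 2)) * kap k * ε * (g + #(MJ k A B Y) + #(AS k Y L)))) := by
        apply mul_le_mul_of_nonneg_left _ (Nat.cast_nonneg _)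
        apply mul_le_mul_of_nonneg_right _ (by positivity)
        have h1 : 2 ^ #L.toFinset ≤ 2 ^ (k + 2) := Nat.pow_le_pow_right (by norm_num) ((List.toFinset_card_le L).trans hlen)
        exact_mod_cast h1
    _ = ((k + 1) * 2 ^ (k + 2) : ℕ) * (3 * ((k + 3) * 2 ^ (k + 2)) * kap k) * ε * (g + #(MJ k A B Y) + #(AS k Y L)) := by
        push_cast
        ring

end Pool.Agent.Lib.MP_20855c_co.LB
end

section

/-!
# MP_20855c_co, large b: the classes A, N, E together
-/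

set_option autoImplicit false

namespace Pool.Agent.Lib.MP_20855c_co.LB

open Finset

open scoped Classical in
theorem xbound (k : ℕ) : ∃ K : ℝ, 0 < K ∧ K ≤ (100 * (k + 2 : ℕ) : ℝ) ^ (k + 6) ∧ ∀ (b : ℕ) (ι α : Type) [Fintype ι] [DecidableEq α] (A B : ι → Finset α) (Y : Finset α) (ε : ℝ),
    Ctx k b A B Y ε → ∀ (L : List (Finset α)), KL A B Y L →
    (L.length = k + 2 ∨ (L.length ≤ k + 1 ∧ ∀ l, Cc A B l ⊆ Y → ¬ Disjoint (Cc A B l) (VV L))) →
    ∀ g : ℕ, (∀ L' : List (Finset α), L.Perm L' → GG k A B Y L' ≤ g) →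
    (#((cI A B Y).filter fun l => ∃ c ∈ L, c ⊆ Dd A B l) : ℝ) + #(Out A B Y) ≤ K * ε * (g + #(MJ k A B Y) + #(AS k Y L)) := by
  obtain ⟨CA, hCA, hCA', hca⟩ := ca k
  obtain ⟨CN, hCN, hCN', hcn⟩ := cn k
  obtain ⟨CE, hCE, hCE', hce⟩ := ce k
  have hKK : (k + 2 : ℕ) * CA + CN + CE ≤ (100 * (k + 2 : ℕ) : ℝ) ^ (k + 6) := by
    have hu2 : (2 : ℝ) ≤ ((k + 2 : ℕ) : ℝ) := by push_cast; linarith [(Nat.cast_nonneg k : (0 : ℝ) ≤ k)]
    set u : ℝ := ((k + 2 : ℕ) : ℝ) with hu
    have hp : (0 : ℝ) < (100 * u) ^ (k + 5) := by positivity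
    have h1 : u * CA ≤ u * (100 * u) ^ (k + 5) := mul_le_mul_of_nonneg_left hCA' (by linarith)
    have h2 : (100 * u) ^ (k + 6) = (100 * u) * (100 * u) ^ (k + 5) := by ring
    rw [h2]
    nlinarith
  refine ⟨(k + 2 : ℕ) * CA + CN + CE, by positivity, hKK, ?_⟩
  intro b ι α _ _ A B Y ε hctx L hL hcase g hg
  have hε := hctx.hε
  have hFr : ∀ L' : List (Finset α), L.Perm L' → #(Fr k A B Y L') ≤ g := by
    intro L' hL'
    have h1 := hg L' hL'
    unfold GG at h1
    omega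
  have hlen : L.length ≤ k + 2 := by
    rcases hcase with h | h
    · omega
    · omega
  have hM0 : (0 : ℝ) ≤ #(MJ k A B Y) := Nat.cast_nonneg _
  have hA0 : (0 : ℝ) ≤ #(AS k Y L) := Nat.cast_nonneg _
  have hg0 : (0 : ℝ) ≤ g := Nat.cast_nonneg _
  -- class A
  have hSA : (∑ c ∈ L.toFinset, (#(SA A Y c) : ℝ)) ≤ (k + 2 : ℕ) * (CA * ε * (g + #(MJ k A B Y))) := by
    have h1 : ∀ c ∈ L.toFinset, (#(SA A Y c) : ℝ) ≤ CA * ε * (g + #(MJ k A B Y)) := by
      intro c hc
      have hcL : c ∈ L := List.mem_toFinset.1 hc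
      have hp : L.Perm (c :: L.erase c) := List.perm_cons_erase hcL
      have h2 := hca b ι α A B Y ε hctx c (L.erase c) (hL.perm hp) (by rw [← hp.length_eq]; exact hlen)
      refine h2.trans ?_
      have h3 : (#(Fr k A B Y (c :: L.erase c)) : ℝ) ≤ g := by exact_mod_cast hFr _ hp
      apply mul_le_mul_of_nonneg_left _ (by positivity)
      linarith
    calc (∑ c ∈ L.toFinset, (#(SA A Y c) : ℝ)) ≤ ∑ _c ∈ L.toFinset, CA * ε * (g + #(MJ k A B Y)) := sum_le_sum h1
      _ = #L.toFinset * (CA * ε * (g + #(MJ k A B Y))) := by rw [sum_const, nsmul_eq_mul]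
      _ ≤ (k + 2 : ℕ) * (CA * ε * (g + #(MJ k A B Y))) := by
          apply mul_le_mul_of_nonneg_right _ (by positivity)
          exact_mod_cast (List.toFinset_card_le L).trans hlen
  have hdisj : Disjoint ((cI A B Y).filter fun l => ∃ c ∈ L, c ⊆ Dd A B l) (Out A B Y) := by
    rw [Finset.disjoint_left]
    intro l hl hl'
    rw [mem_filter, mem_cI] at hl
    rw [mem_Out] at hl'
    exact hl' hl.1.1
  have hsum : #((cI A B Y).filter fun l => ∃ c ∈ L, c ⊆ Dd A B l) + #(Out A B Y) =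
      #(((cI A B Y).filter fun l => ∃ c ∈ L, c ⊆ Dd A B l) ∪ Out A B Y) := (card_union_of_disjoint hdisj).symm
  have key : ∀ S : Finset ι, (((cI A B Y).filter fun l => ∃ c ∈ L, c ⊆ Dd A B l) ∪ Out A B Y) ⊆ (L.toFinset.biUnion fun c => SA A Y c) ∪ S →
      (#((cI A B Y).filter fun l => ∃ c ∈ L, c ⊆ Dd A B l) : ℝ) + #(Out A B Y) ≤ (k + 2 : ℕ) * (CA * ε * (g + #(MJ k A B Y))) + #S := by
    intro S hS
    have h1 : #((cI A B Y).filter fun l => ∃ c ∈ L, c ⊆ Dd A B l) + #(Out A B Y) ≤ (∑ c ∈ L.toFinset, #(SA A Y c)) + #S := by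
      rw [hsum]
      refine (card_le_card hS).trans ((card_union_le _ _).trans ?_)
      exact Nat.add_le_add_right card_biUnion_le _
    have h2 : (#((cI A B Y).filter fun l => ∃ c ∈ L, c ⊆ Dd A B l) : ℝ) + #(Out A B Y) ≤ (∑ c ∈ L.toFinset, (#(SA A Y c) : ℝ)) + #S := by
      exact_mod_cast h1
    linarith
  rcases hcase with hII | ⟨_, hI⟩
  · have h1 := key (SE A B Y L) (by
      intro l hl
      rw [mem_union, mem_biUnion]
      rw [mem_union, mem_filter, mem_cI, mem_Out] at hl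
      rcases hl with ⟨⟨h1, h2⟩, c, hc, hcD⟩ | h1
      · left
        refine ⟨c, List.mem_toFinset.2 hc, ?_⟩
        rw [SA, mem_filter]
        exact ⟨mem_univ l, h2, hcD.trans sdiff_subset⟩
      · by_cases h2 : ∃ c ∈ L, c ⊆ A l
        · obtain ⟨c, hc, hcA⟩ := h2
          left
          refine ⟨c, List.mem_toFinset.2 hc, ?_⟩
          rw [SA, mem_filter]
          exact ⟨mem_univ l, fun h => h1 (sdiff_subset.trans h), hcA⟩
        · right
          push Not at h2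
          rw [SE, mem_filter]
          exact ⟨mem_univ l, h1, h2⟩)
    have h2 := hce b ι α A B Y ε hctx L hL hII g hFr
    calc (#((cI A B Y).filter fun l => ∃ c ∈ L, c ⊆ Dd A B l) : ℝ) + #(Out A B Y)
        ≤ (k + 2 : ℕ) * (CA * ε * (g + #(MJ k A B Y))) + CE * ε * (g + #(MJ k A B Y)) := by linarith
      _ = ((k + 2 : ℕ) * CA + CE) * ε * (g + #(MJ k A B Y)) := by ring
      _ ≤ ((k + 2 : ℕ) * CA + CN + CE) * ε * (g + #(MJ k A B Y) + #(AS k Y L)) := by
          apply mul_le_mul _ (by linarith) (by positivity) (by positivity)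
          apply mul_le_mul_of_nonneg_right _ hε.le
          linarith
  · have h1 := key (SN A B Y L) (by
      intro l hl
      rw [mem_union, mem_biUnion]
      rw [mem_union, mem_filter, mem_cI, mem_Out] at hl
      rcases hl with ⟨⟨h1, h2⟩, c, hc, hcD⟩ | h1
      · left
        refine ⟨c, List.mem_toFinset.2 hc, ?_⟩
        rw [SA, mem_filter]
        exact ⟨mem_univ l, h2, hcD.trans sdiff_subset⟩
      · by_cases h2 : ∃ c ∈ L, c ⊆ Dd A B l
        · obtain ⟨c, hc, hcA⟩ := h2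
          left
          refine ⟨c, List.mem_toFinset.2 hc, ?_⟩
          rw [SA, mem_filter]
          exact ⟨mem_univ l, fun h => h1 (sdiff_subset.trans h), hcA.trans sdiff_subset⟩
        · right
          push Not at h2
          rw [SN, mem_filter]
          exact ⟨mem_univ l, h1, h2⟩)
    have h2 := hcn b ι α A B Y ε hctx L hL hlen hI g hFr
    calc (#((cI A B Y).filter fun l => ∃ c ∈ L, c ⊆ Dd A B l) : ℝ) + #(Out A B Y)
        ≤ (k + 2 : ℕ) * (CA * ε * (g + #(MJ k A B Y))) + CN * ε * (g + #(MJ k A B Y) + #(AS k Y L)) := by linarith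
      _ ≤ (k + 2 : ℕ) * (CA * ε * (g + #(MJ k A B Y) + #(AS k Y L))) + CN * ε * (g + #(MJ k A B Y) + #(AS k Y L)) := by
          have h3 : (k + 2 : ℕ) * (CA * ε * ((g : ℝ) + #(MJ k A B Y))) ≤ (k + 2 : ℕ) * (CA * ε * (g + #(MJ k A B Y) + #(AS k Y L))) := by
            apply mul_le_mul_of_nonneg_left _ (Nat.cast_nonneg _)
            apply mul_le_mul_of_nonneg_left _ (by positivity)
            linarith
          linarith
      _ = ((k + 2 : ℕ) * CA + CN) * ε * (g + #(MJ k A B Y) + #(AS k Y L)) := by ring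
      _ ≤ ((k + 2 : ℕ) * CA + CN + CE) * ε * (g + #(MJ k A B Y) + #(AS k Y L)) := by
          apply mul_le_mul_of_nonneg_right _ (by positivity)
          apply mul_le_mul_of_nonneg_right _ hε.le
          linarith

end Pool.Agent.Lib.MP_20855c_co.LB
end
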