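import Mathlib

section

/-!
# MP_20855c_co, star systems: definitions

`M` is a finite set of pairwise disjoint pairs. For a finite set `P`, a pair `e` of `M` is full if
`e ⊆ P`, free if `e` is disjoint from `P`, and split otherwise (then `e ∩ P` is one point).
-/

set_option autoImplicit false

namespace Pool.Agent.Lib.MP_20855c_co.Star

open Finset

variable {α : Type*} [DecidableEq α]

/-- A finite set of pairwise disjoint pairs. -/
def IsMatching (M : Finset (Finset α)) : Prop :=
  (∀ e ∈ M, e.card = 2) ∧ ∀ e ∈ M, ∀ f ∈ M, e ≠ f → Disjoint e f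

/-- The pairs contained in `P`. -/
def full (M : Finset (Finset α)) (P : Finset α) : Finset (Finset α) := M.filter fun e => e ⊆ P

/-- The pairs disjoint from `P`. -/
def free (M : Finset (Finset α)) (P : Finset α) : Finset (Finset α) :=
  M.filter fun e => Disjoint e P

/-- The points of the pairs. -/
def cov (M : Finset (Finset α)) : Finset α := M.biUnion id

/-- The weight of a set: free pairs divided by unsplit pairs. -/
def phi (M : Finset (Finset α)) (P : Finset α) : ℚ :=
  ((free M P).card : ℚ) / (((full M P).card : ℚ) + ((free M P).card : ℚ))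

lemma mem_full {M : Finset (Finset α)} {P e : Finset α} : e ∈ full M P ↔ e ∈ M ∧ e ⊆ P := by
  rw [full, mem_filter]

lemma mem_free {M : Finset (Finset α)} {P e : Finset α} :
    e ∈ free M P ↔ e ∈ M ∧ Disjoint e P := by
  rw [free, mem_filter]

lemma mem_cov {M : Finset (Finset α)} {x : α} : x ∈ cov M ↔ ∃ e ∈ M, x ∈ e := by
  simp [cov]

/-- The pair through a point is unique. -/
lemma IsMatching.eq {M : Finset (Finset α)} (hM : IsMatching M) {e f : Finset α} (he : e ∈ M)
    (hf : f ∈ M) {x : α} (hxe : x ∈ e) (hxf : x ∈ f) : e = f := by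
  by_contra h
  exact (Finset.disjoint_left.1 (hM.2 e he f hf h)) hxe hxf

end Pool.Agent.Lib.MP_20855c_co.Star
end

section

/-!
# MP_20855c_co: rank of multiplication by a quadratic element

`R` is a commutative algebra over the field with two elements and `x w` are elements with square
zero.  Multiplication by an element `q` of degree two, on the span of the squarefree monomials of
degree `m` in `N` of the variables, has rank at most `T N m`.
-/

set_option autoImplicit false

namespace Pool.Agent.Lib.MP_20855c_co

open Finset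

/-- The rank bound. -/
def T : ℕ → ℕ → ℕ
  | 0, _ => 0
  | 1, _ => 0
  | (_ + 2), 0 => 1
  | (n + 2), (m + 1) => Nat.choose n (m + 1) + 2 * T n m

section

variable {σ R : Type*} [DecidableEq σ] [CommRing R] [Algebra (ZMod 2) R]

/-- The monomial of a finite set of variables. -/
def mon (x : σ → R) (P : Finset σ) : R := ∏ w ∈ P, x w

/-- The span of the squarefree monomials of degree `m` in the variables of `W`. -/
def U (x : σ → R) (W : Finset σ) (m : ℕ) : Submodule (ZMod 2) R :=
  Submodule.span (ZMod 2) (mon x '' (powersetCard m W : Set (Finset σ)))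

instance (x : σ → R) (W : Finset σ) (m : ℕ) : Module.Finite (ZMod 2) (U x W m) := by
  unfold U
  exact Module.Finite.span_of_finite _ (Set.Finite.image _ (Finset.finite_toSet _))

omit [DecidableEq σ] in
lemma finrank_U (x : σ → R) (W : Finset σ) (m : ℕ) :
    Module.finrank (ZMod 2) (U x W m) ≤ W.card.choose m := by
  classical
  unfold U
  have h : (mon x '' (powersetCard m W : Set (Finset σ))) =
      (((powersetCard m W).image (mon x) : Finset R) : Set R) := by
    rw [Finset.coe_image]
  rw [h]
  calc _ ≤ ((powersetCard m W).image (mon x)).card := finrank_span_finset_le_card _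
    _ ≤ (powersetCard m W).card := card_image_le
    _ = _ := card_powersetCard _ _

omit [DecidableEq σ] in
lemma mon_mem (x : σ → R) {W P : Finset σ} (h : P ⊆ W) : mon x P ∈ U x W P.card := by
  apply Submodule.subset_span
  refine ⟨P, ?_, rfl⟩
  rw [Finset.mem_coe, mem_powersetCard]
  exact ⟨h, rfl⟩

omit [DecidableEq σ] in
lemma mon_mem' (x : σ → R) {W P : Finset σ} {m : ℕ} (h : P ⊆ W) (hm : P.card = m) :
    mon x P ∈ U x W m := hm ▸ mon_mem x h

omit [Algebra (ZMod 2) R] in
lemma mon_erase (x : σ → R) {P : Finset σ} {v : σ} (h : v ∈ P) :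
    mon x P = x v * mon x (P.erase v) := by
  unfold mon
  rw [Finset.mul_prod_erase P x h]

omit [DecidableEq σ] in
lemma add_self' (a : R) : a + a = 0 := by
  have h : ((1 + 1 : ZMod 2)) • a = 0 := by
    have : (1 + 1 : ZMod 2) = 0 := by decide
    rw [this, zero_smul]
  rwa [add_smul, one_smul] at h

omit [Algebra (ZMod 2) R] in
lemma mon_mul (x : σ → R) (hx : ∀ w, x w * x w = 0) (P Q : Finset σ) :
    mon x P * mon x Q = if Disjoint P Q then mon x (P ∪ Q) else 0 := by
  split_ifs with h
  · unfold mon
    rw [Finset.prod_union h]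
  · rw [Finset.not_disjoint_iff] at h
    obtain ⟨v, hP, hQ⟩ := h
    rw [mon_erase x hP, mon_erase x hQ]
    have : x v * mon x (P.erase v) * (x v * mon x (Q.erase v)) =
      (x v * x v) * (mon x (P.erase v) * mon x (Q.erase v)) := by ring
    rw [this, hx, zero_mul]

lemma U_mul (x : σ → R) (hx : ∀ w, x w * x w = 0) (W : Finset σ) (m k : ℕ) {f g : R}
    (hf : f ∈ U x W m) (hg : g ∈ U x W k) : f * g ∈ U x W (m + k) := by
  have h : U x W m * U x W k ≤ U x W (m + k) := by
    unfold U
    rw [Submodule.span_mul_span, Submodule.span_le]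
    rintro _ ⟨_, ⟨P, hP, rfl⟩, _, ⟨Q, hQ, rfl⟩, rfl⟩
    rw [Finset.mem_coe, mem_powersetCard] at hP hQ
    simp only
    rw [mon_mul x hx]
    split_ifs with h
    · apply mon_mem'
      · exact union_subset hP.1 hQ.1
      · rw [card_union_of_disjoint h, hP.2, hQ.2]
    · exact Submodule.zero_mem _
  exact h (Submodule.mul_mem_mul hf hg)

lemma U_sq (x : σ → R) (hx : ∀ w, x w * x w = 0) (W : Finset σ) (m : ℕ) {f : R}
    (hf : f ∈ U x W (m + 1)) : f * f = 0 := by
  unfold U at hf
  induction hf using Submodule.span_induction with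
  | mem f hf =>
    obtain ⟨P, hP, rfl⟩ := hf
    rw [Finset.mem_coe, mem_powersetCard] at hP
    rw [mon_mul x hx, if_neg]
    rw [disjoint_self]
    intro h
    rw [Finset.bot_eq_empty] at h
    rw [h] at hP
    simp at hP
  | zero => simp
  | add f g _ _ hf hg =>
    have : (f + g) * (f + g) = f * f + g * g + (f * g + f * g) := by ring
    rw [this, hf, hg, add_self' (f * g)]
    simp
  | smul c f _ hf =>
    rw [smul_mul_smul_comm, hf, smul_zero]

/-- The image of the monomials of degree `m` in `W` under multiplication by `q`. -/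
def V (x : σ → R) (W : Finset σ) (m : ℕ) (q : R) : Submodule (ZMod 2) R :=
  (U x W m).map (LinearMap.mulLeft (ZMod 2) q)

instance (x : σ → R) (W : Finset σ) (m : ℕ) (q : R) : Module.Finite (ZMod 2) (V x W m q) := by
  unfold V
  infer_instance

omit [DecidableEq σ] in
lemma mul_mem_V (x : σ → R) {W : Finset σ} {m : ℕ} {q u : R} (hu : u ∈ U x W m) :
    q * u ∈ V x W m q := ⟨u, hu, rfl⟩

omit [DecidableEq σ] in
lemma two_eq_zero' : (2 : R) = 0 := by
  have := add_self' (R := R) (1 : R)
  rw [← this]; norm_num

/-- A nonzero quadratic element contains a monomial `x v * x w`. -/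
lemma exists_split (x : σ → R) (W : Finset σ) {q : R} (hq : q ∈ U x W 2) (h0 : q ≠ 0) :
    ∃ v ∈ W, ∃ w ∈ W, v ≠ w ∧ ∃ l₁ ∈ U x ((W.erase v).erase w) 1,
      ∃ l₂ ∈ U x ((W.erase v).erase w) 1, ∃ r ∈ U x ((W.erase v).erase w) 2,
      q = x v * x w + x v * l₁ + x w * l₂ + r := by
  unfold U at hq
  rw [Submodule.mem_span_image_finset_iff_exists_fun] at hq
  obtain ⟨c0, hc0⟩ := hq
  obtain ⟨c, hc⟩ : ∃ c : Finset σ → ZMod 2, ∑ P ∈ powersetCard 2 W, c P • mon x P = q := by
    refine ⟨fun P => if h : P ∈ powersetCard 2 W then c0 ⟨P, h⟩ else 0, ?_⟩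
    rw [← hc0, ← Finset.sum_coe_sort]
    apply Finset.sum_congr rfl
    intro P _
    simp only [P.2, dite_true, Subtype.coe_eta]
  have hex : ∃ P ∈ powersetCard 2 W, c P ≠ 0 := by
    by_contra hcon
    push Not at hcon
    apply h0
    rw [← hc]
    exact Finset.sum_eq_zero (fun P hP => by rw [hcon P hP, zero_smul])
  obtain ⟨P0, hP0, hcP⟩ := hex
  have hc1 : c P0 = 1 := by
    revert hcP
    generalize c P0 = t
    revert t
    decide
  rw [mem_powersetCard] at hP0
  obtain ⟨v, w, hvw, hP0'⟩ := Finset.card_eq_two.1 hP0.2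
  have hv : v ∈ W := hP0.1 (by rw [hP0']; simp)
  have hw : w ∈ W := hP0.1 (by rw [hP0']; simp)
  refine ⟨v, hv, w, hw, hvw, ?_⟩
  set W' := (W.erase v).erase w with hW'
  have hrest : ∑ P ∈ (powersetCard 2 W).erase P0, c P • mon x P ∈
      (V x W' 1 (x v) ⊔ V x W' 1 (x w)) ⊔ U x W' 2 := by
    apply Submodule.sum_mem
    intro P hP
    rw [Finset.mem_erase, mem_powersetCard] at hP
    obtain ⟨hne, hPW, hPc⟩ := hP
    apply Submodule.smul_mem
    by_cases hvP : v ∈ P
    · have hwP : w ∉ P := by
        intro hwP
        apply hne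
        symm
        apply Finset.eq_of_subset_of_card_le
        · rw [hP0']
          intro u hu
          rw [Finset.mem_insert, Finset.mem_singleton] at hu
          rcases hu with rfl | rfl <;> assumption
        · rw [hPc, hP0.2]
      apply Submodule.mem_sup_left
      apply Submodule.mem_sup_left
      rw [mon_erase x hvP]
      apply mul_mem_V
      apply mon_mem'
      · intro u hu
        rw [Finset.mem_erase] at hu
        rw [hW', Finset.mem_erase, Finset.mem_erase]
        refine ⟨?_, hu.1, hPW hu.2⟩
        rintro rfl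
        exact hwP hu.2
      · rw [card_erase_of_mem hvP, hPc]
    · by_cases hwP : w ∈ P
      · apply Submodule.mem_sup_left
        apply Submodule.mem_sup_right
        rw [mon_erase x hwP]
        apply mul_mem_V
        apply mon_mem'
        · intro u hu
          rw [Finset.mem_erase] at hu
          rw [hW', Finset.mem_erase, Finset.mem_erase]
          refine ⟨hu.1, ?_, hPW hu.2⟩
          rintro rfl
          exact hvP hu.2
        · rw [card_erase_of_mem hwP, hPc]
      · apply Submodule.mem_sup_right
        apply mon_mem' _ _ hPc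
        intro u hu
        rw [hW', Finset.mem_erase, Finset.mem_erase]
        refine ⟨?_, ?_, hPW hu⟩
        · rintro rfl
          exact hwP hu
        · rintro rfl
          exact hvP hu
  rw [Submodule.mem_sup] at hrest
  obtain ⟨y, hy, r, hr, hyr⟩ := hrest
  rw [Submodule.mem_sup] at hy
  obtain ⟨y1, ⟨l₁, hl₁, hy1⟩, y2, ⟨l₂, hl₂, hy2⟩, hy12⟩ := hy
  refine ⟨l₁, hl₁, l₂, hl₂, r, hr, ?_⟩
  rw [← hc, ← Finset.add_sum_erase (powersetCard 2 W) (fun P => c P • mon x P)
    (mem_powersetCard.2 hP0), ← hyr, ← hy12, ← hy1, ← hy2, hc1, one_smul]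
  have hmon : mon x P0 = x v * x w := by
    rw [hP0', mon, Finset.prod_pair hvw]
  rw [hmon]
  simp only [LinearMap.mulLeft_apply]
  ring

/-- The rank bound. -/
theorem rank_le (x : σ → R) (hx : ∀ w, x w * x w = 0) :
    ∀ (N : ℕ) (W : Finset σ), W.card = N → ∀ (m : ℕ) (q : R), q ∈ U x W 2 →
      Module.finrank (ZMod 2) (V x W m q) ≤ T N m := by
  intro N
  induction N using Nat.strong_induction_on with
  | _ N ih =>
  intro W hW m q hq
  by_cases h0 : q = 0
  · have : V x W m q = ⊥ := by
      rw [h0, V, eq_bot_iff]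
      rintro _ ⟨u, _, rfl⟩
      simp
    rw [this, finrank_bot]
    exact Nat.zero_le _
  obtain ⟨v, hv, w, hw, hvw, l₁, hl₁, l₂, hl₂, r, hr, hqe⟩ := exists_split x W hq h0
  set W' := (W.erase v).erase w with hW'
  have hwv : w ∈ W.erase v := Finset.mem_erase.2 ⟨hvw.symm, hw⟩
  have hcard : W'.card + 2 = N := by
    rw [hW', card_erase_of_mem hwv, card_erase_of_mem hv, hW]
    have h1 : 1 ≤ (W.erase v).card := Finset.card_pos.2 ⟨w, hwv⟩
    rw [card_erase_of_mem hv, hW] at h1
    omega
  obtain ⟨n, rfl⟩ : ∃ n, N = n + 2 := ⟨W'.card, hcard.symm⟩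
  have hW'c : W'.card = n := by omega
  cases m with
  | zero =>
    calc Module.finrank (ZMod 2) (V x W 0 q) ≤ Module.finrank (ZMod 2) (U x W 0) :=
          Submodule.finrank_map_le _ _
      _ ≤ W.card.choose 0 := finrank_U x W 0
      _ = 1 := Nat.choose_zero_right _
      _ = T (n + 2) 0 := by rw [T]
  | succ m =>
    have h2 : (2 : R) = 0 := two_eq_zero'
    set X := x v + l₂ with hX
    set Y := x w + l₁ with hY
    set q' := r + l₁ * l₂ with hq'
    have hl₂2 : l₂ * l₂ = 0 := U_sq x hx W' 0 hl₂
    have hl₁2 : l₁ * l₁ = 0 := U_sq x hx W' 0 hl₁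
    have hXX : X * X = 0 := by
      rw [hX]
      linear_combination hx v + hl₂2 + x v * l₂ * h2
    have hYY : Y * Y = 0 := by
      rw [hY]
      linear_combination hx w + hl₁2 + x w * l₁ * h2
    have hq'U : q' ∈ U x W' 2 := Submodule.add_mem _ hr (U_mul x hx W' 1 1 hl₁ hl₂)
    have hq'2 : q' * q' = 0 := U_sq x hx W' 1 hq'U
    have hq2 : q = X * Y + q' := by
      rw [hqe, hX, hY, hq']
      linear_combination (- l₁ * l₂) * h2
    have hle : V x W (m + 1) q ≤ V x W' (m + 1) q ⊔
        ((V x W' m q').map (LinearMap.mulLeft (ZMod 2) X) ⊔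
          (V x W' m q').map (LinearMap.mulLeft (ZMod 2) Y)) := by
      have hA : ∀ u ∈ U x W' (m + 1), q * u ∈ V x W' (m + 1) q ⊔
        ((V x W' m q').map (LinearMap.mulLeft (ZMod 2) X) ⊔
          (V x W' m q').map (LinearMap.mulLeft (ZMod 2) Y)) :=
        fun u hu => Submodule.mem_sup_left (mul_mem_V x hu)
      have hB : ∀ u ∈ U x W' m, X * (q' * u) ∈ V x W' (m + 1) q ⊔
        ((V x W' m q').map (LinearMap.mulLeft (ZMod 2) X) ⊔
          (V x W' m q').map (LinearMap.mulLeft (ZMod 2) Y)) :=
        fun u hu => Submodule.mem_sup_right (Submodule.mem_sup_left ⟨q' * u, mul_mem_V x hu, rfl⟩)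
      have hC : ∀ u ∈ U x W' m, Y * (q' * u) ∈ V x W' (m + 1) q ⊔
        ((V x W' m q').map (LinearMap.mulLeft (ZMod 2) X) ⊔
          (V x W' m q').map (LinearMap.mulLeft (ZMod 2) Y)) :=
        fun u hu => Submodule.mem_sup_right (Submodule.mem_sup_right ⟨q' * u, mul_mem_V x hu, rfl⟩)
      unfold V U
      rw [Submodule.map_span, Submodule.span_le]
      rintro _ ⟨_, ⟨P, hP, rfl⟩, rfl⟩
      rw [Finset.mem_coe, mem_powersetCard] at hP
      obtain ⟨hPW, hPc⟩ := hP
      rw [LinearMap.mulLeft_apply]
      change q * mon x P ∈ V x W' (m + 1) q ⊔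
        ((V x W' m q').map (LinearMap.mulLeft (ZMod 2) X) ⊔
          (V x W' m q').map (LinearMap.mulLeft (ZMod 2) Y))
      by_cases hvP : v ∈ P
      · by_cases hwP : w ∈ P
        · have hwP' : w ∈ P.erase v := Finset.mem_erase.2 ⟨hvw.symm, hwP⟩
          have hc1 : ((P.erase v).erase w).card + 2 = m + 1 := by
            rw [card_erase_of_mem hwP', card_erase_of_mem hvP, hPc]
            have h1 : 1 ≤ (P.erase v).card := Finset.card_pos.2 ⟨w, hwP'⟩
            rw [card_erase_of_mem hvP, hPc] at h1
            omega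
          obtain ⟨k, rfl⟩ : ∃ k, m = k + 1 := ⟨((P.erase v).erase w).card, by omega⟩
          have hu : mon x ((P.erase v).erase w) ∈ U x W' k := by
            apply mon_mem' _ _ (by omega)
            exact Finset.erase_subset_erase _ (Finset.erase_subset_erase _ hPW)
          rw [mon_erase x hvP, mon_erase x hwP']
          set u := mon x ((P.erase v).erase w) with hu'
          have e : q * (x v * (x w * u)) = q * (q' * u) + (X * (q' * (l₁ * u)) +
              (Y * (q' * (l₂ * u)) + q * (l₁ * l₂ * u))) := by
            have hxv : x v = X - l₂ := by rw [hX]; ring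
            have hxw : x w = Y - l₁ := by rw [hY]; ring
            rw [hxv, hxw, hq2]
            linear_combination (Y * Y * u - Y * l₁ * u) * hXX - (X * l₂ * u) * hYY -
              u * hq'2 - (X * l₁ * q' * u + Y * l₂ * q' * u) * h2
          rw [e]
          refine Submodule.add_mem _ (hA _ ?_) (Submodule.add_mem _ (hB _ ?_)
            (Submodule.add_mem _ (hC _ ?_) (hA _ ?_)))
          · have := U_mul x hx W' 2 k hq'U hu
            rwa [show k + 1 + 1 = 2 + k by ring]
          · have := U_mul x hx W' 1 k hl₁ hu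
            rwa [show k + 1 = 1 + k by ring]
          · have := U_mul x hx W' 1 k hl₂ hu
            rwa [show k + 1 = 1 + k by ring]
          · have := U_mul x hx W' 2 k (U_mul x hx W' 1 1 hl₁ hl₂) hu
            rwa [show k + 1 + 1 = 2 + k by ring]
        · have hu : mon x (P.erase v) ∈ U x W' m := by
            apply mon_mem'
            · intro t ht
              rw [Finset.mem_erase] at ht
              rw [hW', Finset.mem_erase, Finset.mem_erase]
              refine ⟨?_, ht.1, hPW ht.2⟩
              rintro rfl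
              exact hwP ht.2
            · rw [card_erase_of_mem hvP, hPc]
              rfl
          rw [mon_erase x hvP]
          set u := mon x (P.erase v) with hu'
          have e : q * (x v * u) = X * (q' * u) + q * (l₂ * u) := by
            have hxv : x v = X - l₂ := by rw [hX]; ring
            rw [hxv, hq2]
            linear_combination (Y * u) * hXX - ((X * Y + q') * l₂ * u) * h2
          rw [e]
          refine Submodule.add_mem _ (hB _ hu) (hA _ ?_)
          have := U_mul x hx W' 1 m hl₂ hu
          rwa [show m + 1 = 1 + m by ring]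
      · by_cases hwP : w ∈ P
        · have hu : mon x (P.erase w) ∈ U x W' m := by
            apply mon_mem'
            · intro t ht
              rw [Finset.mem_erase] at ht
              rw [hW', Finset.mem_erase, Finset.mem_erase]
              refine ⟨ht.1, ?_, hPW ht.2⟩
              rintro rfl
              exact hvP ht.2
            · rw [card_erase_of_mem hwP, hPc]
              rfl
          rw [mon_erase x hwP]
          set u := mon x (P.erase w) with hu'
          have e : q * (x w * u) = Y * (q' * u) + q * (l₁ * u) := by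
            have hxw : x w = Y - l₁ := by rw [hY]; ring
            rw [hxw, hq2]
            linear_combination (X * u) * hYY - ((X * Y + q') * l₁ * u) * h2
          rw [e]
          refine Submodule.add_mem _ (hC _ hu) (hA _ ?_)
          have := U_mul x hx W' 1 m hl₁ hu
          rwa [show m + 1 = 1 + m by ring]
        · apply hA
          apply mon_mem' _ _ hPc
          intro t ht
          rw [hW', Finset.mem_erase, Finset.mem_erase]
          refine ⟨?_, ?_, hPW ht⟩
          · rintro rfl
            exact hwP ht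
          · rintro rfl
            exact hvP ht
    have hih := ih n (by omega) W' hW'c m q' hq'U
    calc Module.finrank (ZMod 2) (V x W (m + 1) q) ≤ _ := Submodule.finrank_mono hle
      _ ≤ Module.finrank (ZMod 2) (V x W' (m + 1) q) + Module.finrank (ZMod 2)
        ((V x W' m q').map (LinearMap.mulLeft (ZMod 2) X) ⊔
          (V x W' m q').map (LinearMap.mulLeft (ZMod 2) Y) : Submodule (ZMod 2) R) :=
          Submodule.finrank_add_le_finrank_add_finrank _ _
      _ ≤ Nat.choose n (m + 1) + (T n m + T n m) := by
          gcongr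
          · calc _ ≤ Module.finrank (ZMod 2) (U x W' (m + 1)) := Submodule.finrank_map_le _ _
              _ ≤ W'.card.choose (m + 1) := finrank_U x W' (m + 1)
              _ = _ := by rw [hW'c]
          · refine (Submodule.finrank_add_le_finrank_add_finrank _ _).trans ?_
            gcongr
            · exact (Submodule.finrank_map_le _ _).trans hih
            · exact (Submodule.finrank_map_le _ _).trans hih
      _ = T (n + 2) (m + 1) := by rw [T]; ring

end

end Pool.Agent.Lib.MP_20855c_co
end

section

/-!
# MP_20855c_co: the bound for skew systems inside a small set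
-/

set_option autoImplicit false

namespace Pool.Agent.Lib.MP_20855c_co

open Finset

variable {σ : Type*}

/-- The ideal generated by the squares of the variables. -/
noncomputable def sqIdeal (σ : Type*) : Ideal (MvPolynomial σ (ZMod 2)) :=
  Ideal.span (Set.range fun w => MvPolynomial.X w * MvPolynomial.X w)

/-- The exponent of the squarefree monomial of a set. -/
noncomputable def ind (Q : Finset σ) : σ →₀ ℕ := ∑ w ∈ Q, Finsupp.single w 1

lemma ind_apply [DecidableEq σ] (Q : Finset σ) (v : σ) : ind Q v = if v ∈ Q then 1 else 0 := by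
  unfold ind
  rw [Finsupp.finsetSum_apply]
  simp only [Finsupp.single_apply]
  rw [Finset.sum_ite_eq' Q v]

lemma ind_add [DecidableEq σ] {D C A : Finset σ} :
    ind D + ind C = ind A ↔ C ⊆ A ∧ A \ C = D := by
  constructor
  · intro h
    have h1 : ∀ v, (if v ∈ D then 1 else 0) + (if v ∈ C then 1 else 0) =
        (if v ∈ A then 1 else 0 : ℕ) := by
      intro v
      have := DFunLike.congr_fun h v
      rw [Finsupp.add_apply, ind_apply, ind_apply, ind_apply] at this
      exact this
    constructor
    · intro v hv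
      have := h1 v
      by_contra hA
      rw [if_pos hv, if_neg hA] at this
      omega
    · ext v
      have := h1 v
      rw [mem_sdiff]
      by_cases hD : v ∈ D <;> by_cases hC : v ∈ C <;> by_cases hA : v ∈ A <;>
        simp [hD, hC, hA] at this ⊢
  · rintro ⟨h1, rfl⟩
    ext v
    rw [Finsupp.add_apply, ind_apply, ind_apply, ind_apply]
    by_cases hC : v ∈ C
    · simp [hC, h1 hC]
    · by_cases hA : v ∈ A <;> simp [hC, hA]

lemma coeff_sqIdeal {f : MvPolynomial σ (ZMod 2)} (hf : f ∈ sqIdeal σ) :
    ∀ t : σ →₀ ℕ, (∀ v, t v ≤ 1) → MvPolynomial.coeff t f = 0 := by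
  classical
  unfold sqIdeal Ideal.span at hf
  induction hf using Submodule.span_induction with
  | mem f hf =>
    obtain ⟨w, rfl⟩ := hf
    intro t ht
    have h1 : (MvPolynomial.X w * MvPolynomial.X w : MvPolynomial σ (ZMod 2)) =
        MvPolynomial.monomial (Finsupp.single w 2) 1 := by
      rw [← pow_two, MvPolynomial.X_pow_eq_monomial]
    simp only
    rw [h1, MvPolynomial.coeff_monomial, if_neg]
    rintro rfl
    have := ht w
    rw [Finsupp.single_eq_same] at this
    omega
  | zero => intro t _; simp
  | add f g _ _ hf hg =>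
    intro t ht
    rw [MvPolynomial.coeff_add, hf t ht, hg t ht, add_zero]
  | smul a f _ hf =>
    intro t ht
    rw [smul_eq_mul, MvPolynomial.coeff_mul]
    apply Finset.sum_eq_zero
    rintro ⟨s, u⟩ hsu
    rw [HasAntidiagonal.mem_antidiagonal] at hsu
    rw [hf u, mul_zero]
    intro v
    have h1 : s v + u v = t v := by
      rw [← Finsupp.add_apply]
      exact DFunLike.congr_fun hsu v
    have h2 := ht v
    omega

lemma mon_X (P : Finset σ) :
    mon (MvPolynomial.X : σ → MvPolynomial σ (ZMod 2)) P = MvPolynomial.monomial (ind P) 1 := by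
  unfold mon ind
  rw [MvPolynomial.monomial_sum_one]
  rfl

lemma mon_mk (P : Finset σ) :
    mon (fun w => Ideal.Quotient.mk (sqIdeal σ) (MvPolynomial.X w)) P =
      Ideal.Quotient.mk (sqIdeal σ) (MvPolynomial.monomial (ind P) 1) := by
  rw [← mon_X]
  unfold mon
  rw [map_prod]

variable [DecidableEq σ]

/-- The bound for a skew system of sets inside a set `W`. -/
theorem skew_bound {J : Type*} [Fintype J] (W : Finset σ) (m : ℕ) (C A : J → Finset σ)
    (D : Finset (Finset σ)) (hD : ∀ d ∈ D, d.card = 2 ∧ d ⊆ W)
    (hC : ∀ p, (C p).card = m ∧ C p ⊆ A p) (hW : ∀ p, A p ⊆ W)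
    (hA : ∀ p, A p \ C p ∈ D) (τ : J → ℕ)
    (hskew : ∀ p q, p ≠ q → τ p ≤ τ q → ¬ (C q ⊆ A p ∧ A p \ C q ∈ D)) :
    Fintype.card J ≤ T W.card m := by
  classical
  set x : σ → (MvPolynomial σ (ZMod 2) ⧸ sqIdeal σ) :=
    fun w => Ideal.Quotient.mk (sqIdeal σ) (MvPolynomial.X w) with hx
  have hxx : ∀ w, x w * x w = 0 := by
    intro w
    rw [hx]
    simp only
    rw [← map_mul, Ideal.Quotient.eq_zero_iff_mem]
    exact Ideal.subset_span ⟨w, rfl⟩
  set q := ∑ d ∈ D, mon x d with hq
  have hqU : q ∈ U x W 2 := by
    apply Submodule.sum_mem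
    intro d hd
    exact mon_mem' x (hD d hd).2 (hD d hd).1
  have hmem : ∀ p, q * mon x (C p) ∈ V x W m q := fun p =>
    mul_mem_V x (mon_mem' x ((hC p).2.trans (hW p)) (hC p).1)
  have hli : LinearIndependent (ZMod 2) (fun p => (⟨q * mon x (C p), hmem p⟩ : V x W m q)) := by
    apply LinearIndependent.of_comp (Submodule.subtype _)
    rw [Fintype.linearIndependent_iff]
    intro g hg
    simp only [Function.comp_apply, Submodule.subtype_apply] at hg
    by_contra hcon
    push Not at hcon
    obtain ⟨r0, hr0⟩ := hcon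
    obtain ⟨r, hr, hmin⟩ := Finset.exists_min_image (univ.filter fun p => g p ≠ 0) τ
      ⟨r0, by simpa using hr0⟩
    rw [mem_filter] at hr
    have hI : ∑ p, g p • (∑ d ∈ D, MvPolynomial.monomial (ind d + ind (C p)) (1 : ZMod 2)) ∈
        sqIdeal σ := by
      rw [← Ideal.Quotient.eq_zero_iff_mem, ← hg, map_sum]
      apply Finset.sum_congr rfl
      intro p _
      rw [hq, Finset.sum_mul]
      have h1 : ∀ d, mon x d * mon x (C p) = Ideal.Quotient.mk (sqIdeal σ)
          (MvPolynomial.monomial (ind d + ind (C p)) (1 : ZMod 2)) := by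
        intro d
        rw [hx, mon_mk, mon_mk, ← map_mul, MvPolynomial.monomial_mul, mul_one]
      simp_rw [h1]
      rw [← map_sum]
      rfl
    have h0 := coeff_sqIdeal hI (ind (A r)) (fun v => by
      rw [ind_apply]
      split_ifs <;> simp)
    rw [MvPolynomial.coeff_sum] at h0
    have h2 : ∀ p, MvPolynomial.coeff (ind (A r)) (g p • (∑ d ∈ D,
        MvPolynomial.monomial (ind d + ind (C p)) (1 : ZMod 2))) =
        g p * ∑ d ∈ D, (if ind d + ind (C p) = ind (A r) then 1 else 0) := by
      intro p
      rw [MvPolynomial.coeff_smul, MvPolynomial.coeff_sum, smul_eq_mul]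
      simp_rw [MvPolynomial.coeff_monomial]
    simp_rw [h2] at h0
    rw [Finset.sum_eq_single r] at h0
    · rw [Finset.sum_eq_single (A r \ C r)] at h0
      · rw [if_pos (ind_add.2 ⟨(hC r).2, rfl⟩), mul_one] at h0
        exact hr.2 h0
      · intro d _ hd
        rw [if_neg]
        intro h
        exact hd (ind_add.1 h).2.symm
      · intro h
        exact absurd (hA r) h
    · intro p _ hp
      by_cases hgp : g p = 0
      · rw [hgp, zero_mul]
      · have h3 := hskew r p (Ne.symm hp) (hmin p (by simpa using hgp))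
        rw [Finset.sum_eq_zero, mul_zero]
        intro d hd
        rw [if_neg]
        intro h
        obtain ⟨h4, h5⟩ := ind_add.1 h
        exact h3 ⟨h4, h5 ▸ hd⟩
    · intro h
      exact absurd (mem_univ r) h
  calc Fintype.card J ≤ Module.finrank (ZMod 2) (V x W m q) := hli.fintype_card_le_finrank
    _ ≤ T W.card m := rank_le x hxx W.card W rfl m q hqU

end Pool.Agent.Lib.MP_20855c_co
end
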