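import Pool.Agent.Lib.MP_20855c_co.Mg.G013
import Pool.Agent.Lib.MP_20855c_co.Mg.G012

section

/-!
# MP_20855c_co, matchings of the core graph: definitions

`SR K V` is the algebra over `K` generated by `x v`, `v ∈ V`, with `x v * x v = 0`.
`G` is a finite set of pairs, `t` gives every pair a weight and `cm G t` is the adjacency matrix.
-/

set_option autoImplicit false

namespace Pool.Agent.Lib.MP_20855c_co.Match

open Finset Pool.Agent.Lib.MP_20855c_co.Star

/-- The squarefree algebra. -/
abbrev SR (K V : Type*) [Field K] : Type _ := MvPolynomial V K ⧸ sqI K V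

/-- The generators. -/
noncomputable def x (K : Type*) {V : Type*} [Field K] (v : V) : SR K V :=
  Ideal.Quotient.mk (sqI K V) (MvPolynomial.X v)

/-- The linear form of a coefficient vector. -/
noncomputable def lf (K : Type*) {V : Type*} [Field K] [Fintype V] : (V → K) →ₗ[K] SR K V where
  toFun f := ∑ v, f v • x K v
  map_add' f g := by
    rw [← Finset.sum_add_distrib]
    exact Finset.sum_congr rfl fun v _ => by rw [Pi.add_apply, add_smul]
  map_smul' c f := by
    rw [RingHom.id_apply, Finset.smul_sum]
    exact Finset.sum_congr rfl fun v _ => by rw [Pi.smul_apply, smul_eq_mul, mul_smul]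

/-- The coefficient of the squarefree monomial of a set. -/
noncomputable def coef (K : Type*) {V : Type*} [Field K] (P : Finset V) : SR K V →ₗ[K] K :=
  Submodule.liftQ ((sqI K V).restrictScalars K) (MvPolynomial.lcoeff K (ind P)) (by
    classical
    intro f hf
    rw [LinearMap.mem_ker]
    exact coeff_sqI hf (ind P) (fun v => by
      rw [ind_apply]
      split_ifs <;> simp))

variable {V : Type*} [DecidableEq V] {K : Type*} [Field K]

/-- The adjacency matrix of `G` with weights `t`. -/
def cm (G : Finset (Finset V)) (t : Finset V → K) : Matrix V V K :=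
  fun u v => if u ≠ v ∧ ({u, v} : Finset V) ∈ G then t {u, v} else 0

/-- The quadratic element of `G` with weights `t`. -/
noncomputable def qG (G : Finset (Finset V)) (t : Finset V → K) : SR K V :=
  ∑ e ∈ G, t e • mon (x K) e

/-- The rank bound. -/
def Tn : ℕ → ℕ → ℕ → ℕ
  | 0, _, _ => 0
  | 1, _, _ => 0
  | (_ + 2), 0, _ => 0
  | (_ + 2), 1, _ => 0
  | (_ + 2), (_ + 2), 0 => 1
  | (n₀ + 2), (n + 2), (m + 1) => Nat.choose n (m + 1) + 2 * Tn n₀ n m

/-- The principal submatrix on `T`. -/
abbrev pm (c : Matrix V V K) (T : Finset V) : Matrix T T K :=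
  c.submatrix (fun v : T => (v : V)) (fun v : T => (v : V))

end Pool.Agent.Lib.MP_20855c_co.Match
end

section

set_option autoImplicit false

namespace Pool.Agent.Lib.MP_20855c_co.Match

open Finset Pool.Agent.Lib.MP_20855c_co.Star

variable {V : Type*} {K : Type*} [Field K]

lemma x_mul_self (v : V) : x K v * x K v = 0 := by
  unfold x
  rw [← map_mul, Ideal.Quotient.eq_zero_iff_mem]
  exact Ideal.subset_span ⟨v, rfl⟩

lemma coef_mon [DecidableEq V] (P Q : Finset V) :
    coef K P (mon (x K) Q) = if Q = P then 1 else 0 := by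
  have h : mon (x K) Q = Ideal.Quotient.mk (sqI K V) (MvPolynomial.monomial (ind Q) 1) :=
    mon_mkK Q
  rw [h]
  change MvPolynomial.lcoeff K (ind P) (MvPolynomial.monomial (ind Q) 1) = _
  rw [MvPolynomial.lcoeff_apply, MvPolynomial.coeff_monomial]
  congr 1
  rw [eq_iff_iff]
  constructor
  · intro h
    ext v
    have := DFunLike.congr_fun h v
    rw [ind_apply, ind_apply] at this
    by_cases h1 : v ∈ Q <;> by_cases h2 : v ∈ P <;> simp_all
  · rintro rfl
    rfl

lemma lf_mul_self [Fintype V] [CharP K 2] (f : V → K) : lf K f * lf K f = 0 := by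
  classical
  have h2 : ∀ a : SR K V, a + a = 0 := StarK.add_self' K
  have key : ∀ S : Finset V, (∑ v ∈ S, f v • x K v) * (∑ v ∈ S, f v • x K v) = 0 := by
    intro S
    induction S using Finset.induction_on with
    | empty => simp
    | insert a S ha ih =>
      rw [Finset.sum_insert ha]
      have e : (f a • x K a + ∑ v ∈ S, f v • x K v) * (f a • x K a + ∑ v ∈ S, f v • x K v) =
          (f a • x K a) * (f a • x K a) + (∑ v ∈ S, f v • x K v) * (∑ v ∈ S, f v • x K v) +
          ((f a • x K a) * (∑ v ∈ S, f v • x K v) + (f a • x K a) * (∑ v ∈ S, f v • x K v)) := by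
        ring
      rw [e, ih, h2, smul_mul_smul_comm, x_mul_self, smul_zero, add_zero, add_zero]
  exact key univ

lemma lf_single [Fintype V] [DecidableEq V] (v : V) : lf K (Pi.single v 1) = x K v := by
  change ∑ u, (Pi.single v 1 : V → K) u • x K u = x K v
  rw [Finset.sum_eq_single v]
  · rw [Pi.single_eq_same, one_smul]
  · intro u _ hu
    rw [Pi.single_eq_of_ne hu, zero_smul]
  · intro h
    exact absurd (mem_univ v) h

lemma cm_symm [DecidableEq V] (G : Finset (Finset V)) (t : Finset V → K) (u v : V) :
    cm G t u v = cm G t v u := by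
  unfold cm
  rw [Finset.pair_comm u v]
  simp only [ne_comm]

lemma cm_self [DecidableEq V] (G : Finset (Finset V)) (t : Finset V → K) (v : V) :
    cm G t v v = 0 := by
  unfold cm
  rw [if_neg]
  rintro ⟨h, _⟩
  exact h rfl

end Pool.Agent.Lib.MP_20855c_co.Match
end

section

set_option autoImplicit false
set_option linter.unusedSectionVars false

namespace Pool.Agent.Lib.MP_20855c_co.Match

open Finset Pool.Agent.Lib.MP_20855c_co.Star

variable {V : Type*} [DecidableEq V] [Fintype V] {K : Type*} [Field K]

omit [Fintype V] in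
lemma mt7_xmon (v : V) (P : Finset V) :
    x K v * mon (x K) P = if v ∈ P then 0 else mon (x K) (insert v P) := by
  have h1 : mon (x K) ({v} : Finset V) = x K v := by
    unfold mon
    rw [Finset.prod_singleton]
  rw [← h1, mon_mul (x K) x_mul_self]
  by_cases h : v ∈ P
  · rw [if_pos h, if_neg]
    rw [Finset.disjoint_singleton_left]
    exact fun hc => hc h
  · rw [if_neg h, if_pos (Finset.disjoint_singleton_left.mpr h)]
    rfl

omit [Fintype V] in
lemma mt7_step (M D : Finset V) (d v : V) (hv : v ∈ M ∨ v = d) (y : SR K V)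
    (hy : y ∈ Submodule.span K {y | ∃ P ⊆ D ∪ M, ¬ Disjoint P M ∧ y = mon (x K) P}) :
    x K v * y ∈ Submodule.span K
      {y | ∃ P ⊆ insert d D ∪ M, ¬ Disjoint P M ∧ y = mon (x K) P} := by
  induction hy using Submodule.span_induction with
  | mem y hy =>
    obtain ⟨P, hP, hPM, rfl⟩ := hy
    rw [mt7_xmon]
    split_ifs with h
    · exact Submodule.zero_mem _
    · refine Submodule.subset_span ⟨insert v P, ?_, ?_, rfl⟩
      · intro u hu
        rw [Finset.mem_insert] at hu
        rw [Finset.mem_union, Finset.mem_insert]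
        rcases hu with rfl | hu
        · rcases hv with hv | hv
          · exact Or.inr hv
          · exact Or.inl (Or.inl hv)
        · rcases Finset.mem_union.mp (hP hu) with h1 | h1
          · exact Or.inl (Or.inr h1)
          · exact Or.inr h1
      · exact fun hc => hPM (hc.mono_left (Finset.subset_insert v P))
  | zero => rw [mul_zero]; exact Submodule.zero_mem _
  | add y z _ _ h1 h2 => rw [mul_add]; exact Submodule.add_mem _ h1 h2
  | smul c y _ h1 => rw [mul_smul_comm]; exact Submodule.smul_mem _ _ h1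

omit [DecidableEq V] [Fintype V] in
lemma mt7_pow (N : Submodule K (SR K V)) (a w : SR K V) (n : ℕ) (ha : a ∈ N) (hw : w ∈ N ^ n) :
    a * w ∈ N ^ (n + 1) := by
  rw [Submodule.pow_eq_npowRec] at hw ⊢
  rw [mul_comm]
  exact Submodule.mul_mem_mul hw ha

omit [DecidableEq V] in
lemma mt7_lf (f : V → K) (y : SR K V) : lf K f * y = ∑ v, f v • (x K v * y) := by
  change (∑ v, f v • x K v) * y = _
  rw [Finset.sum_mul]
  exact Finset.sum_congr rfl fun v _ => smul_mul_assoc _ _ _

/-- MT7a. The element of a member. `X1` is a space of coefficient vectors which contains, for every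
`d ∈ D`, a vector `e_d + (vector supported on M)`. The product `w` of their linear forms is
`mon D` plus a combination of monomials of sets which meet `M` and lie in `D ∪ M`.
Proof: induction on `D` (`Finset.induction_on`): for `insert d D` multiply `w` by
`lf f = x d + ∑ m ∈ M, f m • x m`; use `mon_mul` (with `x_mul_self`) for the products of
monomials, and `mon {v} = x v`. -/
theorem exists_vec (X1 : Submodule K (V → K)) (M : Finset V) (D : Finset V)
    (hDM : Disjoint D M)
    (hX : ∀ d ∈ D, ∃ f ∈ X1, f d = 1 ∧ ∀ v, v ∉ M → v ≠ d → f v = 0) :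
    ∃ w ∈ (X1.map (lf K)) ^ D.card, w - mon (x K) D ∈
      Submodule.span K {y | ∃ P ⊆ D ∪ M, ¬ Disjoint P M ∧ y = mon (x K) P} := by
  induction D using Finset.induction_on with
  | empty =>
    refine ⟨1, ?_, ?_⟩
    · rw [Finset.card_empty, Submodule.pow_zero]
      exact Submodule.one_le.mp le_rfl
    · unfold mon
      rw [Finset.prod_empty, sub_self]
      exact Submodule.zero_mem _
  | insert d D hd ih =>
    obtain ⟨w, hw, hw'⟩ := ih (hDM.mono_left (Finset.subset_insert d D))
      (fun e he => hX e (Finset.mem_insert_of_mem he))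
    obtain ⟨f, hf, hfd, hf0⟩ := hX d (Finset.mem_insert_self d D)
    have hdM : d ∉ M := Finset.disjoint_left.mp hDM (Finset.mem_insert_self d D)
    refine ⟨lf K f * w, ?_, ?_⟩
    · rw [Finset.card_insert_of_notMem hd]
      exact mt7_pow _ _ _ _ (Submodule.mem_map_of_mem hf) hw
    · have e1 : x K d * mon (x K) D = mon (x K) (insert d D) := by
        rw [mt7_xmon, if_neg hd]
      have e2 : lf K f * w - mon (x K) (insert d D) =
          lf K f * (w - mon (x K) D) + (lf K f * mon (x K) D - x K d * mon (x K) D) := by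
        rw [e1]
        ring
      rw [e2]
      refine Submodule.add_mem _ ?_ ?_
      · rw [mt7_lf]
        refine Submodule.sum_mem _ fun v _ => ?_
        by_cases hv : v ∈ M ∨ v = d
        · exact Submodule.smul_mem _ _ (mt7_step M D d v hv _ hw')
        · push Not at hv
          rw [hf0 v hv.1 hv.2, zero_smul]
          exact Submodule.zero_mem _
      · have e3 : lf K f * mon (x K) D - x K d * mon (x K) D =
            ∑ v ∈ univ.erase d, f v • (x K v * mon (x K) D) := by
          rw [mt7_lf, ← Finset.add_sum_erase _ _ (Finset.mem_univ d), hfd, one_smul]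
          ring
        rw [e3]
        refine Submodule.sum_mem _ fun v hv => ?_
        have hvd : v ≠ d := (Finset.mem_erase.mp hv).1
        by_cases hvM : v ∈ M
        · refine Submodule.smul_mem _ _ ?_
          rw [mt7_xmon]
          split_ifs with h
          · exact Submodule.zero_mem _
          · refine Submodule.subset_span ⟨insert v D, ?_, ?_, rfl⟩
            · intro u hu
              rw [Finset.mem_union, Finset.mem_insert]
              rcases Finset.mem_insert.mp hu with rfl | hu
              · exact Or.inr hvM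
              · exact Or.inl (Or.inr hu)
            · exact fun hc => Finset.disjoint_left.mp hc (Finset.mem_insert_self v D) hvM
        · rw [hf0 v hvM hvd, zero_smul]
          exact Submodule.zero_mem _

omit [Fintype V] in
lemma mt7_coef (A e P : Finset V) : coef K A (mon (x K) e * mon (x K) P) =
    if Disjoint e P ∧ e ∪ P = A then 1 else 0 := by
  rw [mon_mul (x K) x_mul_self]
  by_cases h : Disjoint e P
  · rw [if_pos h, coef_mon]
    by_cases h' : e ∪ P = A
    · rw [if_pos h', if_pos ⟨h, h'⟩]
    · rw [if_neg h', if_neg (fun hc => h' hc.2)]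
  · rw [if_neg h, map_zero, if_neg (fun hc => h hc.1)]

omit [Fintype V] in
lemma mt7_q (G : Finset (Finset V)) (t : Finset V → K) (A P : Finset V) :
    coef K A (qG G t * mon (x K) P) =
      ∑ e ∈ G, t e * (if Disjoint e P ∧ e ∪ P = A then 1 else 0) := by
  unfold qG
  rw [Finset.sum_mul, map_sum]
  refine Finset.sum_congr rfl fun e _ => ?_
  rw [smul_mul_assoc, map_smul, mt7_coef, smul_eq_mul]

omit [Fintype V] in
lemma mt7_span (G : Finset (Finset V)) (t : Finset V → K) (A : Finset V) (S : Finset V → Prop)
    (w : SR K V) (hw : w ∈ Submodule.span K {y | ∃ P, S P ∧ y = mon (x K) P})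
    (h : ∀ P, S P → ∀ e ∈ G, ¬ (Disjoint e P ∧ e ∪ P = A)) : coef K A (qG G t * w) = 0 := by
  induction hw using Submodule.span_induction with
  | mem y hy =>
    obtain ⟨P, hP, rfl⟩ := hy
    rw [mt7_q]
    refine Finset.sum_eq_zero fun e he => ?_
    rw [if_neg (h P hP e he), mul_zero]
  | zero => rw [mul_zero, map_zero]
  | add y z _ _ h1 h2 => rw [mul_add, map_add, h1, h2, add_zero]
  | smul c y _ h1 => rw [mul_smul_comm, map_smul, h1, smul_zero]

/-- MT7b. The coefficient of `A` in `q * w` is zero if `w` is a combination of monomials of subsets of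
`F` and `A \ e` is not contained in `F` for all `e ∈ G`. Proof: by linearity `w = mon P`, `P ⊆ F`;
`coef A (mon e * mon P)` is `1` if `Disjoint e P` and `e ∪ P = A` and `0` otherwise (`mon_mul`,
`coef_mon`); in the first case `A \ e = P ⊆ F`. -/
theorem coef_zero (G : Finset (Finset V)) (t : Finset V → K) (A F : Finset V) (w : SR K V)
    (hw : w ∈ Submodule.span K {y | ∃ P ⊆ F, y = mon (x K) P})
    (h : ∀ e ∈ G, ¬ A \ e ⊆ F) : coef K A (qG G t * w) = 0 := by
  refine mt7_span G t A (fun P => P ⊆ F) w hw ?_
  rintro P hP e he ⟨h1, rfl⟩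
  apply h e he
  rw [Finset.union_sdiff_cancel_left h1]
  exact hP

/-- MT7c. The diagonal coefficient. Proof: for `P` with `¬ Disjoint P M` the set `e ∪ P` is never `A`
(`Disjoint A M`), so the span part contributes `0`; for `mon D`: `Disjoint e D` and `e ∪ D = A` hold
for exactly one `e`, namely `A \ D`, which is in `G`. -/
theorem coef_diag (G : Finset (Finset V)) (t : Finset V → K) (A D M : Finset V) (w : SR K V)
    (hDA : D ⊆ A) (hAM : Disjoint A M) (hG : A \ D ∈ G)
    (hw : w - mon (x K) D ∈
      Submodule.span K {y | ∃ P ⊆ D ∪ M, ¬ Disjoint P M ∧ y = mon (x K) P}) :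
    coef K A (qG G t * w) = t (A \ D) := by
  have e1 : qG G t * w = qG G t * (w - mon (x K) D) + qG G t * mon (x K) D := by ring
  have h0 : coef K A (qG G t * (w - mon (x K) D)) = 0 := by
    refine mt7_span G t A (fun P => P ⊆ D ∪ M ∧ ¬ Disjoint P M) _ ?_ ?_
    · have e : {y : SR K V | ∃ P ⊆ D ∪ M, ¬ Disjoint P M ∧ y = mon (x K) P} =
          {y | ∃ P, (P ⊆ D ∪ M ∧ ¬ Disjoint P M) ∧ y = mon (x K) P} := by
        ext y
        constructor
        · rintro ⟨P, h1, h2, h3⟩
          exact ⟨P, ⟨h1, h2⟩, h3⟩
        · rintro ⟨P, ⟨h1, h2⟩, h3⟩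
          exact ⟨P, h1, h2, h3⟩
      rw [← e]
      exact hw
    · rintro P ⟨-, hP⟩ e _ ⟨_, rfl⟩
      exact hP (hAM.mono_left Finset.subset_union_right)
  rw [e1, map_add, h0, zero_add, mt7_q, Finset.sum_eq_single (A \ D)]
  · rw [if_pos ⟨Finset.sdiff_disjoint, Finset.sdiff_union_of_subset hDA⟩, mul_one]
  · intro e _ he
    rw [if_neg, mul_zero]
    rintro ⟨h1, rfl⟩
    exact he (Finset.union_sdiff_cancel_right h1).symm
  · exact fun hc => absurd hG hc

end Pool.Agent.Lib.MP_20855c_co.Match
end

section

set_option autoImplicit false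

namespace Pool.Agent.Lib.MP_20855c_co.Match

open Finset Pool.Agent.Lib.MP_20855c_co.Star

variable {V : Type*} [DecidableEq V] {K : Type*} [Field K] [CharP K 2]

theorem mt1_exists_inv {ι : Type*} [DecidableEq ι] [Fintype ι] (A : Matrix ι ι K)
    (hs : ∀ u v, A u v = A v u) (h : A.det ≠ 0) :
    ∃ σ : Equiv.Perm ι, σ⁻¹ = σ ∧ ∀ i, A (σ i) i ≠ 0 := by
  by_contra hne
  push Not at hne
  apply h
  rw [Matrix.det_apply]
  refine Finset.sum_involution (fun σ _ => σ⁻¹) (fun σ _ => ?_) (fun σ _ hσ => ?_)
    (fun σ _ => mem_univ _) (fun σ _ => inv_inv σ)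
  · have h1 : ∏ i, A (σ⁻¹ i) i = ∏ i, A (σ i) i := by
      rw [← Equiv.prod_comp σ (fun i => A (σ⁻¹ i) i)]
      refine Finset.prod_congr rfl fun i _ => ?_
      have h2 : σ⁻¹ (σ i) = i := σ.symm_apply_apply i
      rw [h2, hs]
    rw [h1, Equiv.Perm.sign_inv]
    exact CharTwo.add_self_eq_zero _
  · intro he
    obtain ⟨i, hi⟩ := hne σ he
    have hp : ∏ i, A (σ i) i = 0 := Finset.prod_eq_zero (mem_univ i) hi
    exact hσ (by rw [hp, smul_zero])

/-- MT1. If a principal minor of `cm G t` is not zero then `G` has a perfect matching on it. -/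
theorem exists_matching_of_det_ne_zero (G : Finset (Finset V)) (t : Finset V → K) (T : Finset V)
    (h : (pm (cm G t) T).det ≠ 0) : ∃ M ⊆ G, IsMatching M ∧ cov M = T := by
  obtain ⟨σ, hσ, hA⟩ := mt1_exists_inv (pm (cm G t) T) (fun u v => by
    simp only [Matrix.submatrix_apply, cm]
    rw [Finset.pair_comm (u : V) (v : V)]
    simp only [ne_comm]) h
  have hσσ : ∀ i, σ (σ i) = i := fun i => by
    have h2 : σ⁻¹ (σ i) = i := σ.symm_apply_apply i
    rwa [hσ] at h2
  have hne : ∀ i : T, (i : V) ≠ σ i ∧ ({(i : V), (σ i : V)} : Finset V) ∈ G := fun i => by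
    have h1 := hA i
    simp only [Matrix.submatrix_apply, cm] at h1
    have h2 : (σ i : V) ≠ i ∧ ({(σ i : V), (i : V)} : Finset V) ∈ G := by
      by_contra h3
      exact h1 (if_neg h3)
    exact ⟨h2.1.symm, by rw [Finset.pair_comm]; exact h2.2⟩
  refine ⟨univ.image (fun i : T => ({(i : V), (σ i : V)} : Finset V)), ?_, ⟨?_, ?_⟩, ?_⟩
  · intro e he
    obtain ⟨i, -, rfl⟩ := mem_image.1 he
    exact (hne i).2
  · intro e he
    obtain ⟨i, -, rfl⟩ := mem_image.1 he
    exact Finset.card_pair (hne i).1
  · intro e he f hf hef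
    obtain ⟨i, -, rfl⟩ := mem_image.1 he
    obtain ⟨j, -, rfl⟩ := mem_image.1 hf
    rw [Finset.disjoint_left]
    intro x hx hy
    apply hef
    simp only [mem_insert, mem_singleton] at hx hy
    rcases hx with hx | hx <;> rcases hy with hy | hy
    · rw [Subtype.ext (hx.symm.trans hy)]
    · have h1 : i = σ j := Subtype.ext (hx.symm.trans hy)
      rw [h1, hσσ, Finset.pair_comm]
    · have h1 : σ i = j := Subtype.ext (hx.symm.trans hy)
      rw [← h1, hσσ, Finset.pair_comm]
    · have h1 : i = j := σ.injective (Subtype.ext (hx.symm.trans hy))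
      rw [h1]
  · ext x
    rw [mem_cov]
    constructor
    · rintro ⟨e, he, hx⟩
      obtain ⟨i, -, rfl⟩ := mem_image.1 he
      simp only [mem_insert, mem_singleton] at hx
      rcases hx with rfl | rfl
      · exact i.2
      · exact (σ i).2
    · intro hx
      exact ⟨_, mem_image_of_mem _ (mem_univ (⟨x, hx⟩ : T)), by simp⟩

/-- MT1'. If `t` is `1` on the matching `M` and `0` on all other pairs of `G`, the principal minor of
`cm G t` on `cov M` is not zero (the matrix is its own inverse). -/
theorem det_matching (G M : Finset (Finset V)) (t : Finset V → K) (hMG : M ⊆ G)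
    (hM : IsMatching M) (h1 : ∀ e ∈ M, t e = 1) (h0 : ∀ e ∈ G, e ∉ M → t e = 0) :
    (pm (cm G t) (cov M)).det ≠ 0 := by
  have hc : ∀ u v : V, cm G t u v = if ({u, v} : Finset V) ∈ M then 1 else 0 := by
    intro u v
    unfold cm
    by_cases hm : ({u, v} : Finset V) ∈ M
    · have huv : u ≠ v := by
        rintro rfl
        have := hM.1 _ hm
        simp at this
      rw [if_pos ⟨huv, hMG hm⟩, if_pos hm, h1 _ hm]
    · rw [if_neg hm]
      split_ifs with h
      · exact h0 _ h.2 hm
      · rfl
  have hAA : pm (cm G t) (cov M) * pm (cm G t) (cov M) = 1 := by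
    ext u w
    rw [Matrix.mul_apply]
    simp only [Matrix.submatrix_apply, hc]
    obtain ⟨e, he, hue⟩ := mem_cov.1 u.2
    obtain ⟨a, b, hab, rfl⟩ := Finset.card_eq_two.1 (hM.1 e he)
    obtain ⟨v, huv, hv⟩ : ∃ v, (u : V) ≠ v ∧ ({(u : V), v} : Finset V) ∈ M := by
      simp only [mem_insert, mem_singleton] at hue
      rcases hue with hu | hu
      · exact ⟨b, hu ▸ hab, by rw [hu]; exact he⟩
      · exact ⟨a, hu ▸ hab.symm, by rw [hu, Finset.pair_comm]; exact he⟩
    have hvc : v ∈ cov M := mem_cov.2 ⟨_, hv, by simp⟩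
    rw [Finset.sum_eq_single (⟨v, hvc⟩ : cov M)]
    · rw [if_pos hv, one_mul]
      by_cases huw : u = w
      · subst huw
        rw [Matrix.one_apply_eq, Finset.pair_comm, if_pos hv]
      · rw [Matrix.one_apply_ne huw, if_neg]
        intro hm
        have h3 := hM.eq hv hm (x := v) (by simp) (by simp)
        have h4 : (u : V) ∈ ({v, (w : V)} : Finset V) := by rw [← h3]; simp
        simp only [mem_insert, mem_singleton] at h4
        rcases h4 with h4 | h4
        · exact huv h4
        · exact huw (Subtype.ext h4)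
    · intro v' _ hv'
      rw [if_neg, zero_mul]
      intro hm
      apply hv'
      have h3 := hM.eq hv hm (x := (u : V)) (by simp) (by simp)
      have h4 : (v' : V) ∈ ({(u : V), v} : Finset V) := by rw [h3]; simp
      simp only [mem_insert, mem_singleton] at h4
      rcases h4 with h4 | h4
      · exfalso
        have h5 := hM.1 _ hm
        rw [h4] at h5
        simp at h5
      · exact Subtype.ext h4
    · intro h
      exact absurd (mem_univ _) h
  intro h
  have h2 := congrArg Matrix.det hAA
  rw [Matrix.det_mul, h, zero_mul, Matrix.det_one] at h2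
  exact zero_ne_one h2

end Pool.Agent.Lib.MP_20855c_co.Match
end

section

set_option autoImplicit false

namespace Pool.Agent.Lib.MP_20855c_co.Match

open Finset Pool.Agent.Lib.MP_20855c_co.Star

universe u

/-- MT8. Generic weights. Take `K = FractionRing (MvPolynomial (Finset V) (ZMod 2))` and
`t e` the image of the variable `X e`. `K` has characteristic 2 and is infinite (the polynomial ring
is infinite and embeds). For a matching `M ⊆ G` the determinant of `pm (cm G t) (cov M)` is the image
of the determinant of `pm (cm G X) (cov M)` over the polynomial ring (define the matrix with the same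
formula over the polynomial ring; `RingHom.map_det`), and the evaluation `X e ↦ 1` for `e ∈ M`,
`X e ↦ 0` otherwise sends that determinant to the one of `det_matching` over the field `ZMod 2`, which
is not zero. (`cm` is defined over a field; for the polynomial ring write the matrix out.) -/
theorem exists_coeffs {V : Type u} [DecidableEq V] (G : Finset (Finset V)) :
    ∃ (K : Type u) (_ : Field K) (_ : CharP K 2) (_ : Infinite K) (t : Finset V → K),
      (∀ e, t e ≠ 0) ∧
      ∀ M ⊆ G, IsMatching M → (pm (cm G t) (cov M)).det ≠ 0 := by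
  let A := MvPolynomial (Finset V) (ZMod 2)
  let K := FractionRing A
  have hinj : Function.Injective (algebraMap A K) := IsFractionRing.injective A K
  have : Infinite A := inferInstance
  refine ⟨K, inferInstance, charP_of_injective_algebraMap hinj 2, Infinite.of_injective _ hinj,
    fun e => algebraMap A K (MvPolynomial.X e), fun e => ?_, fun M hM hMm => ?_⟩
  · rw [Ne, ← map_zero (algebraMap A K), hinj.eq_iff]
    exact MvPolynomial.X_ne_zero e
  · let D : Matrix (cov M) (cov M) A := Matrix.of fun u v =>
      if u.1 ≠ v.1 ∧ ({u.1, v.1} : Finset V) ∈ G then MvPolynomial.X {u.1, v.1} else 0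
    have h1 : pm (cm G fun e => algebraMap A K (MvPolynomial.X e)) (cov M) =
        (algebraMap A K).mapMatrix D := by
      ext u v
      change (if u.1 ≠ v.1 ∧ ({u.1, v.1} : Finset V) ∈ G then
        algebraMap A K (MvPolynomial.X {u.1, v.1}) else 0) = algebraMap A K
        (if u.1 ≠ v.1 ∧ ({u.1, v.1} : Finset V) ∈ G then MvPolynomial.X {u.1, v.1} else 0)
      split_ifs
      · rfl
      · exact (map_zero _).symm
    let t' : Finset V → ZMod 2 := fun e => if e ∈ M then 1 else 0
    have h2 : pm (cm G t') (cov M) = (MvPolynomial.eval t').mapMatrix D := by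
      ext u v
      change (if u.1 ≠ v.1 ∧ ({u.1, v.1} : Finset V) ∈ G then t' {u.1, v.1} else 0) =
        MvPolynomial.eval t'
        (if u.1 ≠ v.1 ∧ ({u.1, v.1} : Finset V) ∈ G then MvPolynomial.X {u.1, v.1} else 0)
      split_ifs
      · exact (MvPolynomial.eval_X _).symm
      · exact (map_zero _).symm
    have h3 : (pm (cm G t') (cov M)).det ≠ 0 :=
      det_matching G M t' hM hMm (fun e he => if_pos he) (fun e _ he => if_neg he)
    rw [h2, ← RingHom.map_det] at h3
    rw [h1, ← RingHom.map_det]
    intro h4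
    rw [← map_zero (algebraMap A K), hinj.eq_iff] at h4
    rw [h4, map_zero] at h3
    exact h3 rfl

end Pool.Agent.Lib.MP_20855c_co.Match
end

section

set_option autoImplicit false

namespace Pool.Agent.Lib.MP_20855c_co.Match

open Finset

/-- MT6. The closed form of the rank bound. Induction on `ν` with `k` and `b` universally quantified:
`n₀ ≤ 1` gives `0`; otherwise `ν ≥ 1`, `k + b = n + 2`; for `k = 0` the value is `1`, the term
`j = 0` of the sum (`min ν 1 = 1`); for `k = k' + 1` use the recursion with
`n₀ - 2 ≤ 2 (ν - 1)`, `k'`, `b - 1`, and shift the index of the sum by one (`Finset.sum_range_succ'`). -/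
theorem Tn_le (ν : ℕ) : ∀ (n₀ k b : ℕ), n₀ ≤ 2 * ν → k + 2 ≤ b →
    Tn n₀ (k + b) k ≤
      ∑ j ∈ range (min ν (k + 1)), 2 ^ j * (k + b - 2 - 2 * j).choose (k - j) := by
  induction ν with
  | zero =>
    intro n₀ k b h0 _
    have : n₀ = 0 := by omega
    subst this
    simp [Tn]
  | succ ν ih =>
    intro n₀ k b h0 hkb
    match n₀, h0 with
    | 0, _ => simp [Tn]
    | 1, _ => simp [Tn]
    | n₀ + 2, h0 =>
      obtain ⟨n, hn⟩ : ∃ n, k + b = n + 2 := ⟨k + b - 2, by omega⟩
      cases k with
      | zero =>
        rw [hn, Tn]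
        have h1 : min (ν + 1) (0 + 1) = 1 := by omega
        rw [h1, Finset.sum_range_one]
        simp
      | succ k =>
        have h1 : min (ν + 1) (k + 1 + 1) = min ν (k + 1) + 1 := by omega
        rw [hn, Tn, h1, Finset.sum_range_succ']
        have h2 := ih n₀ k (b - 1) (by omega) (by omega)
        have h3 : k + (b - 1) = n := by omega
        rw [h3] at h2
        have h4 : n + 2 - 2 - 2 * 0 = n := by omega
        rw [h4, pow_zero, one_mul, Nat.sub_zero, Nat.add_comm]
        refine Nat.add_le_add ?_ le_rfl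
        refine (Nat.mul_le_mul_left 2 h2).trans ?_
        rw [Finset.mul_sum]
        refine Finset.sum_le_sum fun j _ => ?_
        have h5 : n + 2 - 2 - 2 * (j + 1) = n - 2 - 2 * j := by omega
        have h6 : k + 1 - (j + 1) = k - j := by omega
        rw [h5, h6, pow_succ]
        exact le_of_eq (by ring)

end Pool.Agent.Lib.MP_20855c_co.Match
end

section

set_option autoImplicit false

namespace Pool.Agent.Lib.MP_20855c_co.Match

open Finset Pool.Agent.Lib.MP_20855c_co.Star

theorem mt2_supp {V : Type*} [DecidableEq V] [Fintype V] {K : Type*} [Field K]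
    (c : Matrix V V K) (T : Finset V) (x : V → K) (hx : ∀ v ∉ T, x v = 0) (v : T) :
    c.mulVec x v = (pm c T).mulVec (fun u : T => x u) v := by
  simp only [Matrix.mulVec, dotProduct, Matrix.submatrix_apply]
  rw [Finset.sum_coe_sort T (fun u => c v u * x u)]
  exact (Finset.sum_subset (Finset.subset_univ T) fun u _ hu => by rw [hx u hu, mul_zero]).symm

theorem mt2_dot {V : Type*} [DecidableEq V] [Fintype V] {K : Type*} [Field K] (S : Finset V) (m : V)
    (l f : V → K) (h1 : l m = 1) (h0 : ∀ v ∉ S, v ≠ m → l v = 0) (hf : ∀ v ∈ S, f v = 0) :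
    l ⬝ᵥ f = f m := by
  rw [dotProduct, Finset.sum_eq_single m]
  · rw [h1, one_mul]
  · intro v _ hv
    by_cases hvS : v ∈ S
    · rw [hf v hvS, mul_zero]
    · rw [h0 v hvS hv, zero_mul]
  · intro h
    exact absurd (mem_univ m) h

theorem mt2_symm {V : Type*} [DecidableEq V] [Fintype V] {K : Type*} [Field K] (c : Matrix V V K)
    (hs : ∀ u v, c u v = c v u) (x y : V → K) : x ⬝ᵥ c.mulVec y = y ⬝ᵥ c.mulVec x := by
  simp only [dotProduct, Matrix.mulVec, Finset.mul_sum]
  rw [Finset.sum_comm]
  exact Finset.sum_congr rfl fun u _ => Finset.sum_congr rfl fun v _ => by rw [hs v u]; ring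

theorem mt2_alt {V : Type*} [DecidableEq V] [Fintype V] {K : Type*} [Field K] [CharP K 2]
    (c : Matrix V V K) (hs : ∀ u v, c u v = c v u) (hz : ∀ v, c v v = 0) (x : V → K) :
    x ⬝ᵥ c.mulVec x = 0 := by
  simp only [dotProduct, Matrix.mulVec, Finset.mul_sum]
  rw [← Finset.sum_product']
  refine Finset.sum_involution (fun p _ => (p.2, p.1)) (fun p _ => ?_) (fun p _ hp he => hp ?_)
    (fun p _ => by simp) (fun p _ => rfl)
  · dsimp only
    rw [hs p.2 p.1, show x p.2 * (c p.1 p.2 * x p.1) = x p.1 * (c p.1 p.2 * x p.2) by ring]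
    exact CharTwo.add_self_eq_zero _
  · have : p.2 = p.1 := congrArg Prod.fst he
    rw [this, hz, zero_mul, mul_zero]

theorem mt2_lam {V : Type*} [DecidableEq V] [Fintype V] {K : Type*} [Field K]
    (c : Matrix V V K) (S : Finset V) (hS : (pm c S).det ≠ 0) (m : V) (hm : m ∉ S) :
    ∃ l : V → K, l m = 1 ∧ (∀ v ∉ S, v ≠ m → l v = 0) ∧ ∀ v ∈ S, c.mulVec l v = 0 := by
  set a : S → K := (pm c S)⁻¹.mulVec (fun v : S => - c v m) with ha
  have ha2 : (pm c S).mulVec a = fun v : S => - c v m := by
    rw [ha, Matrix.mulVec_mulVec, Matrix.mul_nonsing_inv _ (isUnit_iff_ne_zero.2 hS),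
      Matrix.one_mulVec]
  set x : V → K := fun v => if h : v ∈ S then a ⟨v, h⟩ else 0 with hx
  refine ⟨x + Pi.single m 1, ?_, ?_, ?_⟩
  · simp [hx, hm]
  · intro v hv hvm
    simp [hx, hv, hvm]
  · intro v hv
    rw [Matrix.mulVec_add, Pi.add_apply, mt2_supp c S x (fun v hv => by simp [hx, hv]) ⟨v, hv⟩]
    have h1 : (fun u : S => x u) = a := by
      ext u
      simp [hx]
    rw [h1, ha2]
    simp

variable {V : Type*} [DecidableEq V] [Fintype V] {K : Type*} [Field K] [CharP K 2]

/-- MT2. `c` is a symmetric matrix with zero diagonal over a field of characteristic 2, the principal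
submatrix on `S` is nonsingular, and the principal minors on `S ∪ {w, m}` are zero. Then a vector
`c b` which vanishes on `S` is zero. -/
theorem mulVec_eq_zero (c : Matrix V V K) (hs : ∀ u v, c u v = c v u) (hz : ∀ v, c v v = 0)
    (S : Finset V) (hS : (pm c S).det ≠ 0)
    (h2 : ∀ w ∉ S, ∀ m ∉ S, w ≠ m → (pm c (insert w (insert m S))).det = 0)
    (b : V → K) (hb : ∀ v ∈ S, c.mulVec b v = 0) : c.mulVec b = 0 := by
  have hinj : ∀ x : V → K, (∀ v ∉ S, x v = 0) → (∀ v ∈ S, c.mulVec x v = 0) → x = 0 := by
    intro x hx hc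
    have h3 : (pm c S).mulVec (fun u : S => x u) = 0 := by
      ext v
      rw [← mt2_supp c S x hx v]
      exact hc v v.2
    have h4 : (fun u : S => x u) = 0 := by
      have := congrArg ((pm c S)⁻¹.mulVec) h3
      rwa [Matrix.mulVec_mulVec, Matrix.nonsing_inv_mul _ (isUnit_iff_ne_zero.2 hS),
        Matrix.one_mulVec, Matrix.mulVec_zero] at this
    ext v
    by_cases hv : v ∈ S
    · exact congrFun h4 ⟨v, hv⟩
    · exact hx v hv
  have key : ∀ m ∉ S, ∀ l : V → K, l m = 1 → (∀ v ∉ S, v ≠ m → l v = 0) →
      (∀ v ∈ S, c.mulVec l v = 0) → c.mulVec l = 0 := by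
    intro m hm l l1 l0 lS
    ext w
    by_cases hw : w ∈ S
    · exact lS w hw
    rw [Pi.zero_apply]
    by_cases hwm : w = m
    · subst hwm
      rw [← mt2_dot S w l _ l1 l0 lS, mt2_alt c hs hz]
    by_contra hne
    obtain ⟨l', l1', l0', lS'⟩ := mt2_lam c S hS w hw
    have hsym : c.mulVec l' m = c.mulVec l w := by
      rw [← mt2_dot S m l _ l1 l0 lS', ← mt2_dot S w l' _ l1' l0' lS, mt2_symm c hs]
    have haltm : c.mulVec l m = 0 := by rw [← mt2_dot S m l _ l1 l0 lS, mt2_alt c hs hz]
    have haltw : c.mulVec l' w = 0 := by rw [← mt2_dot S w l' _ l1' l0' lS', mt2_alt c hs hz]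
    obtain ⟨T, hT⟩ : ∃ T, T = insert w (insert m S) := ⟨_, rfl⟩
    have hdet := h2 w hw m hm hwm
    rw [← hT] at hdet
    obtain ⟨y, hy0, hy⟩ := Matrix.exists_mulVec_eq_zero_iff.2 hdet
    set Y : V → K := fun v => if h : v ∈ T then y ⟨v, h⟩ else 0 with hY
    have hYT : ∀ v ∉ T, Y v = 0 := fun v hv => by simp only [hY]; exact dif_neg hv
    have hYy : (fun u : T => Y u) = y := by
      ext u
      simp [hY]
    have hcY : ∀ v ∈ T, c.mulVec Y v = 0 := fun v hv => by
      rw [mt2_supp c T Y hYT ⟨v, hv⟩, hYy, hy]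
      rfl
    have hZ : Y - (Y m • l + Y w • l') = 0 := by
      apply hinj
      · intro v hv
        simp only [Pi.sub_apply, Pi.add_apply, Pi.smul_apply, smul_eq_mul]
        by_cases hvm : v = m
        · subst hvm
          rw [l1, l0' v hv (fun h => hwm h.symm)]
          ring
        · by_cases hvw : v = w
          · subst hvw
            rw [l1', l0 v hv hvm]
            ring
          · rw [l0 v hv hvm, l0' v hv hvw, hYT v (by simp [hT, hv, hvm, hvw])]
            ring
      · intro v hv
        rw [Matrix.mulVec_sub, Matrix.mulVec_add, Matrix.mulVec_smul, Matrix.mulVec_smul]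
        simp only [Pi.sub_apply, Pi.add_apply, Pi.smul_apply, smul_eq_mul]
        rw [hcY v (by simp [hT, hv]), lS v hv, lS' v hv]
        ring
    have hYe : Y = Y m • l + Y w • l' := sub_eq_zero.1 hZ
    have hm0 : Y m = 0 := by
      have h5 := hcY w (by simp [hT])
      rw [hYe, Matrix.mulVec_add, Matrix.mulVec_smul, Matrix.mulVec_smul] at h5
      simp only [Pi.add_apply, Pi.smul_apply, smul_eq_mul, haltw, mul_zero, add_zero] at h5
      exact (mul_eq_zero.1 h5).resolve_right hne
    have hw0 : Y w = 0 := by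
      have h5 := hcY m (by simp [hT])
      rw [hYe, Matrix.mulVec_add, Matrix.mulVec_smul, Matrix.mulVec_smul] at h5
      simp only [Pi.add_apply, Pi.smul_apply, smul_eq_mul, haltm, hsym, mul_zero, zero_add] at h5
      exact (mul_eq_zero.1 h5).resolve_right hne
    rw [hm0, hw0, zero_smul, zero_smul, add_zero] at hYe
    apply hy0
    rw [← hYy, hYe]
    rfl
  ext m
  by_cases hm : m ∈ S
  · exact hb m hm
  obtain ⟨l, l1, l0, lS⟩ := mt2_lam c S hS m hm
  rw [← mt2_dot S m l _ l1 l0 hb, mt2_symm c hs, key m hm l l1 l0 lS, dotProduct_zero]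
  rfl

end Pool.Agent.Lib.MP_20855c_co.Match
end
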