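import Mathlib
import Pool.Agent.Lib.MP_20855c_co.Mg.G012

section

set_option autoImplicit false

namespace Pool.Agent.Lib.MP_20855c_co.Star

open Finset

variable {α : Type*} [DecidableEq α]

/-- The set without its full pairs. -/
private def st1_cl (M : Finset (Finset α)) (P : Finset α) : Finset α := P \ (full M P).biUnion id

/-- The pairs disjoint from `R`. -/
private def st1_E (M : Finset (Finset α)) (R : Finset α) : Finset (Finset α) :=
  M.filter fun e => Disjoint e R

private lemma st1_mem_cl {M : Finset (Finset α)} {P : Finset α} {x : α} :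
    x ∈ st1_cl M P ↔ x ∈ P ∧ ∀ f ∈ full M P, x ∉ f := by
  simp only [st1_cl, Finset.mem_sdiff, Finset.mem_biUnion, id, not_exists, not_and]

private lemma st1_mem_E {M : Finset (Finset α)} {R e : Finset α} :
    e ∈ st1_E M R ↔ e ∈ M ∧ Disjoint e R := by
  rw [st1_E, Finset.mem_filter]

private lemma st1_E_cl {M : Finset (Finset α)} (hM : IsMatching M) (P : Finset α) :
    st1_E M (st1_cl M P) = full M P ∪ free M P := by
  ext e
  rw [Finset.mem_union, st1_mem_E, mem_full, mem_free]
  constructor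
  · rintro ⟨he, hd⟩
    by_contra hcon
    rw [not_or] at hcon
    obtain ⟨h1, h2⟩ := hcon
    have h3 : ¬ Disjoint e P := fun h => h2 ⟨he, h⟩
    rw [Finset.not_disjoint_iff] at h3
    obtain ⟨x, hxe, hxP⟩ := h3
    refine Finset.disjoint_left.1 hd hxe (st1_mem_cl.2 ⟨hxP, fun f hf hxf => ?_⟩)
    obtain ⟨hfM, hfP⟩ := mem_full.1 hf
    exact h1 ⟨he, hM.eq he hfM hxe hxf ▸ hfP⟩
  · rintro (⟨he, h⟩ | ⟨he, h⟩)
    · refine ⟨he, Finset.disjoint_left.2 fun x hxe hx => ?_⟩
      exact (st1_mem_cl.1 hx).2 e (mem_full.2 ⟨he, h⟩) hxe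
    · exact ⟨he, h.mono_right Finset.sdiff_subset⟩

private lemma st1_card_E {M : Finset (Finset α)} (hM : IsMatching M) (P : Finset α) :
    (st1_E M (st1_cl M P)).card = (full M P).card + (free M P).card := by
  rw [st1_E_cl hM, Finset.card_union_of_disjoint]
  refine Finset.disjoint_left.2 fun e h1 h2 => ?_
  obtain ⟨he, h3⟩ := mem_full.1 h1
  obtain ⟨-, h4⟩ := mem_free.1 h2
  have h5 := h4.mono_right h3
  rw [disjoint_self, Finset.bot_eq_empty] at h5
  have h6 := hM.1 e he
  rw [h5] at h6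
  simp at h6

/-- ST1 (choice lemma). `M` is a set of pairwise disjoint pairs, `Δ` a finite family of finite sets,
each with at least one unsplit pair. Then there are a subfamily `Δ'` and for each `P ∈ Δ'` a set
`K P = P ∪ e` with `e ∈ M` disjoint from `P`, such that no `K P` is `Q ∪ e'` with `e' ∈ M` for another
member `Q` of `Δ'`, and `|Δ'| ≥ ∑_{P ∈ Δ} phi M P`.

Proof. For a set `P` let `cl P = P \ ⋃ (full M P)` (remove the full pairs). A pair `e ∈ M` is
disjoint from `cl P` iff it is unsplit for `P` (full: it was removed; free: clear; split: the common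
point `x` lies in no full pair because the pairs are pairwise disjoint, so `x ∈ cl P`). So with
`E R = {e ∈ M : Disjoint e R}` the number `|full M P| + |free M P|` is `|E (cl P)| > 0`, it depends
only on the class `R = cl P`. For each class `R` in `Δ.image cl` choose `e* R ∈ E R` which maximizes
`c(e) = #{P ∈ Δ : cl P = R ∧ Disjoint e P}` (Finset.exists_max_image). Double counting:
`∑_{e ∈ E R} c(e) = ∑_{P ∈ Δ, cl P = R} |free M P|`, so `|E R| * c(e* R) ≥ ∑_{P} |free M P|`, that is
`c(e* R) ≥ ∑_{P ∈ Δ, cl P = R} phi M P`. Let `Δ' = {P ∈ Δ : Disjoint (e* (cl P)) P}` and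
`K P = P ∪ e* (cl P)`. Summing over the classes gives the last claim.
`K P \ P = e* (cl P) ∈ M` for `P ∈ Δ'`. If `P, Q ∈ Δ'`, `Q ⊆ K P` and `e := K P \ Q ∈ M` then
`Q = K P \ e`. If `e = e* (cl P)` then `Q = P`. Otherwise `e` is disjoint from `e* (cl P)`, so
`e ⊆ P` is full in `P`; the full pairs of `Q` are those of `P` without `e`, and `e* (cl P)`; hence
`cl Q = cl P` and `e* (cl Q) = e* (cl P) ⊆ Q`, but `e* (cl Q)` is disjoint from `Q` and nonempty,
a contradiction. -/
theorem choice (M : Finset (Finset α)) (hM : IsMatching M) (Δ : Finset (Finset α))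
    (hu : ∀ P ∈ Δ, 0 < (full M P).card + (free M P).card) :
    ∃ Δ' ⊆ Δ, ∃ K : Finset α → Finset α,
      (∀ P ∈ Δ', P ⊆ K P ∧ K P \ P ∈ M) ∧
      (∀ P ∈ Δ', ∀ Q ∈ Δ', P ≠ Q → ¬ (Q ⊆ K P ∧ K P \ Q ∈ M)) ∧
      ∑ P ∈ Δ, phi M P ≤ (Δ'.card : ℚ) := by
  classical
  let c : Finset α → Finset α → ℕ := fun R e =>
    (Δ.filter fun P => st1_cl M P = R ∧ Disjoint e P).card
  have hex : ∀ R, ∃ e, R ∈ Δ.image (st1_cl M) →
      e ∈ st1_E M R ∧ ∀ e' ∈ st1_E M R, c R e' ≤ c R e := by
    intro R
    by_cases hR : R ∈ Δ.image (st1_cl M)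
    · obtain ⟨P, hP, rfl⟩ := Finset.mem_image.1 hR
      have hne : (st1_E M (st1_cl M P)).Nonempty := by
        rw [← Finset.card_pos, st1_card_E hM]
        exact hu P hP
      obtain ⟨e, he, hmax⟩ := Finset.exists_max_image _ (c (st1_cl M P)) hne
      exact ⟨e, fun _ => ⟨he, hmax⟩⟩
    · exact ⟨∅, fun h => absurd h hR⟩
  choose est hest using hex
  have hestM : ∀ P ∈ Δ, est (st1_cl M P) ∈ M := fun P hP =>
    (st1_mem_E.1 (hest _ (Finset.mem_image_of_mem _ hP)).1).1
  refine ⟨Δ.filter fun P => Disjoint (est (st1_cl M P)) P, Finset.filter_subset _ _,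
    fun P => P ∪ est (st1_cl M P), ?_, ?_, ?_⟩
  · intro P hP
    obtain ⟨hPΔ, hPd⟩ := Finset.mem_filter.1 hP
    refine ⟨Finset.subset_union_left, ?_⟩
    have h1 : (P ∪ est (st1_cl M P)) \ P = est (st1_cl M P) :=
      Finset.union_sdiff_cancel_left hPd.symm
    rw [h1]
    exact hestM P hPΔ
  · rintro P hP Q hQ hPQ ⟨hsub, heM⟩
    obtain ⟨hPΔ, hPd⟩ := Finset.mem_filter.1 hP
    obtain ⟨hQΔ, hQd⟩ := Finset.mem_filter.1 hQ
    set g := est (st1_cl M P) with hg
    have hgM : g ∈ M := hestM P hPΔ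
    set e := (P ∪ g) \ Q with he
    have hmemQ : ∀ x, x ∈ Q ↔ (x ∈ P ∨ x ∈ g) ∧ x ∉ e := by
      intro x
      constructor
      · intro hx
        exact ⟨Finset.mem_union.1 (hsub hx), fun hxe => (Finset.mem_sdiff.1 hxe).2 hx⟩
      · rintro ⟨h1, h2⟩
        by_contra h3
        exact h2 (Finset.mem_sdiff.2 ⟨Finset.mem_union.2 h1, h3⟩)
    by_cases heg : e = g
    · apply hPQ
      ext x
      rw [hmemQ, heg]
      constructor
      · intro hx
        exact ⟨Or.inl hx, fun hxg => Finset.disjoint_left.1 hPd hxg hx⟩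
      · rintro ⟨h1 | h1, h2⟩
        · exact h1
        · exact absurd h1 h2
    · have hdisj : Disjoint e g := hM.2 e heM g hgM heg
      have heP : e ⊆ P := by
        intro x hx
        rcases Finset.mem_union.1 (Finset.mem_sdiff.1 hx).1 with h1 | h1
        · exact h1
        · exact absurd h1 (Finset.disjoint_left.1 hdisj hx)
      have hgQ : g ⊆ Q := by
        intro x hx
        exact (hmemQ x).2 ⟨Or.inr hx, fun hxe => Finset.disjoint_left.1 hdisj hxe hx⟩
      have hcl : st1_cl M Q = st1_cl M P := by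
        ext x
        rw [st1_mem_cl, st1_mem_cl]
        constructor
        · rintro ⟨hxQ, hx⟩
          obtain ⟨h1, h2⟩ := (hmemQ x).1 hxQ
          have hxg : x ∉ g := hx g (mem_full.2 ⟨hgM, hgQ⟩)
          refine ⟨h1.resolve_right hxg, fun f hf => ?_⟩
          obtain ⟨hfM, hfP⟩ := mem_full.1 hf
          by_cases hfe : f = e
          · rw [hfe]
            exact h2
          · have hdf := hM.2 f hfM e heM hfe
            refine hx f (mem_full.2 ⟨hfM, fun z hz => ?_⟩)
            exact (hmemQ z).2 ⟨Or.inl (hfP hz), Finset.disjoint_left.1 hdf hz⟩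
        · rintro ⟨hxP, hx⟩
          have hxe : x ∉ e := hx e (mem_full.2 ⟨heM, heP⟩)
          refine ⟨(hmemQ x).2 ⟨Or.inl hxP, hxe⟩, fun f hf => ?_⟩
          obtain ⟨hfM, hfQ⟩ := mem_full.1 hf
          by_cases hfg : f = g
          · rw [hfg]
            exact fun hxg => Finset.disjoint_left.1 hPd hxg hxP
          · have hdf := hM.2 f hfM g hgM hfg
            refine hx f (mem_full.2 ⟨hfM, fun z hz => ?_⟩)
            exact ((hmemQ z).1 (hfQ hz)).1.resolve_right (Finset.disjoint_left.1 hdf hz)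
      rw [hcl] at hQd
      have h5 := hQd.mono_right hgQ
      rw [disjoint_self, Finset.bot_eq_empty] at h5
      have h6 := hM.1 g hgM
      rw [hg, h5] at h6
      simp at h6
  · have hmaps : ∀ P ∈ Δ, st1_cl M P ∈ Δ.image (st1_cl M) := fun P hP =>
      Finset.mem_image_of_mem _ hP
    rw [← Finset.sum_fiberwise_of_maps_to hmaps]
    have hcard : ((Δ.filter fun P => Disjoint (est (st1_cl M P)) P).card : ℚ) =
        ∑ R ∈ Δ.image (st1_cl M), (c R (est R) : ℚ) := by
      rw [Finset.card_eq_sum_card_fiberwise (f := st1_cl M) (t := Δ.image (st1_cl M))]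
      · push_cast
        refine Finset.sum_congr rfl fun R _ => ?_
        congr 2
        ext P
        simp only [Finset.mem_filter]
        constructor
        · rintro ⟨⟨h1, h2⟩, rfl⟩
          exact ⟨h1, rfl, h2⟩
        · rintro ⟨h1, rfl, h2⟩
          exact ⟨⟨h1, h2⟩, rfl⟩
      · intro P hP
        exact Finset.mem_coe.2 (hmaps P (Finset.mem_filter.1 (Finset.mem_coe.1 hP)).1)
    rw [hcard]
    refine Finset.sum_le_sum fun R hR => ?_
    obtain ⟨hR1, hR2⟩ := hest R hR
    have hEpos : (0 : ℚ) < ((st1_E M R).card : ℚ) := by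
      exact_mod_cast Finset.card_pos.2 ⟨_, hR1⟩
    have h1 : ∀ P ∈ Δ.filter (fun P => st1_cl M P = R),
        phi M P = (((st1_E M R).filter fun e => Disjoint e P).card : ℚ) /
          ((st1_E M R).card : ℚ) := by
      intro P hP
      obtain ⟨-, rfl⟩ := Finset.mem_filter.1 hP
      have h2 : (st1_E M (st1_cl M P)).filter (fun e => Disjoint e P) = free M P := by
        ext e
        rw [Finset.mem_filter, st1_mem_E, mem_free]
        constructor
        · rintro ⟨⟨h3, -⟩, h4⟩
          exact ⟨h3, h4⟩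
        · rintro ⟨h3, h4⟩
          exact ⟨⟨h3, h4.mono_right Finset.sdiff_subset⟩, h4⟩
      rw [h2, st1_card_E hM, phi]
      push_cast
      rfl
    rw [Finset.sum_congr rfl h1, ← Finset.sum_div, div_le_iff₀ hEpos]
    have h3 : ∑ P ∈ Δ.filter (fun P => st1_cl M P = R),
        ((st1_E M R).filter fun e => Disjoint e P).card = ∑ e ∈ st1_E M R, c R e := by
      simp only [Finset.card_filter, c]
      rw [Finset.sum_comm]
      refine Finset.sum_congr rfl fun e _ => ?_
      rw [Finset.sum_filter]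
      refine Finset.sum_congr rfl fun P _ => ?_
      by_cases h4 : st1_cl M P = R <;> by_cases h5 : Disjoint e P <;> simp [h4, h5]
    have h4 : ∑ e ∈ st1_E M R, c R e ≤ (st1_E M R).card * c R (est R) := by
      rw [← smul_eq_mul]
      exact Finset.sum_le_card_nsmul _ _ _ hR2
    calc (∑ P ∈ Δ.filter (fun P => st1_cl M P = R),
          (((st1_E M R).filter fun e => Disjoint e P).card : ℚ))
        = ((∑ e ∈ st1_E M R, c R e : ℕ) : ℚ) := by
          rw [← h3]
          push_cast
          rfl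
      _ ≤ (((st1_E M R).card * c R (est R) : ℕ) : ℚ) := by exact_mod_cast h4
      _ = (c R (est R) : ℚ) * ((st1_E M R).card : ℚ) := by
          push_cast
          ring

end Pool.Agent.Lib.MP_20855c_co.Star
end

section

set_option autoImplicit false

namespace Pool.Agent.Lib.MP_20855c_co.Star

open Finset

variable {α : Type*} [DecidableEq α]

/-! ST2: how full and free pairs change when a point is inserted or erased. All are elementary. -/

/-- A point of another pair does not lie in `f`. -/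
private lemma st2_notMem {M : Finset (Finset α)} (hM : IsMatching M) {e f : Finset α}
    (he : e ∈ M) (hf : f ∈ M) {x : α} (hxe : x ∈ e) (hne : f ≠ e) : x ∉ f :=
  fun hxf => hne (hM.eq hf he hxf hxe)

/-- The second point of a pair. -/
private lemma st2_other {M : Finset (Finset α)} (hM : IsMatching M) {e : Finset α}
    (he : e ∈ M) {x : α} (hxe : x ∈ e) : ∃ y, y ∈ e ∧ y ≠ x ∧ ∀ z ∈ e, z = x ∨ z = y := by
  obtain ⟨a, b, hab, rfl⟩ := Finset.card_eq_two.1 (hM.1 e he)
  rw [Finset.mem_insert, Finset.mem_singleton] at hxe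
  rcases hxe with rfl | rfl
  · exact ⟨b, by simp, hab.symm, fun z hz => by simpa using hz⟩
  · refine ⟨a, by simp, hab, fun z hz => ?_⟩
    rw [Finset.mem_insert, Finset.mem_singleton] at hz
    exact hz.symm

private lemma st2_sub_insert {f D : Finset α} {m : α} (hmf : m ∉ f) :
    f ⊆ insert m D ↔ f ⊆ D := by
  refine ⟨fun h z hz => ?_, fun h => h.trans (Finset.subset_insert _ _)⟩
  rcases Finset.mem_insert.1 (h hz) with rfl | h1
  · exact absurd hz hmf
  · exact h1

private lemma st2_disj_insert {f D : Finset α} {m : α} (hmf : m ∉ f) :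
    Disjoint f (insert m D) ↔ Disjoint f D := by
  rw [Finset.disjoint_insert_right]
  exact ⟨fun h => h.2, fun h => ⟨hmf, h⟩⟩

private lemma st2_sub_erase {f F : Finset α} {x : α} (hxf : x ∉ f) :
    f ⊆ F.erase x ↔ f ⊆ F := by
  refine ⟨fun h => h.trans (Finset.erase_subset _ _), fun h z hz => ?_⟩
  exact Finset.mem_erase.2 ⟨fun h0 => hxf (h0 ▸ hz), h hz⟩

private lemma st2_disj_erase {f F : Finset α} {x : α} (hxf : x ∉ f) :
    Disjoint f (F.erase x) ↔ Disjoint f F := by
  rw [Finset.disjoint_left, Finset.disjoint_left]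
  refine ⟨fun h z hz hzF => h hz (Finset.mem_erase.2 ⟨fun h0 => hxf (h0 ▸ hz), hzF⟩),
    fun h z hz hzF => h hz (Finset.mem_erase.1 hzF).2⟩

/-- The inserted point lies in a pair free for `D`. -/
lemma full_insert_free {M : Finset (Finset α)} (hM : IsMatching M) {D : Finset α} {m : α}
    (hm : m ∉ D) {e : Finset α} (he : e ∈ free M D) (hme : m ∈ e) :
    full M (insert m D) = full M D := by
  obtain ⟨heM, heD⟩ := mem_free.1 he
  ext f
  rw [mem_full, mem_full]
  refine and_congr_right fun hf => ?_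
  by_cases hfe : f = e
  · subst hfe
    obtain ⟨y, hy, hym, -⟩ := st2_other hM heM hme
    have hyD : y ∉ D := fun h => Finset.disjoint_left.1 heD hy h
    refine ⟨fun h => ?_, fun h => absurd (h hy) hyD⟩
    rcases Finset.mem_insert.1 (h hy) with h1 | h1
    · exact absurd h1 hym
    · exact absurd h1 hyD
  · exact st2_sub_insert (st2_notMem hM heM hf hme hfe)

lemma free_insert_free {M : Finset (Finset α)} (hM : IsMatching M) {D : Finset α} {m : α}
    (hm : m ∉ D) {e : Finset α} (he : e ∈ free M D) (hme : m ∈ e) :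
    free M (insert m D) = (free M D).erase e := by
  obtain ⟨heM, heD⟩ := mem_free.1 he
  ext f
  rw [Finset.mem_erase, mem_free, mem_free]
  by_cases hfe : f = e
  · subst hfe
    refine ⟨fun h => ?_, fun h => absurd rfl h.1⟩
    exact absurd (Finset.mem_insert_self m D) (Finset.disjoint_left.1 h.2 hme)
  · constructor
    · rintro ⟨hf, h⟩
      exact ⟨hfe, hf, (st2_disj_insert (st2_notMem hM heM hf hme hfe)).1 h⟩
    · rintro ⟨-, hf, h⟩
      exact ⟨hf, (st2_disj_insert (st2_notMem hM heM hf hme hfe)).2 h⟩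

/-- The inserted point lies in a pair which meets `D` (so it is split for `D`). -/
lemma full_insert_split {M : Finset (Finset α)} (hM : IsMatching M) {D : Finset α} {m : α}
    (hm : m ∉ D) {e : Finset α} (he : e ∈ M) (hme : m ∈ e) (hD : ¬ Disjoint e D) :
    e ∉ full M D ∧ full M (insert m D) = insert e (full M D) := by
  refine ⟨fun h => hm ((mem_full.1 h).2 hme), ?_⟩
  obtain ⟨y, hy, hym, hall⟩ := st2_other hM he hme
  have hyD : y ∈ D := by
    by_contra hyD
    refine hD (Finset.disjoint_left.2 fun z hz hzD => ?_)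
    rcases hall z hz with rfl | rfl
    · exact hm hzD
    · exact hyD hzD
  ext f
  rw [Finset.mem_insert, mem_full, mem_full]
  by_cases hfe : f = e
  · subst hfe
    refine ⟨fun _ => Or.inl rfl, fun _ => ⟨he, fun z hz => ?_⟩⟩
    rcases hall z hz with rfl | rfl
    · exact Finset.mem_insert_self _ _
    · exact Finset.mem_insert_of_mem hyD
  · constructor
    · rintro ⟨hf, h⟩
      exact Or.inr ⟨hf, (st2_sub_insert (st2_notMem hM he hf hme hfe)).1 h⟩
    · rintro (h | ⟨hf, h⟩)
      · exact absurd h hfe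
      · exact ⟨hf, (st2_sub_insert (st2_notMem hM he hf hme hfe)).2 h⟩

lemma free_insert_split {M : Finset (Finset α)} (hM : IsMatching M) {D : Finset α} {m : α}
    (hm : m ∉ D) {e : Finset α} (he : e ∈ M) (hme : m ∈ e) (hD : ¬ Disjoint e D) :
    free M (insert m D) = free M D := by
  ext f
  rw [mem_free, mem_free]
  refine and_congr_right fun hf => ?_
  by_cases hfe : f = e
  · subst hfe
    refine ⟨fun h => ?_, fun h => absurd h hD⟩
    exact absurd (Finset.mem_insert_self m D) (Finset.disjoint_left.1 h hme)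
  · exact st2_disj_insert (st2_notMem hM he hf hme hfe)

/-- The inserted point lies in no pair. -/
lemma full_insert_out {M : Finset (Finset α)} {D : Finset α} {m : α}
    (hm : m ∉ cov M) : full M (insert m D) = full M D := by
  ext f
  rw [mem_full, mem_full]
  refine and_congr_right fun hf => ?_
  exact st2_sub_insert fun h => hm (mem_cov.2 ⟨f, hf, h⟩)

lemma free_insert_out {M : Finset (Finset α)} {D : Finset α} {m : α}
    (hm : m ∉ cov M) : free M (insert m D) = free M D := by
  ext f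
  rw [mem_free, mem_free]
  refine and_congr_right fun hf => ?_
  exact st2_disj_insert fun h => hm (mem_cov.2 ⟨f, hf, h⟩)

/-- Erasing a point of a full pair `e`: the pair becomes split. -/
lemma full_erase_full {M : Finset (Finset α)} (hM : IsMatching M) {F : Finset α} {x : α}
    (hx : x ∈ F) {e : Finset α} (he : e ∈ full M F) (hxe : x ∈ e) :
    full M (F.erase x) = (full M F).erase e := by
  obtain ⟨heM, heF⟩ := mem_full.1 he
  ext f
  rw [Finset.mem_erase, mem_full, mem_full]
  by_cases hfe : f = e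
  · subst hfe
    exact ⟨fun h => absurd rfl (Finset.mem_erase.1 (h.2 hxe)).1, fun h => absurd rfl h.1⟩
  · constructor
    · rintro ⟨hf, h⟩
      exact ⟨hfe, hf, (st2_sub_erase (st2_notMem hM heM hf hxe hfe)).1 h⟩
    · rintro ⟨-, hf, h⟩
      exact ⟨hf, (st2_sub_erase (st2_notMem hM heM hf hxe hfe)).2 h⟩

lemma free_erase_full {M : Finset (Finset α)} (hM : IsMatching M) {F : Finset α} {x : α}
    (hx : x ∈ F) {e : Finset α} (he : e ∈ full M F) (hxe : x ∈ e) :
    free M (F.erase x) = free M F := by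
  obtain ⟨heM, heF⟩ := mem_full.1 he
  obtain ⟨y, hy, hyx, -⟩ := st2_other hM heM hxe
  ext f
  rw [mem_free, mem_free]
  refine and_congr_right fun hf => ?_
  by_cases hfe : f = e
  · subst hfe
    refine ⟨fun h => ?_, fun h => ?_⟩
    · exact absurd (Finset.mem_erase.2 ⟨hyx, heF hy⟩) (Finset.disjoint_left.1 h hy)
    · exact absurd hx (Finset.disjoint_left.1 h hxe)
  · exact st2_disj_erase (st2_notMem hM heM hf hxe hfe)

/-- Erasing the point of a split pair `e`: the pair becomes free. -/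
lemma full_erase_split {M : Finset (Finset α)} (hM : IsMatching M) {F : Finset α} {x : α}
    (hx : x ∈ F) {e : Finset α} (he : e ∈ M) (hxe : x ∈ e) (hF : ¬ e ⊆ F) :
    full M (F.erase x) = full M F := by
  ext f
  rw [mem_full, mem_full]
  refine and_congr_right fun hf => ?_
  by_cases hfe : f = e
  · subst hfe
    exact ⟨fun h => absurd (h.trans (Finset.erase_subset _ _)) hF, fun h => absurd h hF⟩
  · exact st2_sub_erase (st2_notMem hM he hf hxe hfe)

lemma free_erase_split {M : Finset (Finset α)} (hM : IsMatching M) {F : Finset α} {x : α}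
    (hx : x ∈ F) {e : Finset α} (he : e ∈ M) (hxe : x ∈ e) (hF : ¬ e ⊆ F) :
    e ∉ free M F ∧ free M (F.erase x) = insert e (free M F) := by
  refine ⟨fun h => Finset.disjoint_left.1 (mem_free.1 h).2 hxe hx, ?_⟩
  obtain ⟨y, hy, hyx, hall⟩ := st2_other hM he hxe
  have hyF : y ∉ F := by
    intro hyF
    refine hF fun z hz => ?_
    rcases hall z hz with rfl | rfl
    · exact hx
    · exact hyF
  ext f
  rw [Finset.mem_insert, mem_free, mem_free]
  by_cases hfe : f = e
  · subst hfe
    refine ⟨fun _ => Or.inl rfl, fun _ => ⟨he, Finset.disjoint_left.2 fun z hz hzF => ?_⟩⟩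
    rcases hall z hz with rfl | rfl
    · exact (Finset.mem_erase.1 hzF).1 rfl
    · exact hyF (Finset.mem_erase.1 hzF).2
  · constructor
    · rintro ⟨hf, h⟩
      exact Or.inr ⟨hf, (st2_disj_erase (st2_notMem hM he hf hxe hfe)).1 h⟩
    · rintro (h | ⟨hf, h⟩)
      · exact absurd h hfe
      · exact ⟨hf, (st2_disj_erase (st2_notMem hM he hf hxe hfe)).2 h⟩

private lemma st2_cards {M : Finset (Finset α)} (hM : IsMatching M) (D : Finset α) :
    (cov M \ D).card = ∑ e ∈ M, (e \ D).card ∧ (D ∩ cov M).card = ∑ e ∈ M, (e ∩ D).card := by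
  constructor
  · have h : cov M \ D = M.biUnion fun e => e \ D := by
      ext x
      simp only [Finset.mem_sdiff, mem_cov, Finset.mem_biUnion]
      constructor
      · rintro ⟨⟨e, he, hx⟩, hD⟩
        exact ⟨e, he, hx, hD⟩
      · rintro ⟨e, he, hx, hD⟩
        exact ⟨⟨e, he, hx⟩, hD⟩
    rw [h, Finset.card_biUnion]
    intro e he f hf hne
    exact (hM.2 e he f hf hne).mono Finset.sdiff_subset Finset.sdiff_subset
  · have h : D ∩ cov M = M.biUnion fun e => e ∩ D := by
      ext x
      simp only [Finset.mem_inter, mem_cov, Finset.mem_biUnion]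
      constructor
      · rintro ⟨hD, e, he, hx⟩
        exact ⟨e, he, hx, hD⟩
      · rintro ⟨e, he, hx, hD⟩
        exact ⟨hD, e, he, hx⟩
    rw [h, Finset.card_biUnion]
    intro e he f hf hne
    exact (hM.2 e he f hf hne).mono Finset.inter_subset_left Finset.inter_subset_left

private lemma st2_cases {M : Finset (Finset α)} (hM : IsMatching M) (D : Finset α)
    {e : Finset α} (he : e ∈ M) :
    (e ⊆ D ∧ ¬ Disjoint e D ∧ (e \ D).card = 0 ∧ (e ∩ D).card = 2) ∨
    (¬ e ⊆ D ∧ Disjoint e D ∧ (e \ D).card = 2 ∧ (e ∩ D).card = 0) ∨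
    (¬ e ⊆ D ∧ ¬ Disjoint e D ∧ (e \ D).card = 1 ∧ (e ∩ D).card = 1) := by
  have h2 := hM.1 e he
  have h3 := Finset.card_sdiff_add_card_inter e D
  rw [h2] at h3
  have hsub : e ⊆ D ↔ (e \ D).card = 0 := by
    rw [Finset.card_eq_zero, Finset.sdiff_eq_empty_iff_subset]
  have hdis : Disjoint e D ↔ (e ∩ D).card = 0 := by
    rw [Finset.card_eq_zero, Finset.disjoint_iff_inter_eq_empty]
  rw [hsub, hdis]
  omega

/-- The points of the full pairs. -/
lemma card_fullPts {M : Finset (Finset α)} (hM : IsMatching M) (D : Finset α) :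
    ((full M D).biUnion id).card = 2 * (full M D).card := by
  have h : ∀ u ∈ full M D, (id u : Finset α).card = 2 := fun e he => hM.1 e (mem_full.1 he).1
  rw [Finset.card_biUnion]
  · rw [Finset.sum_congr rfl h, Finset.sum_const, smul_eq_mul, mul_comm]
  · intro e he f hf hne
    exact hM.2 e (mem_full.1 he).1 f (mem_full.1 hf).1 hne

/-- `|V \ D| + 2 |full| = |D ∩ V| + 2 |free|` where `V = cov M`: every full pair has two points in
`D ∩ V`, every free pair two points in `V \ D`, and every split pair one point in each. -/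
lemma card_cov_sdiff {M : Finset (Finset α)} (hM : IsMatching M) (D : Finset α) :
    (cov M \ D).card + 2 * (full M D).card = (D ∩ cov M).card + 2 * (free M D).card := by
  obtain ⟨h1, h2⟩ := st2_cards hM D
  rw [h1, h2, full, free, Finset.card_filter, Finset.card_filter, Finset.mul_sum, Finset.mul_sum,
    ← Finset.sum_add_distrib, ← Finset.sum_add_distrib]
  refine Finset.sum_congr rfl fun e he => ?_
  rcases st2_cases hM D he with ⟨a, b, c, d⟩ | ⟨a, b, c, d⟩ | ⟨a, b, c, d⟩
  · rw [if_pos a, if_neg b, c, d]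
    norm_num
  · rw [if_neg a, if_pos b, c, d]
    norm_num
  · rw [if_neg a, if_neg b, c, d]

/-- The number of pairs: full, free and split ones (the split ones are `|D ∩ V| - 2 |full|`). -/
lemma card_matching {M : Finset (Finset α)} (hM : IsMatching M) (D : Finset α) :
    M.card + (full M D).card = (free M D).card + (D ∩ cov M).card := by
  obtain ⟨h1, h2⟩ := st2_cards hM D
  rw [h2, full, free, Finset.card_eq_sum_ones, Finset.card_filter, Finset.card_filter,
    ← Finset.sum_add_distrib, ← Finset.sum_add_distrib]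
  refine Finset.sum_congr rfl fun e he => ?_
  rcases st2_cases hM D he with ⟨a, b, c, d⟩ | ⟨a, b, c, d⟩ | ⟨a, b, c, d⟩
  · rw [if_pos a, if_neg b, d]
  · rw [if_neg a, if_pos b, d]
  · rw [if_neg a, if_neg b, d]

end Pool.Agent.Lib.MP_20855c_co.Star
end

section

set_option autoImplicit false

namespace Pool.Agent.Lib.MP_20855c_co.Star

/-! ST3: the three numerical inequalities. Here `j`, `f`, `t` are natural numbers with `j + 1 ≤ f`;
they are the numbers of full, free and split pairs of `D`. -/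

/-- Case 1. Multiply out: `(f-1)/((j-1)+(f-1)) ≥ f/(j+f)` (as `(f-1)(j+f) - f(j+f-2) = f - j ≥ 0`),
so the left side is at least `(2j+t) f / ((j+f)(2f+t))`, and `(2j+t) f ≥ j (2f+t)` because `f ≥ j`. -/
theorem numeric_one (j f t : ℕ) (hj : 1 ≤ j) (hf : j + 1 ≤ f) :
    (j : ℚ) / (j + f) ≤ (2 * j * (((f - 1 : ℕ) : ℚ) / (((j - 1 : ℕ) : ℚ) + ((f - 1 : ℕ) : ℚ))) +
      t * ((f : ℚ) / (j + f))) / (2 * f + t) := by
  obtain ⟨i, rfl⟩ : ∃ i, j = i + 1 := ⟨j - 1, by omega⟩
  obtain ⟨s, rfl⟩ : ∃ s, f = i + 2 + s := ⟨f - (i + 2), by omega⟩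
  have e1 : (i + 1 - 1 : ℕ) = i := by omega
  have e2 : (i + 2 + s - 1 : ℕ) = i + 1 + s := by omega
  rw [e1, e2]
  push_cast
  have hi : (0 : ℚ) ≤ i := Nat.cast_nonneg i
  have hs : (0 : ℚ) ≤ s := Nat.cast_nonneg s
  have ht : (0 : ℚ) ≤ t := Nat.cast_nonneg t
  have h1 : ((i : ℚ) + 2 + s) / ((i : ℚ) + 1 + (i + 2 + s)) ≤
      ((i : ℚ) + 1 + s) / ((i : ℚ) + (i + 1 + s)) := by
    rw [div_le_div_iff₀ (by positivity) (by positivity)]
    nlinarith
  have h2 : (2 * ((i : ℚ) + 1) + t) * (((i : ℚ) + 2 + s) / ((i : ℚ) + 1 + (i + 2 + s))) ≤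
      2 * ((i : ℚ) + 1) * (((i : ℚ) + 1 + s) / ((i : ℚ) + (i + 1 + s))) +
      t * (((i : ℚ) + 2 + s) / ((i : ℚ) + 1 + (i + 2 + s))) := by
    have := mul_le_mul_of_nonneg_left h1 (show (0 : ℚ) ≤ 2 * ((i : ℚ) + 1) by positivity)
    linarith
  rw [le_div_iff₀ (by positivity)]
  refine le_trans ?_ h2
  rw [div_mul_eq_mul_div, mul_div_assoc', div_le_div_iff_of_pos_right (by positivity)]
  nlinarith [mul_nonneg ht hs]

/-- Case 2, here `s + 1` is the number of split pairs. `(f+1)(j+f) ≥ j(j+f+2)` (as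
`f² + f ≥ j² + j`), so the left side times `(j+f)(2f+s+1)` is at least
`(2j+1) f + s j ≥ j (2f + s + 1)`. -/
theorem numeric_two (j f s : ℕ) (hf : j + 1 ≤ f) :
    (j : ℚ) / (j + f) ≤ ((2 * j + 1) * ((f : ℚ) / (j + f)) +
      s * (((f : ℚ) + 1) / (((j : ℚ) + 1) + ((f : ℚ) + 1)))) / (2 * f + (s + 1)) := by
  obtain ⟨r, rfl⟩ : ∃ r, f = j + 1 + r := ⟨f - (j + 1), by omega⟩
  push_cast
  have hj : (0 : ℚ) ≤ j := Nat.cast_nonneg j
  have hs : (0 : ℚ) ≤ s := Nat.cast_nonneg s
  have hr : (0 : ℚ) ≤ r := Nat.cast_nonneg r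
  have h1 : (j : ℚ) / ((j : ℚ) + (j + 1 + r)) ≤
      ((j : ℚ) + 1 + r + 1) / ((j : ℚ) + 1 + (j + 1 + r + 1)) := by
    rw [div_le_div_iff₀ (by positivity) (by positivity)]
    nlinarith [mul_nonneg hj hr, mul_nonneg hr hr]
  have h2 := mul_le_mul_of_nonneg_left h1 hs
  rw [le_div_iff₀ (by positivity)]
  refine le_trans ?_ (add_le_add (le_refl _) h2)
  rw [div_mul_eq_mul_div, mul_div_assoc', mul_div_assoc', ← add_div,
    div_le_div_iff_of_pos_right (by positivity)]
  nlinarith

/-- Case 3. `2 j f (j+f)/(j+f-1) ≥ 2 j f + j` (as `2f ≥ j+f-1`) and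
`(f+1)(j+f)/(j+f+1) ≥ j` (as `f² + f ≥ j²`), so the left side times `(j+f)(2f+t+1)` is at least
`2 j f + j + t j`. -/
theorem numeric_three (j f t : ℕ) (hj : 1 ≤ j) (hf : j + 1 ≤ f) :
    (j : ℚ) / (j + f) ≤ (2 * j * ((f : ℚ) / (((j - 1 : ℕ) : ℚ) + f)) +
      t * (((f : ℚ) + 1) / ((j : ℚ) + ((f : ℚ) + 1)))) / ((2 * f + t) + 1) := by
  obtain ⟨i, rfl⟩ : ∃ i, j = i + 1 := ⟨j - 1, by omega⟩
  obtain ⟨r, rfl⟩ : ∃ r, f = i + 2 + r := ⟨f - (i + 2), by omega⟩
  have e1 : (i + 1 - 1 : ℕ) = i := by omega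
  rw [e1]
  push_cast
  have hi : (0 : ℚ) ≤ i := Nat.cast_nonneg i
  have hr : (0 : ℚ) ≤ r := Nat.cast_nonneg r
  have ht : (0 : ℚ) ≤ t := Nat.cast_nonneg t
  have h1 : ((i : ℚ) + 1) / ((i : ℚ) + 1 + (i + 2 + r)) ≤
      ((i : ℚ) + 2 + r + 1) / ((i : ℚ) + 1 + (i + 2 + r + 1)) := by
    rw [div_le_div_iff₀ (by positivity) (by positivity)]
    nlinarith [mul_nonneg hi hr, mul_nonneg hr hr]
  have h2 : (((i : ℚ) + 2 + r) + 1 / 2) / ((i : ℚ) + 1 + (i + 2 + r)) ≤
      ((i : ℚ) + 2 + r) / ((i : ℚ) + (i + 2 + r)) := by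
    rw [div_le_div_iff₀ (by positivity) (by positivity)]
    nlinarith [mul_nonneg hi hr, mul_nonneg hr hr]
  have h3 := mul_le_mul_of_nonneg_left h1 ht
  have h4 := mul_le_mul_of_nonneg_left h2 (show (0 : ℚ) ≤ 2 * ((i : ℚ) + 1) by positivity)
  rw [le_div_iff₀ (by positivity)]
  refine le_trans ?_ (add_le_add h4 h3)
  rw [div_mul_eq_mul_div, mul_div_assoc', mul_div_assoc', ← add_div,
    div_le_div_iff_of_pos_right (by positivity)]
  nlinarith

end Pool.Agent.Lib.MP_20855c_co.Star
end
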