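import Pool.Agent.Lib.MP_20855c_co.Mg.G009

section

set_option autoImplicit false

namespace Pool.Agent.Lib.MP_20855c_co.Star

open Finset

variable {α : Type*} [DecidableEq α]

private lemma st4_card_in {V D : Finset α} {m x : α} (hmD : m ∉ D) (hmV : m ∈ V)
    (hxD : x ∈ D) (hxV : x ∈ V) : (V \ (insert m D).erase x).card = (V \ D).card := by
  have hmx : x ≠ m := fun h => hmD (h ▸ hxD)
  have h1 : V \ (insert m D).erase x = insert x ((V \ D).erase m) := by
    ext z
    simp only [Finset.mem_sdiff, Finset.mem_erase, Finset.mem_insert, not_and, not_or]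
    constructor
    · rintro ⟨hzV, h⟩
      by_cases hzx : z = x
      · exact Or.inl hzx
      · obtain ⟨h2, h3⟩ := h hzx
        exact Or.inr ⟨h2, hzV, h3⟩
    · rintro (rfl | ⟨h2, hzV, h3⟩)
      · exact ⟨hxV, fun h => absurd rfl h⟩
      · exact ⟨hzV, fun _ => ⟨h2, h3⟩⟩
  have hm : m ∈ V \ D := Finset.mem_sdiff.2 ⟨hmV, hmD⟩
  have hx : x ∉ (V \ D).erase m := fun h =>
    (Finset.mem_sdiff.1 (Finset.mem_erase.1 h).2).2 hxD
  rw [h1, Finset.card_insert_of_notMem hx, Finset.card_erase_of_mem hm]
  have := Finset.card_pos.2 ⟨m, hm⟩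
  omega

private lemma st4_card_out {V D : Finset α} {m x : α} (hmV : m ∉ V)
    (hxD : x ∈ D) (hxV : x ∈ V) : (V \ (insert m D).erase x).card = (V \ D).card + 1 := by
  have h1 : V \ (insert m D).erase x = insert x (V \ D) := by
    ext z
    simp only [Finset.mem_sdiff, Finset.mem_erase, Finset.mem_insert, not_and, not_or]
    constructor
    · rintro ⟨hzV, h⟩
      by_cases hzx : z = x
      · exact Or.inl hzx
      · exact Or.inr ⟨hzV, (h hzx).2⟩
    · rintro (rfl | ⟨hzV, h3⟩)
      · exact ⟨hxV, fun h => absurd rfl h⟩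
      · exact ⟨hzV, fun _ => ⟨fun h => hmV (h ▸ hzV), h3⟩⟩
  have hx : x ∉ V \ D := fun h => (Finset.mem_sdiff.1 h).2 hxD
  rw [h1, Finset.card_insert_of_notMem hx]

private lemma st4_sum {S S1 S2 : Finset α} (hS : S = S1 ∪ S2) (hd : Disjoint S1 S2)
    (g : α → ℚ) {a b : ℚ} (h1 : ∀ x ∈ S1, g x = a) (h2 : ∀ x ∈ S2, g x = b) :
    ∑ x ∈ S, g x = S1.card * a + S2.card * b := by
  rw [hS, Finset.sum_union hd, Finset.sum_congr rfl h1, Finset.sum_congr rfl h2, Finset.sum_const,
    Finset.sum_const, nsmul_eq_mul, nsmul_eq_mul]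

private lemma st4_phi {M : Finset (Finset α)} {P : Finset α} {a b : ℕ} (ha : (full M P).card = a)
    (hb : (free M P).card = b) : phi M P = (b : ℚ) / ((a : ℚ) + (b : ℚ)) := by
  rw [phi, ha, hb]

private lemma st4_phi_nonneg (M : Finset (Finset α)) (P : Finset α) : 0 ≤ phi M P := by
  rw [phi]
  positivity

private lemma st4_notMem {M : Finset (Finset α)} (hM : IsMatching M) {e f : Finset α}
    (he : e ∈ M) (hf : f ∈ M) {x : α} (hxe : x ∈ e) (hne : f ≠ e) : x ∉ f :=
  fun hxf => hne (hM.eq hf he hxf hxe)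

private lemma st4_notSub {g D : Finset α} {m : α} (hmg : m ∉ g) (hg : ¬ g ⊆ D) :
    ¬ g ⊆ insert m D := by
  intro h
  refine hg fun z hz => ?_
  rcases Finset.mem_insert.1 (h hz) with rfl | h1
  · exact absurd hz hmg
  · exact h1

/-- ST4 (local inequality). Write `j = |full M D|`, `f = |free M D|`, `V = cov M`,
`t = |D ∩ V| - 2 j` (the number of split pairs, so `|V \ D| = 2 f + t` by `card_cov_sdiff`),
`F = insert m D`, `P x = F.erase x`. Then `phi M D = f / (j + f)` and we want
`∑_{x ∈ D ∩ V} phi M (P x) / |V \ P x| ≥ j / (j + f)`. If `j = 0` this is clear (all terms are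
nonnegative and `phi M D = 1`). Let `j ≥ 1`. The points of `D ∩ V` are the `2 j` points of the full
pairs (`card_fullPts`; they are in `D ∩ V`) and `t` other points, each in a pair not contained in `D`.
Case 1: `m` lies in a free pair `e` of `D`. Then `F` has `j` full and `f - 1` free pairs
(`full_insert_free`, `free_insert_free`); for `x` in a full pair `P x` has `j - 1` full and `f - 1`
free pairs, for another `x` (its pair is not contained in `F`: it is not contained in `D` and does not
contain `m`, since the pair of `m` is disjoint from `D`) `P x` has `j` full and `f` free pairs; always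
`|V \ P x| = |V \ D| = 2 f + t` (`V \ P x = insert x ((V \ D).erase m)`). Use `numeric_one`.
Case 2: `m` lies in a pair `e` which meets `D` (in one point `m'`, as `m ∉ D`). Then `F` has `j + 1`
full pairs and `f` free pairs (`full_insert_split`, `free_insert_split`). For `x` in a full pair of `D`
and for `x = m'` the set `P x` has `j` full and `f` free pairs (`full_erase_full`,
`free_erase_full`); for the `t - 1` other points `x` it has `j + 1` full and `f + 1` free
pairs; again `|V \ P x| = 2 f + t`. Use `numeric_two` with `s = t - 1` (`t ≥ 1`, because `m'` is one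
of the `t` points).
Case 3: `m ∉ V`. Then `F` has `j` full and `f` free pairs; for `x` in a full pair `P x` has `j - 1` full
and `f` free pairs, for another `x` it has `j` full and `f + 1` free pairs; here
`|V \ P x| = |V \ D| + 1 = 2 f + t + 1`. Use `numeric_three`. -/
theorem local_ineq {M : Finset (Finset α)} (hM : IsMatching M) {D : Finset α} {m : α}
    (hm : m ∉ D) (hf : (full M D).card + 1 ≤ (free M D).card) :
    1 ≤ phi M D + ∑ x ∈ D ∩ cov M,
      phi M ((insert m D).erase x) / ((cov M \ (insert m D).erase x).card : ℚ) := by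
  classical
  obtain ⟨j, hj⟩ : ∃ j, (full M D).card = j := ⟨_, rfl⟩
  obtain ⟨f, hfr⟩ : ∃ f, (free M D).card = f := ⟨_, rfl⟩
  rw [hj, hfr] at hf
  have hphi : phi M D = (f : ℚ) / ((j : ℚ) + (f : ℚ)) := st4_phi hj hfr
  have hfpos : (0 : ℚ) < f := by exact_mod_cast (by omega : 0 < f)
  have hjf : (0 : ℚ) < (j : ℚ) + f := by positivity
  have hnn : ∀ x ∈ D ∩ cov M,
      0 ≤ phi M ((insert m D).erase x) / ((cov M \ (insert m D).erase x).card : ℚ) := fun x _ =>
    div_nonneg (st4_phi_nonneg _ _) (Nat.cast_nonneg _)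
  rcases Nat.eq_zero_or_pos j with hj0 | hj1
  · have h1 : phi M D = 1 := by
      rw [hphi, hj0]
      simp only [Nat.cast_zero, zero_add]
      exact div_self hfpos.ne'
    rw [h1]
    have := Finset.sum_nonneg hnn
    linarith
  -- it suffices to bound the sum
  suffices hmain : (j : ℚ) / (j + f) ≤ ∑ x ∈ D ∩ cov M,
      phi M ((insert m D).erase x) / ((cov M \ (insert m D).erase x).card : ℚ) by
    have h1 : phi M D = 1 - (j : ℚ) / (j + f) := by
      rw [hphi]
      field_simp
      ring
    rw [h1]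
    linarith
  have hx1 : ∀ x ∈ (full M D).biUnion id, ∃ g ∈ full M D, x ∈ g := by
    intro x hx
    obtain ⟨g, hg, hxg⟩ := Finset.mem_biUnion.1 hx
    exact ⟨g, hg, hxg⟩
  have hsub : (full M D).biUnion id ⊆ D ∩ cov M := by
    intro x hx
    obtain ⟨g, hg, hxg⟩ := hx1 x hx
    exact Finset.mem_inter.2 ⟨(mem_full.1 hg).2 hxg, mem_cov.2 ⟨g, (mem_full.1 hg).1, hxg⟩⟩
  obtain ⟨S1, hS1⟩ : ∃ S1, (full M D).biUnion id = S1 := ⟨_, rfl⟩
  have hc1 : S1.card = 2 * j := by rw [← hS1, card_fullPts hM, hj]
  rw [hS1] at hx1 hsub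
  obtain ⟨S2, hS2⟩ : ∃ S2, (D ∩ cov M) \ S1 = S2 := ⟨_, rfl⟩
  have hU : D ∩ cov M = S1 ∪ S2 := by
    rw [← hS2, Finset.union_sdiff_of_subset hsub]
  have hd12 : Disjoint S1 S2 := by
    rw [← hS2]
    exact Finset.disjoint_sdiff
  obtain ⟨t, ht⟩ : ∃ t, S2.card = t := ⟨_, rfl⟩
  have hcD : (D ∩ cov M).card = 2 * j + t := by
    rw [hU, Finset.card_union_of_disjoint hd12, hc1, ht]
  have hcV : (cov M \ D).card = 2 * f + t := by
    have := card_cov_sdiff hM D
    rw [hj, hfr, hcD] at this
    omega
  have hx2 : ∀ x ∈ S2, x ∈ D ∧ ∃ g ∈ M, x ∈ g ∧ ¬ g ⊆ D := by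
    intro x hx
    rw [← hS2, Finset.mem_sdiff, Finset.mem_inter] at hx
    obtain ⟨⟨hxD, hxV⟩, hxS⟩ := hx
    obtain ⟨g, hg, hxg⟩ := mem_cov.1 hxV
    refine ⟨hxD, g, hg, hxg, fun hgD => hxS ?_⟩
    rw [← hS1]
    exact Finset.mem_biUnion.2 ⟨g, mem_full.2 ⟨hg, hgD⟩, hxg⟩
  have hS1D : ∀ x ∈ S1, x ∈ D ∧ x ∈ cov M := fun x hx => Finset.mem_inter.1 (hsub hx)
  have hS2D : ∀ x ∈ S2, x ∈ D ∧ x ∈ cov M := by
    intro x hx
    have h1 : x ∈ D ∩ cov M := by
      rw [hU]
      exact Finset.mem_union_right _ hx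
    exact Finset.mem_inter.1 h1
  have hne : (0 : ℚ) < 2 * f + t := by positivity
  by_cases hmV : m ∈ cov M
  · obtain ⟨e, he, hme⟩ := mem_cov.1 hmV
    have hden : ∀ x, x ∈ D ∧ x ∈ cov M →
        ((cov M \ (insert m D).erase x).card : ℚ) = 2 * f + t := by
      rintro x ⟨hxD, hxV⟩
      rw [st4_card_in hm hmV hxD hxV, hcV]
      push_cast
      ring
    by_cases hed : Disjoint e D
    · -- case 1
      have heF : e ∈ free M D := mem_free.2 ⟨he, hed⟩
      have hA : full M (insert m D) = full M D := full_insert_free hM hm heF hme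
      have hB : free M (insert m D) = (free M D).erase e := free_insert_free hM hm heF hme
      have hBc : (free M (insert m D)).card = f - 1 := by
        rw [hB, Finset.card_erase_of_mem heF, hfr]
      have h1 : ∀ x ∈ S1, phi M ((insert m D).erase x) /
          ((cov M \ (insert m D).erase x).card : ℚ) =
          (((f - 1 : ℕ) : ℚ) / (((j - 1 : ℕ) : ℚ) + ((f - 1 : ℕ) : ℚ))) / (2 * f + t) := by
        intro x hx
        obtain ⟨g, hg, hxg⟩ := hx1 x hx
        have hxF : x ∈ insert m D := Finset.mem_insert_of_mem (hS1D x hx).1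
        have hgF : g ∈ full M (insert m D) := by rw [hA]; exact hg
        rw [hden x (hS1D x hx), st4_phi (a := j - 1) (b := f - 1)]
        · rw [full_erase_full hM hxF hgF hxg, Finset.card_erase_of_mem hgF, hA, hj]
        · rw [free_erase_full hM hxF hgF hxg, hBc]
      have h2 : ∀ x ∈ S2, phi M ((insert m D).erase x) /
          ((cov M \ (insert m D).erase x).card : ℚ) =
          ((f : ℚ) / (j + f)) / (2 * f + t) := by
        intro x hx
        obtain ⟨hxD, g, hg, hxg, hgD⟩ := hx2 x hx
        have hxF : x ∈ insert m D := Finset.mem_insert_of_mem hxD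
        have hge : g ≠ e := fun h => Finset.disjoint_left.1 hed (h ▸ hxg) hxD
        have hgF : ¬ g ⊆ insert m D := st4_notSub (st4_notMem hM he hg hme hge) hgD
        obtain ⟨h3, h4⟩ := free_erase_split hM hxF hg hxg hgF
        rw [hden x (hS2D x hx), st4_phi (a := j) (b := f)]
        · rw [full_erase_split hM hxF hg hxg hgF, hA, hj]
        · rw [h4, Finset.card_insert_of_notMem h3, hBc]
          omega
      rw [st4_sum hU hd12 _ h1 h2, hc1, ht]
      have h5 := numeric_one j f t hj1 hf
      have h6 : ((2 * j : ℕ) : ℚ) * ((((f - 1 : ℕ) : ℚ) / (((j - 1 : ℕ) : ℚ) +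
          ((f - 1 : ℕ) : ℚ))) / (2 * f + t)) + (t : ℚ) * (((f : ℚ) / (j + f)) / (2 * f + t)) =
          (2 * j * (((f - 1 : ℕ) : ℚ) / (((j - 1 : ℕ) : ℚ) + ((f - 1 : ℕ) : ℚ))) +
      t * ((f : ℚ) / (j + f))) / (2 * f + t) := by
        push_cast
        ring
      rw [h6]
      exact h5
    · -- case 2
      obtain ⟨hA0, hA⟩ := full_insert_split hM hm he hme hed
      have hB : free M (insert m D) = free M D := free_insert_split hM hm he hme hed
      have hAc : (full M (insert m D)).card = j + 1 := by
        rw [hA, Finset.card_insert_of_notMem hA0, hj]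
      have hBc : (free M (insert m D)).card = f := by rw [hB, hfr]
      have heF : e ∈ full M (insert m D) := by
        rw [hA]
        exact Finset.mem_insert_self _ _
      obtain ⟨m', hm'e, hm'D⟩ := Finset.not_disjoint_iff.1 hed
      have hm'2 : m' ∈ S2 := by
        rw [← hS2, Finset.mem_sdiff, Finset.mem_inter]
        refine ⟨⟨hm'D, mem_cov.2 ⟨e, he, hm'e⟩⟩, fun h => ?_⟩
        obtain ⟨g, hg, hg'⟩ := hx1 m' h
        have hge : g = e := hM.eq (mem_full.1 hg).1 he hg' hm'e
        exact hA0 (hge ▸ hg)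
      have honly : ∀ x, x ∈ e → x ∈ D → x = m' := by
        intro x hxe hxD
        by_contra hne'
        have h3 : ({x, m', m} : Finset α) ⊆ e := by
          intro z hz
          simp only [Finset.mem_insert, Finset.mem_singleton] at hz
          rcases hz with rfl | rfl | rfl
          · exact hxe
          · exact hm'e
          · exact hme
        have h4 : ({x, m', m} : Finset α).card = 3 :=
          Finset.card_eq_three.2 ⟨x, m', m, hne', fun h => hm (h ▸ hxD), fun h => hm (h ▸ hm'D),
            rfl⟩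
        have h5 := Finset.card_le_card h3
        rw [h4, hM.1 e he] at h5
        omega
      obtain ⟨s, hs⟩ : ∃ s, t = s + 1 := by
        have : 0 < t := by
          rw [← ht]
          exact Finset.card_pos.2 ⟨m', hm'2⟩
        exact ⟨t - 1, by omega⟩
      have hU' : D ∩ cov M = (insert m' S1) ∪ (S2.erase m') := by
        rw [hU, Finset.insert_union, ← Finset.union_insert, Finset.insert_erase hm'2]
      have hm'1 : m' ∉ S1 := fun h => Finset.disjoint_left.1 hd12 h hm'2
      have hd' : Disjoint (insert m' S1) (S2.erase m') := by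
        rw [Finset.disjoint_insert_left]
        exact ⟨Finset.notMem_erase _ _, hd12.mono_right (Finset.erase_subset _ _)⟩
      have h1 : ∀ x ∈ insert m' S1, phi M ((insert m D).erase x) /
          ((cov M \ (insert m D).erase x).card : ℚ) =
          ((f : ℚ) / (j + f)) / (2 * f + t) := by
        intro x hx
        have hxx : (x ∈ D ∧ x ∈ cov M) ∧ ∃ g ∈ full M (insert m D), x ∈ g := by
          rcases Finset.mem_insert.1 hx with rfl | hx
          · exact ⟨hS2D x hm'2, e, heF, hm'e⟩
          · obtain ⟨g, hg, hxg⟩ := hx1 x hx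
            refine ⟨hS1D x hx, g, ?_, hxg⟩
            rw [hA]
            exact Finset.mem_insert_of_mem hg
        obtain ⟨hxDV, g, hgF, hxg⟩ := hxx
        have hxF : x ∈ insert m D := Finset.mem_insert_of_mem hxDV.1
        rw [hden x hxDV, st4_phi (a := j) (b := f)]
        · rw [full_erase_full hM hxF hgF hxg, Finset.card_erase_of_mem hgF, hAc]
          rfl
        · rw [free_erase_full hM hxF hgF hxg, hBc]
      have h2 : ∀ x ∈ S2.erase m', phi M ((insert m D).erase x) /
          ((cov M \ (insert m D).erase x).card : ℚ) =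
          (((f : ℚ) + 1) / (((j : ℚ) + 1) + ((f : ℚ) + 1))) / (2 * f + t) := by
        intro x hx
        obtain ⟨hxm', hxS2⟩ := Finset.mem_erase.1 hx
        obtain ⟨hxD, g, hg, hxg, hgD⟩ := hx2 x hxS2
        have hxF : x ∈ insert m D := Finset.mem_insert_of_mem hxD
        have hge : g ≠ e := fun h => hxm' (honly x (h ▸ hxg) hxD)
        have hgF : ¬ g ⊆ insert m D := st4_notSub (st4_notMem hM he hg hme hge) hgD
        obtain ⟨h3, h4⟩ := free_erase_split hM hxF hg hxg hgF
        rw [hden x (hS2D x hxS2), st4_phi (a := j + 1) (b := f + 1)]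
        · push_cast
          rfl
        · rw [full_erase_split hM hxF hg hxg hgF, hAc]
        · rw [h4, Finset.card_insert_of_notMem h3, hBc]
      have hc1' : (insert m' S1).card = 2 * j + 1 := by
        rw [Finset.card_insert_of_notMem hm'1, hc1]
      have hc2' : (S2.erase m').card = s := by
        rw [Finset.card_erase_of_mem hm'2, ht, hs]
        rfl
      rw [st4_sum hU' hd' _ h1 h2, hc1', hc2']
      have h5 := numeric_two j f s hf
      have h6 : ((2 * j + 1 : ℕ) : ℚ) * (((f : ℚ) / (j + f)) / (2 * f + t)) +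
          (s : ℚ) * ((((f : ℚ) + 1) / (((j : ℚ) + 1) + ((f : ℚ) + 1))) / (2 * f + t)) =
          ((2 * j + 1) * ((f : ℚ) / (j + f)) +
      s * (((f : ℚ) + 1) / (((j : ℚ) + 1) + ((f : ℚ) + 1)))) / (2 * f + (s + 1)) := by
        rw [hs]
        push_cast
        ring
      rw [h6]
      exact h5
  · -- case 3
    have hA : full M (insert m D) = full M D := full_insert_out hmV
    have hB : free M (insert m D) = free M D := free_insert_out hmV
    have hAc : (full M (insert m D)).card = j := by rw [hA, hj]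
    have hBc : (free M (insert m D)).card = f := by rw [hB, hfr]
    have hden : ∀ x, x ∈ D ∧ x ∈ cov M →
        ((cov M \ (insert m D).erase x).card : ℚ) = (2 * f + t) + 1 := by
      rintro x ⟨hxD, hxV⟩
      rw [st4_card_out hmV hxD hxV, hcV]
      push_cast
      ring
    have h1 : ∀ x ∈ S1, phi M ((insert m D).erase x) /
        ((cov M \ (insert m D).erase x).card : ℚ) =
        ((f : ℚ) / (((j - 1 : ℕ) : ℚ) + f)) / ((2 * f + t) + 1) := by
      intro x hx
      obtain ⟨g, hg, hxg⟩ := hx1 x hx
      have hxF : x ∈ insert m D := Finset.mem_insert_of_mem (hS1D x hx).1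
      have hgF : g ∈ full M (insert m D) := by rw [hA]; exact hg
      rw [hden x (hS1D x hx), st4_phi (a := j - 1) (b := f)]
      · rw [full_erase_full hM hxF hgF hxg, Finset.card_erase_of_mem hgF, hAc]
      · rw [free_erase_full hM hxF hgF hxg, hBc]
    have h2 : ∀ x ∈ S2, phi M ((insert m D).erase x) /
        ((cov M \ (insert m D).erase x).card : ℚ) =
        (((f : ℚ) + 1) / ((j : ℚ) + ((f : ℚ) + 1))) / ((2 * f + t) + 1) := by
      intro x hx
      obtain ⟨hxD, g, hg, hxg, hgD⟩ := hx2 x hx
      have hxF : x ∈ insert m D := Finset.mem_insert_of_mem hxD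
      have hmg : m ∉ g := fun h => hmV (mem_cov.2 ⟨g, hg, h⟩)
      have hgF : ¬ g ⊆ insert m D := st4_notSub hmg hgD
      obtain ⟨h3, h4⟩ := free_erase_split hM hxF hg hxg hgF
      rw [hden x (hS2D x hx), st4_phi (a := j) (b := f + 1)]
      · push_cast
        rfl
      · rw [full_erase_split hM hxF hg hxg hgF, hAc]
      · rw [h4, Finset.card_insert_of_notMem h3, hBc]
    rw [st4_sum hU hd12 _ h1 h2, hc1, ht]
    have h5 := numeric_three j f t hj1 hf
    have h6 : ((2 * j : ℕ) : ℚ) * (((f : ℚ) / (((j - 1 : ℕ) : ℚ) + f)) / ((2 * f + t) + 1)) +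
        (t : ℚ) * ((((f : ℚ) + 1) / ((j : ℚ) + ((f : ℚ) + 1))) / ((2 * f + t) + 1)) =
        (2 * j * ((f : ℚ) / (((j - 1 : ℕ) : ℚ) + f)) +
      t * (((f : ℚ) + 1) / ((j : ℚ) + ((f : ℚ) + 1)))) / ((2 * f + t) + 1) := by
      push_cast
      ring
    rw [h6]
    exact h5

end Pool.Agent.Lib.MP_20855c_co.Star
end

section

set_option autoImplicit false

namespace Pool.Agent.Lib.MP_20855c_co.Star

open Finset

variable {α : Type*} [DecidableEq α]

/-- All sets obtained from `insert (m j) (D j)` by erasing one point. -/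
def facets {C : Type*} [Fintype C] (D : C → Finset α) (m : C → α) : Finset (Finset α) :=
  univ.biUnion fun j => (insert (m j) (D j)).image fun x => (insert (m j) (D j)).erase x

/-- ST5 (global count). Let `F j = insert (m j) (D j)` and `V = cov M`. By `card_matching`,
`|M| + |full M (D j)| = |free M (D j)| + |D j ∩ V|` and `|D j ∩ V| ≤ k`, so
`|full M (D j)| + 1 ≤ |free M (D j)|` and `local_ineq` applies to every `j`. Sum over `j`:
`|C| ≤ ∑_j phi (D j) + ∑_j ∑_{x ∈ D j ∩ V} phi (P j x) / |V \ P j x|`, `P j x = (F j).erase x`.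
The sets `D j = (F j).erase (m j)` are different elements of `facets` (`D i = D j ⊆ F j` gives
`i = j`), and no `P j x` with `x ∈ D j` is some `D i` (`D i = P j x ⊆ F j` gives `i = j`, but
`m j ∈ P j x` (as `x ≠ m j`) and `m j ∉ D j`). For a fixed set `P` the number of pairs `(j, x)` with
`x ∈ D j ∩ V` and `P j x = P` is at most `|V \ P|`: `x ∈ V \ P`, and `x` determines
`F j = insert x P`, hence `j` (if `F i = F j` then `D i ⊆ F j`, so `i = j`). So the double sum is at
most `∑ phi P` over the sets `P` in `facets` which are no `D j` (if `V \ P` is empty there is no such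
pair; `phi ≥ 0`). -/
theorem global_count {M : Finset (Finset α)} (hM : IsMatching M) {C : Type*} [Fintype C]
    (D : C → Finset α) (m : C → α) (k : ℕ) (hk : ∀ j, (D j).card = k) (hm : ∀ j, m j ∉ D j)
    (hDF : ∀ i j, i ≠ j → ¬ D i ⊆ insert (m j) (D j)) (hMk : k + 1 ≤ M.card) :
    (Fintype.card C : ℚ) ≤ ∑ P ∈ facets D m, phi M P := by
  classical
  have hphi : ∀ P, 0 ≤ phi M P := fun P => by unfold phi; positivity
  -- injectivity facts
  have hinj : ∀ i j, D i ⊆ insert (m j) (D j) → i = j := fun i j h => by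
    by_contra hne
    exact hDF i j hne h
  have hDinj : Function.Injective D := fun i j h =>
    hinj i j (h ▸ Finset.subset_insert _ _)
  -- the local inequality
  have hloc : ∀ j, (1 : ℚ) ≤ phi M (D j) + ∑ x ∈ D j ∩ cov M,
      phi M ((insert (m j) (D j)).erase x) /
        ((cov M \ (insert (m j) (D j)).erase x).card : ℚ) := by
    intro j
    refine local_ineq hM (hm j) ?_
    have h1 := card_matching hM (D j)
    have h2 : (D j ∩ cov M).card ≤ k := (Finset.card_le_card Finset.inter_subset_left).trans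
      (hk j).le
    omega
  have hsum : (Fintype.card C : ℚ) ≤ ∑ j, phi M (D j) + ∑ j, ∑ x ∈ D j ∩ cov M,
      phi M ((insert (m j) (D j)).erase x) /
        ((cov M \ (insert (m j) (D j)).erase x).card : ℚ) := by
    rw [← Finset.sum_add_distrib]
    calc (Fintype.card C : ℚ) = ∑ _j : C, (1 : ℚ) := by simp
      _ ≤ _ := Finset.sum_le_sum fun j _ => hloc j
  refine hsum.trans ?_
  -- the set of the `D j`
  have hsub : (univ.image D) ⊆ facets D m := by
    intro P hP
    obtain ⟨j, -, rfl⟩ := Finset.mem_image.1 hP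
    refine Finset.mem_biUnion.2 ⟨j, Finset.mem_univ _, Finset.mem_image.2
      ⟨m j, Finset.mem_insert_self _ _, ?_⟩⟩
    exact Finset.erase_insert (hm j)
  rw [← Finset.sum_sdiff hsub, add_comm]
  refine add_le_add ?_ ?_
  · -- the double sum
    set T := (univ : Finset C).sigma fun j => D j ∩ cov M with hT
    have e1 : ∑ j, ∑ x ∈ D j ∩ cov M, phi M ((insert (m j) (D j)).erase x) /
        ((cov M \ (insert (m j) (D j)).erase x).card : ℚ) =
        ∑ p ∈ T, phi M ((insert (m p.1) (D p.1)).erase p.2) /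
          ((cov M \ (insert (m p.1) (D p.1)).erase p.2).card : ℚ) := by
      rw [hT, Finset.sum_sigma]
    rw [e1]
    have hmap : ∀ p ∈ T, (insert (m p.1) (D p.1)).erase p.2 ∈ facets D m \ univ.image D := by
      rintro ⟨j, x⟩ hp
      obtain ⟨-, hx⟩ := Finset.mem_sigma.1 hp
      have hx' : x ∈ D j := (Finset.mem_inter.1 hx).1
      refine Finset.mem_sdiff.2 ⟨Finset.mem_biUnion.2 ⟨j, Finset.mem_univ _,
        Finset.mem_image.2 ⟨x, Finset.mem_insert_of_mem hx', rfl⟩⟩, ?_⟩
      intro hi
      obtain ⟨i, -, hi⟩ := Finset.mem_image.1 hi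
      have hij : i = j := hinj i j (by
        rw [hi]; exact Finset.erase_subset _ _)
      subst hij
      have hmx : m i ≠ x := fun h => hm i (h ▸ hx')
      have : m i ∈ D i := by
        rw [hi]
        exact Finset.mem_erase.2 ⟨hmx, Finset.mem_insert_self _ _⟩
      exact hm i this
    rw [← Finset.sum_fiberwise_of_maps_to hmap]
    refine Finset.sum_le_sum fun P _ => ?_
    -- the fibre of `P`
    have e2 : ∀ p ∈ T.filter (fun p => (insert (m p.1) (D p.1)).erase p.2 = P),
        phi M ((insert (m p.1) (D p.1)).erase p.2) /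
          ((cov M \ (insert (m p.1) (D p.1)).erase p.2).card : ℚ) =
        phi M P / ((cov M \ P).card : ℚ) := by
      intro p hp
      rw [(Finset.mem_filter.1 hp).2]
    rw [Finset.sum_congr rfl e2, Finset.sum_const, nsmul_eq_mul]
    have hcard : (T.filter (fun p => (insert (m p.1) (D p.1)).erase p.2 = P)).card ≤
        (cov M \ P).card := by
      refine Finset.card_le_card_of_injOn (fun p => p.2) ?_ ?_
      · rintro ⟨j, x⟩ hp
        obtain ⟨hp1, hp2⟩ := Finset.mem_filter.1 (Finset.mem_coe.1 hp)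
        obtain ⟨-, hx⟩ := Finset.mem_sigma.1 hp1
        simp only at hp2 hx
        refine Finset.mem_coe.2 (Finset.mem_sdiff.2 ⟨(Finset.mem_inter.1 hx).2, ?_⟩)
        rw [← hp2]
        exact Finset.notMem_erase _ _
      · rintro ⟨j, x⟩ hp ⟨i, y⟩ hq (hxy : x = y)
        subst hxy
        obtain ⟨hp1, hp2⟩ := Finset.mem_filter.1 (Finset.mem_coe.1 hp)
        obtain ⟨hq1, hq2⟩ := Finset.mem_filter.1 (Finset.mem_coe.1 hq)
        obtain ⟨-, hx⟩ := Finset.mem_sigma.1 hp1
        obtain ⟨-, hy⟩ := Finset.mem_sigma.1 hq1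
        simp only at hp2 hq2 hx hy
        have hxj : x ∈ insert (m j) (D j) := Finset.mem_insert_of_mem (Finset.mem_inter.1 hx).1
        have hxi : x ∈ insert (m i) (D i) := Finset.mem_insert_of_mem (Finset.mem_inter.1 hy).1
        have hF : insert (m j) (D j) = insert (m i) (D i) := by
          rw [← Finset.insert_erase hxj, hp2, ← hq2, Finset.insert_erase hxi]
        have hji : j = i := hinj j i (hF ▸ Finset.subset_insert _ _)
        subst hji
        rfl
    have hP := hphi P
    by_cases h0 : (cov M \ P).card = 0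
    · rw [h0]; simpa using hP
    · have hpos : (0 : ℚ) < ((cov M \ P).card : ℚ) := by positivity
      calc ((T.filter (fun p => (insert (m p.1) (D p.1)).erase p.2 = P)).card : ℚ) *
            (phi M P / ((cov M \ P).card : ℚ))
          ≤ ((cov M \ P).card : ℚ) * (phi M P / ((cov M \ P).card : ℚ)) := by
            refine mul_le_mul_of_nonneg_right ?_ (div_nonneg hP hpos.le)
            exact_mod_cast hcard
        _ = phi M P := by field_simp
  · rw [Finset.sum_image fun i _ j _ h => hDinj h]

end Pool.Agent.Lib.MP_20855c_co.Star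
end
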