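import Pool.Agent.Lib.MP_20855c_co.Mg.G007
import Pool.Agent.Lib.MP_20855c_co.Mg.G008
import Pool.Agent.Lib.MP_20855c_co.Mg.G006

section

/-!
# MP_20855c_co: the main bound for given weights and a given space
-/

set_option autoImplicit false

namespace Pool.Agent.Lib.MP_20855c_co.Match

open Finset Pool.Agent.Lib.MP_20855c_co.Star

/-- The main bound for skew systems on a finite ground set, for given nonzero weights `t` and a given
space `X1` of dimension `k + b` which contains the rows of the weighted adjacency matrix and meets the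
vectors supported outside `A i ∪ B i` in `0`. -/
theorem main_abs {ι V K : Type*} [Field K] [CharP K 2] [Fintype ι] [Fintype V] [DecidableEq V]
    (k b : ℕ) (hkb : k + 2 ≤ b)
    (A B : ι → Finset V) (hA : ∀ i, (A i).card = k + 2) (hB : ∀ i, (B i).card = b)
    (hAB : ∀ i, (A i ∩ B i).card = 2) (G : Finset (Finset V)) (hG : ∀ e ∈ G, e.card = 2)
    (hcore : ∀ i, A i ∩ B i ∈ G) (τ : ι → ℕ)
    (hc : ∀ i j, i ≠ j → τ i ≤ τ j → ∀ e ∈ G, ¬ A i ∩ B j ⊆ e)
    (t : Finset V → K) (ht : ∀ e ∈ G, t e ≠ 0) (X1 : Submodule K (V → K))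
    (hX1 : Module.finrank K X1 = k + b) (h01' : ∀ y, (cm G t).mulVec y ∈ X1)
    (hdis : ∀ i, ∀ f ∈ X1, (∀ v ∈ A i ∪ B i, f v = 0) → f = 0) :
    Fintype.card ι ≤ ∑ j ∈ range (k + 1), 2 ^ j * (k + b - 2 - 2 * j).choose (k - j) := by
  classical
  set X0 : Submodule K (V → K) := LinearMap.range (cm G t).mulVecLin with hX0
  have h01 : X0 ≤ X1 := by
    rintro _ ⟨y, rfl⟩
    exact h01' y
  -- the complements of the sets `A i ∪ B i`
  set R : ι → Finset V := fun i => univ \ (A i ∪ B i) with hR
  have hcard : ∀ i, (A i ∪ B i).card = k + b := by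
    intro i
    have h1 := card_union_add_card_inter (A i) (B i)
    rw [hA, hB, hAB] at h1
    omega
  have hRc : ∀ i, k + b + (R i).card = Fintype.card V := by
    intro i
    have h1 := card_sdiff_add_card_eq_card (subset_univ (A i ∪ B i))
    rw [hcard, card_univ] at h1
    have h2 : (R i).card = (univ \ (A i ∪ B i)).card := rfl
    omega
  have hfr : Module.finrank K (V → K) = Fintype.card V := Module.finrank_fintype_fun_eq_card K
  have hX1d : ∀ i, Disjoint X1 (Y K (R i)) := by
    intro i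
    rw [Submodule.disjoint_def]
    intro f hf hfY
    apply hdis i f hf
    intro v hv
    apply mem_Y_apply hfY
    rw [hR]
    simp only [mem_sdiff, mem_univ, true_and, not_not]
    exact hv
  -- the vectors
  have hvec : ∀ i, ∃ w ∈ (X1.map (lf K)) ^ (A i \ B i).card, w - mon (x K) (A i \ B i) ∈
      Submodule.span K {y | ∃ P ⊆ (A i \ B i) ∪ R i, ¬ Disjoint P (R i) ∧ y = mon (x K) P} := by
    intro i
    apply exists_vec
    · rw [Finset.disjoint_left]
      intro v hv hv'
      exact (mem_sdiff.1 hv').2 (mem_union_left _ (mem_sdiff.1 hv).1)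
    · intro d hd
      have htop : X1 ⊔ Y K (R i) = ⊤ := by
        apply Submodule.eq_top_of_finrank_eq
        have h1 := Submodule.finrank_sup_add_finrank_inf_eq X1 (Y K (R i))
        rw [(hX1d i).eq_bot, finrank_bot, finrank_Y, hX1, add_zero, hRc i] at h1
        rw [h1, hfr]
      have h1 : (Pi.single d 1 : V → K) ∈ X1 ⊔ Y K (R i) := by
        rw [htop]
        exact Submodule.mem_top
      obtain ⟨f, hf, g, hg, hfg⟩ := Submodule.mem_sup.1 h1
      refine ⟨f, hf, ?_, ?_⟩
      · have h2 : d ∉ R i := fun h => (mem_sdiff.1 h).2 (mem_union_left _ (mem_sdiff.1 hd).1)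
        have h3 := congrFun hfg d
        rw [Pi.add_apply, mem_Y_apply hg h2, add_zero, Pi.single_eq_same] at h3
        exact h3
      · intro v hv hvd
        have h3 := congrFun hfg v
        rw [Pi.add_apply, mem_Y_apply hg hv, add_zero, Pi.single_eq_of_ne hvd] at h3
        exact h3
  choose w hw hw2 using hvec
  have hDk : ∀ i, (A i \ B i).card = k := by
    intro i
    have h1 := Finset.card_sdiff_add_card_inter (A i) (B i)
    rw [hA i, hAB i] at h1
    omega
  have hcoef1 : ∀ i, coef K (A i) (qG G t * w i) = t (A i ∩ B i) := by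
    intro i
    · have h1 : A i \ (A i \ B i) = A i ∩ B i := by
        rw [sdiff_sdiff_right_self, Finset.inf_eq_inter]
      rw [← h1]
      apply coef_diag G t (A i) (A i \ B i) (R i) (w i) sdiff_subset
      · rw [Finset.disjoint_left]
        intro v hv hv'
        exact (mem_sdiff.1 hv').2 (mem_union_left _ hv)
      · rw [h1]
        exact hcore i
      · exact hw2 i
  have hcoef0 : ∀ i j, i ≠ j → τ i ≤ τ j → coef K (A i) (qG G t * w j) = 0 := by
    intro i j hij hτ
    · apply coef_zero G t (A i) ((A j \ B j) ∪ R j)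
      · have h1 : w j = mon (x K) (A j \ B j) + (w j - mon (x K) (A j \ B j)) := by abel
        rw [h1]
        apply Submodule.add_mem
        · exact Submodule.subset_span ⟨_, subset_union_left, rfl⟩
        · apply Submodule.span_mono _ (hw2 j)
          rintro y ⟨P, hP, _, rfl⟩
          exact ⟨P, hP, rfl⟩
      · intro e he h
        apply hc i j hij hτ e he
        intro v hv
        obtain ⟨hvA, hvB⟩ := mem_inter.1 hv
        by_contra hve
        rcases mem_union.1 (h (mem_sdiff.2 ⟨hvA, hve⟩)) with h' | h'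
        · exact (mem_sdiff.1 h').2 hvB
        · exact (mem_sdiff.1 h').2 (mem_union_right _ hvB)
  have hmem : ∀ j, qG G t * w j ∈
      ((X1.map (lf K)) ^ k).map (LinearMap.mulLeft K (qG G t)) := by
    intro j
    have h1 := hw j
    rw [hDk j] at h1
    exact ⟨w j, h1, rfl⟩
  have : Module.Finite K (X1.map (lf K)) := inferInstance
  have hfin : Module.Finite K (((X1.map (lf K)) ^ k).map (LinearMap.mulLeft K (qG G t))) := by
    have h1 : ((X1.map (lf K)) ^ k).FG := by
      apply Submodule.FG.pow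
      exact Module.Finite.iff_fg.1 inferInstance
    exact Module.Finite.iff_fg.2 (h1.map _)
  have hli : LinearIndependent K (fun j => (⟨qG G t * w j, hmem j⟩ :
      (((X1.map (lf K)) ^ k).map (LinearMap.mulLeft K (qG G t)) : Submodule K (SR K V)))) := by
    apply LinearIndependent.of_comp (Submodule.subtype _)
    rw [Fintype.linearIndependent_iff]
    intro g hg
    simp only [Function.comp_apply, Submodule.subtype_apply] at hg
    by_contra hcon
    push Not at hcon
    obtain ⟨r0, hr0⟩ := hcon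
    obtain ⟨i, hi, hmin⟩ := Finset.exists_min_image (univ.filter fun p => g p ≠ 0) τ
      ⟨r0, by simpa using hr0⟩
    rw [mem_filter] at hi
    have h1 := congrArg (coef K (A i)) hg
    rw [map_sum, map_zero] at h1
    simp_rw [map_smul] at h1
    rw [Finset.sum_eq_single i] at h1
    · rw [hcoef1, smul_eq_mul] at h1
      exact hi.2 ((mul_eq_zero.1 h1).resolve_right (ht _ (hcore i)))
    · intro j _ hj
      by_cases hgj : g j = 0
      · rw [hgj, zero_smul]
      · rw [hcoef0 i j (Ne.symm hj) (hmin j (by simpa using hgj)), smul_zero]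
    · intro h
      exact absurd (mem_univ i) h
  have h1 := rank_sub (X0.map (lf K)) (X1.map (lf K)) (Submodule.map_mono h01)
      (by
        rintro l ⟨f, _, rfl⟩
        exact lf_mul_self f) (qG G t) (quad_mem G hG t) k
  have h2 : Module.finrank K (X1.map (lf K)) = k + b := by
    rw [← hX1]
    exact ((Submodule.equivMapOfInjective (lf K) lf_injective X1).finrank_eq).symm
  rw [h2] at h1
  refine hli.fintype_card_le_finrank.trans (h1.trans ?_)
  refine (Tn_le (Module.finrank K (X0.map (lf K))) _ k b (by omega) hkb).trans ?_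
  apply sum_le_sum_of_subset
  intro j hj
  rw [mem_range] at hj ⊢
  omega

end Pool.Agent.Lib.MP_20855c_co.Match
end

section

/-!
# MP_20855c_co: the bound for given weights, with points outside `W`
-/

set_option autoImplicit false

namespace Pool.Agent.Lib.MP_20855c_co.Match

open Finset Pool.Agent.Lib.MP_20855c_co.Star

section

variable {α : Type*} [DecidableEq α]

/-- `main_abs` for systems inside `W`. -/
theorem main_abs_sub {ι K : Type*} [Field K] [CharP K 2] [Fintype ι]
    (k b : ℕ) (hkb : k + 2 ≤ b) (W : Finset α)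
    (A B : ι → Finset α) (hAW : ∀ i, A i ⊆ W) (hBW : ∀ i, B i ⊆ W)
    (hA : ∀ i, (A i).card = k + 2) (hB : ∀ i, (B i).card = b)
    (hAB : ∀ i, (A i ∩ B i).card = 2) (G : Finset (Finset α)) (hG : ∀ e ∈ G, e.card = 2)
    (hGW : ∀ e ∈ G, e ⊆ W) (hcore : ∀ i, A i ∩ B i ∈ G) (τ : ι → ℕ)
    (hc : ∀ i j, i ≠ j → τ i ≤ τ j → ∀ e ∈ G, ¬ A i ∩ B j ⊆ e)
    (t : Finset W → K) (ht : ∀ e ∈ G, t (e.subtype (· ∈ W)) ≠ 0) (X1 : Submodule K (W → K))
    (hX1 : Module.finrank K X1 = k + b)
    (h01 : ∀ y, (cm (G.image fun e => e.subtype (· ∈ W)) t).mulVec y ∈ X1)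
    (hd : ∀ i, ∀ f ∈ X1, (∀ v : W, (v : α) ∈ A i ∪ B i → f v = 0) → f = 0) :
    Fintype.card ι ≤ ∑ j ∈ range (k + 1), 2 ^ j * (k + b - 2 - 2 * j).choose (k - j) := by
  classical
  set φ : Finset α → Finset W := fun S => S.subtype (· ∈ W) with hφ
  have hmem : ∀ (S : Finset α) (u : W), u ∈ φ S ↔ (u : α) ∈ S := fun S u => mem_subtype
  have hcard : ∀ S : Finset α, S ⊆ W → (φ S).card = S.card := by
    intro S hS
    rw [hφ]
    simp only
    rw [card_subtype, filter_true_of_mem hS]
  have hinter : ∀ S S' : Finset α, φ S ∩ φ S' = φ (S ∩ S') := by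
    intro S S'
    ext u
    rw [mem_inter, hmem, hmem, hmem, mem_inter]
  have hsubt : ∀ S S' : Finset α, S ⊆ W → (φ S ⊆ φ S' ↔ S ⊆ S') := by
    intro S S' hS
    constructor
    · intro h u hu
      exact (hmem S' ⟨u, hS hu⟩).1 (h ((hmem S ⟨u, hS hu⟩).2 hu))
    · intro h u hu
      exact (hmem S' u).2 (h ((hmem S u).1 hu))
  refine main_abs k b hkb (fun i => φ (A i)) (fun i => φ (B i)) ?_ ?_ ?_ (G.image φ) ?_ ?_ τ ?_
    t ?_ X1 hX1 h01 ?_
  · intro i
    rw [hcard _ (hAW i), hA]
  · intro i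
    rw [hcard _ (hBW i), hB]
  · intro i
    rw [hinter, hcard _ (inter_subset_left.trans (hAW i)), hAB]
  · intro e' he'
    obtain ⟨e, he, rfl⟩ := mem_image.1 he'
    rw [hcard e (hGW e he)]
    exact hG e he
  · intro i
    rw [hinter]
    exact mem_image_of_mem φ (hcore i)
  · intro i j hij hτ e' he' h
    obtain ⟨e, he, rfl⟩ := mem_image.1 he'
    rw [hinter, hsubt _ _ (inter_subset_left.trans (hAW i))] at h
    exact hc i j hij hτ e he h
  · intro e' he'
    obtain ⟨e, he, rfl⟩ := mem_image.1 he'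
    exact ht e he
  · intro i f hf h
    apply hd i f hf
    intro v hv
    apply h v
    rw [mem_union, hmem, hmem]
    exact mem_union.1 hv

/-- The bound for given weights, with points outside `W`. -/
theorem abs_hybrid {ι F : Type*} [Field F] [CharP F 2] [Fintype ι]
    (k b : ℕ) (hkb : k + 2 ≤ b)
    (A B : ι → Finset α) (hA : ∀ i, (A i).card = k + 2) (hB : ∀ i, (B i).card = b)
    (hAB : ∀ i, (A i ∩ B i).card = 2) (G : Finset (Finset α)) (hG : ∀ e ∈ G, e.card = 2)
    (hcore : ∀ i, A i ∩ B i ∈ G) (hc : ∀ i j, i ≠ j → ∀ e ∈ G, ¬ A i ∩ B j ⊆ e)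
    (W : Finset α) (hGW : ∀ e ∈ G, e ⊆ W)
    (T : ι → Finset α) (hTW : ∀ i, T i ⊆ W \ (A i ∪ B i))
    (hTc : ∀ i, (T i).card = (A i \ W).card + (B i \ W).card)
    (t : Finset W → F) (ht : ∀ e ∈ G, t (e.subtype (· ∈ W)) ≠ 0) (X1 : Submodule F (W → F))
    (hX1 : Module.finrank F X1 = k + b)
    (h01 : ∀ y, (cm (G.image fun e => e.subtype (· ∈ W)) t).mulVec y ∈ X1)
    (hd : ∀ i, ∀ f ∈ X1, (∀ v : W, (v : α) ∈ (A i ∪ B i) ∪ T i → f v = 0) → f = 0) :
    Fintype.card ι ≤ ∑ j ∈ range (k + 1), 2 ^ j * (k + b - 2 - 2 * j).choose (k - j) := by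
  classical
  set bd := ∑ j ∈ range (k + 1), 2 ^ j * (k + b - 2 - 2 * j).choose (k - j) with hbd
  set Ω : Finset α := (univ : Finset ι).biUnion fun k => A k ∪ B k with hΩ
  have hAΩ : ∀ i, A i ⊆ Ω := fun i u hu => mem_biUnion.2 ⟨i, mem_univ _, mem_union_left _ hu⟩
  have hBΩ : ∀ i, B i ⊆ Ω := fun i u hu => mem_biUnion.2 ⟨i, mem_univ _, mem_union_right _ hu⟩
  set ψ : Finset α → Finset Ω := fun S => S.subtype (· ∈ Ω) with hψ
  have hmemψ : ∀ (S : Finset α) (u : Ω), u ∈ ψ S ↔ (u : α) ∈ S := fun S u => mem_subtype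
  have hcardψ : ∀ S : Finset α, S ⊆ Ω → (ψ S).card = S.card := by
    intro S hS
    rw [hψ]
    simp only
    rw [card_subtype, filter_true_of_mem hS]
  have hTA : ∀ i, ∀ u ∈ T i, u ∈ W ∧ u ∉ A i ∧ u ∉ B i := by
    intro i u hu
    have h1 := mem_sdiff.1 (hTW i hu)
    rw [mem_union, not_or] at h1
    exact h1
  have hAW : ∀ i, (A i ∩ W).card + (A i \ W).card = k + 2 := by
    intro i
    rw [← hA i, add_comm]
    exact card_sdiff_add_card_inter (A i) W
  have hBW : ∀ i, (B i ∩ W).card + (B i \ W).card = b := by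
    intro i
    rw [← hB i, add_comm]
    exact card_sdiff_add_card_inter (B i) W
  -- a fixed ordering
  have hfix : ∀ s : Ω ≃ Fin (Fintype.card Ω),
      (((univ : Finset ι).sigma fun i => powersetCard (A i \ W).card (T i)).filter
        fun x => s ∈ K (ψ (A x.1 \ W)) (ψ (B x.1 \ W))).card ≤ bd := by
    intro s
    set J := ((univ : Finset ι).sigma fun i => powersetCard (A i \ W).card (T i)).filter
        fun x => s ∈ K (ψ (A x.1 \ W)) (ψ (B x.1 \ W)) with hJ
    have hJm : ∀ p : J, s ∈ K (ψ (A p.1.1 \ W)) (ψ (B p.1.1 \ W)) ∧ p.1.2 ⊆ T p.1.1 ∧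
        p.1.2.card = (A p.1.1 \ W).card := by
      intro p
      have h := mem_filter.1 p.2
      rw [mem_sigma, mem_powersetCard] at h
      exact ⟨h.2, h.1.2⟩
    have hinter : ∀ p : J, ((A p.1.1 ∩ W) ∪ p.1.2) ∩ ((B p.1.1 ∩ W) ∪ (T p.1.1 \ p.1.2)) =
        A p.1.1 ∩ B p.1.1 := by
      intro p
      ext u
      simp only [mem_inter, mem_union, mem_sdiff]
      constructor
      · rintro ⟨h1, h2⟩
        rcases h1 with h1 | h1
        · rcases h2 with h2 | h2
          · exact ⟨h1.1, h2.1⟩
          · exact absurd h1.1 (hTA _ u h2.1).2.1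
        · rcases h2 with h2 | h2
          · exact absurd h2.1 (hTA _ u ((hJm p).2.1 h1)).2.2
          · exact absurd h1 h2.2
      · rintro ⟨h1, h2⟩
        have h3 := hGW _ (hcore p.1.1) (mem_inter.2 ⟨h1, h2⟩)
        exact ⟨Or.inl ⟨h1, h3⟩, Or.inl ⟨h2, h3⟩⟩
    rw [← Fintype.card_coe]
    refine main_abs_sub (ι := J) k b hkb W (fun p => (A p.1.1 ∩ W) ∪ p.1.2)
      (fun p => (B p.1.1 ∩ W) ∪ (T p.1.1 \ p.1.2)) ?_ ?_ ?_ ?_ ?_ G hG hGW ?_
      (fun p => (ψ (A p.1.1 \ W)).sup fun u => (s u : ℕ) + 1) ?_ t ht X1 hX1 h01 ?_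
    · intro p u hu
      rcases mem_union.1 hu with hu | hu
      · exact (mem_inter.1 hu).2
      · exact (hTA _ u ((hJm p).2.1 hu)).1
    · intro p u hu
      rcases mem_union.1 hu with hu | hu
      · exact (mem_inter.1 hu).2
      · exact (hTA _ u (mem_sdiff.1 hu).1).1
    · intro p
      rw [card_union_of_disjoint, (hJm p).2.2]
      · exact hAW p.1.1
      · rw [Finset.disjoint_left]
        intro u hu hu'
        exact (hTA _ u ((hJm p).2.1 hu')).2.1 (mem_inter.1 hu).1
    · intro p
      rw [card_union_of_disjoint, card_sdiff_of_subset (hJm p).2.1, hTc, (hJm p).2.2]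
      · have := hBW p.1.1
        omega
      · rw [Finset.disjoint_left]
        intro u hu hu'
        exact (hTA _ u (mem_sdiff.1 hu').1).2.2 (mem_inter.1 hu).1
    · intro p
      rw [hinter]
      exact hAB p.1.1
    · intro p
      rw [hinter]
      exact hcore p.1.1
    · intro p q hpq hle e he hsub
      by_cases hij : p.1.1 = q.1.1
      · -- the same member
        have hne : p.1.2 ≠ q.1.2 := by
          intro h
          apply hpq
          apply Subtype.ext
          exact Sigma.ext hij (heq_of_eq h)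
        have hnsub : ¬ p.1.2 ⊆ q.1.2 := by
          intro h
          apply hne
          apply Finset.eq_of_subset_of_card_le h
          rw [(hJm p).2.2, (hJm q).2.2, hij]
        rw [Finset.not_subset] at hnsub
        obtain ⟨u, hu, hu'⟩ := hnsub
        have huT := (hJm p).2.1 hu
        have h3 : insert u (A p.1.1 ∩ B p.1.1) ⊆ e := by
          refine Subset.trans ?_ hsub
          intro v hv
          rw [mem_insert] at hv
          simp only [mem_inter, mem_union, mem_sdiff]
          rcases hv with rfl | hv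
          · exact ⟨Or.inr hu, Or.inr ⟨hij ▸ huT, hu'⟩⟩
          · have h4 := hGW _ (hcore p.1.1) hv
            rw [mem_inter] at hv
            exact ⟨Or.inl ⟨hv.1, h4⟩, Or.inl ⟨hij ▸ hv.2, h4⟩⟩
        have h4 : u ∉ A p.1.1 ∩ B p.1.1 := fun h => (hTA _ u huT).2.1 (mem_inter.1 h).1
        have h5 := card_le_card h3
        rw [card_insert_of_notMem h4, hAB, hG e he] at h5
        omega
      · apply hc p.1.1 q.1.1 hij e he
        intro u hu
        rw [mem_inter] at hu
        by_cases huW : u ∈ W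
        · apply hsub
          simp only [mem_inter, mem_union]
          exact ⟨Or.inl ⟨hu.1, huW⟩, Or.inl ⟨hu.2, huW⟩⟩
        · exfalso
          have huA : (⟨u, hAΩ _ hu.1⟩ : Ω) ∈ ψ (A p.1.1 \ W) :=
            (hmemψ _ _).2 (mem_sdiff.2 ⟨hu.1, huW⟩)
          have huB : (⟨u, hAΩ _ hu.1⟩ : Ω) ∈ ψ (B q.1.1 \ W) :=
            (hmemψ _ _).2 (mem_sdiff.2 ⟨hu.2, huW⟩)
          have h3 : (s ⟨u, hAΩ _ hu.1⟩ : ℕ) + 1 ≤
              (ψ (A p.1.1 \ W)).sup fun u => (s u : ℕ) + 1 :=
            Finset.le_sup (f := fun u => (s u : ℕ) + 1) huA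
          have h4 : (ψ (A q.1.1 \ W)).sup (fun u => (s u : ℕ) + 1) ≤ s ⟨u, hAΩ _ hu.1⟩ := by
            apply Finset.sup_le
            intro v hv
            have := mem_K.1 (hJm q).1 v hv _ huB
            rw [Fin.lt_def] at this
            omega
          omega
    · intro p f hf h
      apply hd p.1.1 f hf
      intro v hv
      apply h v
      simp only [mem_union, mem_inter, mem_sdiff] at hv ⊢
      rcases hv with (hv | hv) | hv
      · exact Or.inl (Or.inl ⟨hv, v.2⟩)
      · exact Or.inr (Or.inl ⟨hv, v.2⟩)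
      · by_cases h2 : (v : α) ∈ p.1.2
        · exact Or.inl (Or.inr h2)
        · exact Or.inr (Or.inr ⟨hv, h2⟩)
  -- the average
  set M := (Fintype.card Ω).factorial with hMdef
  have hcu : (univ : Finset (Ω ≃ Fin (Fintype.card Ω))).card = M := by
    rw [card_univ]
    exact Fintype.card_equiv (Fintype.equivFin Ω)
  have h1 : Fintype.card ι * M ≤ ∑ i, (powersetCard (A i \ W).card (T i)).card *
      (K (ψ (A i \ W)) (ψ (B i \ W))).card := by
    rw [← card_univ, ← smul_eq_mul, ← Finset.sum_const]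
    apply Finset.sum_le_sum
    intro i _
    have h2 : Disjoint (ψ (A i \ W)) (ψ (B i \ W)) := by
      rw [Finset.disjoint_left]
      intro u hu hu'
      rw [hmemψ, mem_sdiff] at hu hu'
      exact hu.2 (hGW _ (hcore i) (mem_inter.2 ⟨hu.1, hu'.1⟩))
    have h3 := factorial_le (ψ (A i \ W)) (ψ (B i \ W)) h2
    rw [hcardψ _ (sdiff_subset.trans (hAΩ i)), hcardψ _ (sdiff_subset.trans (hBΩ i))] at h3
    rw [card_powersetCard, hTc]
    exact h3
  have h2 : ∑ i, (powersetCard (A i \ W).card (T i)).card *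
      (K (ψ (A i \ W)) (ψ (B i \ W))).card =
      ∑ s : Ω ≃ Fin (Fintype.card Ω),
        (((univ : Finset ι).sigma fun i => powersetCard (A i \ W).card (T i)).filter
          fun x => s ∈ K (ψ (A x.1 \ W)) (ψ (B x.1 \ W))).card := by
    have h3 := Finset.sum_card_bipartiteAbove_eq_sum_card_bipartiteBelow
      (s := (univ : Finset (Ω ≃ Fin (Fintype.card Ω))))
      (t := (univ : Finset ι).sigma fun i => powersetCard (A i \ W).card (T i))
      (fun (s : Ω ≃ Fin (Fintype.card Ω)) (x : Sigma fun _ : ι => Finset α) =>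
        s ∈ K (ψ (A x.1 \ W)) (ψ (B x.1 \ W)))
    unfold Finset.bipartiteAbove Finset.bipartiteBelow at h3
    rw [h3, Finset.sum_sigma]
    apply Finset.sum_congr rfl
    intro i _
    have h4 : (univ.filter fun s => s ∈ K (ψ (A i \ W)) (ψ (B i \ W))) =
        K (ψ (A i \ W)) (ψ (B i \ W)) := by
      ext s
      simp
    simp only [h4, Finset.sum_const, smul_eq_mul]
  have h3 : ∑ s : Ω ≃ Fin (Fintype.card Ω),
        (((univ : Finset ι).sigma fun i => powersetCard (A i \ W).card (T i)).filter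
          fun x => s ∈ K (ψ (A x.1 \ W)) (ψ (B x.1 \ W))).card ≤ M * bd := by
    rw [← hcu, ← smul_eq_mul]
    apply Finset.sum_le_card_nsmul
    intro s _
    exact hfix s
  have h4 : M * Fintype.card ι ≤ M * bd := by
    rw [mul_comm]
    exact (h1.trans h2.le).trans h3
  exact Nat.le_of_mul_le_mul_left h4 (Nat.factorial_pos _)

end

end Pool.Agent.Lib.MP_20855c_co.Match
end
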