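import Pool.Agent.Lib.MP_20855c_co.Mg.G012

section

/-!
# MP_20855c_co: rank of multiplication by a quadratic element

`R` is a commutative algebra over a field `K` of characteristic two and `x w` are elements with square
zero.  Multiplication by an element `q` of degree two, on the span of the squarefree monomials of
degree `m` in `N` of the variables, has rank at most `T N m`.
-/

set_option autoImplicit false

namespace Pool.Agent.Lib.MP_20855c_co.StarK

open Finset

section

variable (K : Type*) {σ R : Type*} [DecidableEq σ] [Field K] [CharP K 2] [CommRing R] [Algebra K R]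

/-- The span of the squarefree monomials of degree `m` in the variables of `W`. -/
def U (x : σ → R) (W : Finset σ) (m : ℕ) : Submodule K R :=
  Submodule.span K (mon x '' (powersetCard m W : Set (Finset σ)))

instance (x : σ → R) (W : Finset σ) (m : ℕ) : Module.Finite K (U K x W m) := by
  unfold U
  exact Module.Finite.span_of_finite _ (Set.Finite.image _ (Finset.finite_toSet _))

omit [DecidableEq σ] [CharP K 2] in
lemma finrank_U (x : σ → R) (W : Finset σ) (m : ℕ) :
    Module.finrank K (U K x W m) ≤ W.card.choose m := by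
  classical
  unfold U
  have h : (mon x '' (powersetCard m W : Set (Finset σ))) =
      (((powersetCard m W).image (mon x) : Finset R) : Set R) := by
    rw [Finset.coe_image]
  rw [h]
  calc _ ≤ ((powersetCard m W).image (mon x)).card := finrank_span_finset_le_card _
    _ ≤ (powersetCard m W).card := card_image_le
    _ = _ := card_powersetCard _ _

omit [DecidableEq σ] [CharP K 2] in
lemma mon_mem (x : σ → R) {W P : Finset σ} (h : P ⊆ W) : mon x P ∈ U K x W P.card := by
  apply Submodule.subset_span
  refine ⟨P, ?_, rfl⟩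
  rw [Finset.mem_coe, mem_powersetCard]
  exact ⟨h, rfl⟩

omit [DecidableEq σ] [CharP K 2] in
lemma mon_mem' (x : σ → R) {W P : Finset σ} {m : ℕ} (h : P ⊆ W) (hm : P.card = m) :
    mon x P ∈ U K x W m := hm ▸ mon_mem K x h

omit [DecidableEq σ] in
include K in
lemma add_self' (a : R) : a + a = 0 := by
  have h : ((1 + 1 : K)) • a = 0 := by
    have : (1 + 1 : K) = 0 := CharTwo.add_self_eq_zero 1
    rw [this, zero_smul]
  rwa [add_smul, one_smul] at h

omit [CharP K 2] in
lemma U_mul (x : σ → R) (hx : ∀ w, x w * x w = 0) (W : Finset σ) (m k : ℕ) {f g : R}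
    (hf : f ∈ U K x W m) (hg : g ∈ U K x W k) : f * g ∈ U K x W (m + k) := by
  have h : U K x W m * U K x W k ≤ U K x W (m + k) := by
    unfold U
    rw [Submodule.span_mul_span, Submodule.span_le]
    rintro _ ⟨_, ⟨P, hP, rfl⟩, _, ⟨Q, hQ, rfl⟩, rfl⟩
    rw [Finset.mem_coe, mem_powersetCard] at hP hQ
    simp only
    rw [mon_mul x hx]
    split_ifs with h
    · apply mon_mem'
      · exact union_subset hP.1 hQ.1
      · rw [card_union_of_disjoint h, hP.2, hQ.2]
    · exact Submodule.zero_mem _
  exact h (Submodule.mul_mem_mul hf hg)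

lemma U_sq (x : σ → R) (hx : ∀ w, x w * x w = 0) (W : Finset σ) (m : ℕ) {f : R}
    (hf : f ∈ U K x W (m + 1)) : f * f = 0 := by
  unfold U at hf
  induction hf using Submodule.span_induction with
  | mem f hf =>
    obtain ⟨P, hP, rfl⟩ := hf
    rw [Finset.mem_coe, mem_powersetCard] at hP
    rw [mon_mul x hx, if_neg]
    rw [disjoint_self]
    intro h
    rw [Finset.bot_eq_empty] at h
    rw [h] at hP
    simp at hP
  | zero => simp
  | add f g _ _ hf hg =>
    have : (f + g) * (f + g) = f * f + g * g + (f * g + f * g) := by ring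
    rw [this, hf, hg, add_self' K (f * g)]
    simp
  | smul c f _ hf =>
    rw [smul_mul_smul_comm, hf, smul_zero]

/-- The image of the monomials of degree `m` in `W` under multiplication by `q`. -/
def V (x : σ → R) (W : Finset σ) (m : ℕ) (q : R) : Submodule K R :=
  (U K x W m).map (LinearMap.mulLeft K q)

instance (x : σ → R) (W : Finset σ) (m : ℕ) (q : R) : Module.Finite K (V K x W m q) := by
  unfold V
  infer_instance

omit [DecidableEq σ] [CharP K 2] in
lemma mul_mem_V (x : σ → R) {W : Finset σ} {m : ℕ} {q u : R} (hu : u ∈ U K x W m) :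
    q * u ∈ V K x W m q := ⟨u, hu, rfl⟩

omit [DecidableEq σ] in
include K in
lemma two_eq_zero' : (2 : R) = 0 := by
  have := add_self' K (R := R) (1 : R)
  rw [← this]; norm_num

omit [DecidableEq σ] [CharP K 2] in
lemma V_smul (x : σ → R) (W : Finset σ) (m : ℕ) {c : K} (hc : c ≠ 0) (q : R) :
    V K x W m (c • q) = V K x W m q := by
  unfold V
  have h : LinearMap.mulLeft K (c • q) = c • LinearMap.mulLeft K q := by
    ext u
    simp
  rw [h, Submodule.map_smul _ _ _ hc]

omit [CharP K 2] in
/-- A nonzero quadratic element contains a monomial `x v * x w`. -/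
lemma exists_split (x : σ → R) (W : Finset σ) {q : R} (hq : q ∈ U K x W 2) (h0 : q ≠ 0) :
    ∃ v ∈ W, ∃ w ∈ W, v ≠ w ∧ ∃ l₁ ∈ U K x ((W.erase v).erase w) 1,
      ∃ l₂ ∈ U K x ((W.erase v).erase w) 1, ∃ r ∈ U K x ((W.erase v).erase w) 2,
      ∃ a : K, a ≠ 0 ∧ a • q = x v * x w + x v * l₁ + x w * l₂ + r := by
  unfold U at hq
  rw [Submodule.mem_span_image_finset_iff_exists_fun] at hq
  obtain ⟨c0, hc0⟩ := hq
  obtain ⟨c, hc⟩ : ∃ c : Finset σ → K, ∑ P ∈ powersetCard 2 W, c P • mon x P = q := by
    refine ⟨fun P => if h : P ∈ powersetCard 2 W then c0 ⟨P, h⟩ else 0, ?_⟩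
    rw [← hc0, ← Finset.sum_coe_sort]
    apply Finset.sum_congr rfl
    intro P _
    simp only [P.2, dite_true, Subtype.coe_eta]
  have hex : ∃ P ∈ powersetCard 2 W, c P ≠ 0 := by
    by_contra hcon
    push Not at hcon
    apply h0
    rw [← hc]
    exact Finset.sum_eq_zero (fun P hP => by rw [hcon P hP, zero_smul])
  obtain ⟨P0, hP0, hcP⟩ := hex
  rw [mem_powersetCard] at hP0
  obtain ⟨v, w, hvw, hP0'⟩ := Finset.card_eq_two.1 hP0.2
  have hv : v ∈ W := hP0.1 (by rw [hP0']; simp)
  have hw : w ∈ W := hP0.1 (by rw [hP0']; simp)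
  refine ⟨v, hv, w, hw, hvw, ?_⟩
  set W' := (W.erase v).erase w with hW'
  have hrest : ∑ P ∈ (powersetCard 2 W).erase P0, c P • mon x P ∈
      (V K x W' 1 (x v) ⊔ V K x W' 1 (x w)) ⊔ U K x W' 2 := by
    apply Submodule.sum_mem
    intro P hP
    rw [Finset.mem_erase, mem_powersetCard] at hP
    obtain ⟨hne, hPW, hPc⟩ := hP
    apply Submodule.smul_mem
    by_cases hvP : v ∈ P
    · have hwP : w ∉ P := by
        intro hwP
        apply hne
        symm
        apply Finset.eq_of_subset_of_card_le
        · rw [hP0']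
          intro u hu
          rw [Finset.mem_insert, Finset.mem_singleton] at hu
          rcases hu with rfl | rfl <;> assumption
        · rw [hPc, hP0.2]
      apply Submodule.mem_sup_left
      apply Submodule.mem_sup_left
      rw [mon_erase x hvP]
      apply mul_mem_V
      apply mon_mem'
      · intro u hu
        rw [Finset.mem_erase] at hu
        rw [hW', Finset.mem_erase, Finset.mem_erase]
        refine ⟨?_, hu.1, hPW hu.2⟩
        rintro rfl
        exact hwP hu.2
      · rw [card_erase_of_mem hvP, hPc]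
    · by_cases hwP : w ∈ P
      · apply Submodule.mem_sup_left
        apply Submodule.mem_sup_right
        rw [mon_erase x hwP]
        apply mul_mem_V
        apply mon_mem'
        · intro u hu
          rw [Finset.mem_erase] at hu
          rw [hW', Finset.mem_erase, Finset.mem_erase]
          refine ⟨hu.1, ?_, hPW hu.2⟩
          rintro rfl
          exact hvP hu.2
        · rw [card_erase_of_mem hwP, hPc]
      · apply Submodule.mem_sup_right
        apply mon_mem' K _ _ hPc
        intro u hu
        rw [hW', Finset.mem_erase, Finset.mem_erase]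
        refine ⟨?_, ?_, hPW hu⟩
        · rintro rfl
          exact hwP hu
        · rintro rfl
          exact hvP hu
  rw [Submodule.mem_sup] at hrest
  obtain ⟨y, hy, r, hr, hyr⟩ := hrest
  rw [Submodule.mem_sup] at hy
  obtain ⟨y1, ⟨l₁, hl₁, hy1⟩, y2, ⟨l₂, hl₂, hy2⟩, hy12⟩ := hy
  refine ⟨(c P0)⁻¹ • l₁, Submodule.smul_mem _ _ hl₁, (c P0)⁻¹ • l₂, Submodule.smul_mem _ _ hl₂,
    (c P0)⁻¹ • r, Submodule.smul_mem _ _ hr, (c P0)⁻¹, inv_ne_zero hcP, ?_⟩
  rw [← hc, ← Finset.add_sum_erase (powersetCard 2 W) (fun P => c P • mon x P)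
    (mem_powersetCard.2 hP0), ← hyr, ← hy12, ← hy1, ← hy2, smul_add, smul_smul,
    inv_mul_cancel₀ hcP, one_smul]
  have hmon : mon x P0 = x v * x w := by
    rw [hP0', mon, Finset.prod_pair hvw]
  rw [hmon]
  simp only [LinearMap.mulLeft_apply, smul_add, mul_smul_comm]
  ring

/-- The rank bound. -/
theorem rank_le (x : σ → R) (hx : ∀ w, x w * x w = 0) :
    ∀ (N : ℕ) (W : Finset σ), W.card = N → ∀ (m : ℕ) (q : R), q ∈ U K x W 2 →
      Module.finrank K (V K x W m q) ≤ T N m := by
  intro N
  induction N using Nat.strong_induction_on with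
  | _ N ih =>
  intro W hW m q hq
  by_cases h0 : q = 0
  · have : V K x W m q = ⊥ := by
      rw [h0, V, eq_bot_iff]
      rintro _ ⟨u, _, rfl⟩
      simp
    rw [this, finrank_bot]
    exact Nat.zero_le _
  obtain ⟨v, hv, w, hw, hvw, l₁, hl₁, l₂, hl₂, r, hr, c, hc, hqe⟩ := exists_split K x W hq h0
  rw [← V_smul K x W m hc q]
  generalize c • q = q1 at hqe ⊢
  set W' := (W.erase v).erase w with hW'
  have hwv : w ∈ W.erase v := Finset.mem_erase.2 ⟨hvw.symm, hw⟩
  have hcard : W'.card + 2 = N := by
    rw [hW', card_erase_of_mem hwv, card_erase_of_mem hv, hW]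
    have h1 : 1 ≤ (W.erase v).card := Finset.card_pos.2 ⟨w, hwv⟩
    rw [card_erase_of_mem hv, hW] at h1
    omega
  obtain ⟨n, rfl⟩ : ∃ n, N = n + 2 := ⟨W'.card, hcard.symm⟩
  have hW'c : W'.card = n := by omega
  cases m with
  | zero =>
    calc Module.finrank K (V K x W 0 q1) ≤ Module.finrank K (U K x W 0) :=
          Submodule.finrank_map_le _ _
      _ ≤ W.card.choose 0 := finrank_U K x W 0
      _ = 1 := Nat.choose_zero_right _
      _ = T (n + 2) 0 := by rw [T]
  | succ m =>
    have h2 : (2 : R) = 0 := two_eq_zero' K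
    set X := x v + l₂ with hX
    set Y := x w + l₁ with hY
    set q' := r + l₁ * l₂ with hq'
    have hl₂2 : l₂ * l₂ = 0 := U_sq K x hx W' 0 hl₂
    have hl₁2 : l₁ * l₁ = 0 := U_sq K x hx W' 0 hl₁
    have hXX : X * X = 0 := by
      rw [hX]
      linear_combination hx v + hl₂2 + x v * l₂ * h2
    have hYY : Y * Y = 0 := by
      rw [hY]
      linear_combination hx w + hl₁2 + x w * l₁ * h2
    have hq'U : q' ∈ U K x W' 2 := Submodule.add_mem _ hr (U_mul K x hx W' 1 1 hl₁ hl₂)
    have hq'2 : q' * q' = 0 := U_sq K x hx W' 1 hq'U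
    have hq2 : q1 = X * Y + q' := by
      rw [hqe, hX, hY, hq']
      linear_combination (- l₁ * l₂) * h2
    have hle : V K x W (m + 1) q1 ≤ V K x W' (m + 1) q1 ⊔
        ((V K x W' m q').map (LinearMap.mulLeft K X) ⊔
          (V K x W' m q').map (LinearMap.mulLeft K Y)) := by
      have hA : ∀ u ∈ U K x W' (m + 1), q1 * u ∈ V K x W' (m + 1) q1 ⊔
        ((V K x W' m q').map (LinearMap.mulLeft K X) ⊔
          (V K x W' m q').map (LinearMap.mulLeft K Y)) :=
        fun u hu => Submodule.mem_sup_left (mul_mem_V K x hu)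
      have hB : ∀ u ∈ U K x W' m, X * (q' * u) ∈ V K x W' (m + 1) q1 ⊔
        ((V K x W' m q').map (LinearMap.mulLeft K X) ⊔
          (V K x W' m q').map (LinearMap.mulLeft K Y)) :=
        fun u hu => Submodule.mem_sup_right (Submodule.mem_sup_left ⟨q' * u, mul_mem_V K x hu, rfl⟩)
      have hC : ∀ u ∈ U K x W' m, Y * (q' * u) ∈ V K x W' (m + 1) q1 ⊔
        ((V K x W' m q').map (LinearMap.mulLeft K X) ⊔
          (V K x W' m q').map (LinearMap.mulLeft K Y)) :=
        fun u hu => Submodule.mem_sup_right (Submodule.mem_sup_right ⟨q' * u, mul_mem_V K x hu, rfl⟩)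
      unfold V U
      rw [Submodule.map_span, Submodule.span_le]
      rintro _ ⟨_, ⟨P, hP, rfl⟩, rfl⟩
      rw [Finset.mem_coe, mem_powersetCard] at hP
      obtain ⟨hPW, hPc⟩ := hP
      rw [LinearMap.mulLeft_apply]
      change q1 * mon x P ∈ V K x W' (m + 1) q1 ⊔
        ((V K x W' m q').map (LinearMap.mulLeft K X) ⊔
          (V K x W' m q').map (LinearMap.mulLeft K Y))
      by_cases hvP : v ∈ P
      · by_cases hwP : w ∈ P
        · have hwP' : w ∈ P.erase v := Finset.mem_erase.2 ⟨hvw.symm, hwP⟩
          have hc1 : ((P.erase v).erase w).card + 2 = m + 1 := by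
            rw [card_erase_of_mem hwP', card_erase_of_mem hvP, hPc]
            have h1 : 1 ≤ (P.erase v).card := Finset.card_pos.2 ⟨w, hwP'⟩
            rw [card_erase_of_mem hvP, hPc] at h1
            omega
          obtain ⟨k, rfl⟩ : ∃ k, m = k + 1 := ⟨((P.erase v).erase w).card, by omega⟩
          have hu : mon x ((P.erase v).erase w) ∈ U K x W' k := by
            apply mon_mem' K _ _ (by omega)
            exact Finset.erase_subset_erase _ (Finset.erase_subset_erase _ hPW)
          rw [mon_erase x hvP, mon_erase x hwP']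
          set u := mon x ((P.erase v).erase w) with hu'
          have e : q1 * (x v * (x w * u)) = q1 * (q' * u) + (X * (q' * (l₁ * u)) +
              (Y * (q' * (l₂ * u)) + q1 * (l₁ * l₂ * u))) := by
            have hxv : x v = X - l₂ := by rw [hX]; ring
            have hxw : x w = Y - l₁ := by rw [hY]; ring
            rw [hxv, hxw, hq2]
            linear_combination (Y * Y * u - Y * l₁ * u) * hXX - (X * l₂ * u) * hYY -
              u * hq'2 - (X * l₁ * q' * u + Y * l₂ * q' * u) * h2
          rw [e]
          refine Submodule.add_mem _ (hA _ ?_) (Submodule.add_mem _ (hB _ ?_)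
            (Submodule.add_mem _ (hC _ ?_) (hA _ ?_)))
          · have := U_mul K x hx W' 2 k hq'U hu
            rwa [show k + 1 + 1 = 2 + k by ring]
          · have := U_mul K x hx W' 1 k hl₁ hu
            rwa [show k + 1 = 1 + k by ring]
          · have := U_mul K x hx W' 1 k hl₂ hu
            rwa [show k + 1 = 1 + k by ring]
          · have := U_mul K x hx W' 2 k (U_mul K x hx W' 1 1 hl₁ hl₂) hu
            rwa [show k + 1 + 1 = 2 + k by ring]
        · have hu : mon x (P.erase v) ∈ U K x W' m := by
            apply mon_mem'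
            · intro t ht
              rw [Finset.mem_erase] at ht
              rw [hW', Finset.mem_erase, Finset.mem_erase]
              refine ⟨?_, ht.1, hPW ht.2⟩
              rintro rfl
              exact hwP ht.2
            · rw [card_erase_of_mem hvP, hPc]
              rfl
          rw [mon_erase x hvP]
          set u := mon x (P.erase v) with hu'
          have e : q1 * (x v * u) = X * (q' * u) + q1 * (l₂ * u) := by
            have hxv : x v = X - l₂ := by rw [hX]; ring
            rw [hxv, hq2]
            linear_combination (Y * u) * hXX - ((X * Y + q') * l₂ * u) * h2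
          rw [e]
          refine Submodule.add_mem _ (hB _ hu) (hA _ ?_)
          have := U_mul K x hx W' 1 m hl₂ hu
          rwa [show m + 1 = 1 + m by ring]
      · by_cases hwP : w ∈ P
        · have hu : mon x (P.erase w) ∈ U K x W' m := by
            apply mon_mem'
            · intro t ht
              rw [Finset.mem_erase] at ht
              rw [hW', Finset.mem_erase, Finset.mem_erase]
              refine ⟨ht.1, ?_, hPW ht.2⟩
              rintro rfl
              exact hvP ht.2
            · rw [card_erase_of_mem hwP, hPc]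
              rfl
          rw [mon_erase x hwP]
          set u := mon x (P.erase w) with hu'
          have e : q1 * (x w * u) = Y * (q' * u) + q1 * (l₁ * u) := by
            have hxw : x w = Y - l₁ := by rw [hY]; ring
            rw [hxw, hq2]
            linear_combination (X * u) * hYY - ((X * Y + q') * l₁ * u) * h2
          rw [e]
          refine Submodule.add_mem _ (hC _ hu) (hA _ ?_)
          have := U_mul K x hx W' 1 m hl₁ hu
          rwa [show m + 1 = 1 + m by ring]
        · apply hA
          apply mon_mem' K _ _ hPc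
          intro t ht
          rw [hW', Finset.mem_erase, Finset.mem_erase]
          refine ⟨?_, ?_, hPW ht⟩
          · rintro rfl
            exact hwP ht
          · rintro rfl
            exact hvP ht
    have hih := ih n (by omega) W' hW'c m q' hq'U
    calc Module.finrank K (V K x W (m + 1) q1) ≤ _ := Submodule.finrank_mono hle
      _ ≤ Module.finrank K (V K x W' (m + 1) q1) + Module.finrank K
        ((V K x W' m q').map (LinearMap.mulLeft K X) ⊔
          (V K x W' m q').map (LinearMap.mulLeft K Y) : Submodule K R) :=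
          Submodule.finrank_add_le_finrank_add_finrank _ _
      _ ≤ Nat.choose n (m + 1) + (T n m + T n m) := by
          gcongr
          · calc _ ≤ Module.finrank K (U K x W' (m + 1)) := Submodule.finrank_map_le _ _
              _ ≤ W'.card.choose (m + 1) := finrank_U K x W' (m + 1)
              _ = _ := by rw [hW'c]
          · refine (Submodule.finrank_add_le_finrank_add_finrank _ _).trans ?_
            gcongr
            · exact (Submodule.finrank_map_le _ _).trans hih
            · exact (Submodule.finrank_map_le _ _).trans hih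
      _ = T (n + 2) (m + 1) := by rw [T]; ring

end

end Pool.Agent.Lib.MP_20855c_co.StarK
end

section

/-!
# MP_20855c_co: rank bound for systems of sets, with generic coefficients
-/

set_option autoImplicit false

namespace Pool.Agent.Lib.MP_20855c_co.Star

open Finset

variable {σ : Type*}

/-- The ideal generated by the squares of the variables. -/
noncomputable def sqI (K σ : Type*) [Field K] : Ideal (MvPolynomial σ K) :=
  Ideal.span (Set.range fun w => MvPolynomial.X w * MvPolynomial.X w)

lemma coeff_sqI {K : Type*} [Field K] {f : MvPolynomial σ K} (hf : f ∈ sqI K σ) :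
    ∀ t : σ →₀ ℕ, (∀ v, t v ≤ 1) → MvPolynomial.coeff t f = 0 := by
  classical
  unfold sqI Ideal.span at hf
  induction hf using Submodule.span_induction with
  | mem f hf =>
    obtain ⟨w, rfl⟩ := hf
    intro t ht
    have h1 : (MvPolynomial.X w * MvPolynomial.X w : MvPolynomial σ K) =
        MvPolynomial.monomial (Finsupp.single w 2) 1 := by
      rw [← pow_two, MvPolynomial.X_pow_eq_monomial]
    simp only
    rw [h1, MvPolynomial.coeff_monomial, if_neg]
    rintro rfl
    have := ht w
    rw [Finsupp.single_eq_same] at this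
    omega
  | zero => intro t _; simp
  | add f g _ _ hf hg =>
    intro t ht
    rw [MvPolynomial.coeff_add, hf t ht, hg t ht, add_zero]
  | smul a f _ hf =>
    intro t ht
    rw [smul_eq_mul, MvPolynomial.coeff_mul]
    apply Finset.sum_eq_zero
    rintro ⟨s, u⟩ hsu
    rw [HasAntidiagonal.mem_antidiagonal] at hsu
    rw [hf u, mul_zero]
    intro v
    have h1 : s v + u v = t v := by
      rw [← Finsupp.add_apply]
      exact DFunLike.congr_fun hsu v
    have h2 := ht v
    omega

lemma mon_mkK {K : Type*} [Field K] (P : Finset σ) :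
    mon (fun w => Ideal.Quotient.mk (sqI K σ) (MvPolynomial.X w)) P =
      Ideal.Quotient.mk (sqI K σ) (MvPolynomial.monomial (ind P) 1) := by
  have h : mon (MvPolynomial.X : σ → MvPolynomial σ K) P =
      MvPolynomial.monomial (ind P) 1 := by
    unfold mon ind
    rw [MvPolynomial.monomial_sum_one]
    rfl
  rw [← h]
  unfold mon
  rw [map_prod]

variable [DecidableEq σ]

/-- If a matrix of coefficients is nonsingular, its size is at most `T |W| m`. -/
theorem matrix_bound {K : Type*} [Field K] [CharP K 2] {J : Type*} [Fintype J] [DecidableEq J]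
    (W : Finset σ) (m : ℕ) (C A : J → Finset σ)
    (D : Finset (Finset σ)) (hD : ∀ d ∈ D, d.card = 2 ∧ d ⊆ W)
    (hC : ∀ p, (C p).card = m ∧ C p ⊆ W) (c : Finset σ → K)
    (hdet : (Matrix.of fun p q : J =>
      if C q ⊆ A p ∧ A p \ C q ∈ D then c (A p \ C q) else 0).det ≠ 0) :
    Fintype.card J ≤ T W.card m := by
  classical
  set x : σ → (MvPolynomial σ K ⧸ sqI K σ) :=
    fun w => Ideal.Quotient.mk (sqI K σ) (MvPolynomial.X w) with hx
  have hxx : ∀ w, x w * x w = 0 := by
    intro w
    rw [hx]
    simp only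
    rw [← map_mul, Ideal.Quotient.eq_zero_iff_mem]
    exact Ideal.subset_span ⟨w, rfl⟩
  set q := ∑ d ∈ D, c d • mon x d with hq
  have hqU : q ∈ StarK.U K x W 2 := by
    apply Submodule.sum_mem
    intro d hd
    exact Submodule.smul_mem _ _ (StarK.mon_mem' K x (hD d hd).2 (hD d hd).1)
  have hmem : ∀ p, q * mon x (C p) ∈ StarK.V K x W m q := fun p =>
    StarK.mul_mem_V K x (StarK.mon_mem' K x (hC p).2 (hC p).1)
  have hli : LinearIndependent K
      (fun p => (⟨q * mon x (C p), hmem p⟩ : StarK.V K x W m q)) := by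
    apply LinearIndependent.of_comp (Submodule.subtype _)
    rw [Fintype.linearIndependent_iff]
    intro g hg
    simp only [Function.comp_apply, Submodule.subtype_apply] at hg
    have hI : ∑ p, g p • (∑ d ∈ D, MvPolynomial.monomial (ind d + ind (C p)) (c d)) ∈
        sqI K σ := by
      rw [← Ideal.Quotient.eq_zero_iff_mem, ← hg, map_sum]
      apply Finset.sum_congr rfl
      intro p _
      rw [hq, Finset.sum_mul]
      have h1 : ∀ d, c d • mon x d * mon x (C p) = Ideal.Quotient.mk (sqI K σ)
          (MvPolynomial.monomial (ind d + ind (C p)) (c d)) := by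
        intro d
        rw [hx, mon_mkK, mon_mkK, smul_mul_assoc, ← map_mul, MvPolynomial.monomial_mul, mul_one]
        have h2 : (MvPolynomial.monomial (ind d + ind (C p)) (c d) : MvPolynomial σ K) =
            c d • MvPolynomial.monomial (ind d + ind (C p)) 1 := by
          rw [MvPolynomial.smul_monomial, smul_eq_mul, mul_one]
        rw [h2]
        rfl
      simp_rw [h1]
      rw [← map_sum]
      rfl
    have hmul : (Matrix.of fun p q : J =>
        if C q ⊆ A p ∧ A p \ C q ∈ D then c (A p \ C q) else 0).mulVec g = 0 := by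
      funext r
      have h0 := coeff_sqI hI (ind (A r)) (fun v => by
        rw [ind_apply]
        split_ifs <;> simp)
      rw [MvPolynomial.coeff_sum] at h0
      rw [Matrix.mulVec, dotProduct, Pi.zero_apply]
      refine Eq.trans ?_ h0
      apply Finset.sum_congr rfl
      intro p _
      rw [MvPolynomial.coeff_smul, MvPolynomial.coeff_sum, smul_eq_mul, mul_comm, Matrix.of_apply]
      congr 1
      simp_rw [MvPolynomial.coeff_monomial]
      split_ifs with h
      · rw [Finset.sum_eq_single (A r \ C p)]
        · rw [if_pos (ind_add.2 ⟨h.1, rfl⟩)]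
        · intro d _ hd
          rw [if_neg]
          intro h'
          exact hd (ind_add.1 h').2.symm
        · intro h'
          exact absurd h.2 h'
      · symm
        apply Finset.sum_eq_zero
        intro d hd
        rw [if_neg]
        intro h'
        obtain ⟨h4, h5⟩ := ind_add.1 h'
        exact h ⟨h4, h5 ▸ hd⟩
    intro p
    exact congrFun (Matrix.eq_zero_of_mulVec_eq_zero hdet hmul) p
  calc Fintype.card J ≤ Module.finrank K (StarK.V K x W m q) := hli.fintype_card_le_finrank
    _ ≤ T W.card m := StarK.rank_le K x hxx W.card W rfl m q hqU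

/-- ST8. A block version of `skew_bound` (with generic coefficients: `1` on `M`, an indeterminate on
the other pairs of `D`). -/
theorem skew_bound2 {J₁ J₂ : Type*} [Fintype J₁] [Fintype J₂] (W : Finset σ) (m : ℕ)
    (C₁ A₁ : J₁ → Finset σ) (C₂ A₂ : J₂ → Finset σ) (D M : Finset (Finset σ)) (hMD : M ⊆ D)
    (hD : ∀ d ∈ D, d.card = 2 ∧ d ⊆ W)
    (hC₁ : ∀ p, (C₁ p).card = m ∧ C₁ p ⊆ A₁ p) (hC₂ : ∀ p, (C₂ p).card = m ∧ C₂ p ⊆ A₂ p)
    (hW₁ : ∀ p, A₁ p ⊆ W) (hW₂ : ∀ p, A₂ p ⊆ W)
    (hA₁ : ∀ p, A₁ p \ C₁ p ∈ D) (hA₂ : ∀ p, A₂ p \ C₂ p ∈ M)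
    (h11 : ∀ p q, p ≠ q → ¬ (C₁ q ⊆ A₁ p ∧ A₁ p \ C₁ q ∈ D))
    (h12 : ∀ p q, ¬ (C₂ q ⊆ A₁ p ∧ A₁ p \ C₂ q ∈ D))
    (h22 : ∀ p q, p ≠ q → ¬ (C₂ q ⊆ A₂ p ∧ A₂ p \ C₂ q ∈ M)) :
    Fintype.card J₁ + Fintype.card J₂ ≤ T W.card m := by
  classical
  rw [← Fintype.card_sum]
  let c0 : Finset σ → Polynomial (ZMod 2) := fun d => if d ∈ M then 1 else Polynomial.X
  let φ : Polynomial (ZMod 2) →+* FractionRing (Polynomial (ZMod 2)) := algebraMap _ _
  have hφ : Function.Injective φ := IsFractionRing.injective _ _
  have : CharP (FractionRing (Polynomial (ZMod 2))) 2 := charP_of_injective_ringHom hφ 2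
  apply matrix_bound (K := FractionRing (Polynomial (ZMod 2))) W m (Sum.elim C₁ C₂)
    (Sum.elim A₁ A₂) D hD ?_ (fun d => φ (c0 d)) ?_
  · rintro (p | p)
    · exact ⟨(hC₁ p).1, (hC₁ p).2.trans (hW₁ p)⟩
    · exact ⟨(hC₂ p).1, (hC₂ p).2.trans (hW₂ p)⟩
  · have h1 : (Matrix.of fun p q : J₁ ⊕ J₂ =>
        if Sum.elim C₁ C₂ q ⊆ Sum.elim A₁ A₂ p ∧ Sum.elim A₁ A₂ p \ Sum.elim C₁ C₂ q ∈ D
        then φ (c0 (Sum.elim A₁ A₂ p \ Sum.elim C₁ C₂ q)) else 0) =
        φ.mapMatrix (Matrix.fromBlocks
          (Matrix.diagonal fun p => c0 (A₁ p \ C₁ p)) 0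
          (Matrix.of fun (p : J₂) (q : J₁) =>
            if C₁ q ⊆ A₂ p ∧ A₂ p \ C₁ q ∈ D then c0 (A₂ p \ C₁ q) else 0)
          (Matrix.of fun p q : J₂ =>
            if C₂ q ⊆ A₂ p ∧ A₂ p \ C₂ q ∈ D then c0 (A₂ p \ C₂ q) else 0)) := by
      ext p q
      rcases p with p | p <;> rcases q with q | q
      · simp only [Matrix.of_apply, Sum.elim_inl, RingHom.mapMatrix_apply, Matrix.map_apply,
          Matrix.fromBlocks_apply₁₁]
        by_cases hpq : p = q
        · subst hpq
          rw [Matrix.diagonal_apply_eq]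
          exact if_pos ⟨(hC₁ p).2, hA₁ p⟩
        · rw [Matrix.diagonal_apply_ne _ hpq, map_zero]
          exact if_neg (h11 p q hpq)
      · simp only [Matrix.of_apply, Sum.elim_inl, Sum.elim_inr, RingHom.mapMatrix_apply,
          Matrix.map_apply, Matrix.fromBlocks_apply₁₂, Matrix.zero_apply, map_zero]
        exact if_neg (h12 p q)
      · simp only [Matrix.of_apply, Sum.elim_inl, Sum.elim_inr, RingHom.mapMatrix_apply,
          Matrix.map_apply, Matrix.fromBlocks_apply₂₁]
        by_cases h : C₁ q ⊆ A₂ p ∧ A₂ p \ C₁ q ∈ D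
        · exact (if_pos h).trans (congrArg φ (if_pos h)).symm
        · exact (if_neg h).trans ((congrArg φ (if_neg h)).trans (map_zero φ)).symm
      · simp only [Matrix.of_apply, Sum.elim_inr, RingHom.mapMatrix_apply,
          Matrix.map_apply, Matrix.fromBlocks_apply₂₂]
        by_cases h : C₂ q ⊆ A₂ p ∧ A₂ p \ C₂ q ∈ D
        · exact (if_pos h).trans (congrArg φ (if_pos h)).symm
        · exact (if_neg h).trans ((congrArg φ (if_neg h)).trans (map_zero φ)).symm
    rw [h1, ← RingHom.map_det, Matrix.det_fromBlocks_zero₁₂, Matrix.det_diagonal]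
    intro h2
    rw [map_eq_zero_iff φ hφ, mul_eq_zero] at h2
    rcases h2 with h2 | h2
    · rw [Finset.prod_eq_zero_iff] at h2
      obtain ⟨p, _, hp⟩ := h2
      simp only [c0] at hp
      split_ifs at hp with h
      · exact one_ne_zero hp
      · exact Polynomial.X_ne_zero hp
    · have h3 := congrArg (Polynomial.evalRingHom (0 : ZMod 2)) h2
      rw [RingHom.map_det, map_zero] at h3
      have h4 : (Polynomial.evalRingHom (0 : ZMod 2)).mapMatrix (Matrix.of fun p q : J₂ =>
            if C₂ q ⊆ A₂ p ∧ A₂ p \ C₂ q ∈ D then c0 (A₂ p \ C₂ q) else 0) = 1 := by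
        ext p q
        simp only [RingHom.mapMatrix_apply, Matrix.map_apply, Matrix.of_apply]
        by_cases hpq : p = q
        · subst hpq
          rw [if_pos ⟨(hC₂ p).2, hMD (hA₂ p)⟩, Matrix.one_apply_eq]
          simp only [c0]
          rw [if_pos (hA₂ p), map_one]
        · rw [Matrix.one_apply_ne hpq]
          split_ifs with h
          · simp only [c0]
            rw [if_neg (fun hM => h22 p q hpq ⟨h.1, hM⟩)]
            simp
          · simp
      rw [h4, Matrix.det_one] at h3
      exact one_ne_zero h3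

end Pool.Agent.Lib.MP_20855c_co.Star
end
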